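import Pool.Agent.Work.MP_4c1522_ag.Generic

/-!
# Generic points of hypersurfaces, with five independent coordinates
-/

open MvPolynomial Topology Filter

namespace IndexOne

/-- **Generic points of a hypersurface near a smooth point**, with five independent coordinates -/
theorem exists_generic₅ (k : Type) [Field k] [Countable k] [Algebra k ℂ]
    (F G : MvPolynomial (Fin 6) ℂ) (p : Fin 6 → ℂ) (hF : eval p F = 0) (hG : eval p G ≠ 0)
    (j : Fin 6) (hj : eval p (pderiv j F) ≠ 0) :
    ∃ z : Fin 6 → ℂ, eval z F = 0 ∧ eval z G ≠ 0 ∧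
      ∃ i : Fin 5 → Fin 6, AlgebraicIndependent k (z ∘ i) := by
  classical
  -- the chart
  set Φ : (Fin 6 → ℂ) → (Fin 6 → ℂ) := fun x l => if l = j then eval x F else x l with hΦ
  set L : (Fin 6 → ℂ) →L[ℂ] (Fin 6 → ℂ) := ContinuousLinearMap.pi fun l =>
    if l = j then (∑ l, eval p (pderiv l F) • ContinuousLinearMap.proj (R := ℂ)
      (φ := fun _ : Fin 6 => ℂ) l) else ContinuousLinearMap.proj (R := ℂ)
      (φ := fun _ : Fin 6 => ℂ) l with hL
  have hderiv : HasStrictFDerivAt Φ L p := by
    rw [hasStrictFDerivAt_pi']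
    intro l
    have h1 : (ContinuousLinearMap.proj (R := ℂ) (φ := fun _ : Fin 6 => ℂ) l).comp L =
        if l = j then (∑ l, eval p (pderiv l F) • ContinuousLinearMap.proj (R := ℂ)
          (φ := fun _ : Fin 6 => ℂ) l) else ContinuousLinearMap.proj (R := ℂ)
          (φ := fun _ : Fin 6 => ℂ) l := by
      rw [hL]
      exact ContinuousLinearMap.proj_pi _ l
    rw [h1]
    by_cases hl : l = j
    · simp only [hΦ, hl, if_true]
      exact hasStrictFDerivAt_eval F p
    · simp only [hΦ, hl, if_false]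
      exact (ContinuousLinearMap.proj (R := ℂ) (φ := fun _ : Fin 6 => ℂ) l).hasStrictFDerivAt
  have hsurj : L.range = ⊤ := by
    rw [LinearMap.range_eq_top]
    intro y
    set c : ℂ := (y j - ∑ l ∈ Finset.univ.erase j, eval p (pderiv l F) * y l) /
      eval p (pderiv j F) with hc
    refine ⟨fun l => if l = j then c else y l, ?_⟩
    funext l
    show L _ l = y l
    rw [hL, ContinuousLinearMap.coe_pi']
    by_cases hl : l = j
    · subst hl
      simp only [if_true, FunLike.coe_sum, Finset.sum_apply,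
        FunLike.coe_smul, Pi.smul_apply, ContinuousLinearMap.proj_apply, smul_eq_mul]
      rw [← Finset.add_sum_erase _ _ (Finset.mem_univ l)]
      rw [if_pos rfl, Finset.sum_congr rfl fun m hm => by
        rw [if_neg (Finset.ne_of_mem_erase hm)]]
      rw [hc]
      field_simp
      ring
    · simp only [hl, if_false, ContinuousLinearMap.proj_apply]
  have hmap : map Φ (𝓝 p) = 𝓝 (Φ p) := hderiv.map_nhds_eq_of_surj hsurj
  -- the neighbourhood
  have hN : {x : Fin 6 → ℂ | eval x G ≠ 0} ∈ 𝓝 p :=
    (isOpen_ne.preimage (continuous_eval G)).mem_nhds hG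
  have hΦN : Φ '' {x : Fin 6 → ℂ | eval x G ≠ 0} ∈ 𝓝 (Φ p) := by
    rw [← hmap]
    exact image_mem_map hN
  -- the parameters
  set i : Fin 5 → Fin 6 := fun t => j.succAbove t with hi
  set ψ : (Fin 5 → ℂ) → (Fin 6 → ℂ) := fun s => j.insertNth (α := fun _ => ℂ) 0 s with hψ
  have hψj : ∀ s, ψ s j = 0 := fun s => Fin.insertNth_apply_same _ _ _
  have hψi : ∀ s t, ψ s (i t) = s t := by
    intro s t
    rw [hψ, hi]
    dsimp only
    rw [Fin.insertNth_apply_succAbove]
  have hcases : ∀ l : Fin 6, l = j ∨ (∃ t, l = i t) := by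
    intro l
    rcases Fin.eq_self_or_eq_succAbove j l with rfl | ⟨m, rfl⟩
    · exact Or.inl rfl
    · exact Or.inr ⟨m, rfl⟩
  have hψc : Continuous ψ := by
    refine continuous_pi fun l => ?_
    rcases hcases l with rfl | ⟨t, rfl⟩
    · simp only [hψj]
      exact continuous_const
    · simp only [hψi]
      exact continuous_apply t
  have hne : ∀ m : Fin 5, j.succAbove m ≠ j := fun m => Fin.succAbove_ne j m
  have hψp : ψ (p ∘ i) = Φ p := by
    funext l
    rcases hcases l with rfl | ⟨t, rfl⟩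
    · rw [hψj, hΦ]
      simp only [if_true]
      exact hF.symm
    · rw [hψi, hΦ]
      simp only [hi, hne, if_false]
      rfl
  have hV : ψ ⁻¹' (Φ '' {x : Fin 6 → ℂ | eval x G ≠ 0}) ∈ 𝓝 (p ∘ i) := by
    apply hψc.continuousAt
    rw [hψp]
    exact hΦN
  obtain ⟨s, hs, hsind⟩ := (dense_indep k 5).inter_nhds_nonempty hV
  obtain ⟨z, hz, hzs⟩ := hsind
  have hzF : eval z F = 0 := by
    have h := congrFun hzs j
    rw [hψj, hΦ] at h
    simpa using h
  have hzi : z ∘ i = s := by
    funext t
    have h := congrFun hzs (i t)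
    rw [hψi, hΦ] at h
    simp only [hi, hne, if_false] at h
    exact h
  refine ⟨z, hzF, hz, i, ?_⟩
  rw [hzi]
  exact hs

end IndexOne
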