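import Mathlib

/-!
# Morphisms to double solids: the abstract argument

`K` is a commutative domain over `ℂ` (the function field, or the ring of functions on an open
chart), `Ω` a torsion-free `K`-module with an alternating biderivation `κ` (the 2-forms
`κ a b = da ∧ db`).
-/

open MvPolynomial

namespace DoubleSolid

/-- an alternating biderivation over `ℂ` with values in `Ω` (think of `κ a b = da ∧ db`) -/
structure BiDer (K Ω : Type*) [CommRing K] [Algebra ℂ K] [AddCommGroup Ω] [Module K Ω] where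
  κ : K → K → Ω
  add : ∀ a b c, κ (a + b) c = κ a c + κ b c
  mul : ∀ a b c, κ (a * b) c = a • κ b c + b • κ a c
  const : ∀ (z : ℂ) c, κ (algebraMap ℂ K z) c = 0
  anti : ∀ a b, κ a b = - κ b a
  self : ∀ a, κ a a = 0

namespace BiDer

variable {K Ω : Type*} [CommRing K] [Algebra ℂ K] [AddCommGroup Ω] [Module K Ω]
  (B : BiDer K Ω)

lemma zero_left (c : K) : B.κ 0 c = 0 := by
  have := B.const 0 c
  rwa [map_zero] at this

lemma one_left (c : K) : B.κ 1 c = 0 := by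
  have := B.const 1 c
  rwa [map_one] at this

lemma add_right (a b c : K) : B.κ a (b + c) = B.κ a b + B.κ a c := by
  rw [B.anti a (b + c), B.add, B.anti b a, B.anti c a]; abel

lemma mul_right (a b c : K) : B.κ a (b * c) = b • B.κ a c + c • B.κ a b := by
  rw [B.anti a (b * c), B.mul, B.anti b a, B.anti c a]; module

lemma sum_right {ι : Type*} (s : Finset ι) (a : K) (f : ι → K) :
    B.κ a (∑ i ∈ s, f i) = ∑ i ∈ s, B.κ a (f i) := by
  classical
  induction s using Finset.induction_on with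
  | empty => simp [B.anti a 0, B.zero_left]
  | insert i s hi ih => rw [Finset.sum_insert hi, Finset.sum_insert hi, B.add_right, ih]

/-- the chain rule -/
lemma aeval_left {σ : Type*} [Fintype σ] (x : σ → K) (F : MvPolynomial σ ℂ) (c : K) :
    B.κ (aeval x F) c = ∑ j, aeval x (pderiv j F) • B.κ (x j) c := by
  classical
  induction F using MvPolynomial.induction_on with
  | C a => simp [B.const]
  | add p q hp hq =>
    simp only [map_add, B.add, hp, hq, add_smul, Finset.sum_add_distrib]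
  | mul_X p n hp =>
    rw [map_mul, B.mul, hp, aeval_X]
    have h : ∀ j, aeval x (pderiv j (p * X n)) • B.κ (x j) c =
        (if j = n then aeval x p • B.κ (x j) c else 0) +
          x n • (aeval x (pderiv j p) • B.κ (x j) c) := by
      intro j
      rw [Derivation.leibniz, map_add, smul_eq_mul, smul_eq_mul, map_mul, map_mul, aeval_X,
        pderiv_X, smul_smul, add_smul]
      congr 1
      by_cases hj : j = n
      · subst hj; simp
      · rw [if_neg hj, Pi.single_eq_of_ne' (Ne.symm fun h => hj h.symm)]; simp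
    rw [Finset.sum_congr rfl fun j _ => h j, Finset.sum_add_distrib, Finset.smul_sum]
    simp

/-- the twisted wedge product: for sections `a`, `b`, `c` of the `p`-th, `q`-th, `r`-th power of a
line bundle this is `p a db ∧ dc - q b da ∧ dc + r c da ∧ db` -/
def J (p q r : ℕ) (a b c : K) : Ω :=
  (p * a : K) • B.κ b c - (q * b : K) • B.κ a c + (r * c : K) • B.κ a b

lemma κ_pow_unit (u : Kˣ) (n : ℕ) (c : K) :
    B.κ ((u : K) ^ n) c = ((n : K) * (u : K) ^ n * ((u⁻¹ : Kˣ) : K)) • B.κ (u : K) c := by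
  induction n with
  | zero => simp [B.one_left]
  | succ n ih =>
    rw [pow_succ, B.mul, ih, smul_smul, ← add_smul]
    congr 1
    have h : (u : K) * ((u⁻¹ : Kˣ) : K) = 1 := u.mul_inv
    push_cast
    linear_combination (-(u : K) ^ n) * h

/-- the twisted wedge product is compatible with a change of trivialisation -/
lemma J_unit (u : Kˣ) (p q r : ℕ) (a b c : K) :
    B.J p q r ((u : K) ^ p * a) ((u : K) ^ q * b) ((u : K) ^ r * c) =
      ((u : K) ^ (p + q + r)) • B.J p q r a b c := by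
  have key : ∀ (q r : ℕ) (b c : K), B.κ ((u : K) ^ q * b) ((u : K) ^ r * c) =
      ((u : K) ^ (q + r)) • (B.κ b c + ((r : K) * ((u⁻¹ : Kˣ) : K) * c) • B.κ b (u : K) -
        ((q : K) * ((u⁻¹ : Kˣ) : K) * b) • B.κ c (u : K)) := by
    intro q r b c
    rw [B.mul, B.mul_right, B.mul_right, B.κ_pow_unit, B.anti b ((u : K) ^ r), B.κ_pow_unit,
      B.anti ((u : K) ^ q) ((u : K) ^ r), B.κ_pow_unit, B.anti (u : K) ((u : K) ^ q),
      B.κ_pow_unit, B.self, B.anti (u : K) c, B.anti (u : K) b]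
    rw [pow_add]
    module
  rw [J, J, key, key, key]
  have e1 : (u : K) ^ (p + q + r) = (u : K) ^ p * (u : K) ^ q * (u : K) ^ r := by
    rw [pow_add, pow_add]
  rw [e1, pow_add, pow_add, pow_add]
  module

lemma J_swap₁₂ (a b c : K) : B.J 1 1 1 a b c = - B.J 1 1 1 b a c := by
  simp only [J, Nat.cast_one, one_mul]
  rw [B.anti b a]
  module

lemma J_swap₂₃ (a b c : K) : B.J 1 1 1 a b c = - B.J 1 1 1 a c b := by
  simp only [J, Nat.cast_one, one_mul]
  rw [B.anti c b]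
  module

lemma J_self₁₂ (a c : K) : B.J 1 1 1 a a c = 0 := by
  simp only [J, Nat.cast_one, one_mul]
  rw [B.self]
  module

lemma J_self₂₃ (a c : K) : B.J 1 1 1 a c c = 0 := by
  simp only [J, Nat.cast_one, one_mul]
  rw [B.self]
  module

lemma J_self₁₃ (a c : K) : B.J 1 1 1 a c a = 0 := by
  rw [J_swap₂₃, J_self₁₂, neg_zero]

/-- membership of the twisted wedge product -/
lemma J_mem (A : Subalgebra ℂ K) (ω : AddSubgroup Ω) (hω : ∀ a ∈ A, ∀ η ∈ ω, a • η ∈ ω)
    (hκ : ∀ a ∈ A, ∀ b ∈ A, B.κ a b ∈ ω) (p q r : ℕ) {a b c : K} (ha : a ∈ A) (hb : b ∈ A)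
    (hc : c ∈ A) : B.J p q r a b c ∈ ω :=
  add_mem (sub_mem (hω _ (mul_mem (natCast_mem A p) ha) _ (hκ _ hb _ hc))
    (hω _ (mul_mem (natCast_mem A q) hb) _ (hκ _ ha _ hc)))
    (hω _ (mul_mem (natCast_mem A r) hc) _ (hκ _ ha _ hb))

/-- the four maximal minors -/
def minor (x : Fin 4 → K) : Fin 4 → Ω :=
  ![B.J 1 1 1 (x 1) (x 2) (x 3), - B.J 1 1 1 (x 0) (x 2) (x 3), B.J 1 1 1 (x 0) (x 1) (x 3),
    - B.J 1 1 1 (x 0) (x 1) (x 2)]

/-- the coefficients of the relations between the minors -/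
def cof (b : ℕ) (x : Fin 4 → K) (w : K) : Fin 4 → Fin 4 → Ω :=
  ![![0, B.J b 1 1 w (x 2) (x 3), - B.J b 1 1 w (x 1) (x 3), B.J b 1 1 w (x 1) (x 2)],
    ![- B.J b 1 1 w (x 2) (x 3), 0, B.J b 1 1 w (x 0) (x 3), - B.J b 1 1 w (x 0) (x 2)],
    ![B.J b 1 1 w (x 1) (x 3), - B.J b 1 1 w (x 0) (x 3), 0, B.J b 1 1 w (x 0) (x 1)],
    ![- B.J b 1 1 w (x 1) (x 2), B.J b 1 1 w (x 0) (x 2), - B.J b 1 1 w (x 0) (x 1), 0]]

/-- the relations between the minors and the gradient -/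
lemma rel (b : ℕ) (F : MvPolynomial (Fin 4) ℂ) (hF : F.IsHomogeneous (2 * b)) (x : Fin 4 → K)
    (w : K) (hw : w ^ 2 = aeval x F) (l m : Fin 4) :
    aeval x (pderiv m F) • B.minor x l - aeval x (pderiv l F) • B.minor x m =
      (2 * w) • B.cof b x w l m := by
  have euler : ∑ j, aeval x (pderiv j F) * x j = 2 * b * w ^ 2 := by
    have h := congrArg (aeval x) hF.sum_X_mul_pderiv
    rw [map_sum, map_nsmul, ← hw] at h
    rw [nsmul_eq_mul] at h
    push_cast at h
    rw [← h]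
    refine Finset.sum_congr rfl fun j _ => ?_
    rw [map_mul, aeval_X, mul_comm]
  have chain : ∀ c, ∑ j, aeval x (pderiv j F) • B.κ (x j) c = (2 * w) • B.κ w c := by
    intro c
    rw [← B.aeval_left, ← hw, pow_two, B.mul]
    module
  rw [Fin.sum_univ_four] at euler
  have c0 := chain (x 0)
  have c1 := chain (x 1)
  have c2 := chain (x 2)
  have c3 := chain (x 3)
  rw [Fin.sum_univ_four] at c0 c1 c2 c3
  rw [B.self, B.anti (x 1) (x 0), B.anti (x 2) (x 0), B.anti (x 3) (x 0)] at c0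
  rw [B.self, B.anti (x 2) (x 1), B.anti (x 3) (x 1)] at c1
  rw [B.self, B.anti (x 3) (x 2)] at c2
  rw [B.self] at c3
  have h01 : aeval x (pderiv 1 F) • (B.J 1 1 1 (x 1) (x 2) (x 3)) -
      aeval x (pderiv 0 F) • (- B.J 1 1 1 (x 0) (x 2) (x 3)) = (2 * w) • (B.J b 1 1 w (x 2) (x 3)) := by
    simp only [J, Nat.cast_one, one_mul]
    linear_combination (norm := module) (euler • B.κ (x 2) (x 3) - x 2 • c3 + x 3 • c2)
  have h02 : aeval x (pderiv 2 F) • (B.J 1 1 1 (x 1) (x 2) (x 3)) -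
      aeval x (pderiv 0 F) • (B.J 1 1 1 (x 0) (x 1) (x 3)) = (2 * w) • (- B.J b 1 1 w (x 1) (x 3)) := by
    simp only [J, Nat.cast_one, one_mul]
    linear_combination (norm := module) -(euler • B.κ (x 1) (x 3) - x 1 • c3 + x 3 • c1)
  have h03 : aeval x (pderiv 3 F) • (B.J 1 1 1 (x 1) (x 2) (x 3)) -
      aeval x (pderiv 0 F) • (- B.J 1 1 1 (x 0) (x 1) (x 2)) = (2 * w) • (B.J b 1 1 w (x 1) (x 2)) := by
    simp only [J, Nat.cast_one, one_mul]
    linear_combination (norm := module) (euler • B.κ (x 1) (x 2) - x 1 • c2 + x 2 • c1)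
  have h12 : aeval x (pderiv 2 F) • (- B.J 1 1 1 (x 0) (x 2) (x 3)) -
      aeval x (pderiv 1 F) • (B.J 1 1 1 (x 0) (x 1) (x 3)) = (2 * w) • (B.J b 1 1 w (x 0) (x 3)) := by
    simp only [J, Nat.cast_one, one_mul]
    linear_combination (norm := module) (euler • B.κ (x 0) (x 3) - x 0 • c3 + x 3 • c0)
  have h13 : aeval x (pderiv 3 F) • (- B.J 1 1 1 (x 0) (x 2) (x 3)) -
      aeval x (pderiv 1 F) • (- B.J 1 1 1 (x 0) (x 1) (x 2)) = (2 * w) • (- B.J b 1 1 w (x 0) (x 2)) := by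
    simp only [J, Nat.cast_one, one_mul]
    linear_combination (norm := module) -(euler • B.κ (x 0) (x 2) - x 0 • c2 + x 2 • c0)
  have h23 : aeval x (pderiv 3 F) • (B.J 1 1 1 (x 0) (x 1) (x 3)) -
      aeval x (pderiv 2 F) • (- B.J 1 1 1 (x 0) (x 1) (x 2)) = (2 * w) • (B.J b 1 1 w (x 0) (x 1)) := by
    simp only [J, Nat.cast_one, one_mul]
    linear_combination (norm := module) (euler • B.κ (x 0) (x 1) - x 0 • c1 + x 1 • c0)
  match l, m with
  | 0, 0 => exact (sub_self _).trans (smul_zero _).symm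
  | 0, 1 => exact h01
  | 0, 2 => exact h02
  | 0, 3 => exact h03
  | 1, 0 => exact (neg_sub _ _).symm.trans ((congrArg Neg.neg h01).trans (smul_neg _ _).symm)
  | 1, 1 => exact (sub_self _).trans (smul_zero _).symm
  | 1, 2 => exact h12
  | 1, 3 => exact h13
  | 2, 0 => exact (neg_sub _ _).symm.trans ((congrArg Neg.neg h02).trans ((smul_neg _ _).symm.trans (congrArg _ (neg_neg _))))
  | 2, 1 => exact (neg_sub _ _).symm.trans ((congrArg Neg.neg h12).trans (smul_neg _ _).symm)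
  | 2, 2 => exact (sub_self _).trans (smul_zero _).symm
  | 2, 3 => exact h23
  | 3, 0 => exact (neg_sub _ _).symm.trans ((congrArg Neg.neg h03).trans (smul_neg _ _).symm)
  | 3, 1 => exact (neg_sub _ _).symm.trans ((congrArg Neg.neg h13).trans ((smul_neg _ _).symm.trans (congrArg _ (neg_neg _))))
  | 3, 2 => exact (neg_sub _ _).symm.trans ((congrArg Neg.neg h23).trans (smul_neg _ _).symm)
  | 3, 3 => exact (sub_self _).trans (smul_zero _).symm

end BiDer

/-- the gradient of `F` vanishes only at the origin: the surface `F = 0` in `ℙ³` is smooth -/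
def SmoothForm (F : MvPolynomial (Fin 4) ℂ) : Prop :=
  ∀ p : Fin 4 → ℂ, (∀ j, eval p (pderiv j F) = 0) → p = 0

lemma unit_of_smooth {A : Type*} [CommRing A] [Algebra ℂ A] {F : MvPolynomial (Fin 4) ℂ}
    (hF : SmoothForm F) (y : Fin 4 → A) (hy : ∃ a : Fin 4 → A, ∑ j, a j * y j = 1) :
    ∃ e : Fin 4 → A, ∑ l, e l * aeval y (pderiv l F) = 1 := by
  rw [← Ideal.mem_span_range_iff_exists_fun, ← Ideal.eq_top_iff_one]
  set I := Ideal.span (Set.range fun l => aeval y (pderiv l F)) with hI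
  set J₀ : Ideal (MvPolynomial (Fin 4) ℂ) := Ideal.span (Set.range fun l => pderiv l F) with hJ₀
  have h1 : J₀ ≤ I.comap (aeval y).toRingHom := by
    rw [hJ₀, Ideal.span_le]
    rintro _ ⟨l, rfl⟩
    exact Ideal.subset_span ⟨l, rfl⟩
  have h2 : ∀ i, (X i : MvPolynomial (Fin 4) ℂ) ∈ J₀.radical := by
    intro i
    rw [← MvPolynomial.vanishingIdeal_zeroLocus_eq_radical (K := ℂ)]
    rw [MvPolynomial.mem_vanishingIdeal_iff]
    intro p hp
    have h3 : p = 0 := hF p fun j => by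
      have := hp (pderiv j F) (Ideal.subset_span ⟨j, rfl⟩)
      rwa [← MvPolynomial.coe_aeval_eq_eval]
    rw [h3]
    simp
  have h4 : ∀ i, y i ∈ I.radical := by
    intro i
    obtain ⟨n, hn⟩ := h2 i
    refine ⟨n, ?_⟩
    have := h1 hn
    rw [Ideal.mem_comap] at this
    simpa using this
  obtain ⟨a, ha⟩ := hy
  have h5 : (1 : A) ∈ I.radical := by
    rw [← ha]
    exact sum_mem fun j _ => Ideal.mul_mem_left _ _ (h4 j)
  rw [← Ideal.radical_eq_top, Ideal.eq_top_iff_one]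
  exact h5

section Local

variable {K Ω : Type*} [CommRing K] [Algebra ℂ K] [AddCommGroup Ω] [Module K Ω]
  (B : BiDer K Ω)

/-- scaling of a homogeneous form -/
lemma aeval_scale {σ : Type*} {n : ℕ} (P : MvPolynomial σ ℂ) (hP : P.IsHomogeneous n) (u : K)
    (y : σ → K) : aeval (fun j => u * y j) P = u ^ n * aeval y P := by
  classical
  rw [aeval_def, eval₂_eq, aeval_def, eval₂_eq, Finset.mul_sum]
  refine Finset.sum_congr rfl fun d hd => ?_
  have h1 : ∑ i ∈ d.support, d i = n := by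
    have := hP (mem_support_iff.1 hd)
    rw [← this, Finsupp.weight_apply]
    simp [Finsupp.sum]
  simp only [mul_pow, Finset.prod_mul_distrib, Finset.prod_pow_eq_pow_sum, h1]
  ring

lemma minor_scale (u : Kˣ) (y : Fin 4 → K) (l : Fin 4) :
    B.minor (fun j => (u : K) * y j) l = ((u : K) ^ 3) • B.minor y l := by
  have h : ∀ i j k, B.J 1 1 1 ((u : K) * y i) ((u : K) * y j) ((u : K) * y k) =
      ((u : K) ^ 3) • B.J 1 1 1 (y i) (y j) (y k) := by
    intro i j k
    have := B.J_unit u 1 1 1 (y i) (y j) (y k)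
    simpa only [pow_one] using this
  match l with
  | 0 => exact h 1 2 3
  | 1 => exact (congrArg Neg.neg (h 0 2 3)).trans (smul_neg _ _).symm
  | 2 => exact h 0 1 3
  | 3 => exact (congrArg Neg.neg (h 0 1 2)).trans (smul_neg _ _).symm

lemma minor_mem (A : Subalgebra ℂ K) (ω : AddSubgroup Ω) (hω : ∀ a ∈ A, ∀ η ∈ ω, a • η ∈ ω)
    (hκ : ∀ a ∈ A, ∀ b ∈ A, B.κ a b ∈ ω) {y : Fin 4 → K} (hy : ∀ j, y j ∈ A) (l : Fin 4) :
    B.minor y l ∈ ω := by
  have h : ∀ i j k, B.J 1 1 1 (y i) (y j) (y k) ∈ ω := fun i j k =>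
    B.J_mem A ω hω hκ 1 1 1 (hy i) (hy j) (hy k)
  match l with
  | 0 => exact h 1 2 3
  | 1 => exact neg_mem (h 0 2 3)
  | 2 => exact h 0 1 3
  | 3 => exact neg_mem (h 0 1 2)

lemma cof_mem (A : Subalgebra ℂ K) (ω : AddSubgroup Ω) (hω : ∀ a ∈ A, ∀ η ∈ ω, a • η ∈ ω)
    (hκ : ∀ a ∈ A, ∀ b ∈ A, B.κ a b ∈ ω) {y : Fin 4 → K} (hy : ∀ j, y j ∈ A) {v : K}
    (hv : v ∈ A) (b : ℕ) (l m : Fin 4) : B.cof b y v l m ∈ ω := by
  have h : ∀ j k, B.J b 1 1 v (y j) (y k) ∈ ω := fun j k =>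
    B.J_mem A ω hω hκ b 1 1 hv (hy j) (hy k)
  match l, m with
  | 0, 0 => exact zero_mem _
  | 0, 1 => exact h 2 3
  | 0, 2 => exact neg_mem (h 1 3)
  | 0, 3 => exact h 1 2
  | 1, 0 => exact neg_mem (h 2 3)
  | 1, 1 => exact zero_mem _
  | 1, 2 => exact h 0 3
  | 1, 3 => exact neg_mem (h 0 2)
  | 2, 0 => exact h 1 3
  | 2, 1 => exact neg_mem (h 0 3)
  | 2, 2 => exact zero_mem _
  | 2, 3 => exact h 0 1
  | 3, 0 => exact neg_mem (h 1 2)
  | 3, 1 => exact h 0 2
  | 3, 2 => exact neg_mem (h 0 1)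
  | 3, 3 => exact zero_mem _

/-- one chart -/
lemma local_chart (A : Subalgebra ℂ K) (ω : AddSubgroup Ω) (hω : ∀ a ∈ A, ∀ η ∈ ω, a • η ∈ ω)
    (hκ : ∀ a ∈ A, ∀ b ∈ A, B.κ a b ∈ ω) (u : Kˣ) (β : ℕ) (F : MvPolynomial (Fin 4) ℂ)
    (hFh : F.IsHomogeneous (2 * (β + 3))) (hFs : SmoothForm F) (x : Fin 4 → K) (w : K)
    (hx : ∀ j, ((u⁻¹ : Kˣ) : K) * x j ∈ A) (hw : ((u⁻¹ : Kˣ) : K) ^ (β + 3) * w ∈ A)
    (hgen : ∃ a : Fin 4 → K, (∀ j, a j ∈ A) ∧ ∑ j, a j * x j = u) (hwF : w ^ 2 = aeval x F) :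
    ∃ (g : Ω) (t : Fin 4 → Ω) (E : Fin 4 → K),
      ((u : K) ^ (2 * β + 2)) • g ∈ ω ∧ (∀ l, ((u : K) ^ β) • t l ∈ ω) ∧
      (∀ l, B.minor x l = aeval x (pderiv l F) • g + w • t l) ∧
      (∀ l, (u : K) ^ (2 * β + 5) * E l ∈ A) ∧ ∑ l, E l * aeval x (pderiv l F) = 1 ∧
      (∀ l, ((u⁻¹ : Kˣ) : K) ^ (2 * β + 5) * aeval x (pderiv l F) ∈ A) := by
  set y : Fin 4 → K := fun j => ((u⁻¹ : Kˣ) : K) * x j with hy
  set v : K := ((u⁻¹ : Kˣ) : K) ^ (β + 3) * w with hv
  have huu : (u : K) * ((u⁻¹ : Kˣ) : K) = 1 := u.mul_inv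
  have hxy : x = fun j => (u : K) * y j := by
    funext j
    rw [hy, ← mul_assoc, huu, one_mul]
  have hwv : w = (u : K) ^ (β + 3) * v := by
    rw [hv, ← mul_assoc, ← mul_pow, huu, one_pow, one_mul]
  have hG : ∀ l, aeval x (pderiv l F) = (u : K) ^ (2 * β + 5) * aeval y (pderiv l F) := by
    intro l
    rw [hxy]
    refine aeval_scale _ ?_ _ _
    have := hFh.pderiv (i := l)
    exact this
  have hGA : ∀ l, aeval y (pderiv l F) ∈ A := by
    intro l
    have : aeval y (pderiv l F) = ((aeval (fun j => (⟨y j, hx j⟩ : A)) (pderiv l F) : A) : K) := by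
      exact (comp_aeval_apply (f := fun j => (⟨y j, hx j⟩ : A)) A.val (pderiv l F)).symm
    rw [this]
    exact Subtype.property _
  obtain ⟨e, he⟩ : ∃ e : Fin 4 → A, ∑ l, e l * aeval (fun j => (⟨y j, hx j⟩ : A)) (pderiv l F) = 1 := by
    apply unit_of_smooth hFs
    obtain ⟨a, ha, hau⟩ := hgen
    refine ⟨fun j => ⟨a j, ha j⟩, ?_⟩
    apply Subtype.ext
    rw [AddSubmonoidClass.coe_finsetSum]
    show ∑ j, a j * y j = 1
    have : ∑ j, a j * y j = ((u⁻¹ : Kˣ) : K) * ∑ j, a j * x j := by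
      rw [Finset.mul_sum]
      refine Finset.sum_congr rfl fun j _ => ?_
      rw [hy]; ring
    rw [this, hau, mul_comm, huu]
  set G : Fin 4 → K := fun l => aeval y (pderiv l F) with hGdef
  have he' : ∑ l, (e l : K) * G l = 1 := by
    have := congrArg (fun z : A => (z : K)) he
    simp only [AddSubmonoidClass.coe_finsetSum] at this
    refine Eq.trans (Finset.sum_congr rfl fun l _ => ?_) this
    rw [MulMemClass.coe_mul]
    congr 1
    exact (comp_aeval_apply (f := fun j => (⟨y j, hx j⟩ : A)) A.val (pderiv l F)).symm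
  have hvF : v ^ 2 = aeval y F := by
    have h1 : aeval y F = ((u⁻¹ : Kˣ) : K) ^ (2 * (β + 3)) * aeval x F :=
      aeval_scale F hFh _ x
    rw [h1, ← hwF, hv]
    ring
  have hrel := B.rel (β + 3) F hFh y v hvF
  set gh : Ω := ∑ l, (e l : K) • B.minor y l with hgh
  set th : Fin 4 → Ω := fun l => ∑ m, (2 * (e m : K)) • B.cof (β + 3) y v l m with hth
  have h1 : ∀ l, B.minor y l = G l • gh + v • th l := by
    intro l
    have h2 : B.minor y l = ∑ m, ((e m : K) * G m) • B.minor y l := by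
      rw [← Finset.sum_smul, he', one_smul]
    have h3 : G l • gh = ∑ m, ((e m : K) * G l) • B.minor y m := by
      rw [hgh, Finset.smul_sum]
      refine Finset.sum_congr rfl fun m _ => ?_
      rw [smul_smul, mul_comm]
    have h4 : v • th l = ∑ m, (e m : K) • ((2 * v) • B.cof (β + 3) y v l m) := by
      rw [hth]
      dsimp only
      rw [Finset.smul_sum]
      refine Finset.sum_congr rfl fun m _ => ?_
      rw [smul_smul, smul_smul]
      congr 1
      ring
    rw [h3, h4, ← Finset.sum_add_distrib]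
    conv_lhs => rw [h2]
    refine Finset.sum_congr rfl fun m _ => ?_
    rw [← hrel l m]
    module
  have hinv : ∀ n : ℕ, (u : K) ^ n * ((u⁻¹ : Kˣ) : K) ^ n = 1 := fun n => by
    rw [← mul_pow, huu, one_pow]
  refine ⟨((u⁻¹ : Kˣ) : K) ^ (2 * β + 2) • gh, fun l => ((u⁻¹ : Kˣ) : K) ^ β • th l,
    fun l => ((u⁻¹ : Kˣ) : K) ^ (2 * β + 5) * e l, ?_, ?_, ?_, ?_, ?_, ?_⟩
  · rw [smul_smul, hinv, one_smul]
    exact sum_mem fun l _ => hω _ (e l).2 _ (minor_mem B A ω hω hκ hx l)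
  · intro l
    rw [smul_smul, hinv, one_smul]
    exact sum_mem fun m _ => hω _ (mul_mem (ofNat_mem A 2) (e m).2) _
      (cof_mem B A ω hω hκ hx hw (β + 3) l m)
  · intro l
    have h5 : B.minor x l = ((u : K) ^ 3) • B.minor y l := by
      conv_lhs => rw [hxy]
      exact minor_scale B u y l
    rw [h5, h1 l, hG l, smul_smul, smul_smul, smul_add, smul_smul, smul_smul]
    congr 2
    · have e1 : (u : K) ^ (2 * β + 5) * aeval y (pderiv l F) * ((u⁻¹ : Kˣ) : K) ^ (2 * β + 2) =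
          (u : K) ^ 3 * aeval y (pderiv l F) *
            ((u : K) ^ (2 * β + 2) * ((u⁻¹ : Kˣ) : K) ^ (2 * β + 2)) := by
        have : (u : K) ^ (2 * β + 5) = (u : K) ^ 3 * (u : K) ^ (2 * β + 2) := by ring
        rw [this]; ring
      rw [e1, hinv, mul_one]
    · have e1 : w * ((u⁻¹ : Kˣ) : K) ^ β = (u : K) ^ 3 * v *
          ((u : K) ^ β * ((u⁻¹ : Kˣ) : K) ^ β) := by
        rw [hwv, pow_add]; ring
      rw [e1, hinv, mul_one]
  · intro l
    rw [← mul_assoc, hinv, one_mul]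
    exact (e l).2
  · rw [← he']
    refine Finset.sum_congr rfl fun l _ => ?_
    rw [hG l]
    have := hinv (2 * β + 5)
    linear_combination ((e l : K) * G l) * this
  · intro l
    rw [hG l, ← mul_assoc, mul_comm _ ((u : K) ^ _), hinv, one_mul]
    exact hGA l

/-- the vanishing of the maximal minors gives the vanishing of all triple products -/
lemma J_eq_zero_of_minor {x : Fin 4 → K} (h : ∀ l, B.minor x l = 0) (i j k : Fin 4) :
    B.J 1 1 1 (x i) (x j) (x k) = 0 := by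
  have h0 : B.J 1 1 1 (x 1) (x 2) (x 3) = 0 := h 0
  have h1 : B.J 1 1 1 (x 0) (x 2) (x 3) = 0 := neg_eq_zero.1 (h 1)
  have h2 : B.J 1 1 1 (x 0) (x 1) (x 3) = 0 := h 2
  have h3 : B.J 1 1 1 (x 0) (x 1) (x 2) = 0 := neg_eq_zero.1 (h 3)
  have hlt : ∀ i j k : Fin 4, i < j → j < k → B.J 1 1 1 (x i) (x j) (x k) = 0 := by
    intro i j k hij hjk
    have : (i = 1 ∧ j = 2 ∧ k = 3) ∨ (i = 0 ∧ j = 2 ∧ k = 3) ∨ (i = 0 ∧ j = 1 ∧ k = 3) ∨
      (i = 0 ∧ j = 1 ∧ k = 2) := by
      revert i j k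
      decide
    rcases this with ⟨rfl, rfl, rfl⟩ | ⟨rfl, rfl, rfl⟩ | ⟨rfl, rfl, rfl⟩ | ⟨rfl, rfl, rfl⟩
    · exact h0
    · exact h1
    · exact h2
    · exact h3
  have s12 : ∀ a b c, B.J 1 1 1 (x b) (x a) (x c) = 0 → B.J 1 1 1 (x a) (x b) (x c) = 0 := by
    intro a b c h
    rw [B.J_swap₁₂, h, neg_zero]
  have s23 : ∀ a b c, B.J 1 1 1 (x a) (x c) (x b) = 0 → B.J 1 1 1 (x a) (x b) (x c) = 0 := by
    intro a b c h
    rw [B.J_swap₂₃, h, neg_zero]
  rcases lt_trichotomy i j with hij | rfl | hij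
  · rcases lt_trichotomy j k with hjk | rfl | hjk
    · exact hlt _ _ _ hij hjk
    · exact B.J_self₂₃ _ _
    · rcases lt_trichotomy i k with hik | rfl | hik
      · exact s23 _ _ _ (hlt _ _ _ hik hjk)
      · exact B.J_self₁₃ _ _
      · exact s23 _ _ _ (s12 _ _ _ (hlt _ _ _ hik hij))
  · exact B.J_self₁₂ _ _
  · rcases lt_trichotomy i k with hik | rfl | hik
    · exact s12 _ _ _ (hlt _ _ _ hij hik)
    · exact B.J_self₁₃ _ _
    · rcases lt_trichotomy j k with hjk | rfl | hjk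
      · exact s12 _ _ _ (s23 _ _ _ (hlt _ _ _ hjk hik))
      · exact B.J_self₂₃ _ _
      · exact s12 _ _ _ (s23 _ _ _ (s12 _ _ _ (hlt _ _ _ hjk hij)))

/-- **The main theorem**, abstract form. -/
theorem main_abs [IsDomain K] (htf : ∀ (a : K) (η : Ω), a • η = 0 → a = 0 ∨ η = 0)
    {ι : Type*} (A : ι → Subalgebra ℂ K) (A₂ : ι → ι → Subalgebra ℂ K)
    (hAl : ∀ i j, A i ≤ A₂ i j) (hAr : ∀ i j, A j ≤ A₂ i j)
    (ω : ι → AddSubgroup Ω) (ω₂ : ι → ι → AddSubgroup Ω)
    (hω : ∀ i, ∀ a ∈ A i, ∀ η ∈ ω i, a • η ∈ ω i)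
    (hω₂ : ∀ i j, ∀ a ∈ A₂ i j, ∀ η ∈ ω₂ i j, a • η ∈ ω₂ i j)
    (hωl : ∀ i j, ω i ≤ ω₂ i j) (hωr : ∀ i j, ω j ≤ ω₂ i j)
    (hκ : ∀ i, ∀ a ∈ A i, ∀ b ∈ A i, B.κ a b ∈ ω i)
    (u : ι → Kˣ) (hu : ∀ i j, ((u i : Kˣ) : K) * (((u j)⁻¹ : Kˣ) : K) ∈ A₂ i j)
    (β : ℕ) (F : MvPolynomial (Fin 4) ℂ) (hFh : F.IsHomogeneous (2 * (β + 3)))
    (hFs : SmoothForm F) (x : Fin 4 → K) (w : K)
    (hx : ∀ i j, (((u i)⁻¹ : Kˣ) : K) * x j ∈ A i)
    (hw : ∀ i, (((u i)⁻¹ : Kˣ) : K) ^ (β + 3) * w ∈ A i)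
    (hgen : ∀ i, ∃ a : Fin 4 → K, (∀ j, a j ∈ A i) ∧ ∑ j, a j * x j = u i)
    (hwF : w ^ 2 = aeval x F)
    (H0 : ∀ η, (∀ i, η ∈ ω i) → η = 0)
    (H1 : ∀ n : ι → ι → Ω, (∀ i j, ((u i : K) ^ (3 * β + 5)) • n i j ∈ ω₂ i j) →
      (∀ i j k, n i j + n j k = n i k) →
      (∃ g : ι → Ω, (∀ i, ((u i : K) ^ (2 * β + 2)) • g i ∈ ω i) ∧
        ∀ i j, w • n i j = g i - g j) →
      ∃ c : ι → Ω, (∀ i, ((u i : K) ^ (3 * β + 5)) • c i ∈ ω i) ∧ ∀ i j, n i j = c i - c j)
    (i j k : Fin 4) : B.J 1 1 1 (x i) (x j) (x k) = 0 := by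
  apply J_eq_zero_of_minor
  intro l
  rcases isEmpty_or_nonempty ι with hι | ⟨⟨i₀⟩⟩
  · exact H0 _ fun i => hι.elim i
  have hloc := fun i => local_chart B (A i) (ω i) (hω i) (hκ i) (u i) β F hFh hFs x w (hx i)
    (hw i) (hgen i) hwF
  choose g t E hg ht hM hE hE1 hG using hloc
  -- some `x m` is nonzero
  obtain ⟨m, hm⟩ : ∃ m, x m ≠ 0 := by
    by_contra hc
    push Not at hc
    obtain ⟨a, -, ha⟩ := hgen i₀
    rw [Finset.sum_eq_zero (fun j _ => by rw [hc j, mul_zero])] at ha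
    exact (u i₀).ne_zero ha.symm
  -- global sections of negative twists vanish
  have H0' : ∀ (N : ℕ) (η : Ω), (∀ i, ((u i : K) ^ N) • η ∈ ω i) → η = 0 := by
    intro N η hη
    have h1 : x m ^ N • η = 0 := by
      apply H0
      intro i
      have h2 : x m ^ N • η = ((((u i)⁻¹ : Kˣ) : K) * x m) ^ N • ((u i : K) ^ N • η) := by
        rw [smul_smul, ← mul_pow]
        congr 2
        have : (u i : K) * (((u i)⁻¹ : Kˣ) : K) = 1 := (u i).mul_inv
        linear_combination (-(x m)) * this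
      rw [h2]
      exact hω i _ (pow_mem (hx i m) N) _ (hη i)
    rcases htf _ _ h1 with h | h
    · exact absurd h (pow_ne_zero N hm)
    · exact h
  have huu : ∀ i, (u i : K) * (((u i)⁻¹ : Kˣ) : K) = 1 := fun i => (u i).mul_inv
  have huu' : ∀ i (N : ℕ), (u i : K) ^ N * (((u i)⁻¹ : Kˣ) : K) ^ N = 1 := fun i N => by
    rw [← mul_pow, huu, one_pow]
  set G : Fin 4 → K := fun l => aeval x (pderiv l F) with hGdef
  have hgg : ∀ i j l, G l • (g i - g j) = w • (t j l - t i l) := by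
    intro i j l
    have h1 := hM i l
    have h2 := hM j l
    linear_combination (norm := module) h2 - h1
  set n : ι → ι → Ω := fun i j => ∑ l, E i l • (t j l - t i l) with hn
  have hwn : ∀ i j, w • n i j = g i - g j := by
    intro i j
    have h1 : g i - g j = ∑ l, (E i l * G l) • (g i - g j) := by
      rw [← Finset.sum_smul, hE1 i, one_smul]
    rw [h1, hn]
    dsimp only
    rw [Finset.smul_sum]
    refine Finset.sum_congr rfl fun l _ => ?_
    rw [mul_smul, hgg, smul_comm]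
  have hnmem : ∀ i j, ((u i : K) ^ (3 * β + 5)) • n i j ∈ ω₂ i j := by
    intro i j
    rw [hn]
    dsimp only
    rw [Finset.smul_sum]
    refine sum_mem fun l _ => ?_
    have h1 : (u i : K) ^ (3 * β + 5) • E i l • (t j l - t i l) =
        ((u i : K) ^ (2 * β + 5) * E i l) • ((((u i : K) * (((u j)⁻¹ : Kˣ) : K)) ^ β) •
          ((u j : K) ^ β • t j l) - (u i : K) ^ β • t i l) := by
      have h2 : (((u i : K) * (((u j)⁻¹ : Kˣ) : K)) ^ β) * (u j : K) ^ β = (u i : K) ^ β := by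
        rw [mul_pow]
        linear_combination ((u i : K) ^ β) * huu' j β
      rw [smul_smul (((u i : K) * (((u j)⁻¹ : Kˣ) : K)) ^ β), h2, ← smul_sub, smul_smul, smul_smul]
      congr 1
      ring
    rw [h1]
    refine hω₂ i j _ (hAl i j (hE i l)) _ (sub_mem ?_ (hωl i j (ht i l)))
    exact hω₂ i j _ (pow_mem (hu i j) β) _ (hωr i j (ht j l))
  by_cases hw0 : w = 0
  · have h1 : ∀ i j, g i = g j := by
      intro i j
      have := hwn i j
      rw [hw0, zero_smul] at this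
      exact (sub_eq_zero.1 this.symm)
    have h2 : g i₀ = 0 := H0' (2 * β + 2) _ fun i => by rw [h1 i₀ i]; exact hg i
    rw [hM i₀ l, h2, hw0]
    simp
  · have hcoc : ∀ i j k, n i j + n j k = n i k := by
      intro i j k
      have h1 : w • (n i j + n j k - n i k) = 0 := by
        rw [smul_sub, smul_add, hwn, hwn, hwn]
        abel
      rcases htf _ _ h1 with h | h
      · exact absurd h hw0
      · exact sub_eq_zero.1 h
    obtain ⟨c, hc, hnc⟩ := H1 n hnmem hcoc ⟨g, hg, hwn⟩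
    have h1 : ∀ i j, g i - w • c i = g j - w • c j := by
      intro i j
      have h2 := hwn i j
      rw [hnc i j, smul_sub] at h2
      linear_combination (norm := module) -h2
    have h3 : ∀ i, ((u i : K) ^ (2 * β + 2)) • (g i - w • c i) ∈ ω i := by
      intro i
      rw [smul_sub]
      refine sub_mem (hg i) ?_
      have h4 : (u i : K) ^ (2 * β + 2) • w • c i =
          ((((u i)⁻¹ : Kˣ) : K) ^ (β + 3) * w) • ((u i : K) ^ (3 * β + 5) • c i) := by
        rw [smul_smul, smul_smul]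
        congr 1
        have : (u i : K) ^ (3 * β + 5) = (u i : K) ^ (2 * β + 2) * (u i : K) ^ (β + 3) := by ring
        rw [this]
        linear_combination (-(w * (u i : K) ^ (2 * β + 2))) * huu' i (β + 3)
      rw [h4]
      exact hω i _ (hw i) _ (hc i)
    have h5 : ∀ i, g i - w • c i = 0 := fun i =>
      H0' (2 * β + 2) _ fun j => by rw [h1 i j]; exact h3 j
    have h6 : ∀ i, B.minor x l = w • (G l • c i + t i l) := by
      intro i
      rw [hM i l, sub_eq_zero.1 (h5 i)]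
      module
    have h7 : ∀ i j, G l • c i + t i l = G l • c j + t j l := by
      intro i j
      have h8 : w • ((G l • c i + t i l) - (G l • c j + t j l)) = 0 := by
        rw [smul_sub, ← h6, ← h6, sub_self]
      rcases htf _ _ h8 with h | h
      · exact absurd h hw0
      · exact sub_eq_zero.1 h
    have h9 : G l • c i₀ + t i₀ l = 0 := by
      apply H0' β
      intro i
      rw [h7 i₀ i, smul_add]
      refine add_mem ?_ (ht i l)
      have h10 : (u i : K) ^ β • G l • c i =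
          ((((u i)⁻¹ : Kˣ) : K) ^ (2 * β + 5) * G l) • ((u i : K) ^ (3 * β + 5) • c i) := by
        rw [smul_smul, smul_smul]
        congr 1
        have : (u i : K) ^ (3 * β + 5) = (u i : K) ^ β * (u i : K) ^ (2 * β + 5) := by ring
        rw [this]
        linear_combination (-(G l * (u i : K) ^ β)) * huu' i (2 * β + 5)
      rw [h10]
      exact hω i _ (hG i l) _ (hc i)
    rw [h6 i₀, h9, smul_zero]

end Local

end DoubleSolid
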