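import Mathlib

/-!
# Extensions of derivations of fields of characteristic zero
-/

namespace IndexOne

universe u v w

/-! ### Dual numbers -/

/-- the dual numbers over `A` (a synonym, so that the algebra structure can be chosen) -/
def Tw (A : Type*) : Type _ := TrivSqZeroExt A A

section Tw

variable {A : Type*} [CommRing A]

noncomputable instance : CommRing (Tw A) := inferInstanceAs (CommRing (TrivSqZeroExt A A))

/-- the value -/
noncomputable def Tw.fst : Tw A →+* A := (TrivSqZeroExt.fstHom A A A).toRingHom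

/-- the derivative -/
noncomputable def Tw.snd : Tw A →+ A where
  toFun x := TrivSqZeroExt.snd x
  map_zero' := rfl
  map_add' _ _ := rfl

/-- the dual number `a + ε b` -/
noncomputable def Tw.mk (a b : A) : Tw A :=
  (TrivSqZeroExt.inl a + TrivSqZeroExt.inr b : TrivSqZeroExt A A)

lemma Tw.fst_mk (a b : A) : Tw.fst (Tw.mk a b) = a := by
  show (TrivSqZeroExt.inl a + TrivSqZeroExt.inr b : TrivSqZeroExt A A).fst = a
  simp

lemma Tw.snd_mk (a b : A) : Tw.snd (Tw.mk a b) = b := by
  show (TrivSqZeroExt.inl a + TrivSqZeroExt.inr b : TrivSqZeroExt A A).snd = b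
  simp

lemma Tw.snd_mul (x y : Tw A) :
    Tw.snd (x * y) = Tw.fst x * Tw.snd y + Tw.fst y * Tw.snd x := by
  refine (TrivSqZeroExt.snd_mul (R := A) (M := A) x y).trans ?_
  rw [smul_eq_mul, MulOpposite.smul_eq_mul_unop, MulOpposite.unop_op,
    mul_comm (TrivSqZeroExt.snd x)]
  rfl

lemma Tw.ext {x y : Tw A} (h1 : Tw.fst x = Tw.fst y) (h2 : Tw.snd x = Tw.snd y) : x = y :=
  TrivSqZeroExt.ext h1 h2

lemma Tw.snd_one : Tw.snd (1 : Tw A) = 0 := TrivSqZeroExt.snd_one (R := A) (M := A)

/-- **The lifting of derivations along formally smooth maps.** -/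
theorem exists_lift {R : Type*} [CommRing R] [Algebra R A] [Algebra.FormallySmooth R A]
    (φ : R →+* Tw A) (hφ : ∀ r, Tw.fst (φ r) = algebraMap R A r) :
    ∃ D : Derivation ℤ A A, ∀ r, D (algebraMap R A r) = Tw.snd (φ r) := by
  let _ : Algebra R (Tw A) := φ.toAlgebra
  let g : Tw A →ₐ[R] A := { Tw.fst with commutes' := hφ }
  have hg : Function.Surjective g := fun a => ⟨Tw.mk a 0, Tw.fst_mk a 0⟩
  have hg' : IsNilpotent (RingHom.ker (g : Tw A →+* A)) := by
    refine ⟨2, ?_⟩
    rw [pow_two]
    refine le_antisymm (Ideal.mul_le.2 fun x hx y hy => ?_) bot_le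
    have hx' : Tw.fst x = 0 := hx
    have hy' : Tw.fst y = 0 := hy
    have h : x * y = 0 := by
      refine Tw.ext ?_ ?_
      · rw [map_mul, hx', zero_mul, map_zero]
      · rw [Tw.snd_mul, hx', hy', zero_mul, zero_mul, add_zero, map_zero]
    exact (Submodule.mem_bot (Tw A)).2 h
  let f : A →ₐ[R] Tw A := Algebra.FormallySmooth.liftOfSurjective (AlgHom.id R A) g hg hg'
  have hf : ∀ a, Tw.fst (f a) = a := fun a =>
    Algebra.FormallySmooth.liftOfSurjective_apply (AlgHom.id R A) g hg hg' a
  refine ⟨Derivation.mk' (Tw.snd.comp f.toRingHom.toAddMonoidHom).toIntLinearMap ?_, fun r => ?_⟩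
  · intro a b
    show Tw.snd (f (a * b)) = a * Tw.snd (f b) + b * Tw.snd (f a)
    rw [map_mul, Tw.snd_mul, hf, hf]
  · show Tw.snd (f (algebraMap R A r)) = _
    rw [AlgHom.commutes]
    rfl

end Tw

/-- a field extension in characteristic zero is formally smooth -/
lemma formallySmooth_field (k L : Type*) [Field k] [Field L] [Algebra k L] [CharZero k] :
    Algebra.FormallySmooth k L := by
  obtain ⟨s, hs⟩ := exists_isTranscendenceBasis k L
  have h1 := hs.isAlgebraic_field
  exact Algebra.FormallySmooth.of_algebraicIndependent_of_isSeparable hs.1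

/-- the lift of a derivation of the base field -/
theorem exists_lift_base (k L : Type*) [Field k] [Field L] [Algebra k L] [CharZero k]
    (δ : Derivation ℤ k k) :
    ∃ D : Derivation ℤ L L, ∀ c, D (algebraMap k L c) = algebraMap k L (δ c) := by
  have := formallySmooth_field k L
  let φ : k →+* Tw L :=
    { toFun := fun c => Tw.mk (algebraMap k L c) (algebraMap k L (δ c))
      map_one' := by
        refine Tw.ext ?_ ?_
        · rw [Tw.fst_mk, map_one, map_one]
        · rw [Tw.snd_mk, Tw.snd_one, Derivation.map_one_eq_zero, map_zero]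
      map_mul' := fun a b => by
        refine Tw.ext ?_ ?_
        · rw [map_mul Tw.fst, Tw.fst_mk, Tw.fst_mk, Tw.fst_mk, map_mul]
        · rw [Tw.snd_mul, Tw.fst_mk, Tw.fst_mk, Tw.snd_mk, Tw.snd_mk, Tw.snd_mk,
            Derivation.leibniz, smul_eq_mul, smul_eq_mul, map_add, map_mul, map_mul]
      map_zero' := by
        refine Tw.ext ?_ ?_
        · rw [Tw.fst_mk, map_zero, map_zero]
        · rw [Tw.snd_mk, map_zero, map_zero, map_zero]
      map_add' := fun a b => by
        refine Tw.ext ?_ ?_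
        · rw [map_add Tw.fst, Tw.fst_mk, Tw.fst_mk, Tw.fst_mk, map_add]
        · rw [map_add Tw.snd, Tw.snd_mk, Tw.snd_mk, Tw.snd_mk, map_add, map_add] }
  obtain ⟨D, hD⟩ := exists_lift φ (fun r => Tw.fst_mk _ _)
  exact ⟨D, fun c => (hD c).trans (Tw.snd_mk _ _)⟩

open scoped IntermediateField.algebraAdjoinAdjoin in
/-- derivations with prescribed values on an algebraically independent family -/
theorem exists_der_values (k L : Type*) [Field k] [Field L] [Algebra k L] [CharZero k]
    {ι : Type*} {v : ι → L} (hv : AlgebraicIndependent k v) (w : ι → L) :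
    ∃ D : Derivation k L L, ∀ i, D (v i) = w i := by
  have h1 : Algebra.FormallySmooth (Algebra.adjoin k (Set.range v))
      (IntermediateField.adjoin k (Set.range v)) :=
    .of_isLocalization (nonZeroDivisors _)
  have h0 : CharZero (IntermediateField.adjoin k (Set.range v)) := inferInstance
  have h2 : Algebra.FormallySmooth (IntermediateField.adjoin k (Set.range v)) L :=
    formallySmooth_field _ _
  have h3 : Algebra.FormallySmooth (Algebra.adjoin k (Set.range v)) L :=
    .comp _ (IntermediateField.adjoin k (Set.range v)) _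
  let _ : Algebra k (Tw L) :=
    ({ toFun := fun c => Tw.mk (algebraMap k L c) 0
       map_one' := by
        refine Tw.ext ?_ ?_
        · rw [Tw.fst_mk, map_one, map_one]
        · rw [Tw.snd_mk, Tw.snd_one]
       map_mul' := fun a b => by
        refine Tw.ext ?_ ?_
        · rw [map_mul Tw.fst, Tw.fst_mk, Tw.fst_mk, Tw.fst_mk, map_mul]
        · rw [Tw.snd_mul, Tw.fst_mk, Tw.fst_mk, Tw.snd_mk, Tw.snd_mk, Tw.snd_mk]
          ring
       map_zero' := by
        refine Tw.ext ?_ ?_
        · rw [Tw.fst_mk, map_zero, map_zero]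
        · rw [Tw.snd_mk, map_zero]
       map_add' := fun a b => by
        refine Tw.ext ?_ ?_
        · rw [map_add Tw.fst, Tw.fst_mk, Tw.fst_mk, Tw.fst_mk, map_add]
        · rw [map_add Tw.snd, Tw.snd_mk, Tw.snd_mk, Tw.snd_mk, add_zero] } : k →+* Tw L).toAlgebra
  have hk : ∀ c, algebraMap k (Tw L) c = Tw.mk (algebraMap k L c) 0 := fun c => rfl
  let ψ : MvPolynomial ι k →ₐ[k] Tw L := MvPolynomial.aeval fun i => Tw.mk (v i) (w i)
  let φ : Algebra.adjoin k (Set.range v) →ₐ[k] Tw L := ψ.comp hv.aevalEquiv.symm.toAlgHom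
  let fstk : Tw L →ₐ[k] L := { Tw.fst with commutes' := fun c => Tw.fst_mk _ _ }
  have hψ : fstk.comp ψ = MvPolynomial.aeval v := by
    apply MvPolynomial.algHom_ext
    intro i
    rw [AlgHom.comp_apply, MvPolynomial.aeval_X, MvPolynomial.aeval_X]
    exact Tw.fst_mk _ _
  have hφ : ∀ r, Tw.fst (φ r) = algebraMap _ L r := by
    intro r
    have h4 : Tw.fst (φ r) = (fstk.comp ψ) (hv.aevalEquiv.symm r) := rfl
    rw [h4, hψ, ← hv.algebraMap_aevalEquiv, AlgEquiv.apply_symm_apply]
  obtain ⟨D, hD⟩ := exists_lift φ.toRingHom hφ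
  have hDk : ∀ c : k, D (algebraMap k L c) = 0 := by
    intro c
    have h5 := hD (algebraMap k _ c)
    rw [← IsScalarTower.algebraMap_apply] at h5
    rw [h5]
    show Tw.snd (φ (algebraMap k _ c)) = 0
    rw [AlgHom.commutes, hk, Tw.snd_mk]
  refine ⟨Derivation.mk' { toFun := D, map_add' := map_add D, map_smul' := fun c x => ?_ } ?_,
    fun i => ?_⟩
  · rw [Algebra.smul_def, Derivation.leibniz, hDk, smul_zero, add_zero, smul_eq_mul,
      RingHom.id_apply, Algebra.smul_def]
  · intro a b
    exact D.leibniz a b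
  · show D (v i) = w i
    have h5 := hD (hv.aevalEquiv (MvPolynomial.X i))
    rw [hv.algebraMap_aevalEquiv, MvPolynomial.aeval_X] at h5
    rw [h5]
    show Tw.snd (ψ (hv.aevalEquiv.symm (hv.aevalEquiv (MvPolynomial.X i)))) = _
    rw [AlgEquiv.symm_apply_apply, MvPolynomial.aeval_X, Tw.snd_mk]

end IndexOne
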