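import Pool.Agent.Work.MP_4c1522_ag.Deriv

/-!
# Derivations which preserve an intermediate field
-/

namespace IndexOne

/-- a derivation which kills a subring kills the elements that are algebraic over it -/
lemma der_alg {R K M : Type*} [CommRing R] [IsDomain R] [Field K] [CharZero K] [Algebra R K]
    [FaithfulSMul R K] [AddCommGroup M] [Module K M] (D : K → M)
    (hadd : ∀ a b, D (a + b) = D a + D b) (hmul : ∀ a b, D (a * b) = a • D b + b • D a)
    (hR : ∀ a, D (algebraMap R K a) = 0) (y : K) (hy : IsAlgebraic R y) : D y = 0 := by
  by_contra hne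
  have hinj : Function.Injective (algebraMap R K) := FaithfulSMul.algebraMap_injective R K
  have hR0 : CharZero R := ⟨fun a b h => by
    have h1 := congrArg (algebraMap R K) h
    rw [map_natCast, map_natCast] at h1
    exact Nat.cast_injective h1⟩
  have hD0 : D 0 = 0 := by
    have := hR 0
    rwa [map_zero] at this
  have hpow : ∀ n : ℕ, D (y ^ n) = (n * y ^ (n - 1)) • D y := by
    intro n
    induction n with
    | zero =>
      have := hR 1
      rw [map_one] at this
      simp [this]
    | succ n ih =>
      rw [pow_succ, hmul, ih, smul_smul, ← add_smul]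
      congr 1
      rcases Nat.eq_zero_or_pos n with h | h
      · subst h; simp
      · have h1 : y ^ n = y ^ (n - 1) * y := by
          rw [← pow_succ]; congr 1; omega
        push_cast
        rw [h1]
        ring
  have hev : ∀ q : Polynomial R, D (Polynomial.aeval y q) =
      Polynomial.aeval y (Polynomial.derivative q) • D y := by
    intro q
    induction q using Polynomial.induction_on' with
    | add p q hp hq => rw [map_add, hadd, hp, hq, map_add, map_add, add_smul]
    | monomial n a =>
      rw [Polynomial.aeval_monomial, Polynomial.derivative_monomial, Polynomial.aeval_monomial,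
        hmul, hpow, hR, smul_zero, add_zero, map_mul, map_natCast, smul_smul]
      congr 1
      ring
  have key : ∀ (n : ℕ) (q : Polynomial R), q.natDegree = n → q ≠ 0 →
      Polynomial.aeval y q ≠ 0 := by
    intro n
    induction n using Nat.strong_induction_on with
    | _ n ih =>
      intro q hqn hq0 hqy
      by_cases hn : n = 0
      · rw [Polynomial.eq_C_of_natDegree_eq_zero (hqn.trans hn), Polynomial.aeval_C] at hqy
        have h1 : q.coeff 0 = 0 := hinj (by rw [hqy, map_zero])
        apply hq0
        rw [Polynomial.eq_C_of_natDegree_eq_zero (hqn.trans hn), h1, Polynomial.C_0]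
      · have h1 := hev q
        rw [hqy, hD0] at h1
        have h2 : Polynomial.aeval y (Polynomial.derivative q) = 0 :=
          (smul_eq_zero.1 h1.symm).resolve_right hne
        have h3 : (Polynomial.derivative q).natDegree < n := by
          rw [← hqn]
          exact Polynomial.natDegree_derivative_lt (by omega)
        refine ih _ h3 (Polynomial.derivative q) rfl ?_ h2
        intro h4
        have h5 := Polynomial.derivative_eq_zero.1 h4
        omega
  obtain ⟨q, hq, hqy⟩ := hy
  exact key _ q rfl hq hqy

/-- a derivation which kills a transcendence basis vanishes -/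
lemma der_basis {k K M : Type*} [Field k] [Field K] [CharZero K] [Algebra k K]
    [AddCommGroup M] [Module K M] (D : K → M)
    (hadd : ∀ a b, D (a + b) = D a + D b) (hmul : ∀ a b, D (a * b) = a • D b + b • D a)
    (hk : ∀ a, D (algebraMap k K a) = 0) {ι : Type*} {v : ι → K}
    (hv : IsTranscendenceBasis k v) (hD : ∀ i, D (v i) = 0) (y : K) : D y = 0 := by
  have h1 := hv.isAlgebraic
  refine der_alg (R := Algebra.adjoin k (Set.range v)) D hadd hmul (fun a => ?_) y
    (Algebra.IsAlgebraic.isAlgebraic y)
  show D (a : K) = 0
  have h2 : ∀ x ∈ Algebra.adjoin k (Set.range v), D x = 0 := by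
    intro x hx
    induction hx using Algebra.adjoin_induction with
    | mem x hx =>
      obtain ⟨i, rfl⟩ := hx
      exact hD i
    | algebraMap c => exact hk c
    | add x y _ _ hx hy => rw [hadd, hx, hy, add_zero]
    | mul x y _ _ hx hy => rw [hmul, hx, hy, smul_zero, smul_zero, add_zero]
  exact h2 _ a.2

open scoped KaehlerDifferential

/-- the differentials of a transcendence basis span -/
lemma span_basis {k K : Type*} [Field k] [Field K] [CharZero K] [Algebra k K]
    {ι : Type*} {v : ι → K} (hv : IsTranscendenceBasis k v) :
    Submodule.span K (Set.range fun i => KaehlerDifferential.D k K (v i)) = ⊤ := by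
  set S := Submodule.span K (Set.range fun i => KaehlerDifferential.D k K (v i)) with hS
  have h1 : ∀ y, S.mkQ (KaehlerDifferential.D k K y) = 0 := by
    intro y
    refine der_basis (fun y => S.mkQ (KaehlerDifferential.D k K y)) (fun a b => ?_)
      (fun a b => ?_) (fun a => ?_) hv (fun i => ?_) y
    · rw [map_add, map_add]
    · rw [Derivation.leibniz, map_add, map_smul, map_smul]
    · rw [Derivation.map_algebraMap, map_zero]
    · rw [Submodule.mkQ_apply, Submodule.Quotient.mk_eq_zero]
      exact Submodule.subset_span ⟨i, rfl⟩
  rw [eq_top_iff, ← KaehlerDifferential.span_range_derivation k K, Submodule.span_le]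
  rintro _ ⟨y, rfl⟩
  have := h1 y
  rwa [Submodule.mkQ_apply, Submodule.Quotient.mk_eq_zero] at this

/-- **Separation by derivations preserving the intermediate field** -/
theorem exists_der_preserving (k C K : Type) [Field k] [Field C] [Field K] [CharZero k]
    [Algebra k C] [Algebra C K] [Algebra k K] [IsScalarTower k C K]
    {m : ℕ} (r : Fin m → K) (hr : AlgebraicIndependent k r) (c : Fin m → K) (hc : c ≠ 0) :
    ∃ (δ : Derivation k C C) (D : Derivation k K K),
      (∀ z, D (algebraMap C K z) = algebraMap C K (δ z)) ∧ ∑ i, c i * D (r i) ≠ 0 := by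
  have hC0 : CharZero C := charZero_of_injective_algebraMap (algebraMap k C).injective
  have hK0 : CharZero K := charZero_of_injective_algebraMap (algebraMap k K).injective
  by_contra hcon
  push Not at hcon
  obtain ⟨T, hT⟩ := exists_isTranscendenceBasis k C
  obtain ⟨U, hU⟩ := exists_isTranscendenceBasis C K
  have hbasis := hT.sumElim_comp hU
  set v : U ⊕ T → K := Sum.elim (Subtype.val) (algebraMap C K ∘ Subtype.val) with hv
  have hspan := span_basis hbasis
  set w : Ω[K⁄k] := ∑ i, c i • KaehlerDifferential.D k K (r i) with hw
  have hwD : ∀ D : Derivation k K K, D.liftKaehlerDifferential w = ∑ i, c i * D (r i) := by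
    intro D
    rw [hw, map_sum]
    refine Finset.sum_congr rfl fun i _ => ?_
    rw [map_smul, Derivation.liftKaehlerDifferential_comp_D, smul_eq_mul]
  obtain ⟨μ, hμ⟩ : ∃ μ : (U ⊕ T) →₀ K,
      (μ.sum fun i a => a • KaehlerDifferential.D k K (v i)) = w := by
    rw [← Finsupp.mem_span_range_iff_exists_finsupp]
    have : w ∈ (⊤ : Submodule K (Ω[K⁄k])) := trivial
    rwa [← hspan] at this
  have hμD : ∀ D : Derivation k K K, D.liftKaehlerDifferential w = μ.sum fun i a => a * D (v i) := by
    intro D
    rw [← hμ, Finsupp.sum, map_sum]
    refine Finset.sum_congr rfl fun i _ => ?_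
    rw [map_smul, Derivation.liftKaehlerDifferential_comp_D, smul_eq_mul]
  -- the coefficients of the elements of `U`
  have hμU : ∀ b : U, μ (Sum.inl b) = 0 := by
    intro b
    classical
    obtain ⟨D, hD⟩ := exists_der_values C K hU.1 (fun b' => if b' = b then 1 else 0)
    have hDz : ∀ z, D (algebraMap C K z) = 0 := fun z => D.map_algebraMap z
    set D' : Derivation k K K := D.restrictScalars k with hD'
    have h1 := hcon 0 D' (fun z => by
      rw [Derivation.zero_apply, map_zero]
      exact hDz z)
    rw [← hwD, hμD] at h1
    rw [← h1, Finsupp.sum, Finset.sum_eq_single (Sum.inl b)]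
    · have h2 : D' (v (Sum.inl b)) = 1 := by
        show D (b : K) = 1
        rw [hD, if_pos rfl]
      rw [h2, mul_one]
    · rintro (b' | t) _ hne
      · have h2 : D' (v (Sum.inl b')) = 0 := by
          show D (b' : K) = 0
          rw [hD, if_neg]
          exact fun h => hne (congrArg Sum.inl h)
        rw [h2, mul_zero]
      · have h2 : D' (v (Sum.inr t)) = 0 := hDz _
        rw [h2, mul_zero]
    · intro h
      rw [Finsupp.notMem_support_iff.1 h, zero_mul]
  have hμT : ∀ t : T, μ (Sum.inr t) = 0 := by
    intro t
    classical
    obtain ⟨δ, hδ⟩ := exists_der_values k C hT.1 (fun t' => if t' = t then 1 else 0)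
    obtain ⟨D, hD⟩ := exists_lift_base C K (δ.restrictScalars ℤ)
    have hD1 : ∀ z, D (algebraMap C K z) = algebraMap C K (δ z) := hD
    have hDk : ∀ z : k, D (algebraMap k K z) = 0 := by
      intro z
      rw [IsScalarTower.algebraMap_apply k C K, hD1, δ.map_algebraMap, map_zero]
    let D' : Derivation k K K := Derivation.mk'
      { toFun := D, map_add' := map_add D, map_smul' := fun c x => by
          rw [Algebra.smul_def, Derivation.leibniz, hDk, smul_zero, add_zero, smul_eq_mul,
            RingHom.id_apply, Algebra.smul_def] }
      (fun a b => D.leibniz a b)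
    have h1 := hcon δ D' hD1
    rw [← hwD, hμD] at h1
    rw [← h1, Finsupp.sum, Finset.sum_eq_single (Sum.inr t)]
    · have h2 : D' (v (Sum.inr t)) = 1 := by
        show D (algebraMap C K (t : C)) = 1
        rw [hD1, hδ, if_pos rfl, map_one]
      rw [h2, mul_one]
    · rintro (b' | t') _ hne
      · rw [hμU, zero_mul]
      · have h2 : D' (v (Sum.inr t')) = 0 := by
          show D (algebraMap C K (t' : C)) = 0
          rw [hD1, hδ, if_neg, map_zero]
          exact fun h => hne (congrArg Sum.inr h)
        rw [h2, mul_zero]
    · intro h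
      rw [Finsupp.notMem_support_iff.1 h, zero_mul]
  have hμ0 : μ = 0 := by
    ext i
    rcases i with b | t
    · exact hμU b
    · exact hμT t
  have hw0 : w = 0 := by
    rw [← hμ, hμ0, Finsupp.sum_zero_index]
  obtain ⟨i, hi⟩ : ∃ i, c i ≠ 0 := Function.ne_iff.1 hc
  classical
  obtain ⟨D, hD⟩ := exists_der_values k K hr (fun j => if j = i then 1 else 0)
  have h1 := hwD D
  rw [hw0, map_zero, Finset.sum_eq_single i] at h1
  · rw [hD, if_pos rfl, mul_one] at h1
    exact hi h1.symm
  · intro j _ hj
    rw [hD, if_neg hj, mul_zero]
  · intro h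
    exact absurd (Finset.mem_univ i) h

end IndexOne
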