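import Pool.Agent.Work.MP_4c1522_ag.Toric

/-!
# Toric surfaces: the maximal minors of a base point free system do not all vanish
-/

open AddMonoidAlgebra

namespace DoubleSolid

/-! ### Derivations of the field of fractions -/

section Frac

variable {A : Type*} [CommRing A] [IsDomain A] (θ : A → A) (hadd : ∀ a b, θ (a + b) = θ a + θ b)
  (hmul : ∀ a b, θ (a * b) = a * θ b + b * θ a)

/-- `f ↦ f + ε θ f` -/
noncomputable def dualHom : A →+* DualNumber (FractionRing A) where
  toFun f := TrivSqZeroExt.inl (algebraMap A (FractionRing A) f) +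
    TrivSqZeroExt.inr (algebraMap A (FractionRing A) (θ f))
  map_one' := by
    have h := hmul 1 1
    rw [mul_one, one_mul] at h
    have h1 : θ 1 = 0 := by
      have : θ 1 = θ 1 + θ 1 := h
      simpa using this
    ext
    · simp
    · simp [h1]
  map_mul' a b := by
    ext
    · simp
    · simp only [TrivSqZeroExt.snd_add, TrivSqZeroExt.snd_inl, TrivSqZeroExt.snd_inr, zero_add,
        TrivSqZeroExt.snd_mul, TrivSqZeroExt.fst_add, TrivSqZeroExt.fst_inl,
        TrivSqZeroExt.fst_inr, add_zero, smul_eq_mul, MulOpposite.smul_eq_mul_unop,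
        MulOpposite.unop_op, hmul, map_add, map_mul]
      ring
  map_zero' := by
    have h := hadd 0 0
    rw [add_zero] at h
    have h1 : θ 0 = 0 := by simpa using h
    ext
    · simp
    · simp [h1]
  map_add' a b := by
    ext
    · simp
    · simp only [TrivSqZeroExt.snd_add, TrivSqZeroExt.snd_inl, TrivSqZeroExt.snd_inr, zero_add,
        hadd, map_add]

lemma dualHom_fst (f : A) : (dualHom θ hadd hmul f).fst = algebraMap A (FractionRing A) f := by
  simp [dualHom]

lemma dualHom_snd (f : A) :
    (dualHom θ hadd hmul f).snd = algebraMap A (FractionRing A) (θ f) := by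
  show (TrivSqZeroExt.inl (algebraMap A (FractionRing A) f) +
    TrivSqZeroExt.inr (algebraMap A (FractionRing A) (θ f)) : DualNumber (FractionRing A)).snd = _
  rw [TrivSqZeroExt.snd_add, TrivSqZeroExt.snd_inl, TrivSqZeroExt.snd_inr, zero_add]

/-- the extension to the field of fractions -/
noncomputable def fracHom : FractionRing A →+* DualNumber (FractionRing A) :=
  IsLocalization.lift (M := nonZeroDivisors A) (g := dualHom θ hadd hmul) (by
    intro y
    rw [TrivSqZeroExt.isUnit_iff_isUnit_fst, dualHom_fst]
    exact IsLocalization.map_units _ y)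

lemma fracHom_fst (q : FractionRing A) : (fracHom θ hadd hmul q).fst = q := by
  have h : (TrivSqZeroExt.fstHom (FractionRing A) (FractionRing A) (FractionRing A)).toRingHom.comp
      (fracHom θ hadd hmul) = RingHom.id _ := by
    apply IsLocalization.ringHom_ext (nonZeroDivisors A)
    ext f
    simp [fracHom, dualHom_fst]
  exact congrArg (fun g => g q) h

/-- the extension of the derivation -/
noncomputable def ext' (q : FractionRing A) : FractionRing A := (fracHom θ hadd hmul q).snd

lemma ext'_algebraMap (f : A) :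
    ext' θ hadd hmul (algebraMap A (FractionRing A) f) = algebraMap A (FractionRing A) (θ f) := by
  rw [ext', fracHom, IsLocalization.lift_eq, dualHom_snd]

lemma ext'_add (a b : FractionRing A) :
    ext' θ hadd hmul (a + b) = ext' θ hadd hmul a + ext' θ hadd hmul b := by
  rw [ext', map_add, TrivSqZeroExt.snd_add]
  rfl

lemma ext'_mul (a b : FractionRing A) :
    ext' θ hadd hmul (a * b) = a * ext' θ hadd hmul b + b * ext' θ hadd hmul a := by
  rw [ext', map_mul, TrivSqZeroExt.snd_mul, fracHom_fst, fracHom_fst]
  simp only [smul_eq_mul, MulOpposite.smul_eq_mul_unop, MulOpposite.unop_op]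
  rw [ext', ext', mul_comm b]

end Frac

/-- a derivation which kills a subring kills the elements that are integral over it -/
lemma der_eq_zero {L : Type*} [Field L] [CharZero L] (D : L → L)
    (hadd : ∀ a b, D (a + b) = D a + D b) (hmul : ∀ a b, D (a * b) = a * D b + b * D a)
    (R : Subring L) (hR : ∀ a ∈ R, D a = 0) (y : L) (hy : IsIntegral R y) : D y = 0 := by
  by_contra hne
  have hD0 : D 0 = 0 := hR 0 (zero_mem _)
  have hpow : ∀ n : ℕ, D (y ^ n) = n * y ^ (n - 1) * D y := by
    intro n
    induction n with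
    | zero => simpa using hR 1 (one_mem _)
    | succ n ih =>
      rw [pow_succ, hmul, ih]
      rcases Nat.eq_zero_or_pos n with h | h
      · subst h; simp
      · have h1 : y ^ n = y ^ (n - 1) * y := by
          rw [← pow_succ]; congr 1; omega
        push_cast
        rw [h1]
        ring
  have hev : ∀ q : Polynomial R, D (Polynomial.aeval y q) =
      Polynomial.aeval y (Polynomial.derivative q) * D y := by
    intro q
    induction q using Polynomial.induction_on' with
    | add p q hp hq => rw [map_add, hadd, hp, hq, map_add, map_add, add_mul]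
    | monomial n a =>
      rw [Polynomial.aeval_monomial, Polynomial.derivative_monomial, Polynomial.aeval_monomial,
        hmul, hpow]
      have h1 : D (algebraMap R L a) = 0 := hR _ a.2
      rw [h1, mul_zero, add_zero, map_mul, map_natCast]
      ring
  have key : ∀ (n : ℕ) (q : Polynomial R), q.natDegree = n → q ≠ 0 →
      Polynomial.aeval y q ≠ 0 := by
    intro n
    induction n using Nat.strong_induction_on with
    | _ n ih =>
      intro q hqn hq0 hqy
      by_cases hn : n = 0
      · rw [Polynomial.eq_C_of_natDegree_eq_zero (hqn.trans hn), Polynomial.aeval_C] at hqy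
        have h1 : q.coeff 0 = 0 := Subtype.ext hqy
        apply hq0
        rw [Polynomial.eq_C_of_natDegree_eq_zero (hqn.trans hn), h1, Polynomial.C_0]
      · have h1 := hev q
        rw [hqy, hD0] at h1
        have h2 : Polynomial.aeval y (Polynomial.derivative q) = 0 :=
          (mul_eq_zero.1 h1.symm).resolve_right hne
        have h3 : (Polynomial.derivative q).natDegree < n := by
          rw [← hqn]
          exact Polynomial.natDegree_derivative_lt (by omega)
        refine ih _ h3 (Polynomial.derivative q) rfl ?_ h2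
        intro h4
        have h5 := Polynomial.derivative_eq_zero.1 h4
        omega
  obtain ⟨q, hq, hqy⟩ := hy
  exact key _ q rfl hq.ne_zero hqy

/-! ### Integrality -/

section Val

variable {r : ℕ} {v : ZMod r → ℤ × ℤ}

/-- a monomial as an element of the field of fractions -/
noncomputable def chi (m : ℤ × ℤ) : FractionRing Laurent :=
  algebraMap Laurent (FractionRing Laurent) (single m 1)

lemma chi_add (m n : ℤ × ℤ) : chi (m + n) = chi m * chi n := by
  rw [chi, chi, chi, ← map_mul, single_mul_single, one_mul]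

lemma chi_zero : chi 0 = 1 := map_one _

lemma chi_ne_zero (m : ℤ × ℤ) : chi m ≠ 0 := by
  intro h
  have h1 := chi_add m (-m)
  rw [add_neg_cancel, chi_zero, h, zero_mul] at h1
  exact one_ne_zero h1

lemma chi_nsmul (n : ℕ) (m : ℤ × ℤ) : chi (n • m) = chi m ^ n := by
  rw [chi, chi, ← map_pow, single_pow, one_pow]

lemma val_cone (hv : IsPolygon v) (V : ValuationSubring (FractionRing Laurent)) (i : ZMod r)
    (hi : ∀ j, V.valuation (chi (v j)) ≤ V.valuation (chi (v i))) (m : ℤ × ℤ)
    (hm : m ∈ cone v i i) : V.valuation (chi m) ≤ 1 := by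
  have hpos : 0 < V.valuation (chi (v i)) := by
    rw [Valuation.pos_iff]
    exact chi_ne_zero _
  have hedge : ∀ j, V.valuation (chi (v j - v i)) ≤ 1 := by
    intro j
    have h1 : V.valuation (chi (v j - v i)) * V.valuation (chi (v i)) =
        V.valuation (chi (v j)) := by
      rw [← map_mul, ← chi_add, sub_add_cancel]
    have h2 := hi j
    rw [← h1] at h2
    by_contra hc
    push Not at hc
    have h3 : 1 * V.valuation (chi (v i)) <
        V.valuation (chi (v j - v i)) * V.valuation (chi (v i)) :=
      mul_lt_mul_of_pos_right hc hpos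
    rw [one_mul] at h3
    exact absurd h2 (not_le.2 h3)
  set b := v (i + 1) - v i with hb
  set a := v (i - 1) - v i with ha
  have hne : i - 1 ≠ i + 1 := by
    intro h
    apply hv.two_ne_zero
    have : (2 : ZMod r) = (i + 1) - (i - 1) := by ring
    rw [this, h, sub_self]
  have hne' : i - 1 ≠ i := by
    intro h
    apply hv.one_ne_zero
    have : (1 : ZMod r) = i - (i - 1) := by ring
    rw [this, h, sub_self]
  have hba : 0 < det b a := hv.left i (i - 1) hne' hne
  have h1 : 0 ≤ det b m := hm i (Or.inl rfl) (Or.inl rfl)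
  have h2 : 0 ≤ det m a := by
    have := hm (i - 1) (Or.inr (by ring)) (Or.inr (by ring))
    rw [sub_add_cancel] at this
    have e : det (v i - v (i - 1)) m = det m a := by
      simp only [det, ha, Prod.fst_sub, Prod.snd_sub]; ring
    rwa [e] at this
  obtain ⟨D, hD⟩ := Int.eq_ofNat_of_zero_le hba.le
  obtain ⟨p, hp⟩ := Int.eq_ofNat_of_zero_le h1
  obtain ⟨q, hq⟩ := Int.eq_ofNat_of_zero_le h2
  have key : D • m = q • b + p • a := by
    have e1 : (D : ℤ) • m = (q : ℤ) • b + (p : ℤ) • a := by
      rw [← hD, ← hq, ← hp]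
      apply Prod.ext
      · simp only [det, Prod.smul_fst, Prod.fst_add, smul_eq_mul]; ring
      · simp only [det, Prod.smul_snd, Prod.snd_add, smul_eq_mul]; ring
    rw [natCast_zsmul, natCast_zsmul, natCast_zsmul] at e1
    exact e1
  have h3 : V.valuation (chi m) ^ D ≤ 1 := by
    rw [← map_pow, ← chi_nsmul, key, chi_add, chi_nsmul, chi_nsmul, map_mul, map_pow, map_pow]
    exact mul_le_one' (pow_le_one' (hedge _) _) (pow_le_one' (hedge _) _)
  have hD0 : D ≠ 0 := by
    rintro rfl
    rw [hD] at hba
    simp at hba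
  by_contra hc
  push Not at hc
  exact absurd h3 (not_le.2 (one_lt_pow₀ hc hD0))

/-- integrality of the vertex monomials -/
lemma vertex_integral (hv : IsPolygon v) (x : Fin 4 → Laurent)
    (hgen : ∀ i, ∃ a : Fin 4 → Laurent, (∀ j, a j ∈ alg (cone v i i)) ∧
      ∑ j, a j * x j = single (v i) 1) (p : Fin 4) (hp : x p ≠ 0) (i : ZMod r) :
    IsIntegral (Subring.closure (Set.range (algebraMap ℂ (FractionRing Laurent)) ∪
      Set.range fun j => algebraMap Laurent (FractionRing Laurent) (x j) /
        algebraMap Laurent (FractionRing Laurent) (x p)))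
      (chi (v i) / algebraMap Laurent (FractionRing Laurent) (x p)) := by
  have := hv.neZero
  set s : Set (FractionRing Laurent) := (Set.range (algebraMap ℂ (FractionRing Laurent)) ∪
      Set.range fun j => algebraMap Laurent (FractionRing Laurent) (x j) /
        algebraMap Laurent (FractionRing Laurent) (x p)) with hs
  have h1 := iInf_valuationSubring_superset (K := FractionRing Laurent) (s := s)
  suffices h : chi (v i) / algebraMap Laurent (FractionRing Laurent) (x p) ∈
      (integralClosure (Subring.closure s) (FractionRing Laurent)).toSubring from h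
  rw [← h1, Subring.mem_iInf]
  rintro ⟨V, hV⟩
  show _ ∈ V.toSubring
  set ι := algebraMap Laurent (FractionRing Laurent) with hι
  have hιx : ι (x p) ≠ 0 := by
    rw [hι]
    exact fun h => hp ((IsFractionRing.injective Laurent (FractionRing Laurent))
      (h.trans (map_zero _).symm))
  have hC : ∀ c : ℂ, algebraMap ℂ (FractionRing Laurent) c ∈ V := fun c =>
    hV (Or.inl ⟨c, rfl⟩)
  have hz : ∀ j, ι (x j) / ι (x p) ∈ V := fun j => hV (Or.inr ⟨j, rfl⟩)
  obtain ⟨i₀, hi₀⟩ := Finite.exists_max (fun j => V.valuation (chi (v j)))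
  have hcone : ∀ f ∈ alg (cone v i₀ i₀), ι f ∈ V := by
    intro f hf
    refine supp_induction (p := fun f => ι f ∈ V) (by rw [map_zero]; exact zero_mem V)
      (fun a b ha hb => by rw [map_add]; exact add_mem ha hb) (fun m hm c => ?_) hf
    have h2 : (single m c : Laurent) = algebraMap ℂ Laurent c * single m 1 := by
      show _ = single 0 c * single m 1
      rw [single_mul_single, zero_add, mul_one]
    rw [h2, map_mul]
    refine mul_mem ?_ ?_
    · rw [hι, ← IsScalarTower.algebraMap_apply]
      exact hC c
    · exact (V.valuation_le_one_iff _).1 (val_cone hv V i₀ hi₀ m hm)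
  obtain ⟨a, ha, hsum⟩ := hgen i₀
  have hpos : 0 < V.valuation (chi (v i₀)) := by
    rw [Valuation.pos_iff]
    exact chi_ne_zero _
  obtain ⟨j, hj⟩ : ∃ j, V.valuation (chi (v i₀)) ≤ V.valuation (ι (x j)) := by
    by_contra hc
    push Not at hc
    have h2 : V.valuation (∑ j, ι (a j) * ι (x j)) < V.valuation (chi (v i₀)) := by
      apply Valuation.map_sum_lt _ hpos.ne'
      intro j _
      rw [map_mul]
      calc V.valuation (ι (a j)) * V.valuation (ι (x j))
          ≤ 1 * V.valuation (ι (x j)) :=
            mul_le_mul_left ((V.valuation_le_one_iff _).2 (hcone _ (ha j))) _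
        _ = V.valuation (ι (x j)) := one_mul _
        _ < _ := hc j
    have h3 : ∑ j, ι (a j) * ι (x j) = chi (v i₀) := by
      rw [chi, ← hι, ← hsum, map_sum]
      exact Finset.sum_congr rfl fun j _ => (map_mul _ _ _).symm
    rw [h3] at h2
    exact lt_irrefl _ h2
  have hpp : 0 < V.valuation (ι (x p)) := by
    rw [Valuation.pos_iff]
    exact hιx
  have h4 : V.valuation (ι (x j)) ≤ V.valuation (ι (x p)) := by
    have h5 := (V.valuation_le_one_iff _).2 (hz j)
    rw [map_div₀, div_le_one₀ hpp] at h5
    exact h5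
  refine (V.valuation_le_one_iff _).1 ?_
  rw [map_div₀, div_le_one₀ hpp]
  exact (hi₀ i).trans (hj.trans h4)

/-- the bracket on the field of fractions -/
noncomputable def braF : BiDer (FractionRing Laurent) (FractionRing Laurent) where
  κ f g := ext' (θ (AddMonoidHom.fst ℤ ℤ)) (θ_add _) (θ_mul _) f *
      ext' (θ (AddMonoidHom.snd ℤ ℤ)) (θ_add _) (θ_mul _) g -
    ext' (θ (AddMonoidHom.snd ℤ ℤ)) (θ_add _) (θ_mul _) f *
      ext' (θ (AddMonoidHom.fst ℤ ℤ)) (θ_add _) (θ_mul _) g
  add a b c := by rw [ext'_add, ext'_add]; ring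
  mul a b c := by rw [ext'_mul, ext'_mul, smul_eq_mul, smul_eq_mul]; ring
  const z c := by
    rw [IsScalarTower.algebraMap_apply ℂ Laurent (FractionRing Laurent), ext'_algebraMap,
      ext'_algebraMap, θ_const, θ_const, map_zero]
    ring
  anti a b := by ring
  self a := by ring

lemma braF_algebraMap (f g : Laurent) :
    braF.κ (algebraMap Laurent (FractionRing Laurent) f)
      (algebraMap Laurent (FractionRing Laurent) g) =
      algebraMap Laurent (FractionRing Laurent) (bra.κ f g) := by
  show ext' _ _ _ _ * ext' _ _ _ _ - ext' _ _ _ _ * ext' _ _ _ _ = _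
  rw [ext'_algebraMap, ext'_algebraMap, ext'_algebraMap, ext'_algebraMap, ← map_mul,
    ← map_mul, ← map_sub]
  rfl

section Kill

variable {L : Type*} [Field L] [CharZero L] [Algebra ℂ L] (B : BiDer L L)

lemma kill_aux {ι₁ : Type*} (z : ι₁ → L) (f : L) (hf : ∀ j, B.κ f (z j) = 0) (y : L)
    (hy : IsIntegral (Subring.closure (Set.range (algebraMap ℂ L) ∪ Set.range z)) y) :
    B.κ f y = 0 := by
  have hconst : ∀ c : ℂ, B.κ f (algebraMap ℂ L c) = 0 := fun c => by
    rw [B.anti, B.const, neg_zero]
  refine der_eq_zero (B.κ f) (B.add_right f) (fun a b => ?_) _ ?_ y hy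
  · rw [B.mul_right, smul_eq_mul, smul_eq_mul]
  intro a ha
  induction ha using Subring.closure_induction with
  | mem a ha =>
    rcases ha with ⟨c, rfl⟩ | ⟨j, rfl⟩
    · exact hconst c
    · exact hf j
  | zero =>
    have := hconst 0
    rwa [map_zero] at this
  | one =>
    have := hconst 1
    rwa [map_one] at this
  | add a b _ _ ha hb => rw [B.add_right, ha, hb, add_zero]
  | neg a _ ha =>
    have h1 := B.add_right f a (-a)
    rw [add_neg_cancel, ha, zero_add] at h1
    rw [← h1]
    have := hconst 0
    rwa [map_zero] at this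
  | mul a b _ _ ha hb => rw [B.mul_right, ha, hb, smul_zero, smul_zero, add_zero]

lemma kill {ι₁ ι₂ : Type*} (z : ι₁ → L) (y : ι₂ → L) (hz : ∀ i j, B.κ (z i) (z j) = 0)
    (hy : ∀ i, IsIntegral (Subring.closure (Set.range (algebraMap ℂ L) ∪ Set.range z)) (y i))
    (i k : ι₂) : B.κ (y i) (y k) = 0 := by
  have hzy : ∀ j i, B.κ (z j) (y i) = 0 := fun j i => kill_aux B z (z j) (hz j) (y i) (hy i)
  exact kill_aux B z (y i) (fun j => by rw [B.anti, hzy, neg_zero]) (y k) (hy k)

lemma J_quot (P a b : L) (hP : P ≠ 0) :
    B.J 1 1 1 P a b = P ^ 3 * B.κ (a / P) (b / P) := by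
  have h := B.J_unit (Units.mk0 P hP) 1 1 1 1 (a / P) (b / P)
  rw [pow_one, Units.val_mk0, mul_one, mul_div_cancel₀ _ hP, mul_div_cancel₀ _ hP] at h
  rw [h]
  simp only [BiDer.J, Nat.cast_one, one_mul, smul_eq_mul]
  rw [B.one_left, B.one_left]
  ring

end Kill

lemma braF_J (a b c : Laurent) :
    braF.J 1 1 1 (algebraMap Laurent (FractionRing Laurent) a)
      (algebraMap Laurent (FractionRing Laurent) b)
      (algebraMap Laurent (FractionRing Laurent) c) =
      algebraMap Laurent (FractionRing Laurent) (bra.J 1 1 1 a b c) := by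
  simp only [BiDer.J, Nat.cast_one, one_mul, smul_eq_mul]
  rw [braF_algebraMap, braF_algebraMap, braF_algebraMap, ← map_mul, ← map_mul, ← map_mul,
    ← map_sub, ← map_add]

lemma J_mono (a b c : ℤ × ℤ) :
    bra.J 1 1 1 (single a 1) (single b 1) (single c 1) =
      single (a + b + c) ((det (b - a) (c - a) : ℤ) : ℂ) := by
  simp only [BiDer.J, Nat.cast_one, one_mul, smul_eq_mul]
  rw [bra_single, bra_single, bra_single, single_mul_single, single_mul_single,
    single_mul_single, ← add_assoc, ← add_assoc, ← add_assoc, add_comm b a,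
    show c + a + b = a + b + c by abel, ← single_sub, ← single_add]
  congr 1
  simp only [det, Prod.fst_sub, Prod.snd_sub]
  push_cast
  ring

/-- if the products of three sections with a fourth vanish, so does the product of the three -/
lemma J_four {L : Type*} [Field L] [Algebra ℂ L] (B : BiDer L L) {P : L} (hP : P ≠ 0)
    {a b c : L} (h1 : B.J 1 1 1 P a b = 0) (h2 : B.J 1 1 1 P a c = 0)
    (h3 : B.J 1 1 1 P b c = 0) : B.J 1 1 1 a b c = 0 := by
  simp only [BiDer.J, Nat.cast_one, one_mul, smul_eq_mul] at *
  have : P * (a * B.κ b c - b * B.κ a c + c * B.κ a b) = 0 := by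
    linear_combination c * h1 - b * h2 + a * h3
  exact (mul_eq_zero.1 this).resolve_left hP

/-- **the maximal minors do not all vanish** -/
theorem exists_J_ne_zero (hv : IsPolygon v) (x : Fin 4 → Laurent)
    (hgen : ∀ i, ∃ a : Fin 4 → Laurent, (∀ j, a j ∈ alg (cone v i i)) ∧
      ∑ j, a j * x j = single (v i) 1)
    (hJ : ∀ i j k, bra.J 1 1 1 (x i) (x j) (x k) = 0) : False := by
  have := hv.neZero
  have hcz : CharZero (FractionRing Laurent) :=
    charZero_of_injective_algebraMap (algebraMap ℂ (FractionRing Laurent)).injective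
  -- some `x p` is nonzero
  obtain ⟨p, hp⟩ : ∃ p, x p ≠ 0 := by
    by_contra hc
    push Not at hc
    obtain ⟨a, -, ha⟩ := hgen 0
    rw [Finset.sum_eq_zero (fun j _ => by rw [hc j, mul_zero])] at ha
    have h1 : chi (v 0) = 0 := by rw [chi, ← ha, map_zero]
    exact chi_ne_zero _ h1
  set ι := algebraMap Laurent (FractionRing Laurent) with hι
  have hinj : Function.Injective ι := IsFractionRing.injective Laurent (FractionRing Laurent)
  have hιx : ι (x p) ≠ 0 := fun h => hp (hinj (h.trans (map_zero _).symm))
  have hzz : ∀ i j, braF.κ (ι (x i) / ι (x p)) (ι (x j) / ι (x p)) = 0 := by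
    intro i j
    have h1 := J_quot braF (ι (x p)) (ι (x i)) (ι (x j)) hιx
    rw [hι, braF_J, hJ, map_zero] at h1
    exact (mul_eq_zero.1 h1.symm).resolve_left (pow_ne_zero 3 hιx)
  have hyy := kill braF (fun j => ι (x j) / ι (x p)) (fun i => chi (v i) / ι (x p)) hzz
    (fun i => vertex_integral hv x hgen p hp i)
  have hE : ∀ i k, braF.J 1 1 1 (ι (x p)) (chi (v i)) (chi (v k)) = 0 := by
    intro i k
    rw [J_quot braF _ _ _ hιx, hyy i k, mul_zero]
  have h012 := J_four braF hιx (hE 0 1) (hE 0 2) (hE 1 2)
  rw [chi, chi, chi, braF_J, J_mono] at h012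
  have h1 := hinj (h012.trans (map_zero _).symm)
  have h2 := hv.left 0 2 hv.two_ne_zero (by
    intro h
    apply hv.one_ne_zero
    have : (1 : ZMod r) = 2 - (0 + 1) := by ring
    rw [this, h, sub_self])
  rw [zero_add] at h2
  have h3 : ((det (v 1 - v 0) (v 2 - v 0) : ℤ) : ℂ) = 0 := by
    have := congrArg (fun f : Laurent => f.coeff (v 0 + v 1 + v 2)) h1
    simpa using this
  rw [Int.cast_eq_zero] at h3
  omega

end Val

end DoubleSolid
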