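import Pool.Agent.Work.MP_4c1522_ag.Finite

/-!
# The maximal minors of a base point free system of any number of sections do not all vanish
-/

open AddMonoidAlgebra

namespace DoubleSolid

variable {r : ℕ} {v : ZMod r → ℤ × ℤ}

/-- integrality of the vertex monomials -/
lemma vertex_integral_n {n : ℕ} (hv : IsPolygon v) (x : Fin n → Laurent)
    (hgen : ∀ i, ∃ a : Fin n → Laurent, (∀ j, a j ∈ alg (cone v i i)) ∧
      ∑ j, a j * x j = single (v i) 1) (p : Fin n) (hp : x p ≠ 0) (i : ZMod r) :
    IsIntegral (Subring.closure (Set.range (algebraMap ℂ (FractionRing Laurent)) ∪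
      Set.range fun j => algebraMap Laurent (FractionRing Laurent) (x j) /
        algebraMap Laurent (FractionRing Laurent) (x p)))
      (chi (v i) / algebraMap Laurent (FractionRing Laurent) (x p)) := by
  have := hv.neZero
  set s : Set (FractionRing Laurent) := (Set.range (algebraMap ℂ (FractionRing Laurent)) ∪
      Set.range fun j => algebraMap Laurent (FractionRing Laurent) (x j) /
        algebraMap Laurent (FractionRing Laurent) (x p)) with hs
  have h1 := iInf_valuationSubring_superset (K := FractionRing Laurent) (s := s)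
  suffices h : chi (v i) / algebraMap Laurent (FractionRing Laurent) (x p) ∈
      (integralClosure (Subring.closure s) (FractionRing Laurent)).toSubring from h
  rw [← h1, Subring.mem_iInf]
  rintro ⟨V, hV⟩
  show _ ∈ V.toSubring
  set ι := algebraMap Laurent (FractionRing Laurent) with hι
  have hιx : ι (x p) ≠ 0 := by
    rw [hι]
    exact fun h => hp ((IsFractionRing.injective Laurent (FractionRing Laurent))
      (h.trans (map_zero _).symm))
  have hC : ∀ c : ℂ, algebraMap ℂ (FractionRing Laurent) c ∈ V := fun c =>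
    hV (Or.inl ⟨c, rfl⟩)
  have hz : ∀ j, ι (x j) / ι (x p) ∈ V := fun j => hV (Or.inr ⟨j, rfl⟩)
  obtain ⟨i₀, hi₀⟩ := Finite.exists_max (fun j => V.valuation (chi (v j)))
  have hcone : ∀ f ∈ alg (cone v i₀ i₀), ι f ∈ V := by
    intro f hf
    refine supp_induction (p := fun f => ι f ∈ V) (by rw [map_zero]; exact zero_mem V)
      (fun a b ha hb => by rw [map_add]; exact add_mem ha hb) (fun m hm c => ?_) hf
    have h2 : (single m c : Laurent) = algebraMap ℂ Laurent c * single m 1 := by
      show _ = single 0 c * single m 1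
      rw [single_mul_single, zero_add, mul_one]
    rw [h2, map_mul]
    refine mul_mem ?_ ?_
    · rw [hι, ← IsScalarTower.algebraMap_apply]
      exact hC c
    · exact (V.valuation_le_one_iff _).1 (val_cone hv V i₀ hi₀ m hm)
  obtain ⟨a, ha, hsum⟩ := hgen i₀
  have hpos : 0 < V.valuation (chi (v i₀)) := by
    rw [Valuation.pos_iff]
    exact chi_ne_zero _
  obtain ⟨j, hj⟩ : ∃ j, V.valuation (chi (v i₀)) ≤ V.valuation (ι (x j)) := by
    by_contra hc
    push Not at hc
    have h2 : V.valuation (∑ j, ι (a j) * ι (x j)) < V.valuation (chi (v i₀)) := by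
      apply Valuation.map_sum_lt _ hpos.ne'
      intro j _
      rw [map_mul]
      calc V.valuation (ι (a j)) * V.valuation (ι (x j))
          ≤ 1 * V.valuation (ι (x j)) :=
            mul_le_mul_left ((V.valuation_le_one_iff _).2 (hcone _ (ha j))) _
        _ = V.valuation (ι (x j)) := one_mul _
        _ < _ := hc j
    have h3 : ∑ j, ι (a j) * ι (x j) = chi (v i₀) := by
      rw [chi, ← hι, ← hsum, map_sum]
      exact Finset.sum_congr rfl fun j _ => (map_mul _ _ _).symm
    rw [h3] at h2
    exact lt_irrefl _ h2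
  have hpp : 0 < V.valuation (ι (x p)) := by
    rw [Valuation.pos_iff]
    exact hιx
  have h4 : V.valuation (ι (x j)) ≤ V.valuation (ι (x p)) := by
    have h5 := (V.valuation_le_one_iff _).2 (hz j)
    rw [map_div₀, div_le_one₀ hpp] at h5
    exact h5
  refine (V.valuation_le_one_iff _).1 ?_
  rw [map_div₀, div_le_one₀ hpp]
  exact (hi₀ i).trans (hj.trans h4)

/-- **the maximal minors do not all vanish** -/
theorem exists_J_ne_zero_n {n : ℕ} (hv : IsPolygon v) (x : Fin n → Laurent)
    (hgen : ∀ i, ∃ a : Fin n → Laurent, (∀ j, a j ∈ alg (cone v i i)) ∧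
      ∑ j, a j * x j = single (v i) 1)
    (hJ : ∀ i j k, bra.J 1 1 1 (x i) (x j) (x k) = 0) : False := by
  have := hv.neZero
  have hcz : CharZero (FractionRing Laurent) :=
    charZero_of_injective_algebraMap (algebraMap ℂ (FractionRing Laurent)).injective
  -- some `x p` is nonzero
  obtain ⟨p, hp⟩ : ∃ p, x p ≠ 0 := by
    by_contra hc
    push Not at hc
    obtain ⟨a, -, ha⟩ := hgen 0
    rw [Finset.sum_eq_zero (fun j _ => by rw [hc j, mul_zero])] at ha
    have h1 : chi (v 0) = 0 := by rw [chi, ← ha, map_zero]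
    exact chi_ne_zero _ h1
  set ι := algebraMap Laurent (FractionRing Laurent) with hι
  have hinj : Function.Injective ι := IsFractionRing.injective Laurent (FractionRing Laurent)
  have hιx : ι (x p) ≠ 0 := fun h => hp (hinj (h.trans (map_zero _).symm))
  have hzz : ∀ i j, braF.κ (ι (x i) / ι (x p)) (ι (x j) / ι (x p)) = 0 := by
    intro i j
    have h1 := J_quot braF (ι (x p)) (ι (x i)) (ι (x j)) hιx
    rw [hι, braF_J, hJ, map_zero] at h1
    exact (mul_eq_zero.1 h1.symm).resolve_left (pow_ne_zero 3 hιx)
  have hyy := kill braF (fun j => ι (x j) / ι (x p)) (fun i => chi (v i) / ι (x p)) hzz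
    (fun i => vertex_integral_n hv x hgen p hp i)
  have hE : ∀ i k, braF.J 1 1 1 (ι (x p)) (chi (v i)) (chi (v k)) = 0 := by
    intro i k
    rw [J_quot braF _ _ _ hιx, hyy i k, mul_zero]
  have h012 := J_four braF hιx (hE 0 1) (hE 0 2) (hE 1 2)
  rw [chi, chi, chi, braF_J, J_mono] at h012
  have h1 := hinj (h012.trans (map_zero _).symm)
  have h2 := hv.left 0 2 hv.two_ne_zero (by
    intro h
    apply hv.one_ne_zero
    have : (1 : ZMod r) = 2 - (0 + 1) := by ring
    rw [this, h, sub_self])
  rw [zero_add] at h2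
  have h3 : ((det (v 1 - v 0) (v 2 - v 0) : ℤ) : ℂ) = 0 := by
    have := congrArg (fun f : Laurent => f.coeff (v 0 + v 1 + v 2)) h1
    simpa using this
  rw [Int.cast_eq_zero] at h3
  omega

end DoubleSolid
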