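import Pool.Agent.Work.MP_4c1522_ag.Abs

/-!
# All surfaces: the abstract theorem for the sheaf of 2-forms
-/

open MvPolynomial

namespace DoubleSolid

variable {K Ω : Type} [Field K] [Algebra ℂ K] [AddCommGroup Ω] [Module K Ω]

/-- the forms regular on a chart with ring of functions `A`: the `A`-module spanned by the
`da ∧ db` -/
noncomputable def reg (B : BiDer K Ω) (A : Subalgebra ℂ K) : Submodule A Ω :=
  Submodule.span A {η | ∃ a ∈ A, ∃ b ∈ A, η = B.κ a b}

variable (B : BiDer K Ω)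

lemma reg_mono {A A' : Subalgebra ℂ K} (h : A ≤ A') {η : Ω} (hη : η ∈ reg B A) :
    η ∈ reg B A' := by
  refine Submodule.span_induction (p := fun η _ => η ∈ reg B A') ?_ (zero_mem _)
    (fun _ _ _ _ h1 h2 => add_mem h1 h2) (fun a η _ hη => ?_) hη
  · rintro _ ⟨a, ha, b, hb, rfl⟩
    exact Submodule.subset_span ⟨a, h ha, b, h hb, rfl⟩
  · exact (reg B A').smul_mem (⟨a.1, h a.2⟩ : A') hη

/-- the general theorem, contrapositive form -/
theorem general {ι : Type} (A : ι → Subalgebra ℂ K) (u : ι → Kˣ)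
    (hu : ∀ i j, (u i : K) / (u j : K) ∈ A i ⊔ A j) (b : ℕ) (hb : 3 ≤ b)
    (F : MvPolynomial (Fin 4) ℂ) (hF : F.IsHomogeneous (2 * b)) (hs : SmoothForm F)
    (x : Fin 4 → K) (w : K) (hx : ∀ i j, x j / (u i : K) ∈ A i)
    (hw : ∀ i, w / (u i : K) ^ b ∈ A i)
    (hgen : ∀ i, ∃ a : Fin 4 → K, (∀ j, a j ∈ A i) ∧ ∑ j, a j * x j = u i)
    (hwF : w ^ 2 = aeval x F)
    (hpg : ∀ η : Ω, (∀ i, η ∈ reg B (A i)) → η = 0)
    (hfin : ∃ i j k, x k ≠ 0 ∧ B.κ (x i / x k) (x j / x k) ≠ 0) :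
    ∃ n : ι → ι → Ω, (∀ i j, ((u i : K) ^ (3 * b - 4)) • n i j ∈ reg B (A i ⊔ A j)) ∧
      (∀ i j l, n i j + n j l = n i l) ∧
      (∃ g : ι → Ω, (∀ i, ((u i : K) ^ (2 * b - 4)) • g i ∈ reg B (A i)) ∧
        ∀ i j, w • n i j = g i - g j) ∧
      ¬ ∃ c : ι → Ω, (∀ i, ((u i : K) ^ (3 * b - 4)) • c i ∈ reg B (A i)) ∧
        ∀ i j, n i j = c i - c j := by
  by_contra hcon
  push Not at hcon
  obtain ⟨β, rfl⟩ : ∃ β, b = β + 3 := ⟨b - 3, by omega⟩
  have e1 : 3 * (β + 3) - 4 = 3 * β + 5 := by omega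
  have e2 : 2 * (β + 3) - 4 = 2 * β + 2 := by omega
  rw [e1, e2] at hcon
  have hinv : ∀ (i : ι) (y : K), (((u i)⁻¹ : Kˣ) : K) * y = y / (u i : K) := fun i y => by
    rw [Units.val_inv_eq_inv_val, mul_comm, div_eq_mul_inv]
  have key := main_abs B (fun a η h => smul_eq_zero.1 h) A (fun i j => A i ⊔ A j)
    (fun i j => le_sup_left) (fun i j => le_sup_right)
    (fun i => (reg B (A i)).toAddSubgroup) (fun i j => (reg B (A i ⊔ A j)).toAddSubgroup)
    (fun i a ha η hη => (reg B (A i)).smul_mem (⟨a, ha⟩ : A i) hη)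
    (fun i j a ha η hη => (reg B (A i ⊔ A j)).smul_mem (⟨a, ha⟩ : (A i ⊔ A j : Subalgebra ℂ K)) hη)
    (fun i j η hη => reg_mono B le_sup_left hη) (fun i j η hη => reg_mono B le_sup_right hη)
    (fun i a ha b hb => Submodule.subset_span ⟨a, ha, b, hb, rfl⟩) u (fun i j => by
      rw [mul_comm, hinv]; exact hu i j) β F hF hs x w
    (fun i j => by rw [hinv]; exact hx i j)
    (fun i => by
      rw [Units.val_inv_eq_inv_val, inv_pow, mul_comm, ← div_eq_mul_inv]; exact hw i)
    hgen hwF hpg (fun n hn hc hg => hcon n hn hc hg)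
  obtain ⟨i, j, k, hk, hne⟩ := hfin
  apply hne
  have h1 := B.J_unit (Units.mk0 (x k) hk) 1 1 1 1 (x i / x k) (x j / x k)
  rw [pow_one, Units.val_mk0, mul_one, mul_div_cancel₀ _ hk, mul_div_cancel₀ _ hk, key k i j] at h1
  have h2 := (smul_eq_zero.1 h1.symm).resolve_left (pow_ne_zero _ hk)
  simp only [BiDer.J, Nat.cast_one, one_mul, one_smul] at h2
  rw [BiDer.one_left, BiDer.one_left, smul_zero, smul_zero, sub_zero, add_zero] at h2
  exact h2

/-- the biderivation of 2-forms, as functions of two vector fields -/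
noncomputable def formsBiDer (K : Type) [Field K] [Algebra ℂ K] :
    BiDer K (Derivation ℂ K K → Derivation ℂ K K → K) where
  κ a b := fun D E => D a * E b - E a * D b
  add a b c := by
    funext D E
    simp only [map_add, Pi.add_apply]
    ring
  mul a b c := by
    funext D E
    simp only [Derivation.leibniz, Pi.add_apply, Pi.smul_apply, smul_eq_mul]
    ring
  const z c := by
    funext D E
    simp only [Derivation.map_algebraMap, Pi.zero_apply]
    ring
  anti a b := by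
    funext D E
    simp only [Pi.neg_apply]
    ring
  self a := by
    funext D E
    simp only [Pi.zero_apply]
    ring

end DoubleSolid
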