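import Mathlib

/-!
# Generic points of hypersurfaces
-/

open MvPolynomial Topology Filter

namespace IndexOne

/-- the derivative of a polynomial function -/
lemma hasStrictFDerivAt_eval {σ : Type} [Fintype σ] (F : MvPolynomial σ ℂ) (p : σ → ℂ) :
    HasStrictFDerivAt (fun x : σ → ℂ => eval x F)
      (∑ l, eval p (pderiv l F) • ContinuousLinearMap.proj (R := ℂ) (φ := fun _ : σ => ℂ) l) p := by
  classical
  induction F using MvPolynomial.induction_on with
  | C a =>
    have h2 : (fun x : σ → ℂ => eval x (C a : MvPolynomial σ ℂ)) = fun _ => a := by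
      funext x
      rw [eval_C]
    rw [h2]
    exact (hasStrictFDerivAt_const a p).congr_fderiv (by ext v; simp)
  | add q r hq hr =>
    have h2 : (fun x : σ → ℂ => eval x (q + r)) = fun x => eval x q + eval x r := by
      funext x
      rw [map_add]
    rw [h2]
    exact (hq.add hr).congr_fderiv (by ext v; simp [add_mul, Finset.sum_add_distrib])
  | mul_X q n hq =>
    have h1 : HasStrictFDerivAt (fun x : σ → ℂ => x n)
        (ContinuousLinearMap.proj (R := ℂ) (φ := fun _ : σ => ℂ) n) p :=
      (ContinuousLinearMap.proj (R := ℂ) (φ := fun _ : σ => ℂ) n).hasStrictFDerivAt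
    have h := hq.mul h1
    have h2 : (fun x : σ → ℂ => eval x (q * X n)) = fun x => eval x q * x n := by
      funext x
      rw [map_mul, eval_X]
    rw [h2]
    refine h.congr_fderiv ?_
    ext v
    simp only [add_apply, smul_apply, ContinuousLinearMap.proj_apply,
      FunLike.coe_sum, Finset.sum_apply, FunLike.coe_smul,
      Pi.smul_apply, smul_eq_mul]
    have h3 : ∀ l, eval p (pderiv l (q * X n)) * v l =
        (if l = n then eval p q * v l else 0) + p n * (eval p (pderiv l q) * v l) := by
      intro l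
      rw [Derivation.leibniz, map_add, smul_eq_mul, smul_eq_mul, map_mul, map_mul, eval_X,
        pderiv_X]
      by_cases hl : l = n
      · subst hl; simp; ring
      · rw [if_neg hl, Pi.single_eq_of_ne' (Ne.symm fun h => hl h.symm)]; simp; ring
    rw [Finset.sum_congr rfl fun l _ => h3 l, Finset.sum_add_distrib, ← Finset.mul_sum]
    simp

/-- the generic tuples are dense -/
lemma dense_indep (k : Type) [Field k] [Countable k] [Algebra k ℂ] (n : ℕ) :
    Dense {s : Fin n → ℂ | AlgebraicIndependent k s} := by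
  have hcount : Countable (MvPolynomial (Fin n) k) := by
    rw [← Cardinal.mk_le_aleph0_iff]
    exact (MvPolynomial.cardinalMk_le_max).trans (max_le (max_le Cardinal.mk_le_aleph0
      Cardinal.mk_le_aleph0) le_rfl)
  have h1 : {s : Fin n → ℂ | AlgebraicIndependent k s} =
      ⋂ P : {P : MvPolynomial (Fin n) k // P ≠ 0}, {s | eval s (map (algebraMap k ℂ) P.1) ≠ 0} := by
    ext s
    rw [Set.mem_ofPred_eq, algebraicIndependent_iff, Set.mem_iInter]
    constructor
    · rintro h ⟨P, hP⟩ h0
      apply hP
      apply h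
      rw [eval_map] at h0
      exact h0
    · intro h P h0
      by_contra hP
      apply h ⟨P, hP⟩
      rw [eval_map]
      exact h0
  rw [h1]
  refine dense_iInter_of_isOpen (fun P => ?_) (fun P => ?_)
  · exact isOpen_ne.preimage (continuous_eval (map (algebraMap k ℂ) P.1))
  · intro c
    rw [mem_closure_iff_nhds]
    intro V hV
    obtain ⟨ε, hε, hball⟩ := Metric.mem_nhds_iff.1 hV
    by_contra hemp
    rw [Set.not_nonempty_iff_eq_empty] at hemp
    apply P.2
    apply MvPolynomial.map_injective (algebraMap k ℂ) (algebraMap k ℂ).injective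
    rw [map_zero]
    refine MvPolynomial.funext_set (fun i => Metric.ball (c i) ε) (fun i => ?_) fun x hx => ?_
    · have h2 : (Metric.ball (c i) ε) ∈ 𝓝 (c i) := Metric.ball_mem_nhds _ hε
      exact infinite_of_mem_nhds (c i) h2
    · rw [map_zero]
      by_contra hne
      have h3 : x ∈ V := hball (by
        rw [Metric.mem_ball, dist_pi_lt_iff hε]
        intro i
        exact hx i (Set.mem_univ i))
      have h4 : x ∈ V ∩ {s | eval s (map (algebraMap k ℂ) P.1) ≠ 0} := ⟨h3, hne⟩
      rw [hemp] at h4
      exact h4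

/-- **Generic points of a hypersurface near a smooth point** -/
theorem exists_generic (k : Type) [Field k] [Countable k] [Algebra k ℂ]
    (F G : MvPolynomial (Fin 6) ℂ) (p : Fin 6 → ℂ) (hF : eval p F = 0) (hG : eval p G ≠ 0)
    (j : Fin 6) (hj : eval p (pderiv j F) ≠ 0) :
    ∃ z : Fin 6 → ℂ, eval z F = 0 ∧ eval z G ≠ 0 ∧
      ∃ i : Fin 4 → Fin 6, AlgebraicIndependent k (z ∘ i) := by
  classical
  -- the chart
  set Φ : (Fin 6 → ℂ) → (Fin 6 → ℂ) := fun x l => if l = j then eval x F else x l with hΦ
  set L : (Fin 6 → ℂ) →L[ℂ] (Fin 6 → ℂ) := ContinuousLinearMap.pi fun l =>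
    if l = j then (∑ l, eval p (pderiv l F) • ContinuousLinearMap.proj (R := ℂ)
      (φ := fun _ : Fin 6 => ℂ) l) else ContinuousLinearMap.proj (R := ℂ)
      (φ := fun _ : Fin 6 => ℂ) l with hL
  have hderiv : HasStrictFDerivAt Φ L p := by
    rw [hasStrictFDerivAt_pi']
    intro l
    have h1 : (ContinuousLinearMap.proj (R := ℂ) (φ := fun _ : Fin 6 => ℂ) l).comp L =
        if l = j then (∑ l, eval p (pderiv l F) • ContinuousLinearMap.proj (R := ℂ)
          (φ := fun _ : Fin 6 => ℂ) l) else ContinuousLinearMap.proj (R := ℂ)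
          (φ := fun _ : Fin 6 => ℂ) l := by
      rw [hL]
      exact ContinuousLinearMap.proj_pi _ l
    rw [h1]
    by_cases hl : l = j
    · simp only [hΦ, hl, if_true]
      exact hasStrictFDerivAt_eval F p
    · simp only [hΦ, hl, if_false]
      exact (ContinuousLinearMap.proj (R := ℂ) (φ := fun _ : Fin 6 => ℂ) l).hasStrictFDerivAt
  have hsurj : L.range = ⊤ := by
    rw [LinearMap.range_eq_top]
    intro y
    set c : ℂ := (y j - ∑ l ∈ Finset.univ.erase j, eval p (pderiv l F) * y l) /
      eval p (pderiv j F) with hc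
    refine ⟨fun l => if l = j then c else y l, ?_⟩
    funext l
    show L _ l = y l
    rw [hL, ContinuousLinearMap.coe_pi']
    by_cases hl : l = j
    · subst hl
      simp only [if_true, FunLike.coe_sum, Finset.sum_apply,
        FunLike.coe_smul, Pi.smul_apply, ContinuousLinearMap.proj_apply, smul_eq_mul]
      rw [← Finset.add_sum_erase _ _ (Finset.mem_univ l)]
      rw [if_pos rfl, Finset.sum_congr rfl fun m hm => by
        rw [if_neg (Finset.ne_of_mem_erase hm)]]
      rw [hc]
      field_simp
      ring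
    · simp only [hl, if_false, ContinuousLinearMap.proj_apply]
  have hmap : map Φ (𝓝 p) = 𝓝 (Φ p) := hderiv.map_nhds_eq_of_surj hsurj
  -- the neighbourhood
  have hN : {x : Fin 6 → ℂ | eval x G ≠ 0} ∈ 𝓝 p :=
    (isOpen_ne.preimage (continuous_eval G)).mem_nhds hG
  have hΦN : Φ '' {x : Fin 6 → ℂ | eval x G ≠ 0} ∈ 𝓝 (Φ p) := by
    rw [← hmap]
    exact image_mem_map hN
  -- the parameters
  set i : Fin 4 → Fin 6 := fun t => j.succAbove t.castSucc with hi
  set ψ : (Fin 4 → ℂ) → (Fin 6 → ℂ) := fun s =>
    j.insertNth (α := fun _ => ℂ) 0 (Fin.snoc (α := fun _ => ℂ) s (p (j.succAbove (Fin.last 4))))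
    with hψ
  have hψj : ∀ s, ψ s j = 0 := fun s => Fin.insertNth_apply_same _ _ _
  have hψi : ∀ s t, ψ s (i t) = s t := by
    intro s t
    rw [hψ, hi]
    dsimp only
    rw [Fin.insertNth_apply_succAbove, Fin.snoc_castSucc]
  have hψl : ∀ s, ψ s (j.succAbove (Fin.last 4)) = p (j.succAbove (Fin.last 4)) := by
    intro s
    rw [hψ]
    dsimp only
    rw [Fin.insertNth_apply_succAbove, Fin.snoc_last]
  have hcases : ∀ l : Fin 6, l = j ∨ (∃ t, l = i t) ∨ l = j.succAbove (Fin.last 4) := by
    intro l
    rcases Fin.eq_self_or_eq_succAbove j l with rfl | ⟨m, rfl⟩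
    · exact Or.inl rfl
    · rcases Fin.eq_castSucc_or_eq_last m with ⟨t, rfl⟩ | rfl
      · exact Or.inr (Or.inl ⟨t, rfl⟩)
      · exact Or.inr (Or.inr rfl)
  have hψc : Continuous ψ := by
    refine continuous_pi fun l => ?_
    rcases hcases l with rfl | ⟨t, rfl⟩ | rfl
    · simp only [hψj]
      exact continuous_const
    · simp only [hψi]
      exact continuous_apply t
    · simp only [hψl]
      exact continuous_const
  have hne : ∀ m : Fin 5, j.succAbove m ≠ j := fun m => Fin.succAbove_ne j m
  have hψp : ψ (p ∘ i) = Φ p := by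
    funext l
    rcases hcases l with rfl | ⟨t, rfl⟩ | rfl
    · rw [hψj, hΦ]
      simp only [if_true]
      exact hF.symm
    · rw [hψi, hΦ]
      simp only [hi, hne, if_false]
      rfl
    · rw [hψl, hΦ]
      simp only [hne, if_false]
  have hV : ψ ⁻¹' (Φ '' {x : Fin 6 → ℂ | eval x G ≠ 0}) ∈ 𝓝 (p ∘ i) := by
    apply hψc.continuousAt
    rw [hψp]
    exact hΦN
  obtain ⟨s, hs, hsind⟩ := (dense_indep k 4).inter_nhds_nonempty hV
  obtain ⟨z, hz, hzs⟩ := hsind
  have hzF : eval z F = 0 := by
    have h := congrFun hzs j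
    rw [hψj, hΦ] at h
    simpa using h
  have hzi : z ∘ i = s := by
    funext t
    have h := congrFun hzs (i t)
    rw [hψi, hΦ] at h
    simp only [hi, hne, if_false] at h
    exact h
  refine ⟨z, hzF, hz, i, ?_⟩
  rw [hzi]
  exact hs

end IndexOne
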