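import Pool.Agent.Work.MP_4c1522_ag.HypMinor

/-!
# Surfaces in hypersurfaces of index one: the cohomological argument
-/

open MvPolynomial

namespace IndexOne

open DoubleSolid

/-- the charts of a variety with a line bundle and a sheaf of 2-forms -/
structure Cover {K Ω : Type*} [CommRing K] [Algebra ℂ K] [AddCommGroup Ω] [Module K Ω]
    (B : BiDer K Ω) (ι : Type*) where
  A : ι → Subalgebra ℂ K
  A₂ : ι → ι → Subalgebra ℂ K
  hA : ∀ i j, A i ≤ A₂ i j
  ω : ι → AddSubgroup Ω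
  ω₂ : ι → ι → AddSubgroup Ω
  hω : ∀ i, ∀ a ∈ A i, ∀ η ∈ ω i, a • η ∈ ω i
  hω₂ : ∀ i j, ∀ a ∈ A₂ i j, ∀ η ∈ ω₂ i j, a • η ∈ ω₂ i j
  hωl : ∀ i j, ω i ≤ ω₂ i j
  hωr : ∀ i j, ω j ≤ ω₂ i j
  hκ : ∀ i, ∀ a ∈ A i, ∀ b ∈ A i, B.κ a b ∈ ω i
  u : ι → Kˣ

variable {K Ω : Type*} [CommRing K] [Algebra ℂ K] [AddCommGroup Ω] [Module K Ω]
  {B : BiDer K Ω} {ι : Type*} (C : Cover B ι)

namespace Cover

/-- `η` is a global section of `ω ⊗ L ^ (-N)` -/
def Global (N : ℕ) (η : Ω) : Prop := ∀ i, ((C.u i : K) ^ N) • η ∈ C.ω i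

/-- `H¹ (ω ⊗ L ^ (-N)) = 0` -/
def H1Van (N : ℕ) : Prop :=
  ∀ n : ι → ι → Ω, (∀ i j, ((C.u i : K) ^ N) • n i j ∈ C.ω₂ i j) →
    (∀ i j k, n i j + n j k = n i k) →
    ∃ c : ι → Ω, (∀ i, ((C.u i : K) ^ N) • c i ∈ C.ω i) ∧ ∀ i j, n i j = c i - c j

/-- `x` is a system of sections of `L` which generates `L` -/
structure Gen {n : ℕ} (x : Fin n → K) : Prop where
  mem : ∀ i j, (((C.u i)⁻¹ : Kˣ) : K) * x j ∈ C.A i
  gen : ∀ i, ∃ a : Fin n → K, (∀ j, a j ∈ C.A i) ∧ ∑ j, a j * x j = C.u i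

lemma huu (i : ι) : (C.u i : K) * (((C.u i)⁻¹ : Kˣ) : K) = 1 := (C.u i).mul_inv

lemma huu' (i : ι) (N : ℕ) : (C.u i : K) ^ N * (((C.u i)⁻¹ : Kˣ) : K) ^ N = 1 := by
  rw [← mul_pow, C.huu, one_pow]

variable {C}

/-- multiplication by a section -/
lemma smul_global_mem {n : ℕ} {x : Fin n → K} (hx : C.Gen x) (N : ℕ) {i : ι} {η : Ω}
    (hη : ((C.u i : K) ^ (N + 1)) • η ∈ C.ω i) (j : Fin n) :
    ((C.u i : K) ^ N) • (x j • η) ∈ C.ω i := by
  have h : ((C.u i : K) ^ N) • (x j • η) =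
      ((((C.u i)⁻¹ : Kˣ) : K) * x j) • (((C.u i : K) ^ (N + 1)) • η) := by
    rw [smul_smul, smul_smul]
    congr 1
    rw [pow_succ]
    linear_combination (-((C.u i : K) ^ N * x j)) * C.huu i
  rw [h]
  exact C.hω i _ (hx.mem i j) _ hη

lemma smul_global_mem₂ {n : ℕ} {x : Fin n → K} (hx : C.Gen x) (N : ℕ) {i k : ι} {η : Ω}
    (hη : ((C.u i : K) ^ (N + 1)) • η ∈ C.ω₂ i k) (j : Fin n) :
    ((C.u i : K) ^ N) • (x j • η) ∈ C.ω₂ i k := by
  have h : ((C.u i : K) ^ N) • (x j • η) =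
      ((((C.u i)⁻¹ : Kˣ) : K) * x j) • (((C.u i : K) ^ (N + 1)) • η) := by
    rw [smul_smul, smul_smul]
    congr 1
    rw [pow_succ]
    linear_combination (-((C.u i : K) ^ N * x j)) * C.huu i
  rw [h]
  exact C.hω₂ i k _ (C.hA i k (hx.mem i j)) _ hη

variable [Nontrivial K] (htf : ∀ (a : K) (η : Ω), a • η = 0 → a = 0 ∨ η = 0)

include htf in
/-- negative twists have no global sections -/
lemma global_eq_zero {n : ℕ} {x : Fin n → K} (hx : C.Gen x)
    (H0 : ∀ η, C.Global 0 η → η = 0) (N : ℕ) : ∀ η, C.Global N η → η = 0 := by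
  rcases isEmpty_or_nonempty ι with hι | ⟨⟨i₀⟩⟩
  · intro η _
    exact H0 η fun i => hι.elim i
  obtain ⟨m, hm⟩ : ∃ m, x m ≠ 0 := by
    by_contra hc
    push Not at hc
    obtain ⟨a, -, ha⟩ := hx.gen i₀
    rw [Finset.sum_eq_zero (fun j _ => by rw [hc j, mul_zero])] at ha
    exact (C.u i₀).ne_zero ha.symm
  induction N with
  | zero => exact H0
  | succ N ih =>
    intro η hη
    have h1 := ih (x m • η) fun i => smul_global_mem hx N (hη i) m
    exact (htf _ _ h1).resolve_left hm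

include htf in
/-- **The vanishing for the first negative twist implies the vanishing for all of them.** -/
lemma H1Van_succ {n : ℕ} {x : Fin n → K} (hx : C.Gen x)
    (H0 : ∀ η, C.Global 0 η → η = 0) (h1 : C.H1Van 1) (N : ℕ) : C.H1Van (N + 1) := by
  induction N with
  | zero => exact h1
  | succ N ih =>
    intro c hc hcoc
    have h2 : ∀ j : Fin n, ∃ b : ι → Ω, (∀ i, ((C.u i : K) ^ (N + 1)) • b i ∈ C.ω i) ∧
        ∀ i k, x j • c i k = b i - b k := by
      intro j
      obtain ⟨b, hb, hb'⟩ := ih (fun i k => x j • c i k)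
        (fun i k => smul_global_mem₂ hx (N + 1) (hc i k) j)
        (fun i k l => by rw [← smul_add, hcoc])
      exact ⟨b, hb, hb'⟩
    choose b hb hb' using h2
    have h3 : ∀ j k i i', x k • b j i - x j • b k i = x k • b j i' - x j • b k i' := by
      intro j k i i'
      have e1 : x k • (b j i - b j i') = x j • (b k i - b k i') := by
        rw [← hb', ← hb', smul_comm]
      linear_combination (norm := module) e1
    have h4 : ∀ j k i, x k • b j i = x j • b k i := by
      intro j k i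
      have := global_eq_zero htf hx H0 N (x k • b j i - x j • b k i) (fun i' => by
        rw [h3 j k i i', smul_sub]
        exact sub_mem (smul_global_mem hx N (hb j i') k) (smul_global_mem hx N (hb k i') j))
      exact sub_eq_zero.1 this
    choose a ha ha' using hx.gen
    have h5 : ∀ i j, x j • ((((C.u i)⁻¹ : Kˣ) : K) • ∑ k, a i k • b k i) = b j i := by
      intro i j
      rw [smul_comm, Finset.smul_sum]
      have e1 : ∑ k, x j • (a i k • b k i) = ∑ k, (a i k * x k) • b j i := by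
        refine Finset.sum_congr rfl fun k _ => ?_
        rw [smul_comm, ← h4 j k i, smul_smul]
      rw [e1, ← Finset.sum_smul, ha', smul_smul, mul_comm, C.huu, one_smul]
    refine ⟨fun i => (((C.u i)⁻¹ : Kˣ) : K) • ∑ k, a i k • b k i, fun i => ?_, fun i k => ?_⟩
    · have e1 : ((C.u i : K) ^ (N + 1 + 1)) • ((((C.u i)⁻¹ : Kˣ) : K) • ∑ k, a i k • b k i) =
          ∑ k, a i k • (((C.u i : K) ^ (N + 1)) • b k i) := by
        rw [smul_smul, Finset.smul_sum]
        refine Finset.sum_congr rfl fun k _ => ?_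
        rw [smul_smul, smul_smul]
        congr 1
        rw [pow_succ (C.u i : K) (N + 1)]
        linear_combination ((C.u i : K) ^ (N + 1) * a i k) * C.huu i
      rw [e1]
      exact sum_mem fun k _ => C.hω i _ (ha i k) _ (hb k i)
    · obtain ⟨m, hm⟩ : ∃ m, x m ≠ 0 := by
        by_contra hc
        push Not at hc
        have h6 := ha' i
        rw [Finset.sum_eq_zero (fun j _ => by rw [hc j, mul_zero])] at h6
        exact (C.u i).ne_zero h6.symm
      have h6 : x m • (c i k - ((((C.u i)⁻¹ : Kˣ) : K) • ∑ k, a i k • b k i -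
          (((C.u k)⁻¹ : Kˣ) : K) • ∑ l, a k l • b l k)) = 0 := by
        rw [smul_sub, smul_sub, h5, h5, hb', sub_self]
      exact sub_eq_zero.1 ((htf _ _ h6).resolve_left hm)

end Cover

/-- the gradient of `F` vanishes only at the origin -/
def Smooth {n : ℕ} (F : MvPolynomial (Fin n) ℂ) : Prop :=
  ∀ p : Fin n → ℂ, (∀ j, eval p (pderiv j F) = 0) → p = 0

lemma unit_of_smooth {n : ℕ} {A : Type*} [CommRing A] [Algebra ℂ A]
    {F : MvPolynomial (Fin n) ℂ} (hF : Smooth F) (y : Fin n → A)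
    (hy : ∃ a : Fin n → A, ∑ j, a j * y j = 1) :
    ∃ e : Fin n → A, ∑ l, e l * aeval y (pderiv l F) = 1 := by
  rw [← Ideal.mem_span_range_iff_exists_fun, ← Ideal.eq_top_iff_one]
  set I := Ideal.span (Set.range fun l => aeval y (pderiv l F)) with hI
  set J₀ : Ideal (MvPolynomial (Fin n) ℂ) := Ideal.span (Set.range fun l => pderiv l F) with hJ₀
  have h1 : J₀ ≤ I.comap (aeval y).toRingHom := by
    rw [hJ₀, Ideal.span_le]
    rintro _ ⟨l, rfl⟩
    exact Ideal.subset_span ⟨l, rfl⟩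
  have h2 : ∀ i, (X i : MvPolynomial (Fin n) ℂ) ∈ J₀.radical := by
    intro i
    rw [← MvPolynomial.vanishingIdeal_zeroLocus_eq_radical (K := ℂ)]
    rw [MvPolynomial.mem_vanishingIdeal_iff]
    intro p hp
    have h3 : p = 0 := hF p fun j => by
      have := hp (pderiv j F) (Ideal.subset_span ⟨j, rfl⟩)
      rwa [← MvPolynomial.coe_aeval_eq_eval]
    rw [h3]
    simp
  have h4 : ∀ i, y i ∈ I.radical := by
    intro i
    obtain ⟨n, hn⟩ := h2 i
    refine ⟨n, ?_⟩
    have := h1 hn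
    rw [Ideal.mem_comap] at this
    simpa using this
  obtain ⟨a, ha⟩ := hy
  have h5 : (1 : A) ∈ I.radical := by
    rw [← ha]
    exact sum_mem fun j _ => Ideal.mul_mem_left _ _ (h4 j)
  rw [← Ideal.radical_eq_top, Ideal.eq_top_iff_one]
  exact h5

section Rigid

lemma κ_scale (B : BiDer K Ω) (u : Kˣ) (y z : Fin 6 → K) (p q r s : Fin 6) :
    M B (fun j => (u : K) * y j) (fun j => (u : K) * z j) p q r s =
      ((u : K) ^ 4) • M B y z p q r s := by
  have h : ∀ i j k, J B (fun j => (u : K) * y j) i j k = ((u : K) ^ 3) • J B y i j k := by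
    intro i j k
    have := B.J_unit u 1 1 1 (y i) (y j) (y k)
    simp only [pow_one] at this
    exact this
  simp only [M, h]
  module

lemma N_scale (B : BiDer K Ω) (u : Kˣ) (y z : Fin 6 → K) (k l : Fin 6) :
    N B (fun j => (u : K) * y j) (fun j => (u : K) * z j) k l = ((u : K) ^ 4) • N B y z k l := by
  fin_cases k <;> fin_cases l <;>
    simp only [N, Fin.mk_zero, Fin.mk_one, Matrix.cons_val, Fin.reduceFinMk, κ_scale, smul_zero,
      smul_neg]

lemma M_mem (B : BiDer K Ω) (A : Subalgebra ℂ K) (ω : AddSubgroup Ω)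
    (hω : ∀ a ∈ A, ∀ η ∈ ω, a • η ∈ ω)
    (hκ : ∀ a ∈ A, ∀ b ∈ A, B.κ a b ∈ ω) {y z : Fin 6 → K} (hy : ∀ j, y j ∈ A)
    (hz : ∀ j, z j ∈ A) (p q r s : Fin 6) : M B y z p q r s ∈ ω := by
  have h : ∀ i j k, J B y i j k ∈ ω := fun i j k =>
    B.J_mem A ω hω hκ 1 1 1 (hy i) (hy j) (hy k)
  exact sub_mem (add_mem (sub_mem (hω _ (hz s) _ (h _ _ _)) (hω _ (hz r) _ (h _ _ _)))
    (hω _ (hz q) _ (h _ _ _))) (hω _ (hz p) _ (h _ _ _))

lemma N_mem (B : BiDer K Ω) (A : Subalgebra ℂ K) (ω : AddSubgroup Ω)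
    (hω : ∀ a ∈ A, ∀ η ∈ ω, a • η ∈ ω)
    (hκ : ∀ a ∈ A, ∀ b ∈ A, B.κ a b ∈ ω) {y z : Fin 6 → K} (hy : ∀ j, y j ∈ A)
    (hz : ∀ j, z j ∈ A) (k l : Fin 6) : N B y z k l ∈ ω := by
  have h := M_mem B A ω hω hκ hy hz
  fin_cases k <;> fin_cases l <;>
    simp only [N, Fin.mk_zero, Fin.mk_one, Matrix.cons_val, Fin.reduceFinMk, neg_mem_iff, h,
      zero_mem]

/-- **Rigidity**: the twisted product `x ∧ dx ∧ dx ∧ z` vanishes. -/
theorem rigid {C : Cover B ι} {F : MvPolynomial (Fin 6) ℂ} (hFh : F.IsHomogeneous 5)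
    (hFs : Smooth F) {x : Fin 6 → K} (hx : C.Gen x) (hF0 : aeval x F = 0)
    (z : ι → Fin 6 → K) (hz : ∀ i j, (((C.u i)⁻¹ : Kˣ) : K) * z i j ∈ C.A i)
    (hGz : ∀ i, ∑ j, aeval x (pderiv j F) * z i j = 0)
    (hM : ∀ i k p q r s, M B x (z i) p q r s = M B x (z k) p q r s)
    (H0 : ∀ η, C.Global 0 η → η = 0) (H1 : C.H1Van 4) (i : ι) (p q r s : Fin 6) :
    M B x (z i) p q r s = 0 := by
  set G : Fin 6 → K := fun l => aeval x (pderiv l F) with hGdef
  -- the three equations
  have euler : ∑ j, G j * x j = 0 := by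
    have h := congrArg (aeval x) hFh.sum_X_mul_pderiv
    rw [map_sum, map_nsmul, hF0, smul_zero] at h
    rw [← h]
    refine Finset.sum_congr rfl fun j _ => ?_
    rw [map_mul, aeval_X, mul_comm]
  have chain : ∀ c, ∑ j, G j • B.κ (x j) c = 0 := by
    intro c
    rw [← B.aeval_left, hF0, B.zero_left]
  have R : ∀ q r s, ∑ p, G p • M B x (z i) p q r s = 0 :=
    contract B G x (z i) euler (hGz i) chain
  -- the dual matrix does not depend on the chart
  have hN : ∀ k l m, N B x (z k) l m = N B x (z i) l m := by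
    intro k l m
    fin_cases l <;> fin_cases m <;>
      simp only [N, Fin.mk_zero, Fin.mk_one, Matrix.cons_val, Fin.reduceFinMk, hM k i]
  set Nf : Fin 6 → Fin 6 → Ω := N B x (z i) with hNf
  have hrel : ∀ k l m, G k • Nf l m - G l • Nf k m + G m • Nf k l = 0 := rel B R
  -- the local decompositions of one
  have hloc : ∀ v, ∃ E : Fin 6 → K, (∀ l, (C.u v : K) ^ 4 * E l ∈ C.A v) ∧ ∑ l, E l * G l = 1 ∧
      (∀ l, (((C.u v)⁻¹ : Kˣ) : K) ^ 4 * G l ∈ C.A v) := by
    intro v
    set u := C.u v with hu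
    set y : Fin 6 → K := fun j => ((u⁻¹ : Kˣ) : K) * x j with hy
    have huu : (u : K) * ((u⁻¹ : Kˣ) : K) = 1 := u.mul_inv
    have huu' : (u : K) ^ 4 * ((u⁻¹ : Kˣ) : K) ^ 4 = 1 := C.huu' v 4
    have hxy : x = fun j => (u : K) * y j := by
      funext j
      rw [hy, ← mul_assoc, huu, one_mul]
    have hG : ∀ l, G l = (u : K) ^ 4 * aeval y (pderiv l F) := by
      intro l
      rw [hGdef]
      dsimp only
      conv_lhs => rw [hxy]
      exact aeval_scale _ (hFh.pderiv (i := l)) _ _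
    have hcoe : ∀ l, aeval y (pderiv l F) =
        ((aeval (fun j => (⟨y j, hx.mem v j⟩ : C.A v)) (pderiv l F) : C.A v) : K) := fun l =>
      (comp_aeval_apply (f := fun j => (⟨y j, hx.mem v j⟩ : C.A v)) (C.A v).val
        (pderiv l F)).symm
    obtain ⟨e, he⟩ : ∃ e : Fin 6 → C.A v,
        ∑ l, e l * aeval (fun j => (⟨y j, hx.mem v j⟩ : C.A v)) (pderiv l F) = 1 := by
      apply unit_of_smooth hFs
      obtain ⟨a, ha, hau⟩ := hx.gen v
      refine ⟨fun j => ⟨a j, ha j⟩, ?_⟩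
      apply Subtype.ext
      rw [AddSubmonoidClass.coe_finsetSum]
      show ∑ j, a j * y j = 1
      have : ∑ j, a j * y j = ((u⁻¹ : Kˣ) : K) * ∑ j, a j * x j := by
        rw [Finset.mul_sum]
        refine Finset.sum_congr rfl fun j _ => ?_
        rw [hy]; ring
      rw [this, hau, mul_comm, huu]
    have he' : ∑ l, (e l : K) * aeval y (pderiv l F) = 1 := by
      have := congrArg (fun z : C.A v => (z : K)) he
      simp only [AddSubmonoidClass.coe_finsetSum] at this
      refine Eq.trans (Finset.sum_congr rfl fun l _ => ?_) this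
      rw [MulMemClass.coe_mul, hcoe]
    refine ⟨fun l => ((u⁻¹ : Kˣ) : K) ^ 4 * e l, fun l => ?_, ?_, fun l => ?_⟩
    · rw [← mul_assoc, huu', one_mul]
      exact (e l).2
    · rw [← he']
      refine Finset.sum_congr rfl fun l _ => ?_
      rw [hG l]
      linear_combination ((e l : K) * aeval y (pderiv l F)) * huu'
    · rw [hG l, ← mul_assoc, mul_comm _ ((u : K) ^ _), huu', one_mul, hcoe]
      exact Subtype.property _
  choose E hE hE1 hG using hloc
  -- the local vectors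
  set μ : ι → Fin 6 → Ω := fun v m => ∑ k, E v k • Nf k m with hμ
  have hNμ : ∀ v l m, Nf l m = G l • μ v m - G m • μ v l := by
    intro v l m
    have e1 : Nf l m = ∑ k, (E v k * G k) • Nf l m := by
      rw [← Finset.sum_smul, hE1, one_smul]
    rw [e1, hμ]
    dsimp only
    rw [Finset.smul_sum, Finset.smul_sum, ← Finset.sum_sub_distrib]
    refine Finset.sum_congr rfl fun k _ => ?_
    linear_combination (norm := module) (E v k) • hrel k l m
  have hμmem : ∀ v m, μ v m ∈ C.ω v := by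
    intro v m
    refine sum_mem fun k _ => ?_
    have e1 : Nf k m = ((C.u v : K) ^ 4) • N B (fun j => (((C.u v)⁻¹ : Kˣ) : K) * x j)
        (fun j => (((C.u v)⁻¹ : Kˣ) : K) * z v j) k m := by
      rw [← N_scale, ← hN v k m]
      congr 1
      · funext j
        rw [← mul_assoc, C.huu, one_mul]
      · funext j
        rw [← mul_assoc, C.huu, one_mul]
    rw [e1, smul_smul, mul_comm]
    exact C.hω v _ (hE v k) _ (N_mem B (C.A v) (C.ω v) (C.hω v) (C.hκ v) (hx.mem v) (hz v) k m)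
  have hdd : ∀ v w l m, G l • (μ v m - μ w m) = G m • (μ v l - μ w l) := by
    intro v w l m
    have e1 := hNμ v l m
    have e2 := hNμ w l m
    linear_combination (norm := module) e2 - e1
  set n : ι → ι → Ω := fun v w => ∑ l, E v l • (μ v l - μ w l) with hn
  have hGn : ∀ v w m, G m • n v w = μ v m - μ w m := by
    intro v w m
    have e1 : μ v m - μ w m = ∑ l, (E v l * G l) • (μ v m - μ w m) := by
      rw [← Finset.sum_smul, hE1, one_smul]
    rw [e1, hn]
    dsimp only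
    rw [Finset.smul_sum]
    refine Finset.sum_congr rfl fun l _ => ?_
    rw [mul_smul, hdd, smul_comm]
  have hnmem : ∀ v w, ((C.u v : K) ^ 4) • n v w ∈ C.ω₂ v w := by
    intro v w
    rw [hn]
    dsimp only
    rw [Finset.smul_sum]
    refine sum_mem fun l _ => ?_
    rw [smul_smul]
    exact C.hω₂ v w _ (C.hA v w (hE v l)) _
      (sub_mem (C.hωl v w (hμmem v l)) (C.hωr v w (hμmem w l)))
  have hncoc : ∀ v w t, n v w + n w t = n v t := by
    intro v w t
    have e1 : ∀ m, G m • (n v w + n w t - n v t) = 0 := by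
      intro m
      rw [smul_sub, smul_add, hGn, hGn, hGn]
      abel
    have e2 : n v w + n w t - n v t = ∑ l, (E v l * G l) • (n v w + n w t - n v t) := by
      rw [← Finset.sum_smul, hE1, one_smul]
    rw [Finset.sum_eq_zero fun l _ => by rw [mul_smul, e1, smul_zero]] at e2
    exact sub_eq_zero.1 e2
  obtain ⟨c, hc, hnc⟩ := H1 n hnmem hncoc
  have hμc : ∀ m v, μ v m = G m • c v := by
    intro m v
    have e1 : ∀ v w, μ v m - G m • c v = μ w m - G m • c w := by
      intro v w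
      have e2 := hGn v w m
      rw [hnc, smul_sub] at e2
      linear_combination (norm := module) -e2
    refine sub_eq_zero.1 (H0 _ fun w => ?_)
    rw [pow_zero, one_smul, e1 v w]
    refine sub_mem (hμmem w m) ?_
    have e2 : G m • c w = ((((C.u w)⁻¹ : Kˣ) : K) ^ 4 * G m) • (((C.u w : K) ^ 4) • c w) := by
      rw [smul_smul]
      congr 1
      linear_combination (-(G m)) * C.huu' w 4
    rw [e2]
    exact C.hω w _ (hG w m) _ (hc w)
  refine M_eq_zero B (fun k l => ?_) p q r s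
  show Nf k l = 0
  rw [hNμ i k l, hμc, hμc, smul_comm, sub_self]

end Rigid

end IndexOne
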