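import Pool.Agent.Work.MP_4c1522_ag.Abs

/-!
# Morphisms to hypersurfaces of index one: the abstract argument

`x` is a surface in the hypersurface `F = 0` of degree `5` in `ℙ⁵`, and `z` a first order
deformation of it. The twisted product `x ∧ dx ∧ dx ∧ z` vanishes.
-/

open MvPolynomial

namespace IndexOne

open DoubleSolid

variable {K Ω : Type*} [CommRing K] [Algebra ℂ K] [AddCommGroup Ω] [Module K Ω]
  (B : BiDer K Ω)

/-- the components of `x ∧ dx ∧ dx` -/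
def J (x : Fin 6 → K) (p q r : Fin 6) : Ω := B.J 1 1 1 (x p) (x q) (x r)

lemma J_def (x : Fin 6 → K) (p q r : Fin 6) : J B x p q r =
    x p • B.κ (x q) (x r) - x q • B.κ (x p) (x r) + x r • B.κ (x p) (x q) := by
  rw [J, BiDer.J]
  simp only [Nat.cast_one, one_mul]

/-- the components of `x ∧ dx ∧ dx ∧ z` -/
def M (x z : Fin 6 → K) (p q r s : Fin 6) : Ω :=
  z s • J B x p q r - z r • J B x p q s + z q • J B x p r s - z p • J B x q r s

lemma J_swap₁₂ (x : Fin 6 → K) (p q r : Fin 6) : J B x p q r = - J B x q p r :=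
  B.J_swap₁₂ _ _ _

lemma J_swap₂₃ (x : Fin 6 → K) (p q r : Fin 6) : J B x p q r = - J B x p r q :=
  B.J_swap₂₃ _ _ _

lemma J_self₁₂ (x : Fin 6 → K) (p r : Fin 6) : J B x p p r = 0 := B.J_self₁₂ _ _

lemma J_self₂₃ (x : Fin 6 → K) (p r : Fin 6) : J B x p r r = 0 := B.J_self₂₃ _ _

lemma J_self₁₃ (x : Fin 6 → K) (p r : Fin 6) : J B x p r p = 0 := B.J_self₁₃ _ _

lemma M_ins₁ (x z : Fin 6 → K) (p q r s : Fin 6) : M B x z p q r s = - M B x z q p r s := by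
  rw [M, M, J_swap₁₂ B x q p r, J_swap₁₂ B x q p s]
  module

lemma M_swap₂₃ (x z : Fin 6 → K) (p q r s : Fin 6) : M B x z p q r s = - M B x z p r q s := by
  rw [M, M, J_swap₂₃ B x p r q, J_swap₁₂ B x r q s]
  module

lemma M_swap₃₄ (x z : Fin 6 → K) (p q r s : Fin 6) : M B x z p q r s = - M B x z p q s r := by
  rw [M, M, J_swap₂₃ B x p s r, J_swap₂₃ B x q s r]
  module

lemma M_ins₂ (x z : Fin 6 → K) (p q r s : Fin 6) : M B x z p q r s = M B x z q r p s := by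
  rw [M_ins₁, M_swap₂₃, neg_neg]

lemma M_ins₃ (x z : Fin 6 → K) (p q r s : Fin 6) : M B x z p q r s = - M B x z q r s p := by
  rw [M_ins₂, M_swap₃₄]

lemma M_self₁₂ (x z : Fin 6 → K) (p r s : Fin 6) : M B x z p p r s = 0 := by
  rw [M, J_self₁₂, J_self₁₂]
  module

lemma M_self₂₃ (x z : Fin 6 → K) (p q s : Fin 6) : M B x z p q q s = 0 := by
  rw [M, J_self₂₃, J_self₁₂]
  module

lemma M_self₁₃ (x z : Fin 6 → K) (p r s : Fin 6) : M B x z p r p s = 0 := by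
  rw [M_ins₁, M_self₂₃, neg_zero]

lemma M_self₁₄ (x z : Fin 6 → K) (p r s : Fin 6) : M B x z p r s p = 0 := by
  rw [M_swap₃₄, M_self₁₃, neg_zero]

lemma M_self₃₄ (x z : Fin 6 → K) (p q r : Fin 6) : M B x z p q r r = 0 := by
  rw [M, J_self₂₃, J_self₂₃]
  module

lemma M_self₂₄ (x z : Fin 6 → K) (p q r : Fin 6) : M B x z p q r q = 0 := by
  rw [M_swap₃₄, M_self₂₃, neg_zero]

/-- the contraction with a vector of equations -/
lemma contract (G x z : Fin 6 → K) (hx : ∑ j, G j * x j = 0) (hz : ∑ j, G j * z j = 0)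
    (hκ : ∀ c, ∑ j, G j • B.κ (x j) c = 0) (q r s : Fin 6) :
    ∑ p, G p • M B x z p q r s = 0 := by
  have hJ : ∀ q r, ∑ p, G p • J B x p q r = 0 := by
    intro q r
    have h1 : ∀ p, G p • J B x p q r = (G p * x p) • B.κ (x q) (x r) -
        x q • (G p • B.κ (x p) (x r)) + x r • (G p • B.κ (x p) (x q)) := by
      intro p
      rw [J_def]
      module
    rw [Finset.sum_congr rfl fun p _ => h1 p, Finset.sum_add_distrib, Finset.sum_sub_distrib,
      ← Finset.sum_smul, ← Finset.smul_sum, ← Finset.smul_sum, hκ, hκ, hx]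
    module
  have h2 : ∀ p, G p • M B x z p q r s = z s • (G p • J B x p q r) - z r • (G p • J B x p q s) +
      z q • (G p • J B x p r s) - (G p * z p) • J B x q r s := by
    intro p
    rw [M]
    module
  rw [Finset.sum_congr rfl fun p _ => h2 p, Finset.sum_sub_distrib, Finset.sum_add_distrib,
    Finset.sum_sub_distrib, ← Finset.smul_sum, ← Finset.smul_sum, ← Finset.smul_sum,
    ← Finset.sum_smul, hJ, hJ, hJ, hz]
  module

/-- the dual matrix of the minors -/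
def N (x z : Fin 6 → K) : Fin 6 → Fin 6 → Ω :=
  ![
    ![0, M B x z 2 3 4 5, - M B x z 1 3 4 5, M B x z 1 2 4 5, - M B x z 1 2 3 5, M B x z 1 2 3 4],
    ![- M B x z 2 3 4 5, 0, M B x z 0 3 4 5, - M B x z 0 2 4 5, M B x z 0 2 3 5, - M B x z 0 2 3 4],
    ![M B x z 1 3 4 5, - M B x z 0 3 4 5, 0, M B x z 0 1 4 5, - M B x z 0 1 3 5, M B x z 0 1 3 4],
    ![- M B x z 1 2 4 5, M B x z 0 2 4 5, - M B x z 0 1 4 5, 0, M B x z 0 1 2 5, - M B x z 0 1 2 4],
    ![M B x z 1 2 3 5, - M B x z 0 2 3 5, M B x z 0 1 3 5, - M B x z 0 1 2 5, 0, M B x z 0 1 2 3],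
    ![- M B x z 1 2 3 4, M B x z 0 2 3 4, - M B x z 0 1 3 4, M B x z 0 1 2 4, - M B x z 0 1 2 3, 0]]

lemma rel012 {G x z : Fin 6 → K} (R : ∀ q r s, ∑ p, G p • M B x z p q r s = 0) :
    G 0 • N B x z 1 2 - G 1 • N B x z 0 2 + G 2 • N B x z 0 1 = 0 := by
  have h := R 3 4 5
  rw [Fin.sum_univ_six, M_self₁₂ B x z 3 4 5, M_self₁₃ B x z 4 3 5, M_self₁₄ B x z 5 3 4] at h
  simp only [N, Matrix.cons_val]
  linear_combination (norm := module) h

lemma rel013 {G x z : Fin 6 → K} (R : ∀ q r s, ∑ p, G p • M B x z p q r s = 0) :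
    G 0 • N B x z 1 3 - G 1 • N B x z 0 3 + G 3 • N B x z 0 1 = 0 := by
  have h := R 2 4 5
  rw [Fin.sum_univ_six, M_self₁₂ B x z 2 4 5, M_ins₁ B x z 3 2 4 5, M_self₁₃ B x z 4 2 5, M_self₁₄ B x z 5 2 4] at h
  simp only [N, Matrix.cons_val]
  linear_combination (norm := module) -h

lemma rel014 {G x z : Fin 6 → K} (R : ∀ q r s, ∑ p, G p • M B x z p q r s = 0) :
    G 0 • N B x z 1 4 - G 1 • N B x z 0 4 + G 4 • N B x z 0 1 = 0 := by
  have h := R 2 3 5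
  rw [Fin.sum_univ_six, M_self₁₂ B x z 2 3 5, M_self₁₃ B x z 3 2 5, M_ins₂ B x z 4 2 3 5, M_self₁₄ B x z 5 2 3] at h
  simp only [N, Matrix.cons_val]
  linear_combination (norm := module) h

lemma rel015 {G x z : Fin 6 → K} (R : ∀ q r s, ∑ p, G p • M B x z p q r s = 0) :
    G 0 • N B x z 1 5 - G 1 • N B x z 0 5 + G 5 • N B x z 0 1 = 0 := by
  have h := R 2 3 4
  rw [Fin.sum_univ_six, M_self₁₂ B x z 2 3 4, M_self₁₃ B x z 3 2 4, M_self₁₄ B x z 4 2 3, M_ins₃ B x z 5 2 3 4] at h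
  simp only [N, Matrix.cons_val]
  linear_combination (norm := module) -h

lemma rel023 {G x z : Fin 6 → K} (R : ∀ q r s, ∑ p, G p • M B x z p q r s = 0) :
    G 0 • N B x z 2 3 - G 2 • N B x z 0 3 + G 3 • N B x z 0 2 = 0 := by
  have h := R 1 4 5
  rw [Fin.sum_univ_six, M_self₁₂ B x z 1 4 5, M_ins₁ B x z 2 1 4 5, M_ins₁ B x z 3 1 4 5, M_self₁₃ B x z 4 1 5, M_self₁₄ B x z 5 1 4] at h
  simp only [N, Matrix.cons_val]
  linear_combination (norm := module) h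

lemma rel024 {G x z : Fin 6 → K} (R : ∀ q r s, ∑ p, G p • M B x z p q r s = 0) :
    G 0 • N B x z 2 4 - G 2 • N B x z 0 4 + G 4 • N B x z 0 2 = 0 := by
  have h := R 1 3 5
  rw [Fin.sum_univ_six, M_self₁₂ B x z 1 3 5, M_ins₁ B x z 2 1 3 5, M_self₁₃ B x z 3 1 5, M_ins₂ B x z 4 1 3 5, M_self₁₄ B x z 5 1 3] at h
  simp only [N, Matrix.cons_val]
  linear_combination (norm := module) -h

lemma rel025 {G x z : Fin 6 → K} (R : ∀ q r s, ∑ p, G p • M B x z p q r s = 0) :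
    G 0 • N B x z 2 5 - G 2 • N B x z 0 5 + G 5 • N B x z 0 2 = 0 := by
  have h := R 1 3 4
  rw [Fin.sum_univ_six, M_self₁₂ B x z 1 3 4, M_ins₁ B x z 2 1 3 4, M_self₁₃ B x z 3 1 4, M_self₁₄ B x z 4 1 3, M_ins₃ B x z 5 1 3 4] at h
  simp only [N, Matrix.cons_val]
  linear_combination (norm := module) h

lemma rel034 {G x z : Fin 6 → K} (R : ∀ q r s, ∑ p, G p • M B x z p q r s = 0) :
    G 0 • N B x z 3 4 - G 3 • N B x z 0 4 + G 4 • N B x z 0 3 = 0 := by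
  have h := R 1 2 5
  rw [Fin.sum_univ_six, M_self₁₂ B x z 1 2 5, M_self₁₃ B x z 2 1 5, M_ins₂ B x z 3 1 2 5, M_ins₂ B x z 4 1 2 5, M_self₁₄ B x z 5 1 2] at h
  simp only [N, Matrix.cons_val]
  linear_combination (norm := module) h

lemma rel035 {G x z : Fin 6 → K} (R : ∀ q r s, ∑ p, G p • M B x z p q r s = 0) :
    G 0 • N B x z 3 5 - G 3 • N B x z 0 5 + G 5 • N B x z 0 3 = 0 := by
  have h := R 1 2 4
  rw [Fin.sum_univ_six, M_self₁₂ B x z 1 2 4, M_self₁₃ B x z 2 1 4, M_ins₂ B x z 3 1 2 4, M_self₁₄ B x z 4 1 2, M_ins₃ B x z 5 1 2 4] at h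
  simp only [N, Matrix.cons_val]
  linear_combination (norm := module) -h

lemma rel045 {G x z : Fin 6 → K} (R : ∀ q r s, ∑ p, G p • M B x z p q r s = 0) :
    G 0 • N B x z 4 5 - G 4 • N B x z 0 5 + G 5 • N B x z 0 4 = 0 := by
  have h := R 1 2 3
  rw [Fin.sum_univ_six, M_self₁₂ B x z 1 2 3, M_self₁₃ B x z 2 1 3, M_self₁₄ B x z 3 1 2, M_ins₃ B x z 4 1 2 3, M_ins₃ B x z 5 1 2 3] at h
  simp only [N, Matrix.cons_val]
  linear_combination (norm := module) h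

lemma rel123 {G x z : Fin 6 → K} (R : ∀ q r s, ∑ p, G p • M B x z p q r s = 0) :
    G 1 • N B x z 2 3 - G 2 • N B x z 1 3 + G 3 • N B x z 1 2 = 0 := by
  have h := R 0 4 5
  rw [Fin.sum_univ_six, M_self₁₂ B x z 0 4 5, M_ins₁ B x z 1 0 4 5, M_ins₁ B x z 2 0 4 5, M_ins₁ B x z 3 0 4 5, M_self₁₃ B x z 4 0 5, M_self₁₄ B x z 5 0 4] at h
  simp only [N, Matrix.cons_val]
  linear_combination (norm := module) -h

lemma rel124 {G x z : Fin 6 → K} (R : ∀ q r s, ∑ p, G p • M B x z p q r s = 0) :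
    G 1 • N B x z 2 4 - G 2 • N B x z 1 4 + G 4 • N B x z 1 2 = 0 := by
  have h := R 0 3 5
  rw [Fin.sum_univ_six, M_self₁₂ B x z 0 3 5, M_ins₁ B x z 1 0 3 5, M_ins₁ B x z 2 0 3 5, M_self₁₃ B x z 3 0 5, M_ins₂ B x z 4 0 3 5, M_self₁₄ B x z 5 0 3] at h
  simp only [N, Matrix.cons_val]
  linear_combination (norm := module) h

lemma rel125 {G x z : Fin 6 → K} (R : ∀ q r s, ∑ p, G p • M B x z p q r s = 0) :
    G 1 • N B x z 2 5 - G 2 • N B x z 1 5 + G 5 • N B x z 1 2 = 0 := by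
  have h := R 0 3 4
  rw [Fin.sum_univ_six, M_self₁₂ B x z 0 3 4, M_ins₁ B x z 1 0 3 4, M_ins₁ B x z 2 0 3 4, M_self₁₃ B x z 3 0 4, M_self₁₄ B x z 4 0 3, M_ins₃ B x z 5 0 3 4] at h
  simp only [N, Matrix.cons_val]
  linear_combination (norm := module) -h

lemma rel134 {G x z : Fin 6 → K} (R : ∀ q r s, ∑ p, G p • M B x z p q r s = 0) :
    G 1 • N B x z 3 4 - G 3 • N B x z 1 4 + G 4 • N B x z 1 3 = 0 := by
  have h := R 0 2 5
  rw [Fin.sum_univ_six, M_self₁₂ B x z 0 2 5, M_ins₁ B x z 1 0 2 5, M_self₁₃ B x z 2 0 5, M_ins₂ B x z 3 0 2 5, M_ins₂ B x z 4 0 2 5, M_self₁₄ B x z 5 0 2] at h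
  simp only [N, Matrix.cons_val]
  linear_combination (norm := module) -h

lemma rel135 {G x z : Fin 6 → K} (R : ∀ q r s, ∑ p, G p • M B x z p q r s = 0) :
    G 1 • N B x z 3 5 - G 3 • N B x z 1 5 + G 5 • N B x z 1 3 = 0 := by
  have h := R 0 2 4
  rw [Fin.sum_univ_six, M_self₁₂ B x z 0 2 4, M_ins₁ B x z 1 0 2 4, M_self₁₃ B x z 2 0 4, M_ins₂ B x z 3 0 2 4, M_self₁₄ B x z 4 0 2, M_ins₃ B x z 5 0 2 4] at h
  simp only [N, Matrix.cons_val]
  linear_combination (norm := module) h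

lemma rel145 {G x z : Fin 6 → K} (R : ∀ q r s, ∑ p, G p • M B x z p q r s = 0) :
    G 1 • N B x z 4 5 - G 4 • N B x z 1 5 + G 5 • N B x z 1 4 = 0 := by
  have h := R 0 2 3
  rw [Fin.sum_univ_six, M_self₁₂ B x z 0 2 3, M_ins₁ B x z 1 0 2 3, M_self₁₃ B x z 2 0 3, M_self₁₄ B x z 3 0 2, M_ins₃ B x z 4 0 2 3, M_ins₃ B x z 5 0 2 3] at h
  simp only [N, Matrix.cons_val]
  linear_combination (norm := module) -h

lemma rel234 {G x z : Fin 6 → K} (R : ∀ q r s, ∑ p, G p • M B x z p q r s = 0) :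
    G 2 • N B x z 3 4 - G 3 • N B x z 2 4 + G 4 • N B x z 2 3 = 0 := by
  have h := R 0 1 5
  rw [Fin.sum_univ_six, M_self₁₂ B x z 0 1 5, M_self₁₃ B x z 1 0 5, M_ins₂ B x z 2 0 1 5, M_ins₂ B x z 3 0 1 5, M_ins₂ B x z 4 0 1 5, M_self₁₄ B x z 5 0 1] at h
  simp only [N, Matrix.cons_val]
  linear_combination (norm := module) h

lemma rel235 {G x z : Fin 6 → K} (R : ∀ q r s, ∑ p, G p • M B x z p q r s = 0) :
    G 2 • N B x z 3 5 - G 3 • N B x z 2 5 + G 5 • N B x z 2 3 = 0 := by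
  have h := R 0 1 4
  rw [Fin.sum_univ_six, M_self₁₂ B x z 0 1 4, M_self₁₃ B x z 1 0 4, M_ins₂ B x z 2 0 1 4, M_ins₂ B x z 3 0 1 4, M_self₁₄ B x z 4 0 1, M_ins₃ B x z 5 0 1 4] at h
  simp only [N, Matrix.cons_val]
  linear_combination (norm := module) -h

lemma rel245 {G x z : Fin 6 → K} (R : ∀ q r s, ∑ p, G p • M B x z p q r s = 0) :
    G 2 • N B x z 4 5 - G 4 • N B x z 2 5 + G 5 • N B x z 2 4 = 0 := by
  have h := R 0 1 3
  rw [Fin.sum_univ_six, M_self₁₂ B x z 0 1 3, M_self₁₃ B x z 1 0 3, M_ins₂ B x z 2 0 1 3, M_self₁₄ B x z 3 0 1, M_ins₃ B x z 4 0 1 3, M_ins₃ B x z 5 0 1 3] at h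
  simp only [N, Matrix.cons_val]
  linear_combination (norm := module) h

lemma rel345 {G x z : Fin 6 → K} (R : ∀ q r s, ∑ p, G p • M B x z p q r s = 0) :
    G 3 • N B x z 4 5 - G 4 • N B x z 3 5 + G 5 • N B x z 3 4 = 0 := by
  have h := R 0 1 2
  rw [Fin.sum_univ_six, M_self₁₂ B x z 0 1 2, M_self₁₃ B x z 1 0 2, M_self₁₄ B x z 2 0 1, M_ins₃ B x z 3 0 1 2, M_ins₃ B x z 4 0 1 2, M_ins₃ B x z 5 0 1 2] at h
  simp only [N, Matrix.cons_val]
  linear_combination (norm := module) -h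


lemma N_anti (x z : Fin 6 → K) (k l : Fin 6) : N B x z k l = - N B x z l k := by
  fin_cases k <;> fin_cases l <;> simp [N]

lemma N_self (x z : Fin 6 → K) (k : Fin 6) : N B x z k k = 0 := by
  fin_cases k <;> rfl

/-- the increasing triples -/
def triples : List (Fin 6 × Fin 6 × Fin 6) :=
  [(0, 1, 2), (0, 1, 3), (0, 1, 4), (0, 1, 5), (0, 2, 3), (0, 2, 4), (0, 2, 5), (0, 3, 4), (0, 3, 5), (0, 4, 5), (1, 2, 3), (1, 2, 4), (1, 2, 5), (1, 3, 4), (1, 3, 5), (1, 4, 5), (2, 3, 4), (2, 3, 5), (2, 4, 5), (3, 4, 5)]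

lemma mem_triples : ∀ k l m : Fin 6, k < l → l < m → (k, l, m) ∈ triples := by
  decide

/-- the increasing quadruples -/
def quads : List (Fin 6 × Fin 6 × Fin 6 × Fin 6) :=
  [(0, 1, 2, 3), (0, 1, 2, 4), (0, 1, 2, 5), (0, 1, 3, 4), (0, 1, 3, 5), (0, 1, 4, 5), (0, 2, 3, 4), (0, 2, 3, 5), (0, 2, 4, 5), (0, 3, 4, 5), (1, 2, 3, 4), (1, 2, 3, 5), (1, 2, 4, 5), (1, 3, 4, 5), (2, 3, 4, 5)]

lemma mem_quads : ∀ p q r s : Fin 6, p < q → q < r → r < s → (p, q, r, s) ∈ quads := by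
  decide

lemma rel {G x z : Fin 6 → K} (R : ∀ q r s, ∑ p, G p • M B x z p q r s = 0) (k l m : Fin 6) :
    G k • N B x z l m - G l • N B x z k m + G m • N B x z k l = 0 := by
  have hsorted : ∀ k l m : Fin 6, k < l → l < m →
      G k • N B x z l m - G l • N B x z k m + G m • N B x z k l = 0 := by
    intro k l m hkl hlm
    exact (show ∀ t ∈ triples, G t.1 • N B x z t.2.1 t.2.2 - G t.2.1 • N B x z t.1 t.2.2 +
        G t.2.2 • N B x z t.1 t.2.1 = 0 from List.forall_mem_cons.2 ⟨rel012 B R,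
      List.forall_mem_cons.2 ⟨rel013 B R,
      List.forall_mem_cons.2 ⟨rel014 B R,
      List.forall_mem_cons.2 ⟨rel015 B R,
      List.forall_mem_cons.2 ⟨rel023 B R,
      List.forall_mem_cons.2 ⟨rel024 B R,
      List.forall_mem_cons.2 ⟨rel025 B R,
      List.forall_mem_cons.2 ⟨rel034 B R,
      List.forall_mem_cons.2 ⟨rel035 B R,
      List.forall_mem_cons.2 ⟨rel045 B R,
      List.forall_mem_cons.2 ⟨rel123 B R,
      List.forall_mem_cons.2 ⟨rel124 B R,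
      List.forall_mem_cons.2 ⟨rel125 B R,
      List.forall_mem_cons.2 ⟨rel134 B R,
      List.forall_mem_cons.2 ⟨rel135 B R,
      List.forall_mem_cons.2 ⟨rel145 B R,
      List.forall_mem_cons.2 ⟨rel234 B R,
      List.forall_mem_cons.2 ⟨rel235 B R,
      List.forall_mem_cons.2 ⟨rel245 B R,
      List.forall_mem_cons.2 ⟨rel345 B R,
      List.forall_mem_nil _⟩⟩⟩⟩⟩⟩⟩⟩⟩⟩⟩⟩⟩⟩⟩⟩⟩⟩⟩⟩)
      (k, l, m) (mem_triples k l m hkl hlm)
  set Nf := N B x z with hNf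
  have ha : ∀ k l, Nf k l = - Nf l k := N_anti B x z
  have hs : ∀ k, Nf k k = 0 := N_self B x z
  have s12 : ∀ k l m : Fin 6, G l • Nf k m - G k • Nf l m + G m • Nf l k = 0 →
      G k • Nf l m - G l • Nf k m + G m • Nf k l = 0 := by
    intro k l m h
    rw [ha k l]
    linear_combination (norm := module) -h
  have s23 : ∀ k l m : Fin 6, G k • Nf m l - G m • Nf k l + G l • Nf k m = 0 →
      G k • Nf l m - G l • Nf k m + G m • Nf k l = 0 := by
    intro k l m h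
    rw [ha l m]
    linear_combination (norm := module) -h
  have e12 : ∀ k m : Fin 6, G k • Nf k m - G k • Nf k m + G m • Nf k k = 0 := by
    intro k m
    rw [hs]
    module
  have e23 : ∀ k m : Fin 6, G k • Nf m m - G m • Nf k m + G m • Nf k m = 0 := by
    intro k m
    rw [hs]
    module
  rcases lt_trichotomy k l with hij | rfl | hij
  · rcases lt_trichotomy l m with hjk | rfl | hjk
    · exact hsorted _ _ _ hij hjk
    · exact e23 _ _
    · rcases lt_trichotomy k m with hik | rfl | hik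
      · exact s23 _ _ _ (hsorted _ _ _ hik hjk)
      · exact s23 _ _ _ (e12 _ _)
      · exact s23 _ _ _ (s12 _ _ _ (hsorted _ _ _ hik hij))
  · exact e12 _ _
  · rcases lt_trichotomy k m with hik | rfl | hik
    · exact s12 _ _ _ (hsorted _ _ _ hij hik)
    · exact s12 _ _ _ (e23 _ _)
    · rcases lt_trichotomy l m with hjk | rfl | hjk
      · exact s12 _ _ _ (s23 _ _ _ (hsorted _ _ _ hjk hik))
      · exact s12 _ _ _ (s23 _ _ _ (e12 _ _))
      · exact s12 _ _ _ (s23 _ _ _ (s12 _ _ _ (hsorted _ _ _ hjk hij)))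

/-- if the dual matrix vanishes, all minors vanish -/
lemma M_eq_zero {x z : Fin 6 → K} (h : ∀ k l, N B x z k l = 0) (p q r s : Fin 6) :
    M B x z p q r s = 0 := by
  have hsorted : ∀ p q r s : Fin 6, p < q → q < r → r < s → M B x z p q r s = 0 := by
    intro p q r s hpq hqr hrs
    exact (show ∀ t ∈ quads, M B x z t.1 t.2.1 t.2.2.1 t.2.2.2 = 0 from List.forall_mem_cons.2 ⟨h 4 5,
      List.forall_mem_cons.2 ⟨h 5 3,
      List.forall_mem_cons.2 ⟨h 3 4,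
      List.forall_mem_cons.2 ⟨h 2 5,
      List.forall_mem_cons.2 ⟨h 4 2,
      List.forall_mem_cons.2 ⟨h 2 3,
      List.forall_mem_cons.2 ⟨h 5 1,
      List.forall_mem_cons.2 ⟨h 1 4,
      List.forall_mem_cons.2 ⟨h 3 1,
      List.forall_mem_cons.2 ⟨h 1 2,
      List.forall_mem_cons.2 ⟨h 0 5,
      List.forall_mem_cons.2 ⟨h 4 0,
      List.forall_mem_cons.2 ⟨h 0 3,
      List.forall_mem_cons.2 ⟨h 2 0,
      List.forall_mem_cons.2 ⟨h 0 1,
      List.forall_mem_nil _⟩⟩⟩⟩⟩⟩⟩⟩⟩⟩⟩⟩⟩⟩⟩)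
      (p, q, r, s) (mem_quads p q r s hpq hqr hrs)
  set Mf := M B x z with hMf
  have s12 : ∀ p q r s, Mf q p r s = 0 → Mf p q r s = 0 := by
    intro p q r s h
    rw [hMf, M_ins₁ B x z p q r s, ← hMf, h, neg_zero]
  have s23 : ∀ p q r s, Mf p r q s = 0 → Mf p q r s = 0 := by
    intro p q r s h
    rw [hMf, M_swap₂₃ B x z p q r s, ← hMf, h, neg_zero]
  have s34 : ∀ p q r s, Mf p q s r = 0 → Mf p q r s = 0 := by
    intro p q r s h
    rw [hMf, M_swap₃₄ B x z p q r s, ← hMf, h, neg_zero]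
  -- insertion of the last index into a sorted triple
  have hins : ∀ p q r s : Fin 6, p < q → q < r → Mf p q r s = 0 := by
    intro p q r s hpq hqr
    rcases lt_trichotomy r s with h1 | rfl | h1
    · exact hsorted _ _ _ _ hpq hqr h1
    · exact M_self₃₄ B x z _ _ _
    · rcases lt_trichotomy q s with h2 | rfl | h2
      · exact s34 _ _ _ _ (hsorted _ _ _ _ hpq h2 h1)
      · exact M_self₂₄ B x z _ _ _
      · rcases lt_trichotomy p s with h3 | rfl | h3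
        · exact s34 _ _ _ _ (s23 _ _ _ _ (hsorted _ _ _ _ h3 h2 hqr))
        · exact M_self₁₄ B x z _ _ _
        · exact s34 _ _ _ _ (s23 _ _ _ _ (s12 _ _ _ _ (hsorted _ _ _ _ h3 hpq hqr)))
  rcases lt_trichotomy p q with hij | rfl | hij
  · rcases lt_trichotomy q r with hjk | rfl | hjk
    · exact hins _ _ _ _ hij hjk
    · exact M_self₂₃ B x z _ _ _
    · rcases lt_trichotomy p r with hik | rfl | hik
      · exact s23 _ _ _ _ (hins _ _ _ _ hik hjk)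
      · exact M_self₁₃ B x z _ _ _
      · exact s23 _ _ _ _ (s12 _ _ _ _ (hins _ _ _ _ hik hij))
  · exact M_self₁₂ B x z _ _ _
  · rcases lt_trichotomy p r with hik | rfl | hik
    · exact s12 _ _ _ _ (hins _ _ _ _ hij hik)
    · exact M_self₁₃ B x z _ _ _
    · rcases lt_trichotomy q r with hjk | rfl | hjk
      · exact s12 _ _ _ _ (s23 _ _ _ _ (hins _ _ _ _ hjk hik))
      · exact M_self₂₃ B x z _ _ _
      · exact s12 _ _ _ _ (s23 _ _ _ _ (s12 _ _ _ _ (hins _ _ _ _ hjk hij)))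

end IndexOne
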