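import Pool.Agent.Work.MP_4c1522_ag.HypMain

/-!
# Koszul arguments with twists by integral powers
-/

open MvPolynomial

namespace IndexOne

open DoubleSolid

variable {K Ω : Type*} [CommRing K] [Algebra ℂ K] [AddCommGroup Ω] [Module K Ω]
  {B : BiDer K Ω} {ι : Type*} (C : Cover B ι)

namespace Cover

/-- the `e`-th power of the generator -/
noncomputable def up (i : ι) (e : ℤ) : K := (((C.u i) ^ e : Kˣ) : K)

lemma up_add (i : ι) (e f : ℤ) : C.up i (e + f) = C.up i e * C.up i f := by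
  rw [up, zpow_add, Units.val_mul]
  rfl

lemma up_zero (i : ι) : C.up i 0 = 1 := by
  rw [up, zpow_zero, Units.val_one]

lemma up_nat (i : ι) (n : ℕ) : C.up i (n : ℤ) = (C.u i : K) ^ n := by
  rw [up, zpow_natCast, Units.val_pow_eq_pow_val]

lemma up_one (i : ι) : C.up i 1 = (C.u i : K) := by
  rw [up, zpow_one]

lemma up_neg_one (i : ι) : C.up i (-1) = (((C.u i)⁻¹ : Kˣ) : K) := by
  rw [up, zpow_neg_one]

lemma up_neg_nat (i : ι) (n : ℕ) : C.up i (-(n : ℤ)) = (((C.u i)⁻¹ : Kˣ) : K) ^ n := by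
  rw [up, zpow_neg, zpow_natCast, ← inv_pow, Units.val_pow_eq_pow_val]

lemma up_neg_mul (i : ι) (e : ℤ) : C.up i (-e) * C.up i e = 1 := by
  rw [← up_add, neg_add_cancel, up_zero]

/-- `η` is a section of `ω ⊗ L ^ (-e)` on the chart `i` -/
def Sec (e : ℤ) (i : ι) (η : Ω) : Prop := C.up i e • η ∈ C.ω i

/-- `η` is a section of `ω ⊗ L ^ (-e)` on the intersection of the charts `i` and `j` -/
def Sec₂ (e : ℤ) (i j : ι) (η : Ω) : Prop := C.up i e • η ∈ C.ω₂ i j

/-- `η` is a global section of `ω ⊗ L ^ (-e)` -/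
def Glob (e : ℤ) (η : Ω) : Prop := ∀ i, C.Sec e i η

variable {C}

lemma Sec.add {e : ℤ} {i : ι} {η ζ : Ω} (h1 : C.Sec e i η) (h2 : C.Sec e i ζ) :
    C.Sec e i (η + ζ) := by
  show _ • _ ∈ _
  rw [smul_add]
  exact add_mem h1 h2

lemma Sec.sub {e : ℤ} {i : ι} {η ζ : Ω} (h1 : C.Sec e i η) (h2 : C.Sec e i ζ) :
    C.Sec e i (η - ζ) := by
  show _ • _ ∈ _
  rw [smul_sub]
  exact sub_mem h1 h2

lemma Sec.sum {e : ℤ} {i : ι} {α : Type*} {s : Finset α} {η : α → Ω}
    (h : ∀ a ∈ s, C.Sec e i (η a)) : C.Sec e i (∑ a ∈ s, η a) := by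
  show _ • _ ∈ _
  rw [Finset.smul_sum]
  exact sum_mem h

lemma Sec.smul {e m f : ℤ} {i : ι} {η : Ω} {c : K} (h : C.Sec e i η)
    (hc : C.up i m * c ∈ C.A i) (hf : f = e + m) : C.Sec f i (c • η) := by
  show _ • _ ∈ _
  have h1 : C.up i f • (c • η) = (C.up i m * c) • (C.up i e • η) := by
    rw [hf, up_add, smul_smul, smul_smul]
    congr 1
    ring
  rw [h1]
  exact C.hω i _ hc _ h

lemma Sec₂.smul {e m f : ℤ} {i j : ι} {η : Ω} {c : K} (h : C.Sec₂ e i j η)
    (hc : C.up i m * c ∈ C.A i) (hf : f = e + m) : C.Sec₂ f i j (c • η) := by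
  show _ • _ ∈ _
  have h1 : C.up i f • (c • η) = (C.up i m * c) • (C.up i e • η) := by
    rw [hf, up_add, smul_smul, smul_smul]
    congr 1
    ring
  rw [h1]
  exact C.hω₂ i j _ (C.hA i j hc) _ h

variable (C) in
/-- a system `g` of sections of `L ^ s` which generates it -/
structure Sys {n : ℕ} (g : Fin n → K) (s : ℤ) : Prop where
  mem : ∀ i l, C.up i (-s) * g l ∈ C.A i
  gen : ∀ i, ∃ E : Fin n → K, (∀ l, C.up i s * E l ∈ C.A i) ∧ ∑ l, E l * g l = 1

lemma Gen.sys {n : ℕ} {x : Fin n → K} (hx : C.Gen x) : C.Sys x 1 where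
  mem i l := by
    rw [up_neg_one]
    exact hx.mem i l
  gen i := by
    obtain ⟨a, ha, ha'⟩ := hx.gen i
    refine ⟨fun l => C.up i (-1) * a l, fun l => ?_, ?_⟩
    · rw [← mul_assoc, ← up_add, add_neg_cancel, up_zero, one_mul]
      exact ha l
    · have h1 : ∀ l, C.up i (-1) * a l * x l = C.up i (-1) * (a l * x l) := fun l => by ring
      rw [Finset.sum_congr rfl fun l _ => h1 l, ← Finset.mul_sum, ha', ← up_one, up_neg_mul]

variable (C) in
/-- the vanishing of the first cohomology group, with an integral exponent -/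
def H1V (e : ℤ) : Prop :=
  ∀ n : ι → ι → Ω, (∀ i j, C.Sec₂ e i j (n i j)) → (∀ i j k, n i j + n j k = n i k) →
    ∃ c : ι → Ω, (∀ i, C.Sec e i (c i)) ∧ ∀ i j, n i j = c i - c j

lemma H1Van.h1V {N : ℕ} (h : C.H1Van N) : C.H1V (N : ℤ) := by
  intro n hn hc
  obtain ⟨c, h1, h2⟩ := h n (fun i j => by rw [← up_nat]; exact hn i j) hc
  exact ⟨c, fun i => by show _ • _ ∈ _; rw [up_nat]; exact h1 i, h2⟩

variable {n : ℕ} {g : Fin n → K} {s : ℤ}

variable (C) in
/-- the transition functions of the line bundle are units on the intersections -/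
def Trans : Prop := ∀ i j (e : ℤ), C.up i e * C.up j (-e) ∈ C.A₂ i j

lemma trans_of (h1 : ∀ i j, C.up i 1 * C.up j (-1) ∈ C.A₂ i j)
    (h2 : ∀ i j, C.up i (-1) * C.up j 1 ∈ C.A₂ i j) : C.Trans := by
  intro i j e
  obtain ⟨m, rfl | rfl⟩ := e.eq_nat_or_neg
  · have h3 : C.up i (m : ℤ) * C.up j (-(m : ℤ)) = (C.up i 1 * C.up j (-1)) ^ m := by
      rw [up_nat, up_neg_nat, mul_pow, up_one, up_neg_one]
    rw [h3]
    exact pow_mem (h1 i j) m
  · have h3 : C.up i (-(m : ℤ)) * C.up j (-(-(m : ℤ))) = (C.up i (-1) * C.up j 1) ^ m := by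
      rw [neg_neg, up_nat, up_neg_nat, mul_pow, up_one, up_neg_one]
    rw [h3]
    exact pow_mem (h2 i j) m

/-- differences of local sections lie in the sheaf on the intersection -/
lemma sec₂_sub (hT : C.Trans) {e : ℤ} {i j : ι} {η ζ : Ω} (h1 : C.Sec e i η)
    (h2 : C.Sec e j ζ) : C.Sec₂ e i j (η - ζ) := by
  show _ • _ ∈ _
  rw [smul_sub]
  refine sub_mem (C.hωl i j h1) ?_
  have h3 : C.up i e • ζ = (C.up i e * C.up j (-e)) • (C.up j e • ζ) := by
    rw [smul_smul, mul_assoc, up_neg_mul, mul_one]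
  rw [h3]
  exact C.hω₂ i j _ (hT i j e) _ (C.hωr i j h2)

lemma Sec₂.sum {e : ℤ} {i j : ι} {α : Type*} {s : Finset α} {η : α → Ω}
    (h : ∀ a ∈ s, C.Sec₂ e i j (η a)) : C.Sec₂ e i j (∑ a ∈ s, η a) := by
  show _ • _ ∈ _
  rw [Finset.smul_sum]
  exact sum_mem h

/-- the Koszul lemma in degree one -/
lemma Sys.one [Nonempty ι] (hg : C.Sys g s) {e f : ℤ} (hf : f = e + s) {w : Fin n → Ω}
    (hw : ∀ l, C.Glob e (w l)) (hrel : ∀ l m, g l • w m = g m • w l) :
    ∃ c, C.Glob f c ∧ ∀ m, w m = g m • c := by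
  obtain ⟨i₀⟩ := ‹Nonempty ι›
  choose E hE hE1 using hg.gen
  set c : ι → Ω := fun i => ∑ l, E i l • w l with hc
  have h1 : ∀ i m, g m • c i = w m := by
    intro i m
    rw [hc]
    dsimp only
    rw [Finset.smul_sum]
    have h2 : ∀ l, g m • E i l • w l = (E i l * g l) • w m := by
      intro l
      rw [smul_comm, ← hrel, smul_smul]
    rw [Finset.sum_congr rfl fun l _ => h2 l, ← Finset.sum_smul, hE1, one_smul]
  have h2 : ∀ i j, c i = c j := by
    intro i j
    have h3 : c i - c j = ∑ l, (E i l * g l) • (c i - c j) := by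
      rw [← Finset.sum_smul, hE1, one_smul]
    rw [Finset.sum_eq_zero fun l _ => by rw [mul_smul, smul_sub, h1, h1, sub_self, smul_zero]]
      at h3
    exact sub_eq_zero.1 h3
  refine ⟨c i₀, fun i => ?_, fun m => (h1 i₀ m).symm⟩
  rw [h2 i₀ i]
  exact Sec.sum fun l _ => (hw l i).smul (hE i l) hf

/-- the Koszul lemma in degree two -/
lemma Sys.two [Nonempty ι] (hg : C.Sys g s) (hT : C.Trans) {e f t : ℤ} (hf : f = e + s)
    (ht : t = f + s) (hH : C.H1V t)
    {N : Fin n → Fin n → Ω} (hN : ∀ l m, C.Glob e (N l m))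
    (hrel : ∀ k l m, g k • N l m - g l • N k m + g m • N k l = 0) :
    ∃ μ : Fin n → Ω, (∀ m, C.Glob f (μ m)) ∧ ∀ l m, N l m = g l • μ m - g m • μ l := by
  obtain ⟨i₀⟩ := ‹Nonempty ι›
  choose E hE hE1 using hg.gen
  set μ : ι → Fin n → Ω := fun v m => ∑ k, E v k • N k m with hμ
  have hNμ : ∀ v l m, N l m = g l • μ v m - g m • μ v l := by
    intro v l m
    have e1 : N l m = ∑ k, (E v k * g k) • N l m := by
      rw [← Finset.sum_smul, hE1, one_smul]
    rw [e1, hμ]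
    dsimp only
    rw [Finset.smul_sum, Finset.smul_sum, ← Finset.sum_sub_distrib]
    refine Finset.sum_congr rfl fun k _ => ?_
    linear_combination (norm := module) (E v k) • hrel k l m
  have hμmem : ∀ v m, C.Sec f v (μ v m) := by
    intro v m
    exact Sec.sum fun k _ => (hN k m v).smul (hE v k) hf
  have hdd : ∀ v w l m, g l • (μ v m - μ w m) = g m • (μ v l - μ w l) := by
    intro v w l m
    have e1 := hNμ v l m
    have e2 := hNμ w l m
    linear_combination (norm := module) e2 - e1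
  set q : ι → ι → Ω := fun v w => ∑ l, E v l • (μ v l - μ w l) with hq
  have hgq : ∀ v w m, g m • q v w = μ v m - μ w m := by
    intro v w m
    have e1 : μ v m - μ w m = ∑ l, (E v l * g l) • (μ v m - μ w m) := by
      rw [← Finset.sum_smul, hE1, one_smul]
    rw [e1, hq]
    dsimp only
    rw [Finset.smul_sum]
    refine Finset.sum_congr rfl fun l _ => ?_
    rw [mul_smul, hdd, smul_comm]
  have hqmem : ∀ v w, C.Sec₂ t v w (q v w) := by
    intro v w
    exact Sec₂.sum fun l _ => (sec₂_sub hT (hμmem v l) (hμmem w l)).smul (hE v l) ht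
  have hqcoc : ∀ v w t, q v w + q w t = q v t := by
    intro v w t
    have e1 : ∀ m, g m • (q v w + q w t - q v t) = 0 := by
      intro m
      rw [smul_sub, smul_add, hgq, hgq, hgq]
      abel
    have e2 : q v w + q w t - q v t = ∑ l, (E v l * g l) • (q v w + q w t - q v t) := by
      rw [← Finset.sum_smul, hE1, one_smul]
    rw [Finset.sum_eq_zero fun l _ => by rw [mul_smul, e1, smul_zero]] at e2
    exact sub_eq_zero.1 e2
  obtain ⟨c, hc, hqc⟩ := hH q hqmem hqcoc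
  have e1 : ∀ m v w, μ v m - g m • c v = μ w m - g m • c w := by
    intro m v w
    have e2 := hgq v w m
    rw [hqc, smul_sub] at e2
    linear_combination (norm := module) -e2
  refine ⟨fun m => μ i₀ m - g m • c i₀, fun m v => ?_, fun l m => ?_⟩
  · show C.Sec f v (μ i₀ m - g m • c i₀)
    rw [e1 m i₀ v]
    exact (hμmem v m).sub ((hc v).smul (hg.mem v m) (by omega))
  · show N l m = g l • (μ i₀ m - g m • c i₀) - g m • (μ i₀ l - g l • c i₀)
    rw [hNμ i₀ l m]
    module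

/-- negative twists have no global sections -/
lemma glob_zero [Nontrivial K] (htf : ∀ (a : K) (η : Ω), a • η = 0 → a = 0 ∨ η = 0)
    {x : Fin n → K} (hx : C.Gen x) (H0 : ∀ η, C.Global 0 η → η = 0) {e : ℤ} (he : 0 ≤ e)
    {η : Ω} (hη : C.Glob e η) : η = 0 := by
  obtain ⟨N, rfl⟩ := Int.eq_ofNat_of_zero_le he
  refine global_eq_zero htf hx H0 N η fun i => ?_
  rw [← up_nat]
  exact hη i

/-- vanishing for all negative twists -/
lemma h1V_of [Nontrivial K] (htf : ∀ (a : K) (η : Ω), a • η = 0 → a = 0 ∨ η = 0)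
    {x : Fin n → K} (hx : C.Gen x) (H0 : ∀ η, C.Global 0 η → η = 0) (H1 : C.H1Van 1) {e : ℤ}
    (he : 1 ≤ e) : C.H1V e := by
  obtain ⟨N, rfl⟩ := Int.eq_ofNat_of_zero_le (by omega : 0 ≤ e)
  obtain ⟨M, rfl⟩ : ∃ M, N = M + 1 := ⟨N - 1, by omega⟩
  exact (H1Van_succ htf hx H0 H1 M).h1V

end Cover

end IndexOne
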