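import Pool.Agent.Work.MP_4c1522_ag.VeryMain

/-!
# The cohomological argument with weaker hypotheses: `H⁰ (ω ⊗ L⁻¹) = 0` and `H¹ (ω ⊗ L⁻³) = 0`
-/

open MvPolynomial

namespace IndexOne

open DoubleSolid

variable {K Ω : Type*} [CommRing K] [Algebra ℂ K] [AddCommGroup Ω] [Module K Ω]
  {B : BiDer K Ω} {ι : Type*}

namespace Cover

variable {C : Cover B ι}

lemma Sec₂.add {e : ℤ} {i j : ι} {η ζ : Ω} (h1 : C.Sec₂ e i j η) (h2 : C.Sec₂ e i j ζ) :
    C.Sec₂ e i j (η + ζ) := by
  show _ • _ ∈ _
  rw [smul_add]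
  exact add_mem h1 h2

lemma Sec₂.sub {e : ℤ} {i j : ι} {η ζ : Ω} (h1 : C.Sec₂ e i j η) (h2 : C.Sec₂ e i j ζ) :
    C.Sec₂ e i j (η - ζ) := by
  show _ • _ ∈ _
  rw [smul_sub]
  exact sub_mem h1 h2

variable [Nontrivial K] [Nonempty ι]
  (htf : ∀ (a : K) (η : Ω), a • η = 0 → a = 0 ∨ η = 0) (hT : C.Trans)
  {x : Fin 6 → K} (hx : C.Gen x) {e₀ : ℤ} (H0 : ∀ η, C.Glob e₀ η → η = 0)

include htf hx H0 in
/-- more negative twists have no global sections -/
lemma glob_zero' {e : ℤ} (he : e₀ ≤ e) {η : Ω} (hη : C.Glob e η) : η = 0 := by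
  obtain ⟨p, hp⟩ := exists_x_ne_zero hx
  obtain ⟨N, hN⟩ := Int.eq_ofNat_of_zero_le (sub_nonneg.2 he)
  have key : ∀ (N : ℕ) (η : Ω), C.Glob (e₀ + N) η → η = 0 := by
    intro N
    induction N with
    | zero =>
      intro η hη
      exact H0 η (by simpa using hη)
    | succ N ih =>
      intro η hη
      have h1 := ih (x p • η) fun i => (hη i).smul (hx.sys.mem i p) (by push_cast; ring)
      exact (htf _ _ h1).resolve_left hp
  exact key N η (by
    have h1 : e₀ + (N : ℤ) = e := by rw [← hN]; ring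
    rw [h1]
    exact hη)

include htf hx H0 in
/-- the vanishing of the first cohomology passes to more negative twists -/
lemma h1V_step {e : ℤ} (he : e₀ ≤ e - 1) (h : C.H1V e) : C.H1V (e + 1) := by
  intro c hc hcoc
  have h2 : ∀ j : Fin 6, ∃ b : ι → Ω, (∀ i, C.Sec e i (b i)) ∧
      ∀ i k, x j • c i k = b i - b k := by
    intro j
    obtain ⟨b, hb, hb'⟩ := h (fun i k => x j • c i k)
      (fun i k => (hc i k).smul (hx.sys.mem i j) (by ring))
      (fun i k l => by rw [← smul_add, hcoc])
    exact ⟨b, hb, hb'⟩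
  choose b hb hb' using h2
  have h3 : ∀ j k i i', x k • b j i - x j • b k i = x k • b j i' - x j • b k i' := by
    intro j k i i'
    have e1 : x k • (b j i - b j i') = x j • (b k i - b k i') := by
      rw [← hb', ← hb', smul_comm]
    linear_combination (norm := module) e1
  have h4 : ∀ j k i, x k • b j i = x j • b k i := by
    intro j k i
    have := glob_zero' htf hx H0 he (η := x k • b j i - x j • b k i) (fun i' => by
      rw [h3 j k i i']
      exact ((hb j i').smul (hx.sys.mem i' k) (by ring)).sub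
        ((hb k i').smul (hx.sys.mem i' j) (by ring)))
    exact sub_eq_zero.1 this
  choose E hE hE1 using hx.sys.gen
  have h5 : ∀ i j, x j • (∑ k, E i k • b k i) = b j i := by
    intro i j
    rw [Finset.smul_sum]
    have e1 : ∑ k, x j • (E i k • b k i) = ∑ k, (E i k * x k) • b j i := by
      refine Finset.sum_congr rfl fun k _ => ?_
      rw [smul_comm, ← h4 j k i, smul_smul]
    rw [e1, ← Finset.sum_smul, hE1, one_smul]
  obtain ⟨m, hm⟩ := exists_x_ne_zero hx
  refine ⟨fun i => ∑ k, E i k • b k i, fun i => ?_, fun i k => ?_⟩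
  · exact Sec.sum fun k _ => (hb k i).smul (hE i k) rfl
  · have h6 : x m • (c i k - (∑ k, E i k • b k i - ∑ l, E k l • b l k)) = 0 := by
      rw [smul_sub, smul_sub, h5, h5, hb', sub_self]
    exact sub_eq_zero.1 ((htf _ _ h6).resolve_left hm)

include htf hx H0 in
lemma h1V_ge {e₁ e : ℤ} (he₁ : e₀ ≤ e₁ - 1) (h : C.H1V e₁) (he : e₁ ≤ e) : C.H1V e := by
  obtain ⟨N, hN⟩ := Int.eq_ofNat_of_zero_le (sub_nonneg.2 he)
  have key : ∀ N : ℕ, C.H1V (e₁ + N) := by
    intro N
    induction N with
    | zero => simpa using h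
    | succ N ih =>
      have := h1V_step htf hx H0 (by omega) ih
      rwa [add_assoc] at this
  have h1 : e₁ + (N : ℤ) = e := by rw [← hN]; ring
  rw [← h1]
  exact key N

variable (C) in
/-- the 2-cochain `o` is the boundary of a 1-cochain of `ω ⊗ L ^ (-e)` -/
def Bound (e : ℤ) (o : ι → ι → ι → Ω) : Prop :=
  ∃ b : ι → ι → Ω, (∀ v w, C.Sec₂ e v w (b v w)) ∧
    ∀ v w t, o v w t = b v w + b w t - b v t

include htf hT hx H0 in
/-- division of a boundary by the coordinates -/
lemma bound_step {e : ℤ} (hH : C.H1V (e - 1)) (he : e₀ ≤ e - 2) {o : ι → ι → ι → Ω}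
    (h : ∀ j, C.Bound e fun v w t => x j • o v w t) : C.Bound (e + 1) o := by
  choose b hb hbo using h
  have h1 : ∀ j k, ∃ d : ι → Ω, (∀ v, C.Sec (e - 1) v (d v)) ∧
      ∀ v w, x k • b j v w - x j • b k v w = d v - d w := by
    intro j k
    refine hH (fun v w => x k • b j v w - x j • b k v w) (fun v w => ?_) (fun v w t => ?_)
    · exact ((hb j v w).smul (hx.sys.mem v k) (by ring)).sub
        ((hb k v w).smul (hx.sys.mem v j) (by ring))
    · have e1 := hbo j v w t
      have e2 := hbo k v w t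
      linear_combination (norm := module) -(x k • e1) + x j • e2
  choose d hd hdd using h1
  have h2 : ∀ i j k v w, x i • d j k v - x j • d i k v + x k • d i j v =
      x i • d j k w - x j • d i k w + x k • d i j w := by
    intro i j k v w
    have e1 := hdd j k v w
    have e2 := hdd i k v w
    have e3 := hdd i j v w
    linear_combination (norm := module) -(x i • e1) + x j • e2 - x k • e3
  have h3 : ∀ i j k v, x i • d j k v - x j • d i k v + x k • d i j v = 0 := by
    intro i j k v
    refine glob_zero' htf hx H0 he fun w => ?_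
    rw [h2 i j k v w]
    exact (((hd j k w).smul (hx.sys.mem w i) (by ring)).sub
      ((hd i k w).smul (hx.sys.mem w j) (by ring))).add
      ((hd i j w).smul (hx.sys.mem w k) (by ring))
  choose E hE hE1 using hx.sys.gen
  set ε : Fin 6 → ι → Ω := fun j v => -∑ i, E v i • d i j v with hε
  have hεmem : ∀ j v, C.Sec e v (ε j v) := by
    intro j v
    have h4 : C.Sec e v (∑ i, E v i • d i j v) :=
      Sec.sum fun i _ => (hd i j v).smul (hE v i) (by ring)
    show _ • _ ∈ _
    rw [hε, smul_neg]
    exact neg_mem h4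
  have hdε : ∀ j k v, d j k v = x k • ε j v - x j • ε k v := by
    intro j k v
    have e1 : d j k v = ∑ i, (E v i * x i) • d j k v := by
      rw [← Finset.sum_smul, hE1, one_smul]
    rw [e1, hε]
    dsimp only
    rw [smul_neg, smul_neg, Finset.smul_sum, Finset.smul_sum, sub_neg_eq_add, neg_add_eq_sub,
      ← Finset.sum_sub_distrib]
    refine Finset.sum_congr rfl fun i _ => ?_
    linear_combination (norm := module) (E v i) • h3 i j k v
  set b' : Fin 6 → ι → ι → Ω := fun j v w => b j v w - (ε j v - ε j w) with hb'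
  have hb'x : ∀ j k v w, x k • b' j v w = x j • b' k v w := by
    intro j k v w
    have e1 := hdd j k v w
    rw [hdε, hdε] at e1
    simp only [hb']
    linear_combination (norm := module) e1
  have hb'mem : ∀ j v w, C.Sec₂ e v w (b' j v w) := fun j v w =>
    (hb j v w).sub (sec₂_sub hT (hεmem j v) (hεmem j w))
  have h5 : ∀ v w j, x j • (∑ k, E v k • b' k v w) = b' j v w := by
    intro v w j
    rw [Finset.smul_sum]
    have e1 : ∑ k, x j • (E v k • b' k v w) = ∑ k, (E v k * x k) • b' j v w := by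
      refine Finset.sum_congr rfl fun k _ => ?_
      rw [smul_comm, ← hb'x j k v w, smul_smul]
    rw [e1, ← Finset.sum_smul, hE1, one_smul]
  obtain ⟨m, hm⟩ := exists_x_ne_zero hx
  refine ⟨fun v w => ∑ k, E v k • b' k v w, fun v w => ?_, fun v w t => ?_⟩
  · exact Sec₂.sum fun k _ => (hb'mem k v w).smul (hE v k) rfl
  · have h6 : x m • (o v w t - (∑ k, E v k • b' k v w + ∑ k, E w k • b' k w t -
        ∑ k, E v k • b' k v t)) = 0 := by
      have e1 := hbo m v w t
      have e2 := h5 v w m
      have e3 := h5 w t m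
      have e4 := h5 v t m
      simp only [hb'] at e2 e3 e4 ⊢
      linear_combination (norm := module) e1 - e2 - e3 + e4
    exact sub_eq_zero.1 ((htf _ _ h6).resolve_left hm)

end Cover

end IndexOne
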