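import Mathlib

/-!
# Convex lattice polygons: the edges that are not visible from a point form an arc
-/

namespace DoubleSolid

/-- the determinant of two vectors -/
def det (a b : ℤ × ℤ) : ℤ := a.1 * b.2 - a.2 * b.1

lemma det_add_right (a b c : ℤ × ℤ) : det a (b + c) = det a b + det a c := by
  simp only [det, Prod.fst_add, Prod.snd_add]; ring

lemma det_sub_right (a b c : ℤ × ℤ) : det a (b - c) = det a b - det a c := by
  simp only [det, Prod.fst_sub, Prod.snd_sub]; ring

lemma det_add_left (a b c : ℤ × ℤ) : det (a + b) c = det a c + det b c := by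
  simp only [det, Prod.fst_add, Prod.snd_add]; ring

lemma det_sub_left (a b c : ℤ × ℤ) : det (a - b) c = det a c - det b c := by
  simp only [det, Prod.fst_sub, Prod.snd_sub]; ring

lemma det_smul_right (a b : ℤ × ℤ) (k : ℤ) : det a (k • b) = k * det a b := by
  simp only [det, Prod.smul_fst, Prod.smul_snd, smul_eq_mul]; ring

lemma det_nsmul_right (a b : ℤ × ℤ) (k : ℕ) : det a (k • b) = k * det a b := by
  rw [← natCast_zsmul, det_smul_right]

lemma det_self (a : ℤ × ℤ) : det a a = 0 := by simp only [det]; ring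

lemma det_zero (a : ℤ × ℤ) : det a 0 = 0 := by simp [det]

/-- `v 0, …, v (r - 1)` are the vertices, in counterclockwise order, of a convex polygon: there
are at least three, and every vertex not on an edge `[v e, v (e + 1)]` lies strictly to the left
of it -/
structure IsPolygon {r : ℕ} (v : ZMod r → ℤ × ℤ) : Prop where
  three : 3 ≤ r
  left : ∀ e j, j ≠ e → j ≠ e + 1 → 0 < det (v (e + 1) - v e) (v j - v e)

namespace IsPolygon

variable {r : ℕ} {v : ZMod r → ℤ × ℤ} (hv : IsPolygon v)

include hv

lemma neZero : NeZero r := ⟨by have := hv.three; omega⟩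

lemma one_ne_zero : (1 : ZMod r) ≠ 0 := by
  have := hv.three
  have : Fact (1 < r) := ⟨by omega⟩
  exact _root_.one_ne_zero

lemma two_ne_zero : (2 : ZMod r) ≠ 0 := by
  have h3 := hv.three
  intro h
  have h2 : ((2 : ℕ) : ZMod r) = 0 := by exact_mod_cast h
  rw [ZMod.natCast_eq_zero_iff] at h2
  have := Nat.le_of_dvd (by norm_num) h2
  omega

lemma left' (e j : ZMod r) : 0 ≤ det (v (e + 1) - v e) (v j - v e) := by
  by_cases h1 : j = e
  · subst h1; simp [det_zero]
  · by_cases h2 : j = e + 1
    · subst h2; rw [det_self]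
    · exact (hv.left e j h1 h2).le

/-- the sum of the edge vectors is zero -/
lemma sum_det (m : ℤ × ℤ) : haveI := hv.neZero; ∑ e, det (v (e + 1) - v e) m = 0 := by
  have := hv.neZero
  simp_rw [det_sub_left]
  rw [Finset.sum_sub_distrib, sub_eq_zero]
  exact Fintype.sum_equiv (Equiv.addRight 1) _ _ (fun e => rfl)

/-- not all edges are visible -/
lemma exists_le (k : ℤ) (hk : 0 ≤ k) (m : ℤ × ℤ) :
    ∃ e, det (v (e + 1) - v e) (m + k • v e) ≤ 0 := by
  have := hv.neZero
  by_contra hc
  push Not at hc
  have h1 : 0 < ∑ e, det (v (e + 1) - v e) (m + k • v e) :=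
    Finset.sum_pos (fun e _ => hc e) Finset.univ_nonempty
  have h2 : ∑ e, det (v (e + 1) - v e) (v 0 - v e) =
      - ∑ e, det (v (e + 1) - v e) (v e) := by
    simp_rw [det_sub_right]
    rw [Finset.sum_sub_distrib, hv.sum_det, zero_sub]
  have h3 : 0 ≤ ∑ e, det (v (e + 1) - v e) (v 0 - v e) :=
    Finset.sum_nonneg fun e _ => hv.left' e 0
  simp_rw [det_add_right, det_smul_right] at h1
  rw [Finset.sum_add_distrib, hv.sum_det, zero_add, ← Finset.mul_sum] at h1
  nlinarith

section Arc

variable {k : ℤ} (hk : 0 < k) (m : ℤ × ℤ)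

include hk

/-- at an exit all vertices lie on one side -/
lemma exit_side (p j : ZMod r) (h1 : det (v p - v (p - 1)) (m + k • v (p - 1)) ≤ 0)
    (h2 : 0 < det (v (p + 1) - v p) (m + k • v p)) (hj : j ≠ p) :
    det (m + k • v p) (v j - v p) ≤ 0 ∧
      (j ≠ p - 1 → det (m + k • v p) (v j - v p) < 0) := by
  have hne : p - 1 ≠ p + 1 := by
    intro h
    apply hv.two_ne_zero
    have : (2 : ZMod r) = (p + 1) - (p - 1) := by ring
    rw [this, h, sub_self]
  have hne' : p - 1 ≠ p := by
    intro h
    apply hv.one_ne_zero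
    have : (1 : ZMod r) = p - (p - 1) := by ring
    rw [this, h, sub_self]
  have hba : 0 < det (v (p + 1) - v p) (v (p - 1) - v p) := hv.left p (p - 1) hne' hne
  have hbc : 0 ≤ det (v (p + 1) - v p) (v j - v p) := hv.left' p j
  have hca0 := hv.left' (p - 1) j
  have hca1 := hv.left (p - 1) j
  rw [sub_add_cancel] at hca0 hca1
  have e1 : det (v p - v (p - 1)) (v j - v (p - 1)) = det (v j - v p) (v (p - 1) - v p) := by
    simp only [det, Prod.fst_sub, Prod.snd_sub]; ring
  rw [e1] at hca0 hca1
  have hzb : det (m + k • v p) (v (p + 1) - v p) < 0 := by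
    have : det (m + k • v p) (v (p + 1) - v p) = - det (v (p + 1) - v p) (m + k • v p) := by
      simp only [det]; ring
    rw [this]; linarith
  have hza : det (m + k • v p) (v (p - 1) - v p) ≤ 0 := by
    have : det (m + k • v p) (v (p - 1) - v p) = det (v p - v (p - 1)) (m + k • v (p - 1)) := by
      simp only [det, Prod.fst_sub, Prod.snd_sub, Prod.fst_add, Prod.snd_add, Prod.smul_fst,
        Prod.smul_snd, smul_eq_mul]; ring
    rw [this]; exact h1
  have key : det (m + k • v p) (v j - v p) * det (v (p + 1) - v p) (v (p - 1) - v p) =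
      det (v j - v p) (v (p - 1) - v p) * det (m + k • v p) (v (p + 1) - v p) +
      det (v (p + 1) - v p) (v j - v p) * det (m + k • v p) (v (p - 1) - v p) := by
    simp only [det]; ring
  constructor
  · by_contra hc
    push Not at hc
    nlinarith
  · intro hj'
    have hca := hca1 hj' hj
    by_contra hc
    push Not at hc
    nlinarith

/-- the exit is unique -/
lemma exit_unique (e e' : ZMod r) (h1 : det (v (e + 1) - v e) (m + k • v e) ≤ 0)
    (h2 : 0 < det (v (e + 1 + 1) - v (e + 1)) (m + k • v (e + 1)))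
    (h1' : det (v (e' + 1) - v e') (m + k • v e') ≤ 0)
    (h2' : 0 < det (v (e' + 1 + 1) - v (e' + 1)) (m + k • v (e' + 1))) : e = e' := by
  by_contra hne
  have hne1 : e + 1 ≠ e' + 1 := fun h => hne (add_right_cancel h)
  have a1 := hv.exit_side hk m (e + 1) (e' + 1) (by rw [add_sub_cancel_right]; exact h1) h2
    (Ne.symm hne1)
  have a2 := hv.exit_side hk m (e' + 1) (e + 1) (by rw [add_sub_cancel_right]; exact h1') h2' hne1
  have e1 : k * det (m + k • v (e + 1)) (v (e' + 1) - v (e + 1)) =
      det (m + k • v (e + 1)) (m + k • v (e' + 1)) := by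
    simp only [det, Prod.fst_sub, Prod.snd_sub, Prod.fst_add, Prod.snd_add, Prod.smul_fst,
        Prod.smul_snd, smul_eq_mul]; ring
  have e2 : k * det (m + k • v (e' + 1)) (v (e + 1) - v (e' + 1)) =
      - det (m + k • v (e + 1)) (m + k • v (e' + 1)) := by
    simp only [det, Prod.fst_sub, Prod.snd_sub, Prod.fst_add, Prod.snd_add, Prod.smul_fst,
        Prod.smul_snd, smul_eq_mul]; ring
  rw [add_sub_cancel_right] at a1 a2
  by_cases hc : e' + 1 = e
  · have hc' : e + 1 ≠ e' := by
      intro h
      apply hv.two_ne_zero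
      have : (2 : ZMod r) = (e' + 1 + 1) - e' := by ring
      rw [this, hc, h, sub_self]
    have := a2.2 hc'
    have := a1.1
    nlinarith
  · have := a1.2 hc
    have := a2.1
    nlinarith

/-- a function which is constant along the non-visible edges takes the same value on all of
them -/
lemma arc {α : Type*} (N : ZMod r → α)
    (hN : ∀ e, det (v (e + 1) - v e) (m + k • v e) ≤ 0 → N (e + 1) = N e) (e e' : ZMod r)
    (he : det (v (e + 1) - v e) (m + k • v e) ≤ 0)
    (he' : det (v (e' + 1) - v e') (m + k • v e') ≤ 0) : N e = N e' := by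
  have := hv.neZero
  set P : ZMod r → Prop := fun e => det (v (e + 1) - v e) (m + k • v e) ≤ 0 with hP
  have walk : ∀ e, P e → (∀ n : ℕ, P (e + n) ∧ N (e + n) = N e) ∨
      ∃ x, P x ∧ ¬ P (x + 1) ∧ N x = N e := by
    intro e he
    by_cases hx : ∃ x, P x ∧ ¬ P (x + 1) ∧ N x = N e
    · exact Or.inr hx
    · left
      intro n
      induction n with
      | zero => simpa using he
      | succ n ih =>
        have h1 : P (e + n + 1) := by
          by_contra hc
          exact hx ⟨e + n, ih.1, hc, ih.2⟩
        have h2 : (e + ((n + 1 : ℕ) : ZMod r)) = e + n + 1 := by push_cast; ring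
        rw [h2]
        exact ⟨h1, (hN _ ih.1).trans ih.2⟩
  have hall : ∀ e, (∀ n : ℕ, P (e + n) ∧ N (e + n) = N e) → ∀ x, P x ∧ N x = N e := by
    intro e h x
    have h1 := h (x - e).val
    rw [ZMod.natCast_zmod_val, add_sub_cancel] at h1
    exact h1
  rcases walk e he with h | ⟨x, h1, h2, h3⟩
  · exact (hall e h e').2.symm
  · rcases walk e' he' with h | ⟨y, h1', h2', h3'⟩
    · exact (hall e' h e).2
    · have : x = y := hv.exit_unique hk m x y h1 (not_le.1 h2) h1' (not_le.1 h2')
      rw [← h3, ← h3', this]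

end Arc

end IsPolygon

end DoubleSolid
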