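import Pool.Agent.Work.MP_4c1522_ag.Abs
import Pool.Agent.Work.MP_4c1522_ag.Poly

/-!
# Laurent polynomials in two variables
-/

open AddMonoidAlgebra

namespace DoubleSolid

/-- Laurent polynomials in two variables -/
abbrev Laurent := AddMonoidAlgebra ℂ (ℤ × ℤ)

/-- the Laurent polynomials with support in `S` -/
def supp (S : Set (ℤ × ℤ)) : AddSubgroup Laurent where
  carrier := {f | ∀ m, f.coeff m ≠ 0 → m ∈ S}
  add_mem' := by
    intro f g hf hg m hm
    by_cases h : f.coeff m = 0
    · exact hg m fun h' => hm (by simp [h, h'])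
    · exact hf m h
  zero_mem' := fun m hm => absurd rfl hm
  neg_mem' := by
    intro f hf m hm
    exact hf m fun h => hm (by simp [h])

lemma mem_supp {S : Set (ℤ × ℤ)} {f : Laurent} : f ∈ supp S ↔ ∀ m, f.coeff m ≠ 0 → m ∈ S := Iff.rfl

lemma single_mem_supp {S : Set (ℤ × ℤ)} {m : ℤ × ℤ} (c : ℂ) (h : m ∈ S) :
    single m c ∈ supp S := by
  intro m' hm'
  rw [coeff_single, Finsupp.single_apply] at hm'
  by_cases h' : m = m'
  · exact h' ▸ h
  · rw [if_neg h'] at hm'
    exact absurd rfl hm'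

/-- induction principle -/
lemma supp_induction {S : Set (ℤ × ℤ)} {p : Laurent → Prop} (h0 : p 0)
    (hadd : ∀ f g, p f → p g → p (f + g)) (hs : ∀ m ∈ S, ∀ c, p (single m c)) {f : Laurent}
    (hf : f ∈ supp S) : p f := by
  have h1 : f = ∑ m ∈ f.coeff.support, single m (f.coeff m) := by
    apply AddMonoidAlgebra.ext
    rw [coeff_sum]
    simp only [coeff_single]
    exact (Finsupp.sum_single f.coeff).symm
  rw [h1]
  have h2 : ∀ s : Finset (ℤ × ℤ), s ⊆ f.coeff.support → p (∑ m ∈ s, single m (f.coeff m)) := by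
    intro s hs'
    classical
    induction s using Finset.induction_on with
    | empty => simpa using h0
    | insert a s ha ih =>
      rw [Finset.sum_insert ha]
      refine hadd _ _ (hs a (hf a ?_) _) (ih fun x hx => hs' (Finset.mem_insert_of_mem hx))
      exact Finsupp.mem_support_iff.1 (hs' (Finset.mem_insert_self a s))
  exact h2 _ (le_refl _)

/-- a biadditive map, on supports -/
lemma bilin_mem {S S' T : Set (ℤ × ℤ)} (β : Laurent → Laurent → Laurent)
    (hl : ∀ f g h, β (f + g) h = β f h + β g h) (hr : ∀ f g h, β f (g + h) = β f g + β f h)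
    (hl0 : ∀ h, β 0 h = 0) (hr0 : ∀ h, β h 0 = 0)
    (hs : ∀ m ∈ S, ∀ m' ∈ S', ∀ c c', β (single m c) (single m' c') ∈ supp T) {f g : Laurent}
    (hf : f ∈ supp S) (hg : g ∈ supp S') : β f g ∈ supp T := by
  refine supp_induction (p := fun f => β f g ∈ supp T) (by rw [hl0]; exact zero_mem _)
    (fun a b ha hb => by rw [hl]; exact add_mem ha hb) (fun m hm c => ?_) hf
  refine supp_induction (p := fun g => β (single m c) g ∈ supp T) (by rw [hr0]; exact zero_mem _)
    (fun a b ha hb => by rw [hr]; exact add_mem ha hb) (fun m' hm' c' => hs m hm m' hm' c c') hg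

lemma mul_mem_supp {S S' T : Set (ℤ × ℤ)} (h : ∀ m ∈ S, ∀ m' ∈ S', m + m' ∈ T) {f g : Laurent}
    (hf : f ∈ supp S) (hg : g ∈ supp S') : f * g ∈ supp T :=
  bilin_mem (fun a b => a * b) add_mul mul_add zero_mul mul_zero (fun m hm m' hm' c c' => by
    rw [single_mul_single]
    exact single_mem_supp _ (h m hm m' hm')) hf hg

/-- the subalgebra attached to a submonoid -/
def alg (C : AddSubmonoid (ℤ × ℤ)) : Subalgebra ℂ Laurent where
  carrier := supp C
  mul_mem' hf hg := mul_mem_supp (fun _ hm _ hm' => C.add_mem hm hm') hf hg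
  add_mem' hf hg := (supp (C : Set (ℤ × ℤ))).add_mem hf hg
  algebraMap_mem' c := single_mem_supp c C.zero_mem

lemma mem_alg {C : AddSubmonoid (ℤ × ℤ)} {f : Laurent} : f ∈ alg C ↔ f ∈ supp C := Iff.rfl

/-- the derivation attached to an additive function -/
noncomputable def θ (φ : ℤ × ℤ →+ ℤ) (f : Laurent) : Laurent :=
  ofCoeff (Finsupp.onFinset f.coeff.support (fun m => (φ m : ℂ) * f.coeff m) (by
    intro m hm
    rw [Finsupp.mem_support_iff]
    intro h
    exact hm (by rw [h, mul_zero])))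

lemma coeff_θ (φ : ℤ × ℤ →+ ℤ) (f : Laurent) (m : ℤ × ℤ) :
    (θ φ f).coeff m = (φ m : ℂ) * f.coeff m := rfl

lemma θ_add (φ : ℤ × ℤ →+ ℤ) (f g : Laurent) : θ φ (f + g) = θ φ f + θ φ g := by
  apply AddMonoidAlgebra.ext
  ext m
  rw [coeff_add, Finsupp.add_apply, coeff_θ, coeff_θ, coeff_θ, coeff_add, Finsupp.add_apply]
  ring

lemma θ_zero (φ : ℤ × ℤ →+ ℤ) : θ φ 0 = 0 := by
  apply AddMonoidAlgebra.ext
  ext m
  rw [coeff_θ]
  simp

lemma θ_single (φ : ℤ × ℤ →+ ℤ) (m : ℤ × ℤ) (c : ℂ) :
    θ φ (single m c) = single m ((φ m : ℂ) * c) := by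
  apply AddMonoidAlgebra.ext
  ext m'
  rw [coeff_θ, coeff_single, coeff_single, Finsupp.single_apply, Finsupp.single_apply]
  by_cases h : m = m'
  · subst h; simp
  · simp [h]

lemma mem_supp_univ (f : Laurent) : f ∈ supp Set.univ := fun _ _ => Set.mem_univ _

lemma θ_mul (φ : ℤ × ℤ →+ ℤ) (f g : Laurent) : θ φ (f * g) = f * θ φ g + g * θ φ f := by
  refine supp_induction (p := fun f => θ φ (f * g) = f * θ φ g + g * θ φ f)
    (by simp [θ_zero]) (fun a b ha hb => ?_) (fun m _ c => ?_) (mem_supp_univ f)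
  · rw [add_mul, θ_add, ha, hb, θ_add]; ring
  refine supp_induction (p := fun g => θ φ (single m c * g) = single m c * θ φ g +
    g * θ φ (single m c)) (by simp [θ_zero]) (fun a b ha hb => ?_) (fun m' _ c' => ?_)
    (mem_supp_univ g)
  · rw [mul_add, θ_add, ha, hb, θ_add]; ring
  · rw [single_mul_single, θ_single, θ_single, θ_single, single_mul_single, single_mul_single,
      add_comm m' m, ← single_add, map_add]
    congr 1
    push_cast
    ring

lemma θ_const (φ : ℤ × ℤ →+ ℤ) (c : ℂ) : θ φ (algebraMap ℂ Laurent c) = 0 := by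
  have : algebraMap ℂ Laurent c = single 0 c := rfl
  rw [this, θ_single]
  simp

/-- the bracket of Laurent polynomials, `df ∧ dg` in the basis `ds/s ∧ dt/t` -/
noncomputable def bra : BiDer Laurent Laurent where
  κ f g := θ (AddMonoidHom.fst ℤ ℤ) f * θ (AddMonoidHom.snd ℤ ℤ) g -
    θ (AddMonoidHom.snd ℤ ℤ) f * θ (AddMonoidHom.fst ℤ ℤ) g
  add a b c := by rw [θ_add, θ_add]; ring
  mul a b c := by rw [θ_mul, θ_mul, smul_eq_mul, smul_eq_mul]; ring
  const z c := by rw [θ_const, θ_const]; ring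
  anti a b := by ring
  self a := by ring

lemma bra_single (m m' : ℤ × ℤ) (c c' : ℂ) :
    bra.κ (single m c) (single m' c') = single (m + m') ((det m m' : ℂ) * c * c') := by
  show θ _ _ * θ _ _ - θ _ _ * θ _ _ = _
  rw [θ_single, θ_single, θ_single, θ_single, single_mul_single, single_mul_single,
    ← single_sub]
  congr 1
  simp only [det, AddMonoidHom.coe_fst, AddMonoidHom.coe_snd]
  push_cast
  ring

end DoubleSolid
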