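import Pool.Agent.Work.MP_4c1522_ag.Relation
import Pool.Agent.Work.MP_4c1522_ag.General

/-!
# Rigidity for derivations of the base field
-/

open MvPolynomial

namespace IndexOne

open DoubleSolid

/-- the chain rule -/
lemma der_aeval {k A σ : Type*} [Fintype σ] [CommRing k] [CommRing A] [Algebra k A]
    (D : Derivation k A A) (x : σ → A) (F : MvPolynomial σ k) :
    D (aeval x F) = ∑ j, aeval x (pderiv j F) * D (x j) := by
  classical
  induction F using MvPolynomial.induction_on with
  | C a => simp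
  | add p q hp hq => simp only [map_add, hp, hq, add_mul, Finset.sum_add_distrib]
  | mul_X p n hp =>
    rw [map_mul, Derivation.leibniz, hp, aeval_X]
    have h : ∀ j, aeval x (pderiv j (p * X n)) * D (x j) =
        (if j = n then aeval x p * D (x j) else 0) +
          x n * (aeval x (pderiv j p) * D (x j)) := by
      intro j
      rw [Derivation.leibniz, map_add, smul_eq_mul, smul_eq_mul, map_mul, map_mul, aeval_X,
        pderiv_X]
      by_cases hj : j = n
      · subst hj; simp; ring
      · rw [if_neg hj, Pi.single_eq_of_ne' (Ne.symm fun h => hj h.symm)]; simp; ring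
    rw [Finset.sum_congr rfl fun j _ => h j, Finset.sum_add_distrib, ← Finset.mul_sum]
    simp

/-- the chain rule for a polynomial with coefficients in the constants -/
lemma der_aeval_map {k : Type*} {A σ : Type*} [Fintype σ] [Field k] [Algebra k ℂ] [CommRing A]
    [Algebra ℂ A] [Algebra k A] [IsScalarTower k ℂ A] (D : Derivation k A A) (x : σ → A)
    (F₀ : MvPolynomial σ k) (F : MvPolynomial σ ℂ) (hF : F = map (algebraMap k ℂ) F₀) :
    D (aeval x F) = ∑ j, aeval x (pderiv j F) * D (x j) := by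
  subst hF
  rw [aeval_map_algebraMap, der_aeval]
  refine Finset.sum_congr rfl fun j _ => ?_
  rw [pderiv_map, aeval_map_algebraMap]

/-- a countable field of definition -/
theorem exists_field {σ : Type*} (F : MvPolynomial σ ℂ) :
    ∃ k : IntermediateField ℚ ℂ, Countable k ∧ ∃ F₀ : MvPolynomial σ k,
      F = map (algebraMap k ℂ) F₀ := by
  classical
  refine ⟨IntermediateField.adjoin ℚ (F.coeffs : Set ℂ), ?_, ?_⟩
  · rw [← Cardinal.mk_le_aleph0_iff]
    refine (IntermediateField.cardinalMk_adjoin_le _ _).trans ?_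
    refine sup_le (sup_le ?_ ?_) le_rfl
    · exact Cardinal.mk_le_aleph0
    · exact Cardinal.mk_le_aleph0
  · have h : F ∈ Set.range (map (algebraMap (IntermediateField.adjoin ℚ (F.coeffs : Set ℂ)) ℂ)) := by
      rw [mem_range_map_iff_coeffs_subset]
      intro c hc
      exact ⟨⟨c, IntermediateField.subset_adjoin _ _ hc⟩, rfl⟩
    obtain ⟨F₀, h⟩ := h
    exact ⟨F₀, h.symm⟩

section Three

variable {K Ω : Type*} [CommRing K] [Algebra ℂ K] [AddCommGroup Ω] [Module K Ω]

/-- there are no 3-forms -/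
def NoThree (B : BiDer K Ω) : Prop :=
  ∀ (E : Derivation ℂ K K) (a b c : K), E c • B.κ a b - E b • B.κ a c + E a • B.κ b c = 0

lemma M_self (B : BiDer K Ω) (x : Fin 6 → K) (a : K) (p q r s : Fin 6) :
    M B x (fun j => a * x j) p q r s = 0 := by
  rw [M, J_def, J_def, J_def, J_def, B.anti (x r) (x s), B.anti (x q) (x s),
    B.anti (x q) (x r)]
  rw [B.anti (x s) (x r), B.anti (x s) (x q), B.anti (x r) (x q)]
  module

lemma M_der (B : BiDer K Ω) (hB : NoThree B) (x : Fin 6 → K) (E : Derivation ℂ K K)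
    (p q r s : Fin 6) : M B x (fun j => E (x j)) p q r s = 0 := by
  rw [M, J_def, J_def, J_def, J_def]
  have h1 := hB E (x q) (x r) (x s)
  have h2 := hB E (x p) (x r) (x s)
  have h3 := hB E (x p) (x q) (x s)
  have h4 := hB E (x p) (x q) (x r)
  linear_combination (norm := module) x p • h1 - x q • h2 + x r • h3 - x s • h4

lemma M_add (B : BiDer K Ω) (x y z : Fin 6 → K) (p q r s : Fin 6) :
    M B x (fun j => y j + z j) p q r s = M B x y p q r s + M B x z p q r s := by
  rw [M, M, M]
  module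

end Three

/-- rigidity for a lift of a derivation of the constants -/
theorem M_lift (k : Type) [Field k] [Algebra k ℂ] {K : Type} [Field K]
    [Algebra ℂ K] [Algebra k K] [IsScalarTower k ℂ K] {Ω : Type*} [AddCommGroup Ω] [Module K Ω]
    {B : BiDer K Ω} (hB : NoThree B) {ι : Type*} [Nonempty ι] (C : Cover B ι)
    {F : MvPolynomial (Fin 6) ℂ} (hFh : F.IsHomogeneous 5) (hFs : Smooth F)
    (F₀ : MvPolynomial (Fin 6) k) (hF₀ : F = map (algebraMap k ℂ) F₀)
    {x : Fin 6 → K} (hx : C.Gen x) (hF0 : aeval x F = 0)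
    (H0 : ∀ η, C.Global 0 η → η = 0) (H1 : C.H1Van 4)
    (δ : Derivation k ℂ ℂ) (D : Derivation k K K)
    (hD : ∀ z, D (algebraMap ℂ K z) = algebraMap ℂ K (δ z))
    (hlift : ∀ i, ∃ D' : Derivation k K K,
      (∀ z, D' (algebraMap ℂ K z) = algebraMap ℂ K (δ z)) ∧ ∀ a ∈ C.A i, D' a ∈ C.A i)
    (p q r s : Fin 6) : M B x (fun j => D (x j)) p q r s = 0 := by
  obtain ⟨i₀⟩ := ‹Nonempty ι›
  choose D' hD' hmem using hlift
  have euler : ∑ j, aeval x (pderiv j F) * x j = 0 := by
    have h := congrArg (aeval x) hFh.sum_X_mul_pderiv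
    rw [map_sum, map_nsmul, hF0, smul_zero] at h
    rw [← h]
    refine Finset.sum_congr rfl fun j _ => ?_
    rw [map_mul, aeval_X, mul_comm]
  set z : ι → Fin 6 → K := fun i j =>
    (C.u i : K) * D' i ((((C.u i)⁻¹ : Kˣ) : K) * x j) with hz
  have hzeq : ∀ i, z i = fun j => D' i (x j) +
      (-((((C.u i)⁻¹ : Kˣ) : K) * D' i (C.u i : K))) * x j := by
    intro i
    funext j
    have h1 : D' i (x j) = (C.u i : K) * D' i ((((C.u i)⁻¹ : Kˣ) : K) * x j) +
        ((((C.u i)⁻¹ : Kˣ) : K) * x j) * D' i (C.u i : K) := by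
      have h2 : x j = (C.u i : K) * ((((C.u i)⁻¹ : Kˣ) : K) * x j) := by
        rw [← mul_assoc, C.huu, one_mul]
      conv_lhs => rw [h2]
      rw [Derivation.leibniz, smul_eq_mul, smul_eq_mul]
    rw [hz, h1]
    ring
  have hMz : ∀ i p q r s, M B x (z i) p q r s = M B x (fun j => D (x j)) p q r s := by
    intro i p q r s
    rw [hzeq i, M_add, M_self, add_zero]
    let E : Derivation ℂ K K := Derivation.mk'
      { toFun := fun a => D' i a - D a
        map_add' := fun a b => by rw [map_add, map_add]; ring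
        map_smul' := fun c a => by
          rw [Algebra.smul_def, Derivation.leibniz, Derivation.leibniz, hD', hD,
            RingHom.id_apply]
          simp only [smul_eq_mul]
          rw [Algebra.smul_def]
          ring }
      (fun a b => by
        show D' i (a * b) - D (a * b) = a * (D' i b - D b) + b * (D' i a - D a)
        rw [Derivation.leibniz, Derivation.leibniz, smul_eq_mul, smul_eq_mul, smul_eq_mul,
          smul_eq_mul]
        ring)
    have h1 : (fun j => D' i (x j)) = fun j => D (x j) + E (x j) := by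
      funext j
      show _ = D (x j) + (D' i (x j) - D (x j))
      ring
    rw [h1, M_add, M_der B hB, add_zero]
  rw [← hMz i₀]
  refine rigid hFh hFs hx hF0 z (fun i j => ?_) (fun i => ?_) (fun i k p q r s => ?_) H0 H1
    i₀ p q r s
  · have h1 : (((C.u i)⁻¹ : Kˣ) : K) * z i j = D' i ((((C.u i)⁻¹ : Kˣ) : K) * x j) := by
      rw [hz, ← mul_assoc, mul_comm _ (C.u i : K), C.huu, one_mul]
    rw [h1]
    exact hmem i _ (hx.mem i j)
  · rw [hzeq i]
    have h1 : ∑ j, aeval x (pderiv j F) * D' i (x j) = 0 := by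
      rw [← der_aeval_map (D' i) x F₀ F hF₀, hF0, map_zero]
    have h2 : ∀ j, aeval x (pderiv j F) * (D' i (x j) +
        (-((((C.u i)⁻¹ : Kˣ) : K) * D' i (C.u i : K))) * x j) =
        aeval x (pderiv j F) * D' i (x j) +
        (-((((C.u i)⁻¹ : Kˣ) : K) * D' i (C.u i : K))) * (aeval x (pderiv j F) * x j) :=
      fun j => by ring
    rw [Finset.sum_congr rfl fun j _ => h2 j, Finset.sum_add_distrib, ← Finset.mul_sum, h1,
      euler, mul_zero, add_zero]
  · rw [hMz, hMz]

/-- an algebraic surface has no 3-forms -/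
theorem noThree_of_trdeg {K : Type} [Field K] [Algebra ℂ K] (h : Algebra.trdeg ℂ K = 2) :
    NoThree (formsBiDer K) := by
  have hK0 : CharZero K := charZero_of_injective_algebraMap (algebraMap ℂ K).injective
  obtain ⟨s, hs⟩ := exists_isTranscendenceBasis ℂ K
  have hcard : Cardinal.mk s = 2 := by
    rw [← h]
    exact hs.cardinalMk_eq_trdeg
  obtain ⟨a₀, b₀, hab, hs2⟩ := Cardinal.mk_eq_two_iff.1 hcard
  intro E a b c
  funext D₁ D₂
  show E c * (D₁ a * D₂ b - D₂ a * D₁ b) - E b * (D₁ a * D₂ c - D₂ a * D₁ c) +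
    E a * (D₁ b * D₂ c - D₂ b * D₁ c) = 0
  -- a combination of the three derivations kills the transcendence basis
  obtain ⟨l, hl0, hl⟩ : ∃ l : Fin 3 → K, l ≠ 0 ∧
      ∀ t : s, l 0 * D₁ t + l 1 * D₂ t + l 2 * E t = 0 := by
    let f : (Fin 3 → K) →ₗ[K] (Fin 2 → K) := Matrix.mulVecLin
      (Matrix.of ![![D₁ (a₀ : K), D₂ (a₀ : K), E (a₀ : K)], ![D₁ (b₀ : K), D₂ (b₀ : K), E (b₀ : K)]])
    have h1 : LinearMap.ker f ≠ ⊥ := by
      apply LinearMap.ker_ne_bot_of_finrank_lt
      rw [Module.finrank_fin_fun, Module.finrank_fin_fun]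
      norm_num
    obtain ⟨l, hl, hl0⟩ := Submodule.exists_mem_ne_zero_of_ne_bot h1
    refine ⟨l, hl0, fun t => ?_⟩
    have h2 := LinearMap.mem_ker.1 hl
    have h3 : l 0 * D₁ (a₀ : K) + l 1 * D₂ (a₀ : K) + l 2 * E (a₀ : K) = 0 := by
      have h4 := congrFun h2 0
      simp only [f, Matrix.mulVecLin_apply, Matrix.mulVec, dotProduct, Fin.sum_univ_three,
        Matrix.of_apply, Matrix.cons_val_zero, Matrix.cons_val_one, Matrix.cons_val,
        Pi.zero_apply] at h4
      linear_combination h4
    have h3' : l 0 * D₁ (b₀ : K) + l 1 * D₂ (b₀ : K) + l 2 * E (b₀ : K) = 0 := by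
      have h4 := congrFun h2 1
      simp only [f, Matrix.mulVecLin_apply, Matrix.mulVec, dotProduct, Fin.sum_univ_three,
        Matrix.of_apply, Matrix.cons_val_zero, Matrix.cons_val_one, Matrix.cons_val,
        Pi.zero_apply] at h4
      linear_combination h4
    have h5 : t = a₀ ∨ t = b₀ := by
      have : t ∈ ({a₀, b₀} : Set s) := by rw [hs2]; trivial
      simpa using this
    rcases h5 with rfl | rfl
    · exact h3
    · exact h3'
  have hzero : ∀ y, l 0 * D₁ y + l 1 * D₂ y + l 2 * E y = 0 := by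
    intro y
    refine der_basis (M := K) (fun y => l 0 * D₁ y + l 1 * D₂ y + l 2 * E y) (fun u v => ?_)
      (fun u v => ?_) (fun z => ?_) hs hl y
    · rw [map_add, map_add, map_add]; ring
    · simp only [Derivation.leibniz, smul_eq_mul]; ring
    · simp only [Derivation.map_algebraMap]; ring
  have ha := hzero a
  have hb := hzero b
  have hc := hzero c
  obtain ⟨i, hi⟩ : ∃ i, l i ≠ 0 := Function.ne_iff.1 hl0
  refine (mul_eq_zero.1 (?_ : l i * _ = 0)).resolve_left hi
  fin_cases i
  · show l 0 * _ = 0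
    linear_combination (D₂ b * E c - D₂ c * E b) * ha - (D₂ a * E c - D₂ c * E a) * hb +
      (D₂ a * E b - D₂ b * E a) * hc
  · show l 1 * _ = 0
    linear_combination -(D₁ b * E c - D₁ c * E b) * ha + (D₁ a * E c - D₁ c * E a) * hb -
      (D₁ a * E b - D₁ b * E a) * hc
  · show l 2 * _ = 0
    linear_combination (D₁ b * D₂ c - D₁ c * D₂ b) * ha - (D₁ a * D₂ c - D₁ c * D₂ a) * hb +
      (D₁ a * D₂ b - D₁ b * D₂ a) * hc

end IndexOne
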