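import Pool.Agent.Work.MP_4c1522_ag.HypMain
import Pool.Agent.Work.MP_4c1522_ag.DerivSpan

/-!
# From rigidity to algebraic relations
-/

open MvPolynomial

namespace IndexOne

open DoubleSolid

/-- scaling of a homogeneous form -/
lemma aeval_scale' {R K σ : Type*} [CommRing R] [CommRing K] [Algebra R K] {n : ℕ}
    (P : MvPolynomial σ R) (hP : P.IsHomogeneous n) (u : K) (y : σ → K) :
    aeval (fun j => u * y j) P = u ^ n * aeval y P := by
  classical
  rw [aeval_def, eval₂_eq, aeval_def, eval₂_eq, Finset.mul_sum]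
  refine Finset.sum_congr rfl fun d hd => ?_
  have h1 : ∑ i ∈ d.support, d i = n := by
    have := hP (mem_support_iff.1 hd)
    rw [← this, Finsupp.weight_apply]
    simp [Finsupp.sum]
  simp only [mul_pow, Finset.prod_mul_distrib, Finset.prod_pow_eq_pow_sum, h1]
  ring

/-- homogenisation of a relation between ratios -/
theorem exists_homogeneous {k K : Type*} [Field k] [Field K] [Algebra k K] {n : ℕ}
    (x : Fin (n + 1) → K) (a : Fin (n + 1)) (ha : x a ≠ 0) (p : MvPolynomial (Fin n) k)
    (hp : p ≠ 0) (h : aeval (fun j => x (a.succAbove j) / x a) p = 0) :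
    ∃ (d : ℕ) (P : MvPolynomial (Fin (n + 1)) k), P.IsHomogeneous d ∧ P ≠ 0 ∧ aeval x P = 0 := by
  set d := p.totalDegree with hd
  set P : MvPolynomial (Fin (n + 1)) k := ∑ i ∈ Finset.range (d + 1),
    X a ^ (d - i) * rename a.succAbove (homogeneousComponent i p) with hP
  refine ⟨d, P, ?_, ?_, ?_⟩
  · refine IsHomogeneous.sum _ _ _ fun i hi => ?_
    have hi' : i ≤ d := Nat.lt_succ_iff.1 (Finset.mem_range.1 hi)
    have h1 := (isHomogeneous_X_pow (R := k) a (d - i)).mul
      ((homogeneousComponent_isHomogeneous i p).rename_isHomogeneous (f := a.succAbove))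
    rwa [Nat.sub_add_cancel hi'] at h1
  · intro h0
    apply hp
    have h1 := congrArg (aeval (a.insertNth (α := fun _ => MvPolynomial (Fin n) k) 1
      (fun j => X j))) h0
    rw [hP, map_sum, map_zero] at h1
    rw [← sum_homogeneousComponent p, ← h1]
    refine Finset.sum_congr rfl fun i _ => ?_
    rw [map_mul, map_pow, aeval_X, Fin.insertNth_apply_same, one_pow, one_mul, aeval_rename]
    have h2 : (a.insertNth (α := fun _ => MvPolynomial (Fin n) k) 1
      (fun j => X j)) ∘ a.succAbove = X := by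
      funext j
      exact Fin.insertNth_apply_succAbove _ _ _ _
    rw [h2, aeval_X_left_apply]
  · rw [hP, map_sum]
    have h1 : ∀ i ∈ Finset.range (d + 1), aeval x (X a ^ (d - i) *
        rename a.succAbove (homogeneousComponent i p)) =
        x a ^ d * aeval (fun j => x (a.succAbove j) / x a) (homogeneousComponent i p) := by
      intro i hi
      have hi' : i ≤ d := Nat.lt_succ_iff.1 (Finset.mem_range.1 hi)
      rw [map_mul, map_pow, aeval_X, aeval_rename]
      have h2 : x ∘ a.succAbove = fun j => x a * (x (a.succAbove j) / x a) := by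
        funext j
        rw [mul_div_cancel₀ _ ha]
        rfl
      rw [h2, aeval_scale' _ (homogeneousComponent_isHomogeneous i p), ← mul_assoc, ← pow_add,
        Nat.sub_add_cancel hi']
    rw [Finset.sum_congr rfl h1, ← Finset.mul_sum, ← map_sum, sum_homogeneousComponent, h,
      mul_zero]

/-- three linear equations in four unknowns -/
lemma exists_coeff {K : Type*} [Field K] (w : Fin 3 → Fin 6 → K) (i : Fin 4 → Fin 6) :
    ∃ c : Fin 4 → K, c ≠ 0 ∧ ∀ m, ∑ t, c t * w m (i t) = 0 := by
  let f : (Fin 4 → K) →ₗ[K] (Fin 3 → K) := Matrix.mulVecLin (Matrix.of fun m t => w m (i t))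
  have h1 : LinearMap.ker f ≠ ⊥ := by
    apply LinearMap.ker_ne_bot_of_finrank_lt
    rw [Module.finrank_fin_fun, Module.finrank_fin_fun]
    norm_num
  obtain ⟨c, hc, hc0⟩ := Submodule.exists_mem_ne_zero_of_ne_bot h1
  refine ⟨c, hc0, fun m => ?_⟩
  have h2 := congrFun (LinearMap.mem_ker.1 hc) m
  rw [← show f c m = 0 from h2]
  show _ = ∑ t, w m (i t) * c t
  exact Finset.sum_congr rfl fun t _ => mul_comm _ _

/-- **Rigidity implies algebraic relations over the field of definition.** -/
theorem dependent (k : Type) [Field k] [CharZero k] [Algebra k ℂ] {K : Type} [Field K]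
    [Algebra ℂ K] [Algebra k K] [IsScalarTower k ℂ K] {Ω : Type*} [AddCommGroup Ω] [Module K Ω]
    (B : BiDer K Ω) (ev : Ω →ₗ[K] K) (x : Fin 6 → K) (p q r : Fin 6)
    (hJ : ev (J B x p q r) ≠ 0)
    (hM : ∀ (δ : Derivation k ℂ ℂ) (D : Derivation k K K),
      (∀ z, D (algebraMap ℂ K z) = algebraMap ℂ K (δ z)) →
      ∀ s, M B x (fun j => D (x j)) p q r s = 0) (i : Fin 4 → Fin 6) :
    ∃ (d : ℕ) (P : MvPolynomial (Fin 4) k), P.IsHomogeneous d ∧ P ≠ 0 ∧
      aeval (x ∘ i) P = 0 := by
  classical
  by_cases hx0 : x (i 0) = 0 ∧ x (i 1) = 0 ∧ x (i 2) = 0 ∧ x (i 3) = 0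
  · exact ⟨1, X 0, isHomogeneous_X k 0, X_ne_zero 0, by rw [aeval_X]; exact hx0.1⟩
  obtain ⟨a, ha⟩ : ∃ a, x (i a) ≠ 0 := by
    by_contra hc
    push Not at hc
    exact hx0 ⟨hc 0, hc 1, hc 2, hc 3⟩
  -- the three vectors
  set w : Fin 3 → Fin 6 → K := ![fun s => ev (J B x p q s), fun s => ev (J B x p r s),
    fun s => ev (J B x q r s)] with hw
  obtain ⟨c, hc0, hc⟩ := exists_coeff w i
  have hc1 : ∑ t, c t * ev (J B x p q (i t)) = 0 := hc 0
  have hc2 : ∑ t, c t * ev (J B x p r (i t)) = 0 := hc 1
  have hc3 : ∑ t, c t * ev (J B x q r (i t)) = 0 := hc 2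
  have key : ∀ z : Fin 6 → K, (∀ s, M B x z p q r s = 0) → ∑ t, c t * z (i t) = 0 := by
    intro z hz
    have h1 : ∀ s, ev (J B x p q r) * z s = ev (J B x p q s) * z r - ev (J B x p r s) * z q +
        ev (J B x q r s) * z p := by
      intro s
      have h2 := congrArg ev (hz s)
      rw [M, map_zero, map_sub, map_add, map_sub, map_smul, map_smul, map_smul, map_smul,
        smul_eq_mul, smul_eq_mul, smul_eq_mul, smul_eq_mul] at h2
      linear_combination h2
    have h3 : ev (J B x p q r) * ∑ t, c t * z (i t) = 0 := by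
      rw [Finset.mul_sum]
      have h4 : ∀ t, ev (J B x p q r) * (c t * z (i t)) =
          z r * (c t * ev (J B x p q (i t))) - z q * (c t * ev (J B x p r (i t))) +
          z p * (c t * ev (J B x q r (i t))) := by
        intro t
        linear_combination c t * h1 (i t)
      rw [Finset.sum_congr rfl fun t _ => h4 t, Finset.sum_add_distrib, Finset.sum_sub_distrib,
        ← Finset.mul_sum, ← Finset.mul_sum, ← Finset.mul_sum, hc1, hc2, hc3]
      ring
    exact (mul_eq_zero.1 h3).resolve_left hJ
  have hself : ∑ t, c t * x (i t) = 0 := by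
    apply key
    intro s
    rw [M, J_def, J_def, J_def, J_def, B.anti (x r) (x s), B.anti (x q) (x s),
      B.anti (x q) (x r)]
    rw [B.anti (x s) (x r), B.anti (x s) (x q), B.anti (x r) (x q)]
    module
  -- the ratios
  set y : Fin 4 → K := x ∘ i with hy
  set ρ : Fin 3 → K := fun j => y (a.succAbove j) / y a with hρ
  have hya : y a ≠ 0 := ha
  by_cases hind : AlgebraicIndependent k ρ
  · exfalso
    have hc' : (fun j => c (a.succAbove j)) ≠ 0 := by
      intro h0
      apply hc0
      have h1 : ∀ j, c (a.succAbove j) = 0 := fun j => congrFun h0 j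
      have h2 : c a * y a = 0 := by
        have h3 : ∑ t, c t * y t = 0 := hself
        rw [Fin.sum_univ_succAbove _ a] at h3
        rw [Finset.sum_eq_zero (fun j _ => by rw [h1, zero_mul]), add_zero] at h3
        exact h3
      have h3 : c a = 0 := (mul_eq_zero.1 h2).resolve_right hya
      funext t
      rcases Fin.eq_self_or_eq_succAbove a t with rfl | ⟨j, rfl⟩
      · exact h3
      · exact h1 j
    obtain ⟨δ, D, hD, hne⟩ := exists_der_preserving k ℂ K ρ hind _ hc'
    apply hne
    have h1 : ∑ t, c t * D (y t) = 0 := key (fun j => D (x j)) (hM δ D hD)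
    have h2 : ∀ t, D (y t) = y a * D (y t / y a) + (y t / y a) * D (y a) := by
      intro t
      conv_lhs => rw [← mul_div_cancel₀ (y t) hya]
      rw [Derivation.leibniz, smul_eq_mul, smul_eq_mul]
    have h3 : ∑ t, c t * D (y t) = y a * ∑ t, c t * D (y t / y a) := by
      rw [Finset.mul_sum]
      have h4 : ∀ t, c t * D (y t) = y a * (c t * D (y t / y a)) +
          (D (y a) / y a) * (c t * y t) := by
        intro t
        rw [h2 t]
        field_simp
      rw [Finset.sum_congr rfl fun t _ => h4 t, Finset.sum_add_distrib, ← Finset.mul_sum,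
        ← Finset.mul_sum]
      have h5 : ∑ t, c t * y t = 0 := hself
      rw [h5, mul_zero, add_zero, Finset.mul_sum]
    rw [h3, Fin.sum_univ_succAbove _ a, div_self hya, D.map_one_eq_zero, mul_zero,
      zero_add] at h1
    exact (mul_eq_zero.1 h1).resolve_left hya
  · rw [algebraicIndependent_iff] at hind
    push Not at hind
    obtain ⟨P, hP, hP0⟩ := hind
    exact exists_homogeneous y a hya P hP0 hP

/-- the point `z` lies on the closure of the image of the surface `x` -/
def InClosure {K : Type*} [Field K] [Algebra ℂ K] (x : Fin 6 → K) (z : Fin 6 → ℂ) : Prop :=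
  ∀ (d : ℕ) (H : MvPolynomial (Fin 6) ℂ), H.IsHomogeneous d → aeval x H = 0 → eval z H = 0

/-- the points on the closure of a rigid surface are not generic -/
theorem not_indep (k : Type) [Field k] [CharZero k] [Algebra k ℂ] {K : Type} [Field K]
    [Algebra ℂ K] [Algebra k K] [IsScalarTower k ℂ K] {Ω : Type*} [AddCommGroup Ω] [Module K Ω]
    (B : BiDer K Ω) (ev : Ω →ₗ[K] K) (x : Fin 6 → K) (p q r : Fin 6)
    (hJ : ev (J B x p q r) ≠ 0)
    (hM : ∀ (δ : Derivation k ℂ ℂ) (D : Derivation k K K),
      (∀ z, D (algebraMap ℂ K z) = algebraMap ℂ K (δ z)) →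
      ∀ s, M B x (fun j => D (x j)) p q r s = 0) (i : Fin 4 → Fin 6) (z : Fin 6 → ℂ)
    (hz : InClosure x z) : ¬ AlgebraicIndependent k (z ∘ i) := by
  obtain ⟨d, P, hPd, hP0, hP⟩ := dependent k B ev x p q r hJ hM i
  intro hind
  apply hP0
  apply algebraicIndependent_iff.1 hind
  have h1 := hz d (rename i (map (algebraMap k ℂ) P))
    (IsHomogeneous.rename_isHomogeneous (hPd.map (algebraMap k ℂ))) (by
      rw [aeval_rename, aeval_map_algebraMap]
      exact hP)
  rw [eval_rename, eval_map] at h1
  exact h1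

end IndexOne
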