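import Pool.Agent.Work.MP_4c1522_ag.SurfRigid

/-!
# Surfaces in hypersurfaces of index one: two deformations
-/

open MvPolynomial

namespace IndexOne

open DoubleSolid

variable {K Ω : Type*} [CommRing K] [Algebra ℂ K] [AddCommGroup Ω] [Module K Ω]
  {B : BiDer K Ω} {ι : Type*}

/-- the dimension of `H¹ (ω ⊗ L ^ (-N))` is at most one -/
def Cover.H1Le (C : Cover B ι) (N : ℕ) : Prop :=
  ∀ n n' : ι → ι → Ω, (∀ i j, ((C.u i : K) ^ N) • n i j ∈ C.ω₂ i j) →
    (∀ i j k, n i j + n j k = n i k) → (∀ i j, ((C.u i : K) ^ N) • n' i j ∈ C.ω₂ i j) →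
    (∀ i j k, n' i j + n' j k = n' i k) →
    ∃ a b : ℂ, (a ≠ 0 ∨ b ≠ 0) ∧ ∃ c : ι → Ω, (∀ i, ((C.u i : K) ^ N) • c i ∈ C.ω i) ∧
      ∀ i j, algebraMap ℂ K a • n i j + algebraMap ℂ K b • n' i j = c i - c j

/-- local decompositions of one by the partial derivatives -/
lemma exists_E {C : Cover B ι} {F : MvPolynomial (Fin 6) ℂ} (hFh : F.IsHomogeneous 5)
    (hFs : Smooth F) {x : Fin 6 → K} (hx : C.Gen x) :
    ∃ E : ι → Fin 6 → K, (∀ v l, (C.u v : K) ^ 4 * E v l ∈ C.A v) ∧
      (∀ v, ∑ l, E v l * aeval x (pderiv l F) = 1) ∧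
      (∀ v l, (((C.u v)⁻¹ : Kˣ) : K) ^ 4 * aeval x (pderiv l F) ∈ C.A v) := by
  set G : Fin 6 → K := fun l => aeval x (pderiv l F) with hGdef
  have hloc : ∀ v, ∃ E : Fin 6 → K, (∀ l, (C.u v : K) ^ 4 * E l ∈ C.A v) ∧ ∑ l, E l * G l = 1 ∧
      (∀ l, (((C.u v)⁻¹ : Kˣ) : K) ^ 4 * G l ∈ C.A v) := by
    intro v
    set u := C.u v with hu
    set y : Fin 6 → K := fun j => ((u⁻¹ : Kˣ) : K) * x j with hy
    have huu : (u : K) * ((u⁻¹ : Kˣ) : K) = 1 := u.mul_inv
    have huu' : (u : K) ^ 4 * ((u⁻¹ : Kˣ) : K) ^ 4 = 1 := C.huu' v 4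
    have hxy : x = fun j => (u : K) * y j := by
      funext j
      rw [hy, ← mul_assoc, huu, one_mul]
    have hG : ∀ l, G l = (u : K) ^ 4 * aeval y (pderiv l F) := by
      intro l
      rw [hGdef]
      dsimp only
      conv_lhs => rw [hxy]
      exact aeval_scale _ (hFh.pderiv (i := l)) _ _
    have hcoe : ∀ l, aeval y (pderiv l F) =
        ((aeval (fun j => (⟨y j, hx.mem v j⟩ : C.A v)) (pderiv l F) : C.A v) : K) := fun l =>
      (comp_aeval_apply (f := fun j => (⟨y j, hx.mem v j⟩ : C.A v)) (C.A v).val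
        (pderiv l F)).symm
    obtain ⟨e, he⟩ : ∃ e : Fin 6 → C.A v,
        ∑ l, e l * aeval (fun j => (⟨y j, hx.mem v j⟩ : C.A v)) (pderiv l F) = 1 := by
      apply unit_of_smooth hFs
      obtain ⟨a, ha, hau⟩ := hx.gen v
      refine ⟨fun j => ⟨a j, ha j⟩, ?_⟩
      apply Subtype.ext
      rw [AddSubmonoidClass.coe_finsetSum]
      show ∑ j, a j * y j = 1
      have : ∑ j, a j * y j = ((u⁻¹ : Kˣ) : K) * ∑ j, a j * x j := by
        rw [Finset.mul_sum]
        refine Finset.sum_congr rfl fun j _ => ?_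
        rw [hy]; ring
      rw [this, hau, mul_comm, huu]
    have he' : ∑ l, (e l : K) * aeval y (pderiv l F) = 1 := by
      have := congrArg (fun z : C.A v => (z : K)) he
      simp only [AddSubmonoidClass.coe_finsetSum] at this
      refine Eq.trans (Finset.sum_congr rfl fun l _ => ?_) this
      rw [MulMemClass.coe_mul, hcoe]
    refine ⟨fun l => ((u⁻¹ : Kˣ) : K) ^ 4 * e l, fun l => ?_, ?_, fun l => ?_⟩
    · rw [← mul_assoc, huu', one_mul]
      exact (e l).2
    · rw [← he']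
      refine Finset.sum_congr rfl fun l _ => ?_
      rw [hG l]
      linear_combination ((e l : K) * aeval y (pderiv l F)) * huu'
    · rw [hG l, ← mul_assoc, mul_comm _ ((u : K) ^ _), huu', one_mul, hcoe]
      exact Subtype.property _
  choose E hE hE1 hG using hloc
  exact ⟨E, hE, hE1, hG⟩

/-- the cocycle of a matrix -/
def coc (E : ι → Fin 6 → K) (Nf : Fin 6 → Fin 6 → Ω) (v w : ι) : Ω :=
  ∑ l, E v l • ((∑ k, E v k • Nf k l) - ∑ k, E w k • Nf k l)

omit [Algebra ℂ K] in
lemma coc_comb (E : ι → Fin 6 → K) (Nf Nf' : Fin 6 → Fin 6 → Ω) (a b : K) (v w : ι) :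
    coc E (fun k l => a • Nf k l + b • Nf' k l) v w = a • coc E Nf v w + b • coc E Nf' v w := by
  have h : ∀ (v : ι) l, (∑ k, E v k • (a • Nf k l + b • Nf' k l)) =
      a • (∑ k, E v k • Nf k l) + b • (∑ k, E v k • Nf' k l) := by
    intro v l
    rw [Finset.smul_sum, Finset.smul_sum, ← Finset.sum_add_distrib]
    exact Finset.sum_congr rfl fun k _ => by module
  simp only [coc, h]
  rw [Finset.smul_sum, Finset.smul_sum, ← Finset.sum_add_distrib]
  exact Finset.sum_congr rfl fun k _ => by module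

section Core

variable {C : Cover B ι} {G : Fin 6 → K} {E : ι → Fin 6 → K}
  (hE : ∀ v l, (C.u v : K) ^ 4 * E v l ∈ C.A v) (hE1 : ∀ v, ∑ l, E v l * G l = 1)
  (hG : ∀ v l, (((C.u v)⁻¹ : Kˣ) : K) ^ 4 * G l ∈ C.A v)
  {Nf : Fin 6 → Fin 6 → Ω}
  (hrel : ∀ k l m, G k • Nf l m - G l • Nf k m + G m • Nf k l = 0)
  (hmem : ∀ v m, ∑ k, E v k • Nf k m ∈ C.ω v)

include hE1 hrel in
lemma core_mul (v w : ι) (m : Fin 6) : G m • coc E Nf v w =
    (∑ k, E v k • Nf k m) - ∑ k, E w k • Nf k m := by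
  have hNμ : ∀ v l m, Nf l m = G l • (∑ k, E v k • Nf k m) - G m • (∑ k, E v k • Nf k l) := by
    intro v l m
    have e1 : Nf l m = ∑ k, (E v k * G k) • Nf l m := by
      rw [← Finset.sum_smul, hE1, one_smul]
    conv_lhs => rw [e1]
    rw [Finset.smul_sum, Finset.smul_sum, ← Finset.sum_sub_distrib]
    refine Finset.sum_congr rfl fun k _ => ?_
    linear_combination (norm := module) (E v k) • hrel k l m
  have e1 : (∑ k, E v k • Nf k m) - ∑ k, E w k • Nf k m =
      ∑ l, (E v l * G l) • ((∑ k, E v k • Nf k m) - ∑ k, E w k • Nf k m) := by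
    rw [← Finset.sum_smul, hE1, one_smul]
  rw [e1, coc, Finset.smul_sum]
  refine Finset.sum_congr rfl fun l _ => ?_
  have e2 := hNμ v l m
  have e3 := hNμ w l m
  linear_combination (norm := module) (E v l) • (e2 - e3)

include hE hmem in
lemma core_mem (v w : ι) : ((C.u v : K) ^ 4) • coc E Nf v w ∈ C.ω₂ v w := by
  rw [coc, Finset.smul_sum]
  refine sum_mem fun l _ => ?_
  rw [smul_smul]
  exact C.hω₂ v w _ (C.hA v w (hE v l)) _
    (sub_mem (C.hωl v w (hmem v l)) (C.hωr v w (hmem w l)))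

include hE1 hrel in
lemma core_cocycle (v w t : ι) : coc E Nf v w + coc E Nf w t = coc E Nf v t := by
  have e1 : ∀ m, G m • (coc E Nf v w + coc E Nf w t - coc E Nf v t) = 0 := by
    intro m
    rw [smul_sub, smul_add, core_mul hE1 hrel, core_mul hE1 hrel, core_mul hE1 hrel]
    abel
  have e2 : coc E Nf v w + coc E Nf w t - coc E Nf v t =
      ∑ l, (E v l * G l) • (coc E Nf v w + coc E Nf w t - coc E Nf v t) := by
    rw [← Finset.sum_smul, hE1, one_smul]
  rw [Finset.sum_eq_zero fun l _ => by rw [mul_smul, e1, smul_zero]] at e2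
  exact sub_eq_zero.1 e2

include hE hE1 hG hrel hmem in
lemma core_zero [Nonempty ι] (H0 : ∀ η, C.Global 0 η → η = 0)
    (hc : ∃ c : ι → Ω, (∀ i, ((C.u i : K) ^ 4) • c i ∈ C.ω i) ∧
      ∀ i j, coc E Nf i j = c i - c j) (l m : Fin 6) : Nf l m = 0 := by
  obtain ⟨c, hc, hnc⟩ := hc
  obtain ⟨v₀⟩ := ‹Nonempty ι›
  have hμc : ∀ m v, (∑ k, E v k • Nf k m) = G m • c v := by
    intro m v
    have e1 : ∀ v w, (∑ k, E v k • Nf k m) - G m • c v =
        (∑ k, E w k • Nf k m) - G m • c w := by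
      intro v w
      have e2 := core_mul hE1 hrel v w m
      rw [hnc, smul_sub] at e2
      linear_combination (norm := module) -e2
    refine sub_eq_zero.1 (H0 _ fun w => ?_)
    rw [pow_zero, one_smul, e1 v w]
    refine sub_mem (hmem w m) ?_
    have e2 : G m • c w = ((((C.u w)⁻¹ : Kˣ) : K) ^ 4 * G m) • (((C.u w : K) ^ 4) • c w) := by
      rw [smul_smul]
      congr 1
      linear_combination (-(G m)) * C.huu' w 4
    rw [e2]
    exact C.hω w _ (hG w m) _ (hc w)
  have e1 : Nf l m = ∑ k, (E v₀ k * G k) • Nf l m := by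
    rw [← Finset.sum_smul, hE1, one_smul]
  have e2 : Nf l m = G l • (∑ k, E v₀ k • Nf k m) - G m • (∑ k, E v₀ k • Nf k l) := by
    conv_lhs => rw [e1]
    rw [Finset.smul_sum, Finset.smul_sum, ← Finset.sum_sub_distrib]
    refine Finset.sum_congr rfl fun k _ => ?_
    linear_combination (norm := module) (E v₀ k) • hrel k l m
  rw [e2, hμc, hμc, smul_comm, sub_self]

end Core

/-- the matrix of a deformation -/
lemma N_data {C : Cover B ι} {F : MvPolynomial (Fin 6) ℂ} (hFh : F.IsHomogeneous 5)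
    {x : Fin 6 → K} (hx : C.Gen x) (hF0 : aeval x F = 0)
    {E : ι → Fin 6 → K} (hE : ∀ v l, (C.u v : K) ^ 4 * E v l ∈ C.A v)
    (z : ι → Fin 6 → K) (hz : ∀ i j, (((C.u i)⁻¹ : Kˣ) : K) * z i j ∈ C.A i)
    (hGz : ∀ i, ∑ j, aeval x (pderiv j F) * z i j = 0)
    (hM : ∀ i k p q r s, M B x (z i) p q r s = M B x (z k) p q r s) (i : ι) :
    (∀ k l m, aeval x (pderiv k F) • N B x (z i) l m - aeval x (pderiv l F) • N B x (z i) k m +
      aeval x (pderiv m F) • N B x (z i) k l = 0) ∧
    ∀ v m, ∑ k, E v k • N B x (z i) k m ∈ C.ω v := by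
  have euler : ∑ j, aeval x (pderiv j F) * x j = 0 := by
    have h := congrArg (aeval x) hFh.sum_X_mul_pderiv
    rw [map_sum, map_nsmul, hF0, smul_zero] at h
    rw [← h]
    refine Finset.sum_congr rfl fun j _ => ?_
    rw [map_mul, aeval_X, mul_comm]
  have chain : ∀ c, ∑ j, aeval x (pderiv j F) • B.κ (x j) c = 0 := by
    intro c
    rw [← B.aeval_left, hF0, B.zero_left]
  have R : ∀ q r s, ∑ p, aeval x (pderiv p F) • M B x (z i) p q r s = 0 :=
    contract B (fun l => aeval x (pderiv l F)) x (z i) euler (hGz i) chain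
  have hN : ∀ k l m, N B x (z k) l m = N B x (z i) l m := by
    intro k l m
    fin_cases l <;> fin_cases m <;>
      simp only [N, Fin.mk_zero, Fin.mk_one, Matrix.cons_val, Fin.reduceFinMk, hM k i]
  refine ⟨rel B (G := fun l => aeval x (pderiv l F)) R, fun v m => ?_⟩
  refine sum_mem fun k _ => ?_
  have e1 : N B x (z i) k m = ((C.u v : K) ^ 4) • N B (fun j => (((C.u v)⁻¹ : Kˣ) : K) * x j)
      (fun j => (((C.u v)⁻¹ : Kˣ) : K) * z v j) k m := by
    rw [← N_scale, ← hN v k m]
    congr 1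
    · funext j
      rw [← mul_assoc, C.huu, one_mul]
    · funext j
      rw [← mul_assoc, C.huu, one_mul]
  rw [e1, smul_smul, mul_comm]
  exact C.hω v _ (hE v k) _ (N_mem B (C.A v) (C.ω v) (C.hω v) (C.hκ v) (hx.mem v) (hz v) k m)

/-- **Two deformations**: a combination of the twisted products vanishes. -/
theorem rigid₂ [Nonempty ι] {C : Cover B ι} {F : MvPolynomial (Fin 6) ℂ}
    (hFh : F.IsHomogeneous 5)
    (hFs : Smooth F) {x : Fin 6 → K} (hx : C.Gen x) (hF0 : aeval x F = 0)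
    (z z' : ι → Fin 6 → K) (hz : ∀ i j, (((C.u i)⁻¹ : Kˣ) : K) * z i j ∈ C.A i)
    (hGz : ∀ i, ∑ j, aeval x (pderiv j F) * z i j = 0)
    (hM : ∀ i k p q r s, M B x (z i) p q r s = M B x (z k) p q r s)
    (hz' : ∀ i j, (((C.u i)⁻¹ : Kˣ) : K) * z' i j ∈ C.A i)
    (hGz' : ∀ i, ∑ j, aeval x (pderiv j F) * z' i j = 0)
    (hM' : ∀ i k p q r s, M B x (z' i) p q r s = M B x (z' k) p q r s)
    (H0 : ∀ η, C.Global 0 η → η = 0) (H1 : C.H1Le 4) (i : ι) :
    ∃ a b : ℂ, (a ≠ 0 ∨ b ≠ 0) ∧ ∀ p q r s,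
      algebraMap ℂ K a • M B x (z i) p q r s + algebraMap ℂ K b • M B x (z' i) p q r s = 0 := by
  obtain ⟨E, hE, hE1, hG⟩ := exists_E hFh hFs hx
  obtain ⟨hrel, hmem⟩ := N_data hFh hx hF0 hE z hz hGz hM i
  obtain ⟨hrel', hmem'⟩ := N_data hFh hx hF0 hE z' hz' hGz' hM' i
  obtain ⟨a, b, hab, hc⟩ := H1 (coc E (N B x (z i))) (coc E (N B x (z' i)))
    (core_mem hE hmem) (core_cocycle hE1 hrel) (core_mem hE hmem')
    (core_cocycle hE1 hrel')
  refine ⟨a, b, hab, ?_⟩
  set a' := algebraMap ℂ K a with ha'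
  set b' := algebraMap ℂ K b with hb'
  have hA : ∀ (v : ι) (c : ℂ), algebraMap ℂ K c ∈ C.A v := fun v c => (C.A v).algebraMap_mem c
  have hzero : ∀ l m, a' • N B x (z i) l m + b' • N B x (z' i) l m = 0 := by
    refine core_zero (C := C) (G := fun l => aeval x (pderiv l F))
      (Nf := fun k l => a' • N B x (z i) k l + b' • N B x (z' i) k l) hE hE1 hG
      (fun k l m => ?_) (fun v m => ?_) H0 ?_
    · have h1 := hrel k l m
      have h2 := hrel' k l m
      linear_combination (norm := module) a' • h1 + b' • h2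
    · have h1 : (∑ k, E v k • (a' • N B x (z i) k m + b' • N B x (z' i) k m)) =
          a' • (∑ k, E v k • N B x (z i) k m) + b' • (∑ k, E v k • N B x (z' i) k m) := by
        rw [Finset.smul_sum, Finset.smul_sum, ← Finset.sum_add_distrib]
        exact Finset.sum_congr rfl fun k _ => by module
      rw [h1]
      exact add_mem (C.hω v _ (hA v a) _ (hmem v m)) (C.hω v _ (hA v b) _ (hmem' v m))
    · obtain ⟨c, hc, hnc⟩ := hc
      exact ⟨c, hc, fun v w => by rw [coc_comb, hnc]⟩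
  intro p q r s
  have hlin : ∀ p q r s, M B x (fun j => a' * z i j + b' * z' i j) p q r s =
      a' • M B x (z i) p q r s + b' • M B x (z' i) p q r s := by
    intro p q r s
    rw [M, M, M]
    module
  rw [← hlin]
  refine M_eq_zero B (fun k l => ?_) p q r s
  rw [← hzero k l]
  fin_cases k <;> fin_cases l <;>
    simp only [N, Fin.mk_zero, Fin.mk_one, Matrix.cons_val, Fin.reduceFinMk, hlin, smul_zero,
      smul_neg, add_zero, neg_add]

/-- the deformation of a lift of a derivation of the constants -/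
lemma lift_data (k : Type) [Field k] [Algebra k ℂ] {K : Type} [Field K]
    [Algebra ℂ K] [Algebra k K] [IsScalarTower k ℂ K] {Ω : Type*} [AddCommGroup Ω] [Module K Ω]
    {B : BiDer K Ω} (hB : NoThree B) {ι : Type*} (C : Cover B ι)
    {F : MvPolynomial (Fin 6) ℂ} (hFh : F.IsHomogeneous 5)
    (F₀ : MvPolynomial (Fin 6) k) (hF₀ : F = map (algebraMap k ℂ) F₀)
    {x : Fin 6 → K} (hx : C.Gen x) (hF0 : aeval x F = 0)
    (δ : Derivation k ℂ ℂ) (D : Derivation k K K)
    (hD : ∀ z, D (algebraMap ℂ K z) = algebraMap ℂ K (δ z))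
    (hlift : ∀ i, ∃ D' : Derivation k K K,
      (∀ z, D' (algebraMap ℂ K z) = algebraMap ℂ K (δ z)) ∧ ∀ a ∈ C.A i, D' a ∈ C.A i) :
    ∃ z : ι → Fin 6 → K, (∀ i j, (((C.u i)⁻¹ : Kˣ) : K) * z i j ∈ C.A i) ∧
      (∀ i, ∑ j, aeval x (pderiv j F) * z i j = 0) ∧
      ∀ i p q r s, M B x (z i) p q r s = M B x (fun j => D (x j)) p q r s := by
  choose D' hD' hmem using hlift
  have euler : ∑ j, aeval x (pderiv j F) * x j = 0 := by
    have h := congrArg (aeval x) hFh.sum_X_mul_pderiv
    rw [map_sum, map_nsmul, hF0, smul_zero] at h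
    rw [← h]
    refine Finset.sum_congr rfl fun j _ => ?_
    rw [map_mul, aeval_X, mul_comm]
  set z : ι → Fin 6 → K := fun i j =>
    (C.u i : K) * D' i ((((C.u i)⁻¹ : Kˣ) : K) * x j) with hz
  have hzeq : ∀ i, z i = fun j => D' i (x j) +
      (-((((C.u i)⁻¹ : Kˣ) : K) * D' i (C.u i : K))) * x j := by
    intro i
    funext j
    have h1 : D' i (x j) = (C.u i : K) * D' i ((((C.u i)⁻¹ : Kˣ) : K) * x j) +
        ((((C.u i)⁻¹ : Kˣ) : K) * x j) * D' i (C.u i : K) := by
      have h2 : x j = (C.u i : K) * ((((C.u i)⁻¹ : Kˣ) : K) * x j) := by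
        rw [← mul_assoc, C.huu, one_mul]
      conv_lhs => rw [h2]
      rw [Derivation.leibniz, smul_eq_mul, smul_eq_mul]
    rw [hz, h1]
    ring
  have hMz : ∀ i p q r s, M B x (z i) p q r s = M B x (fun j => D (x j)) p q r s := by
    intro i p q r s
    rw [hzeq i, M_add, M_self, add_zero]
    let E : Derivation ℂ K K := Derivation.mk'
      { toFun := fun a => D' i a - D a
        map_add' := fun a b => by rw [map_add, map_add]; ring
        map_smul' := fun c a => by
          rw [Algebra.smul_def, Derivation.leibniz, Derivation.leibniz, hD', hD,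
            RingHom.id_apply]
          simp only [smul_eq_mul]
          rw [Algebra.smul_def]
          ring }
      (fun a b => by
        show D' i (a * b) - D (a * b) = a * (D' i b - D b) + b * (D' i a - D a)
        rw [Derivation.leibniz, Derivation.leibniz, smul_eq_mul, smul_eq_mul, smul_eq_mul,
          smul_eq_mul]
        ring)
    have h1 : (fun j => D' i (x j)) = fun j => D (x j) + E (x j) := by
      funext j
      show _ = D (x j) + (D' i (x j) - D (x j))
      ring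
    rw [h1, M_add, M_der B hB, add_zero]
  refine ⟨z, fun i j => ?_, fun i => ?_, hMz⟩
  · have h1 : (((C.u i)⁻¹ : Kˣ) : K) * z i j = D' i ((((C.u i)⁻¹ : Kˣ) : K) * x j) := by
      rw [hz, ← mul_assoc, mul_comm _ (C.u i : K), C.huu, one_mul]
    rw [h1]
    exact hmem i _ (hx.mem i j)
  · rw [hzeq i]
    have h1 : ∑ j, aeval x (pderiv j F) * D' i (x j) = 0 := by
      rw [← der_aeval_map (D' i) x F₀ F hF₀, hF0, map_zero]
    have h2 : ∀ j, aeval x (pderiv j F) * (D' i (x j) +
        (-((((C.u i)⁻¹ : Kˣ) : K) * D' i (C.u i : K))) * x j) =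
        aeval x (pderiv j F) * D' i (x j) +
        (-((((C.u i)⁻¹ : Kˣ) : K) * D' i (C.u i : K))) * (aeval x (pderiv j F) * x j) :=
      fun j => by ring
    rw [Finset.sum_congr rfl fun j _ => h2 j, Finset.sum_add_distrib, ← Finset.mul_sum, h1,
      euler, mul_zero, add_zero]

/-- linear equations with more unknowns than equations -/
lemma exists_coeff' {K : Type*} [Field K] {m n : ℕ} (hmn : m < n) (w : Fin m → Fin n → K) :
    ∃ c : Fin n → K, c ≠ 0 ∧ ∀ j, ∑ t, c t * w j t = 0 := by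
  let f : (Fin n → K) →ₗ[K] (Fin m → K) := Matrix.mulVecLin (Matrix.of fun m t => w m t)
  have h1 : LinearMap.ker f ≠ ⊥ := by
    apply LinearMap.ker_ne_bot_of_finrank_lt
    rw [Module.finrank_fin_fun, Module.finrank_fin_fun]
    exact hmn
  obtain ⟨c, hc, hc0⟩ := Submodule.exists_mem_ne_zero_of_ne_bot h1
  refine ⟨c, hc0, fun m => ?_⟩
  have h2 := congrFun (LinearMap.mem_ker.1 hc) m
  rw [← show f c m = 0 from h2]
  show _ = ∑ t, w m t * c t
  exact Finset.sum_congr rfl fun t _ => mul_comm _ _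

/-- **Few deformations imply algebraic relations over the field of definition.** -/
theorem dependent₂ (k : Type) [Field k] [CharZero k] [Algebra k ℂ] {K : Type} [Field K]
    [Algebra ℂ K] [Algebra k K] [IsScalarTower k ℂ K] {Ω : Type*} [AddCommGroup Ω] [Module K Ω]
    (B : BiDer K Ω) (ev : Ω →ₗ[K] K) (x : Fin 6 → K) (p q r : Fin 6)
    (hJ : ev (J B x p q r) ≠ 0)
    (hM : ∀ (δ δ' : Derivation k ℂ ℂ) (D D' : Derivation k K K),
      (∀ z, D (algebraMap ℂ K z) = algebraMap ℂ K (δ z)) →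
      (∀ z, D' (algebraMap ℂ K z) = algebraMap ℂ K (δ' z)) →
      ∃ a b : ℂ, (a ≠ 0 ∨ b ≠ 0) ∧ ∀ s, algebraMap ℂ K a • M B x (fun j => D (x j)) p q r s +
        algebraMap ℂ K b • M B x (fun j => D' (x j)) p q r s = 0) (i : Fin 5 → Fin 6) :
    ∃ (d : ℕ) (P : MvPolynomial (Fin 5) k), P.IsHomogeneous d ∧ P ≠ 0 ∧
      aeval (x ∘ i) P = 0 := by
  classical
  by_cases hx0 : ∀ t, x (i t) = 0
  · exact ⟨1, X 0, isHomogeneous_X k 0, X_ne_zero 0, by rw [aeval_X]; exact hx0 0⟩
  obtain ⟨a, ha⟩ : ∃ a, x (i a) ≠ 0 := by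
    by_contra hc
    push Not at hc
    exact hx0 hc
  have hself : ∀ s, M B x x p q r s = 0 := by
    intro s
    rw [M, J_def, J_def, J_def, J_def, B.anti (x r) (x s), B.anti (x q) (x s),
      B.anti (x q) (x r)]
    rw [B.anti (x s) (x r), B.anti (x s) (x q), B.anti (x r) (x q)]
    module
  -- the three vectors
  set w : Fin 3 → Fin 5 → K := ![fun t => ev (J B x p q (i t)), fun t => ev (J B x p r (i t)),
    fun t => ev (J B x q r (i t))] with hw
  have key : ∀ c : Fin 5 → K, (∀ m, ∑ t, c t * w m t = 0) → ∀ z : Fin 6 → K,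
      ev (J B x p q r) * ∑ t, c t * z (i t) = ∑ t, c t * ev (M B x z p q r (i t)) := by
    intro c hc z
    have hc1 : ∑ t, c t * ev (J B x p q (i t)) = 0 := hc 0
    have hc2 : ∑ t, c t * ev (J B x p r (i t)) = 0 := hc 1
    have hc3 : ∑ t, c t * ev (J B x q r (i t)) = 0 := hc 2
    rw [Finset.mul_sum]
    have h4 : ∀ t, c t * ev (M B x z p q r (i t)) =
        ev (J B x p q r) * (c t * z (i t)) - z r * (c t * ev (J B x p q (i t))) +
        z q * (c t * ev (J B x p r (i t))) - z p * (c t * ev (J B x q r (i t))) := by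
      intro t
      rw [M, map_sub, map_add, map_sub, map_smul, map_smul, map_smul, map_smul,
        smul_eq_mul, smul_eq_mul, smul_eq_mul, smul_eq_mul]
      ring
    rw [Finset.sum_congr rfl fun t _ => h4 t, Finset.sum_sub_distrib, Finset.sum_add_distrib,
      Finset.sum_sub_distrib, ← Finset.mul_sum, ← Finset.mul_sum, ← Finset.mul_sum,
      ← Finset.mul_sum, hc1, hc2, hc3]
    ring
  have hs0 : ∀ c : Fin 5 → K, (∀ m, ∑ t, c t * w m t = 0) → ∑ t, c t * x (i t) = 0 := by
    intro c hc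
    have h1 := key c hc x
    have h2 : ∑ t, c t * ev (M B x x p q r (i t)) = 0 :=
      Finset.sum_eq_zero fun t _ => by rw [hself, map_zero, mul_zero]
    rw [h2] at h1
    exact (mul_eq_zero.1 h1).resolve_left hJ
  -- the ratios
  set y : Fin 5 → K := x ∘ i with hy
  set ρ : Fin 4 → K := fun j => y (a.succAbove j) / y a with hρ
  have hya : y a ≠ 0 := ha
  by_cases hind : AlgebraicIndependent k ρ
  · exfalso
    have hc' : ∀ c : Fin 5 → K, c ≠ 0 → (∀ m, ∑ t, c t * w m t = 0) →
        (fun j => c (a.succAbove j)) ≠ 0 := by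
      intro c hc0 hc h0
      apply hc0
      have h1 : ∀ j, c (a.succAbove j) = 0 := fun j => congrFun h0 j
      have h2 : c a * y a = 0 := by
        have h3 : ∑ t, c t * y t = 0 := hs0 c hc
        rw [Fin.sum_univ_succAbove _ a] at h3
        rw [Finset.sum_eq_zero (fun j _ => by rw [h1, zero_mul]), add_zero] at h3
        exact h3
      have h3 : c a = 0 := (mul_eq_zero.1 h2).resolve_right hya
      funext t
      rcases Fin.eq_self_or_eq_succAbove a t with rfl | ⟨j, rfl⟩
      · exact h3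
      · exact h1 j
    have hder : ∀ c : Fin 5 → K, (∀ m, ∑ t, c t * w m t = 0) → ∀ D : Derivation k K K,
        ∑ t, c t * ev (M B x (fun j => D (x j)) p q r (i t)) =
        (ev (J B x p q r) * y a) * ∑ j, c (a.succAbove j) * D (ρ j) := by
      intro c hc D
      rw [← key c hc, mul_assoc]
      congr 1
      have h2 : ∀ t, D (y t) = y a * D (y t / y a) + (y t / y a) * D (y a) := by
        intro t
        conv_lhs => rw [← mul_div_cancel₀ (y t) hya]
        rw [Derivation.leibniz, smul_eq_mul, smul_eq_mul]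
      have h3 : ∑ t, c t * D (y t) = y a * ∑ t, c t * D (y t / y a) := by
        rw [Finset.mul_sum]
        have h4 : ∀ t, c t * D (y t) = y a * (c t * D (y t / y a)) +
            (D (y a) / y a) * (c t * y t) := by
          intro t
          rw [h2 t]
          field_simp
        rw [Finset.sum_congr rfl fun t _ => h4 t, Finset.sum_add_distrib, ← Finset.mul_sum,
          ← Finset.mul_sum]
        have h5 : ∑ t, c t * y t = 0 := hs0 c hc
        rw [h5, mul_zero, add_zero, Finset.mul_sum]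
      show ∑ t, c t * D (y t) = _
      rw [h3, Fin.sum_univ_succAbove _ a, div_self hya, D.map_one_eq_zero, mul_zero, zero_add]
    obtain ⟨c, hc0, hc⟩ := exists_coeff' (by norm_num) w
    obtain ⟨δ, D, hD, hne⟩ := exists_der_preserving k ℂ K ρ hind _ (hc' c hc0 hc)
    obtain ⟨e, he0, he⟩ := exists_coeff' (by norm_num : 4 < 5)
      (Fin.snoc (α := fun _ => Fin 5 → K) w (a.insertNth (α := fun _ => K) 0 fun j => D (ρ j)))
    have he1 : ∀ m, ∑ t, e t * w m t = 0 := by
      intro m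
      have h1 := he m.castSucc
      rwa [Fin.snoc_castSucc] at h1
    have he2 : ∑ j, e (a.succAbove j) * D (ρ j) = 0 := by
      have h1 := he (Fin.last 3)
      rw [Fin.snoc_last, Fin.sum_univ_succAbove _ a, Fin.insertNth_apply_same, mul_zero,
        zero_add] at h1
      rw [← h1]
      exact Finset.sum_congr rfl fun j _ => by rw [Fin.insertNth_apply_succAbove]
    obtain ⟨δ', D', hD', hne'⟩ := exists_der_preserving k ℂ K ρ hind _ (hc' e he0 he1)
    obtain ⟨α, β, hαβ, hM0⟩ := hM δ δ' D D' hD hD'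
    have hcomb : ∀ c : Fin 5 → K, (∀ m, ∑ t, c t * w m t = 0) →
        algebraMap ℂ K α * ∑ j, c (a.succAbove j) * D (ρ j) +
        algebraMap ℂ K β * ∑ j, c (a.succAbove j) * D' (ρ j) = 0 := by
      intro c hc
      have h1 : ∑ t, c t * ev (algebraMap ℂ K α • M B x (fun j => D (x j)) p q r (i t) +
          algebraMap ℂ K β • M B x (fun j => D' (x j)) p q r (i t)) = 0 :=
        Finset.sum_eq_zero fun t _ => by rw [hM0, map_zero, mul_zero]
      have h2 : ∑ t, c t * ev (algebraMap ℂ K α • M B x (fun j => D (x j)) p q r (i t) +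
          algebraMap ℂ K β • M B x (fun j => D' (x j)) p q r (i t)) =
          algebraMap ℂ K α * ∑ t, c t * ev (M B x (fun j => D (x j)) p q r (i t)) +
          algebraMap ℂ K β * ∑ t, c t * ev (M B x (fun j => D' (x j)) p q r (i t)) := by
        rw [Finset.mul_sum, Finset.mul_sum, ← Finset.sum_add_distrib]
        refine Finset.sum_congr rfl fun t _ => ?_
        rw [map_add, map_smul, map_smul, smul_eq_mul, smul_eq_mul]
        ring
      rw [h2, hder c hc, hder c hc] at h1
      have h3 : (ev (J B x p q r) * y a) * (algebraMap ℂ K α * ∑ j, c (a.succAbove j) * D (ρ j) +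
        algebraMap ℂ K β * ∑ j, c (a.succAbove j) * D' (ρ j)) = 0 := by
        linear_combination h1
      exact (mul_eq_zero.1 h3).resolve_left (mul_ne_zero hJ hya)
    have hβ : β = 0 := by
      have h1 := hcomb e he1
      rw [he2, mul_zero, zero_add] at h1
      exact (map_eq_zero (algebraMap ℂ K)).1 ((mul_eq_zero.1 h1).resolve_right hne')
    have hα : α = 0 := by
      have h1 := hcomb c hc
      rw [hβ, map_zero, zero_mul, add_zero] at h1
      exact (map_eq_zero (algebraMap ℂ K)).1 ((mul_eq_zero.1 h1).resolve_right hne)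
    rcases hαβ with h | h
    · exact h hα
    · exact h hβ
  · rw [algebraicIndependent_iff] at hind
    push Not at hind
    obtain ⟨P, hP, hP0⟩ := hind
    exact exists_homogeneous y a hya P hP0 hP

/-- **The points on the closure of a surface with `H⁰ (ω) = 0` and `dim H¹ (ω ⊗ L⁻⁴) ≤ 1` are not
generic.** -/
theorem surface_not_indep₂ (k : Type) [Field k] [CharZero k] [Algebra k ℂ]
    {F : MvPolynomial (Fin 6) ℂ} (hFh : F.IsHomogeneous 5) (hFs : Smooth F)
    (F₀ : MvPolynomial (Fin 6) k) (hF₀ : F = map (algebraMap k ℂ) F₀)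
    {K : Type} [Field K] [Algebra ℂ K] {ι : Type} (A : ι → Subalgebra ℂ K) (u : ι → Kˣ)
    (hfrac : ∀ i, IsFractionRing (A i) K) (hsm : ∀ i, Algebra.FormallySmooth ℂ (A i))
    (hdim : Algebra.trdeg ℂ K = 2) (x : Fin 6 → K)
    (hx : (surfCover A u).Gen x) (hF0 : aeval x F = 0)
    (hfin : ∃ i j l, x l ≠ 0 ∧ (formsBiDer K).κ (x i / x l) (x j / x l) ≠ 0)
    (H0 : ∀ η, (surfCover A u).Global 0 η → η = 0) (H1 : (surfCover A u).H1Le 4)
    (z : Fin 6 → ℂ) (hz : InClosure x z) (i : Fin 5 → Fin 6) :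
    ¬ AlgebraicIndependent k (z ∘ i) := by
  let _ : Algebra k K := ((algebraMap ℂ K).comp (algebraMap k ℂ)).toAlgebra
  have _ : IsScalarTower k ℂ K := .of_algebraMap_eq' rfl
  obtain ⟨q, r, p, hp, hne⟩ := hfin
  have hJ : J (formsBiDer K) x p q r ≠ 0 := by
    intro h0
    apply hne
    have h1 := (formsBiDer K).J_unit (Units.mk0 (x p) hp) 1 1 1 1 (x q / x p) (x r / x p)
    rw [pow_one, Units.val_mk0, mul_one, mul_div_cancel₀ _ hp, mul_div_cancel₀ _ hp] at h1
    have h2 : (formsBiDer K).J 1 1 1 (x p) (x q) (x r) = 0 := h0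
    rw [h2] at h1
    have h3 := (smul_eq_zero.1 h1.symm).resolve_left (pow_ne_zero _ hp)
    simp only [BiDer.J, Nat.cast_one, one_mul, one_smul] at h3
    rw [BiDer.one_left, BiDer.one_left, smul_zero, smul_zero, sub_zero, add_zero] at h3
    exact h3
  have hι : Nonempty ι := by
    by_contra hι
    rw [not_nonempty_iff] at hι
    exact hJ (H0 _ fun i => hι.elim i)
  obtain ⟨D₁, h1⟩ := Function.ne_iff.1 hJ
  obtain ⟨D₂, h2⟩ := Function.ne_iff.1 h1
  let ev : (Derivation ℂ K K → Derivation ℂ K K → K) →ₗ[K] K :=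
    { toFun := fun f => f D₁ D₂, map_add' := fun f g => rfl, map_smul' := fun c f => rfl }
  obtain ⟨d, P, hPd, hP0, hP⟩ := dependent₂ k (formsBiDer K) ev x p q r h2
    (fun δ δ' D D' hD hD' => by
      obtain ⟨z, hz1, hz2, hz3⟩ := lift_data k (noThree_of_trdeg hdim) (surfCover A u) hFh F₀ hF₀
        hx hF0 δ D hD (fun i => exists_chart_lift k (A i) (hfrac i) (hsm i) δ)
      obtain ⟨z', hz1', hz2', hz3'⟩ := lift_data k (noThree_of_trdeg hdim) (surfCover A u) hFh F₀
        hF₀ hx hF0 δ' D' hD' (fun i => exists_chart_lift k (A i) (hfrac i) (hsm i) δ')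
      obtain ⟨i₀⟩ := hι
      have : Nonempty ι := ⟨i₀⟩
      obtain ⟨a, b, hab, h⟩ := rigid₂ hFh hFs hx hF0 z z' hz1 hz2
        (fun i k p q r s => by rw [hz3, hz3]) hz1' hz2' (fun i k p q r s => by rw [hz3', hz3'])
        H0 H1 i₀
      refine ⟨a, b, hab, fun s => ?_⟩
      have h3 := h p q r s
      rwa [hz3, hz3'] at h3) i
  intro hind
  apply hP0
  apply algebraicIndependent_iff.1 hind
  have h1 := hz d (rename i (map (algebraMap k ℂ) P))
    (IsHomogeneous.rename_isHomogeneous (hPd.map (algebraMap k ℂ))) (by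
      rw [aeval_rename, aeval_map_algebraMap]
      exact hP)
  rw [eval_rename, eval_map] at h1
  exact h1

end IndexOne
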