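import Pool.Agent.Work.MP_4c1522_ag.LiftRigid

/-!
# Smooth surfaces: no point on the closure of a nonspecial surface is generic
-/

open MvPolynomial

namespace IndexOne

open DoubleSolid

/-- the lifting of derivations along formally smooth maps -/
theorem exists_lift_der {R A : Type*} [CommRing R] [CommRing A] [Algebra R A]
    [Algebra.FormallySmooth R A] (δ : R → A) (hadd : ∀ a b, δ (a + b) = δ a + δ b)
    (hmul : ∀ a b, δ (a * b) = algebraMap R A a * δ b + algebraMap R A b * δ a) :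
    ∃ D : Derivation ℤ A A, ∀ r, D (algebraMap R A r) = δ r := by
  have h0 : δ 0 = 0 := by
    have h := hadd 0 0
    rw [add_zero] at h
    simpa using h
  have h1 : δ 1 = 0 := by
    have h := hmul 1 1
    rw [mul_one, map_one, one_mul] at h
    simpa using h
  let φ : R →+* Tw A :=
    { toFun := fun c => Tw.mk (algebraMap R A c) (δ c)
      map_one' := by
        refine Tw.ext ?_ ?_
        · rw [Tw.fst_mk, map_one, map_one]
        · rw [Tw.snd_mk, Tw.snd_one, h1]
      map_mul' := fun a b => by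
        refine Tw.ext ?_ ?_
        · rw [map_mul Tw.fst, Tw.fst_mk, Tw.fst_mk, Tw.fst_mk, map_mul]
        · rw [Tw.snd_mul, Tw.fst_mk, Tw.fst_mk, Tw.snd_mk, Tw.snd_mk, Tw.snd_mk, hmul]
      map_zero' := by
        refine Tw.ext ?_ ?_
        · rw [Tw.fst_mk, map_zero, map_zero]
        · rw [Tw.snd_mk, map_zero, h0]
      map_add' := fun a b => by
        refine Tw.ext ?_ ?_
        · rw [map_add Tw.fst, Tw.fst_mk, Tw.fst_mk, Tw.fst_mk, map_add]
        · rw [map_add Tw.snd, Tw.snd_mk, Tw.snd_mk, Tw.snd_mk, hadd] }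
  obtain ⟨D, hD⟩ := exists_lift φ (fun r => Tw.fst_mk _ _)
  exact ⟨D, fun c => (hD c).trans (Tw.snd_mk _ _)⟩

/-- the same with a function as the result -/
theorem exists_lift_fun {R A : Type*} [CommRing R] [CommRing A] [Algebra R A]
    [Algebra.FormallySmooth R A] (δ : R → A) (hadd : ∀ a b, δ (a + b) = δ a + δ b)
    (hmul : ∀ a b, δ (a * b) = algebraMap R A a * δ b + algebraMap R A b * δ a) :
    ∃ D : A → A, (∀ a b, D (a + b) = D a + D b) ∧ (∀ a b, D (a * b) = a * D b + b * D a) ∧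
      ∀ r, D (algebraMap R A r) = δ r := by
  obtain ⟨D, hD⟩ := exists_lift_der δ hadd hmul
  exact ⟨D, map_add D, fun a b => D.leibniz a b, hD⟩

/-- the lift of a derivation of the constants to a smooth chart, as a derivation of the function
field -/
theorem exists_chart_lift (k : Type) [Field k] [Algebra k ℂ] {K : Type} [Field K]
    [Algebra ℂ K] [Algebra k K] [IsScalarTower k ℂ K] (A : Subalgebra ℂ K)
    (hfrac : IsFractionRing A K) (hsm : Algebra.FormallySmooth ℂ A) (δ : Derivation k ℂ ℂ) :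
    ∃ D : Derivation k K K,
      (∀ z, D (algebraMap ℂ K z) = algebraMap ℂ K (δ z)) ∧ ∀ a ∈ A, D a ∈ A := by
  obtain ⟨D₁, hD₁⟩ := exists_lift_der (R := ℂ) (A := A) (fun c => algebraMap ℂ A (δ c))
    (fun a b => by rw [map_add, map_add]) (fun a b => by
      rw [Derivation.leibniz, smul_eq_mul, smul_eq_mul, map_add, map_mul, map_mul])
  have h2 : Algebra.FormallySmooth A K := .of_isLocalization (nonZeroDivisors A)
  obtain ⟨D₂, hD₂⟩ := exists_lift_der (R := A) (A := K) (fun a => algebraMap A K (D₁ a))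
    (fun a b => by rw [map_add, map_add]) (fun a b => by
      rw [Derivation.leibniz, smul_eq_mul, smul_eq_mul, map_add, map_mul, map_mul])
  have hC : ∀ z, D₂ (algebraMap ℂ K z) = algebraMap ℂ K (δ z) := by
    intro z
    rw [IsScalarTower.algebraMap_apply ℂ A K, hD₂, hD₁, ← IsScalarTower.algebraMap_apply]
  have hk : ∀ z : k, D₂ (algebraMap k K z) = 0 := by
    intro z
    rw [IsScalarTower.algebraMap_apply k ℂ K, hC, δ.map_algebraMap, map_zero]
  refine ⟨Derivation.mk' { toFun := D₂, map_add' := map_add D₂, map_smul' := fun c x => ?_ } ?_,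
    hC, fun a ha => ?_⟩
  · rw [Algebra.smul_def, Derivation.leibniz, hk, smul_zero, add_zero, smul_eq_mul,
      RingHom.id_apply, Algebra.smul_def]
  · intro a b
    exact D₂.leibniz a b
  · have h3 := hD₂ ⟨a, ha⟩
    show D₂ a ∈ A
    have h4 : algebraMap A K ⟨a, ha⟩ = a := rfl
    rw [h4] at h3
    rw [h3]
    exact (D₁ ⟨a, ha⟩).2

/-- the cover of a surface by charts -/
noncomputable def surfCover {K : Type} [Field K] [Algebra ℂ K] {ι : Type}
    (A : ι → Subalgebra ℂ K) (u : ι → Kˣ) : Cover (formsBiDer K) ι where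
  A := A
  A₂ i j := A i ⊔ A j
  hA i j := le_sup_left
  ω i := (reg (formsBiDer K) (A i)).toAddSubgroup
  ω₂ i j := (reg (formsBiDer K) (A i ⊔ A j)).toAddSubgroup
  hω i a ha η hη := (reg (formsBiDer K) (A i)).smul_mem (⟨a, ha⟩ : A i) hη
  hω₂ i j a ha η hη :=
    (reg (formsBiDer K) (A i ⊔ A j)).smul_mem (⟨a, ha⟩ : (A i ⊔ A j : Subalgebra ℂ K)) hη
  hωl i j η hη := reg_mono (formsBiDer K) le_sup_left hη
  hωr i j η hη := reg_mono (formsBiDer K) le_sup_right hη
  hκ i a ha b hb := Submodule.subset_span ⟨a, ha, b, hb, rfl⟩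
  u := u

/-- **The points on the closure of a surface with `H⁰ (ω) = 0` and `H¹ (ω ⊗ L⁻⁴) = 0` are not
generic.** -/
theorem surface_not_indep (k : Type) [Field k] [CharZero k] [Algebra k ℂ]
    {F : MvPolynomial (Fin 6) ℂ} (hFh : F.IsHomogeneous 5) (hFs : Smooth F)
    (F₀ : MvPolynomial (Fin 6) k) (hF₀ : F = map (algebraMap k ℂ) F₀)
    {K : Type} [Field K] [Algebra ℂ K] {ι : Type} (A : ι → Subalgebra ℂ K) (u : ι → Kˣ)
    (hfrac : ∀ i, IsFractionRing (A i) K) (hsm : ∀ i, Algebra.FormallySmooth ℂ (A i))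
    (hdim : Algebra.trdeg ℂ K = 2) (x : Fin 6 → K)
    (hx : (surfCover A u).Gen x) (hF0 : aeval x F = 0)
    (hfin : ∃ i j l, x l ≠ 0 ∧ (formsBiDer K).κ (x i / x l) (x j / x l) ≠ 0)
    (H0 : ∀ η, (surfCover A u).Global 0 η → η = 0) (H1 : (surfCover A u).H1Van 4)
    (z : Fin 6 → ℂ) (hz : InClosure x z) (i : Fin 4 → Fin 6) :
    ¬ AlgebraicIndependent k (z ∘ i) := by
  let _ : Algebra k K := ((algebraMap ℂ K).comp (algebraMap k ℂ)).toAlgebra
  have _ : IsScalarTower k ℂ K := .of_algebraMap_eq' rfl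
  obtain ⟨q, r, p, hp, hne⟩ := hfin
  have hJ : J (formsBiDer K) x p q r ≠ 0 := by
    intro h0
    apply hne
    have h1 := (formsBiDer K).J_unit (Units.mk0 (x p) hp) 1 1 1 1 (x q / x p) (x r / x p)
    rw [pow_one, Units.val_mk0, mul_one, mul_div_cancel₀ _ hp, mul_div_cancel₀ _ hp] at h1
    have h2 : (formsBiDer K).J 1 1 1 (x p) (x q) (x r) = 0 := h0
    rw [h2] at h1
    have h3 := (smul_eq_zero.1 h1.symm).resolve_left (pow_ne_zero _ hp)
    simp only [BiDer.J, Nat.cast_one, one_mul, one_smul] at h3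
    rw [BiDer.one_left, BiDer.one_left, smul_zero, smul_zero, sub_zero, add_zero] at h3
    exact h3
  have hι : Nonempty ι := by
    by_contra hι
    rw [not_nonempty_iff] at hι
    exact hJ (H0 _ fun i => hι.elim i)
  obtain ⟨D₁, h1⟩ := Function.ne_iff.1 hJ
  obtain ⟨D₂, h2⟩ := Function.ne_iff.1 h1
  let ev : (Derivation ℂ K K → Derivation ℂ K K → K) →ₗ[K] K :=
    { toFun := fun f => f D₁ D₂, map_add' := fun f g => rfl, map_smul' := fun c f => rfl }
  refine not_indep k (formsBiDer K) ev x p q r h2 (fun δ D hD s => ?_) i z hz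
  exact M_lift k (noThree_of_trdeg hdim) (surfCover A u) hFh hFs F₀ hF₀ hx hF0 H0
    H1 δ D hD
    (fun i => exists_chart_lift k (A i) (hfrac i) (hsm i) δ) p q r s

end IndexOne
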