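import Pool.Agent.Work.MP_4c1522_ag.Laurent

/-!
# Toric surfaces: the minors vanish
-/

open AddMonoidAlgebra MvPolynomial

namespace DoubleSolid

variable {r : ℕ} (v : ZMod r → ℤ × ℤ)

/-- the edge `[v e, v (e + 1)]` contains the vertex `v i` -/
def Inc (e i : ZMod r) : Prop := i = e ∨ i = e + 1

/-- the cone of the chart at the vertex `v i` and of the intersection of two charts -/
def cone (i j : ZMod r) : AddSubmonoid (ℤ × ℤ) where
  carrier := {m | ∀ e, Inc e i → Inc e j → 0 ≤ det (v (e + 1) - v e) m}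
  add_mem' := by
    intro a b ha hb e h1 h2
    rw [det_add_right]
    exact add_nonneg (ha e h1 h2) (hb e h1 h2)
  zero_mem' := by
    intro e _ _
    rw [det_zero]

/-- its interior -/
def coneInt (i j : ZMod r) : Set (ℤ × ℤ) :=
  {m | ∀ e, Inc e i → Inc e j → 0 < det (v (e + 1) - v e) m}

lemma add_mem_coneInt {i j : ZMod r} {a b : ℤ × ℤ} (ha : a ∈ (cone v i j : Set (ℤ × ℤ)))
    (hb : b ∈ coneInt v i j) : a + b ∈ coneInt v i j := by
  intro e h1 h2
  rw [det_add_right]
  exact add_pos_of_nonneg_of_pos (ha e h1 h2) (hb e h1 h2)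

/-- the bracket of two functions on a chart is a section of the canonical sheaf -/
lemma bra_mem_coneInt {i j : ZMod r} (hv : ∀ e : ZMod r, v (e + 1) - v e ≠ 0) {f g : Laurent}
    (hf : f ∈ alg (cone v i j)) (hg : g ∈ alg (cone v i j)) :
    bra.κ f g ∈ supp (coneInt v i j) := by
  refine bilin_mem (S := cone v i j) (S' := cone v i j) bra.κ bra.add
    (fun f g h => bra.add_right f g h) bra.zero_left (fun h => by
      rw [bra.anti, bra.zero_left, neg_zero]) (fun m hm m' hm' c c' => ?_) hf hg
  rw [bra_single]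
  by_cases hd : det m m' = 0
  · rw [hd]
    simp only [Int.cast_zero, zero_mul, single_zero]
    exact zero_mem _
  · refine single_mem_supp _ fun e h1 h2 => ?_
    rw [det_add_right]
    have a1 := hm e h1 h2
    have a2 := hm' e h1 h2
    by_contra hc
    have b1 : det (v (e + 1) - v e) m = 0 := by linarith
    have b2 : det (v (e + 1) - v e) m' = 0 := by linarith
    apply hd
    have hne := hv e
    generalize v (e + 1) - v e = a at b1 b2 hne
    obtain ⟨s, t⟩ := a
    obtain ⟨m1, m2⟩ := m
    obtain ⟨n1, n2⟩ := m'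
    simp only [det] at b1 b2 ⊢
    have hne' : s ≠ 0 ∨ t ≠ 0 := by
      by_contra h
      push Not at h
      exact hne (Prod.ext h.1 h.2)
    rcases hne' with h | h
    · have : s * (m1 * n2 - m2 * n1) = 0 := by linear_combination m1 * b2 - n1 * b1
      exact (mul_eq_zero.1 this).resolve_left h
    · have : t * (m1 * n2 - m2 * n1) = 0 := by linear_combination m2 * b2 - n2 * b1
      exact (mul_eq_zero.1 this).resolve_left h

/-- the monomial of a vertex, as a unit -/
noncomputable def mono (m : ℤ × ℤ) : Laurentˣ where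
  val := single m 1
  inv := single (-m) 1
  val_inv := by rw [single_mul_single, add_neg_cancel, one_mul]; rfl
  inv_val := by rw [single_mul_single, neg_add_cancel, one_mul]; rfl

lemma mono_pow (m : ℤ × ℤ) (n : ℕ) : ((mono m : Laurentˣ) : Laurent) ^ n = single (n • m) 1 := by
  show (single m (1 : ℂ)) ^ n = _
  rw [single_pow, one_pow]

lemma single_smul_coeff (a m : ℤ × ℤ) (f : Laurent) :
    ((single a (1 : ℂ) : Laurent) • f).coeff (a + m) = f.coeff m := by
  rw [smul_eq_mul]
  simp

lemma single_smul_mem_iff {S : Set (ℤ × ℤ)} (a : ℤ × ℤ) (f : Laurent) :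
    (single a (1 : ℂ) : Laurent) • f ∈ supp S ↔ ∀ m, f.coeff m ≠ 0 → a + m ∈ S := by
  constructor
  · intro h m hm
    refine h _ ?_
    rwa [single_smul_coeff]
  · intro h m hm
    have h1 := single_smul_coeff a (m - a) f
    rw [add_sub_cancel] at h1
    rw [h1] at hm
    have := h _ hm
    rwa [add_sub_cancel] at this

lemma inc_det {e i : ZMod r} (h : Inc e i) :
    det (v (e + 1) - v e) (v i) = det (v (e + 1) - v e) (v e) := by
  rcases h with rfl | rfl
  · rfl
  · simp only [det, Prod.fst_sub, Prod.snd_sub]; ring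

lemma IsPolygon.edge_ne_zero {v : ZMod r → ℤ × ℤ} (hv : IsPolygon v) (e : ZMod r) :
    v (e + 1) - v e ≠ 0 := by
  intro h
  have h1 : e - 1 ≠ e := by
    intro h
    apply hv.one_ne_zero
    have : (1 : ZMod r) = e - (e - 1) := by ring
    rw [this, h, sub_self]
  have h2 : e - 1 ≠ e + 1 := by
    intro h
    apply hv.two_ne_zero
    have : (2 : ZMod r) = (e + 1) - (e - 1) := by ring
    rw [this, h, sub_self]
  have := hv.left e (e - 1) h1 h2
  rw [h] at this
  simp [det] at this

/-- `f` is a section of the `k`-th power of the line bundle of the polygon -/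
def InPoly (k : ℕ) (f : Laurent) : Prop :=
  ∀ m, f.coeff m ≠ 0 → ∀ e, 0 ≤ det (v (e + 1) - v e) (m - k • v e)

/-- the vanishing of `H¹` -/
lemma toric_H1 (hv : IsPolygon v) (k : ℕ) (hk : 0 < k) (n : ZMod r → ZMod r → Laurent)
    (hn : ∀ i j, (single (k • v i) (1 : ℂ) : Laurent) • n i j ∈ supp (coneInt v i j))
    (hc : ∀ i j l, n i j + n j l = n i l) :
    ∃ c : ZMod r → Laurent, (∀ i, (single (k • v i) (1 : ℂ) : Laurent) • c i ∈
      supp (coneInt v i i)) ∧ ∀ i j, n i j = c i - c j := by
  have := hv.neZero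
  have hk' : (0 : ℤ) < (k : ℤ) := by exact_mod_cast hk
  choose e₀ he₀ using fun m => hv.exists_le (k : ℤ) hk'.le m
  have hcoef : ∀ i j l m, (n i j).coeff m + (n j l).coeff m = (n i l).coeff m := by
    intro i j l m
    rw [← hc i j l, AddMonoidAlgebra.coeff_add, Finsupp.add_apply]
  have hself : ∀ i m, (n i i).coeff m = 0 := by
    intro i m
    have := hcoef i i i m
    simpa using this
  let c : ZMod r → Laurent := fun i => ofCoeff (Finsupp.onFinset
    (Finset.univ.biUnion fun j => (n i j).coeff.support) (fun m => (n i (e₀ m)).coeff m) (by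
      intro m hm
      exact Finset.mem_biUnion.2 ⟨e₀ m, Finset.mem_univ _, Finsupp.mem_support_iff.2 hm⟩))
  have hcc : ∀ i m, (c i).coeff m = (n i (e₀ m)).coeff m := fun i m => rfl
  refine ⟨c, fun i => ?_, fun i j => ?_⟩
  · rw [single_smul_mem_iff]
    intro m hm e hei _
    rw [hcc] at hm
    rw [det_add_right]
    have e1 : det (v (e + 1) - v e) (k • v i) = det (v (e + 1) - v e) (k • v e) := by
      rw [det_nsmul_right, det_nsmul_right, inc_det v hei]
    rw [e1, add_comm, ← det_add_right]
    by_contra hle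
    push Not at hle
    have hkz : ∀ e, (k : ℤ) • v e = k • v e := fun e => natCast_zsmul _ _
    rw [← hkz] at hle
    -- the potential
    have hN : ∀ e, det (v (e + 1) - v e) (m + (k : ℤ) • v e) ≤ 0 →
        (n (e + 1) (e₀ m)).coeff m = (n e (e₀ m)).coeff m := by
      intro e he
      have h1 : (n e (e + 1)).coeff m = 0 := by
        by_contra hne
        have h2 := (single_smul_mem_iff _ _).1 (hn e (e + 1)) m hne e (Or.inl rfl) (Or.inr rfl)
        rw [hkz, add_comm m] at he
        exact absurd h2 (not_lt.2 he)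
      have h3 := hcoef e (e + 1) (e₀ m) m
      rw [h1, zero_add] at h3
      exact h3
    have h4 : (n e (e₀ m)).coeff m = (n (e₀ m) (e₀ m)).coeff m :=
      hv.arc hk' m (fun j => (n j (e₀ m)).coeff m) hN e (e₀ m) hle (he₀ m)
    rw [hself] at h4
    rcases hei with rfl | rfl
    · exact hm h4
    · exact hm ((hN e hle).trans h4)
  · apply AddMonoidAlgebra.ext
    ext m
    rw [AddMonoidAlgebra.coeff_sub, Finsupp.sub_apply, hcc, hcc]
    rw [← hcoef i j (e₀ m) m]
    ring

/-- the maximal minors of a morphism from a toric surface to a double solid vanish -/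
theorem toric_J (hv : IsPolygon v) (β : ℕ) (F : MvPolynomial (Fin 4) ℂ)
    (hFh : F.IsHomogeneous (2 * (β + 3))) (hFs : SmoothForm F) (x : Fin 4 → Laurent)
    (w : Laurent) (hx : ∀ j, InPoly v 1 (x j)) (hw : InPoly v (β + 3) w)
    (hgen : ∀ i, ∃ a : Fin 4 → Laurent, (∀ j, a j ∈ alg (cone v i i)) ∧
      ∑ j, a j * x j = single (v i) 1)
    (hwF : w ^ 2 = aeval x F) (i j k : Fin 4) : bra.J 1 1 1 (x i) (x j) (x k) = 0 := by
  have := hv.neZero
  refine main_abs bra (fun a η h => mul_eq_zero.1 h) (fun i => alg (cone v i i))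
    (fun i j => alg (cone v i j)) ?_ ?_ (fun i => supp (coneInt v i i))
    (fun i j => supp (coneInt v i j)) ?_ ?_ ?_ ?_ ?_ (fun i => mono (v i)) ?_ β F hFh hFs x w
    ?_ ?_ hgen hwF ?_ ?_ i j k
  · intro i j f hf m hm e h1 _
    exact hf m hm e h1 h1
  · intro i j f hf m hm e _ h1
    exact hf m hm e h1 h1
  · intro i a ha η hη
    exact mul_mem_supp (fun m hm m' hm' => add_mem_coneInt v hm hm') ha hη
  · intro i j a ha η hη
    exact mul_mem_supp (fun m hm m' hm' => add_mem_coneInt v hm hm') ha hη
  · intro i j f hf m hm e h1 _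
    exact hf m hm e h1 h1
  · intro i j f hf m hm e _ h1
    exact hf m hm e h1 h1
  · intro i a ha b hb
    exact bra_mem_coneInt v hv.edge_ne_zero ha hb
  · intro i j
    show single (v i) (1 : ℂ) * single (-(v j)) (1 : ℂ) ∈ supp _
    rw [single_mul_single]
    refine single_mem_supp _ fun e h1 h2 => ?_
    rw [← sub_eq_add_neg, det_sub_right, inc_det v h1, inc_det v h2, sub_self]
  · intro i j
    show (single (-(v i)) (1 : ℂ) : Laurent) • x j ∈ supp _
    rw [single_smul_mem_iff]
    intro m hm e h1 _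
    have := hx j m hm e
    rw [one_smul, det_sub_right, ← inc_det v h1, ← det_sub_right] at this
    rwa [neg_add_eq_sub]
  · intro i
    show (single (-(v i)) (1 : ℂ) : Laurent) ^ (β + 3) * w ∈ supp _
    rw [single_pow, one_pow]
    show (single ((β + 3) • (-(v i))) (1 : ℂ) : Laurent) • w ∈ supp _
    rw [single_smul_mem_iff]
    intro m hm e h1 _
    have := hw m hm e
    rw [det_sub_right, det_nsmul_right, ← inc_det v h1, ← det_nsmul_right,
      ← det_sub_right] at this
    rwa [smul_neg, neg_add_eq_sub]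
  · intro η hη
    apply AddMonoidAlgebra.ext
    ext m
    by_contra hm
    obtain ⟨e, he⟩ := hv.exists_le 0 (le_refl _) m
    rw [zero_smul, add_zero] at he
    exact absurd (hη e m hm e (Or.inl rfl) (Or.inl rfl)) (not_lt.2 he)
  · intro n hn hc _
    have h1 : ∀ (k : ℕ) (i : ZMod r), ((mono (v i) : Laurentˣ) : Laurent) ^ k =
        single (k • v i) 1 := fun k i => mono_pow _ _
    obtain ⟨c, hc1, hc2⟩ := toric_H1 v hv (3 * β + 5) (by omega) n (fun i j => by
      rw [← h1]; exact hn i j) hc
    refine ⟨c, fun i => ?_, hc2⟩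
    rw [h1]
    exact hc1 i

end DoubleSolid
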