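import Pool.Agent.Work.MP_4c1522_ag.SurfRigid
import Pool.Agent.Work.MP_4c1522_ag.FiniteN

/-!
# Toric surfaces: no point on the closure of the image of a toric surface is generic
-/

open AddMonoidAlgebra

namespace IndexOne

open DoubleSolid

/-! ### Coefficientwise derivations -/

section Coeff

variable {k : Type} [Field k] [Algebra k ℂ] (δ : Derivation k ℂ ℂ)

/-- the derivation `δ` applied to the coefficients -/
noncomputable def dc (f : Laurent) : Laurent :=
  ofCoeff (Finsupp.mapRange δ (map_zero δ) f.coeff)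

lemma coeff_dc (f : Laurent) (m : ℤ × ℤ) : (dc δ f).coeff m = δ (f.coeff m) := rfl

lemma dc_add (f g : Laurent) : dc δ (f + g) = dc δ f + dc δ g := by
  apply AddMonoidAlgebra.ext
  ext m
  rw [coeff_add, Finsupp.add_apply, coeff_dc, coeff_dc, coeff_dc, coeff_add, Finsupp.add_apply,
    map_add]

lemma dc_zero : dc δ 0 = 0 := by
  apply AddMonoidAlgebra.ext
  ext m
  rw [coeff_dc]
  simp

lemma dc_single (m : ℤ × ℤ) (c : ℂ) : dc δ (single m c) = single m (δ c) := by
  apply AddMonoidAlgebra.ext
  ext m'
  rw [coeff_dc, coeff_single, coeff_single, Finsupp.single_apply, Finsupp.single_apply]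
  by_cases h : m = m'
  · subst h; simp
  · simp [h]

lemma dc_mul (f g : Laurent) : dc δ (f * g) = f * dc δ g + g * dc δ f := by
  refine supp_induction (p := fun f => dc δ (f * g) = f * dc δ g + g * dc δ f)
    (by simp [dc_zero]) (fun a b ha hb => ?_) (fun m _ c => ?_) (mem_supp_univ f)
  · rw [add_mul, dc_add, ha, hb, dc_add]; ring
  refine supp_induction (p := fun g => dc δ (single m c * g) = single m c * dc δ g +
    g * dc δ (single m c)) (by simp [dc_zero]) (fun a b ha hb => ?_) (fun m' _ c' => ?_)
    (mem_supp_univ g)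
  · rw [mul_add, dc_add, ha, hb, dc_add]; ring
  · rw [single_mul_single, dc_single, dc_single, dc_single, single_mul_single, single_mul_single,
      add_comm m' m, ← single_add, Derivation.leibniz, smul_eq_mul, smul_eq_mul]

lemma dc_const (c : ℂ) : dc δ (algebraMap ℂ Laurent c) = algebraMap ℂ Laurent (δ c) := by
  have h : ∀ c, algebraMap ℂ Laurent c = single 0 c := fun c => rfl
  rw [h, dc_single, h]

lemma dc_supp {S : Set (ℤ × ℤ)} {f : Laurent} (hf : f ∈ supp S) : dc δ f ∈ supp S := by
  intro m hm
  refine hf m fun h => hm ?_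
  rw [coeff_dc, h, map_zero]

/-- the same as a derivation over `k` -/
noncomputable def dcD : Derivation k Laurent Laurent :=
  Derivation.mk' { toFun := dc δ
                   map_add' := dc_add δ
                   map_smul' := fun c f => by
                    have h : ∀ f : Laurent, c • f = algebraMap ℂ Laurent (algebraMap k ℂ c) * f := by
                      intro f
                      rw [← Algebra.smul_def, algebraMap_smul]
                    rw [RingHom.id_apply, h, h, dc_mul, dc_const, δ.map_algebraMap, map_zero,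
                      mul_zero, add_zero] }
    (fun a b => by
      show dc δ (a * b) = a * dc δ b + b * dc δ a
      exact dc_mul δ a b)

end Coeff

open MvPolynomial

/-! ### The cover -/

/-- the cover of a toric surface by charts -/
noncomputable def toricCover {r : ℕ} (v : ZMod r → ℤ × ℤ) (hv : IsPolygon v) :
    Cover bra (ZMod r) where
  A i := alg (cone v i i)
  A₂ i j := alg (cone v i j)
  hA i j f hf m hm e h1 _ := hf m hm e h1 h1
  ω i := supp (coneInt v i i)
  ω₂ i j := supp (coneInt v i j)
  hω i a ha η hη := mul_mem_supp (fun m hm m' hm' => add_mem_coneInt v hm hm') ha hη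
  hω₂ i j a ha η hη := mul_mem_supp (fun m hm m' hm' => add_mem_coneInt v hm hm') ha hη
  hωl i j f hf m hm e h1 _ := hf m hm e h1 h1
  hωr i j f hf m hm e _ h1 := hf m hm e h1 h1
  hκ i a ha b hb := bra_mem_coneInt v hv.edge_ne_zero ha hb
  u i := mono (v i)

lemma toric_gen {r : ℕ} (v : ZMod r → ℤ × ℤ) (hv : IsPolygon v) (x : Fin 6 → Laurent)
    (hx : ∀ j, InPoly v 1 (x j))
    (hgen : ∀ i, ∃ a : Fin 6 → Laurent, (∀ j, a j ∈ alg (cone v i i)) ∧
      ∑ j, a j * x j = single (v i) 1) : (toricCover v hv).Gen x where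
  mem i j := by
    show (single (-(v i)) (1 : ℂ) : Laurent) • x j ∈ supp _
    rw [single_smul_mem_iff]
    intro m hm e h1 _
    have := hx j m hm e
    rw [one_smul, det_sub_right, ← inc_det v h1, ← det_sub_right] at this
    rwa [neg_add_eq_sub]
  gen := hgen

lemma toric_H0 {r : ℕ} (v : ZMod r → ℤ × ℤ) (hv : IsPolygon v) (η : Laurent)
    (hη : (toricCover v hv).Global 0 η) : η = 0 := by
  have := hv.neZero
  apply AddMonoidAlgebra.ext
  ext m
  by_contra hm
  obtain ⟨e, he⟩ := hv.exists_le 0 (le_refl _) m
  rw [zero_smul, add_zero] at he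
  have h1 := hη e
  rw [pow_zero, one_smul] at h1
  exact absurd (h1 m hm e (Or.inl rfl) (Or.inl rfl)) (not_lt.2 he)

lemma toric_H1Van {r : ℕ} (v : ZMod r → ℤ × ℤ) (hv : IsPolygon v) (N : ℕ) (hN : 0 < N) :
    (toricCover v hv).H1Van N := by
  intro n hn hc
  have h1 : ∀ (k : ℕ) (i : ZMod r), (((toricCover v hv).u i : Laurentˣ) : Laurent) ^ k =
      single (k • v i) 1 := fun k i => mono_pow _ _
  obtain ⟨c, hc1, hc2⟩ := toric_H1 v hv N hN n (fun i j => by
    rw [← h1]; exact hn i j) hc
  refine ⟨c, fun i => ?_, hc2⟩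
  rw [h1]
  exact hc1 i

/-! ### No 3-forms -/

lemma exists_comb (E : Derivation ℂ (FractionRing Laurent) (FractionRing Laurent)) :
    ∃ α β : FractionRing Laurent, ∀ a, E a =
      α * ext' (θ (AddMonoidHom.fst ℤ ℤ)) (θ_add _) (θ_mul _) a +
      β * ext' (θ (AddMonoidHom.snd ℤ ℤ)) (θ_add _) (θ_mul _) a := by
  set ι := algebraMap Laurent (FractionRing Laurent) with hι
  set θ₁ := ext' (θ (AddMonoidHom.fst ℤ ℤ)) (θ_add _) (θ_mul _) with hθ₁
  set θ₂ := ext' (θ (AddMonoidHom.snd ℤ ℤ)) (θ_add _) (θ_mul _) with hθ₂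
  -- the logarithmic derivative
  set ℓ : ℤ × ℤ → FractionRing Laurent := fun m => E (chi m) / chi m with hℓ
  have hℓadd : ∀ m n, ℓ (m + n) = ℓ m + ℓ n := by
    intro m n
    simp only [hℓ]
    rw [chi_add, Derivation.leibniz, smul_eq_mul, smul_eq_mul]
    have h1 := chi_ne_zero m
    have h2 := chi_ne_zero n
    field_simp
    ring
  let L : ℤ × ℤ →+ FractionRing Laurent := AddMonoidHom.mk' ℓ hℓadd
  set α := ℓ (1, 0) with hα
  set β := ℓ (0, 1) with hβ
  have hL : ∀ m : ℤ × ℤ, ℓ m = (m.1 : FractionRing Laurent) * α + (m.2 : FractionRing Laurent) * β := by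
    intro m
    have h1 : m = m.1 • ((1, 0) : ℤ × ℤ) + m.2 • ((0, 1) : ℤ × ℤ) := by
      ext <;> simp
    have h2 : L m = m.1 • L (1, 0) + m.2 • L (0, 1) := by
      conv_lhs => rw [h1]
      rw [map_add, map_zsmul, map_zsmul]
    rw [zsmul_eq_mul, zsmul_eq_mul] at h2
    exact h2
  have hmono : ∀ m, E (chi m) = ((m.1 : FractionRing Laurent) * α +
      (m.2 : FractionRing Laurent) * β) * chi m := by
    intro m
    rw [← hL]
    exact (div_mul_cancel₀ _ (chi_ne_zero m)).symm
  have hsingle : ∀ (m : ℤ × ℤ) (c : ℂ), (ι (single m c) : FractionRing Laurent) =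
      algebraMap ℂ (FractionRing Laurent) c * chi m := by
    intro m c
    have h2 : (single m c : Laurent) = algebraMap ℂ Laurent c * single m 1 := by
      show _ = single 0 c * single m 1
      rw [single_mul_single, zero_add, mul_one]
    rw [h2, map_mul, IsScalarTower.algebraMap_apply ℂ Laurent (FractionRing Laurent)]
    rfl
  have hLaur : ∀ f : Laurent, E (ι f) = α * θ₁ (ι f) + β * θ₂ (ι f) := by
    intro f
    refine supp_induction (p := fun f => E (ι f) = α * θ₁ (ι f) + β * θ₂ (ι f)) ?_
      (fun a b ha hb => ?_) (fun m _ c => ?_) (mem_supp_univ f)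
    · rw [map_zero, map_zero, ← map_zero ι, hθ₁, hθ₂, ext'_algebraMap, ext'_algebraMap, θ_zero,
        θ_zero, map_zero]
      ring
    · rw [map_add, map_add, ha, hb, hθ₁, hθ₂, ext'_add, ext'_add]
      ring
    · rw [hθ₁, hθ₂, hι, ext'_algebraMap, ext'_algebraMap, θ_single, θ_single, ← hι, hsingle,
        hsingle, hsingle, Derivation.leibniz, Derivation.map_algebraMap, hmono, map_mul, map_mul,
        map_intCast, map_intCast]
      simp only [smul_eq_mul, AddMonoidHom.coe_fst, AddMonoidHom.coe_snd]
      ring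
  refine ⟨α, β, fun a => ?_⟩
  obtain ⟨f, g, hg, rfl⟩ := IsFractionRing.div_surjective (A := Laurent) a
  have hg0 : ι g ≠ 0 := by
    have h1 : g ≠ 0 := nonZeroDivisors.ne_zero hg
    exact fun h => h1 ((IsFractionRing.injective Laurent (FractionRing Laurent))
      (h.trans (map_zero _).symm))
  set b := ι f / ι g with hb
  have hfb : ι f = ι g * b := by rw [hb, mul_div_cancel₀ _ hg0]
  have h1 := hLaur f
  rw [hfb, Derivation.leibniz, hθ₁, hθ₂, ext'_mul, ext'_mul, ← hθ₁, ← hθ₂, smul_eq_mul,
    smul_eq_mul, hLaur g] at h1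
  have h2 : ι g * (E b - (α * θ₁ b + β * θ₂ b)) = 0 := by linear_combination h1
  exact sub_eq_zero.1 ((mul_eq_zero.1 h2).resolve_left hg0)

lemma noThree_braF : NoThree braF := by
  intro E a b c
  obtain ⟨α, β, h⟩ := exists_comb E
  rw [h a, h b, h c]
  simp only [braF, smul_eq_mul]
  ring

/-! ### The theorem -/

/-- **The points on the closure of the image of a toric surface are not generic.** -/
theorem toric_not_indep (k : Type) [Field k] [CharZero k] [Algebra k ℂ]
    {F : MvPolynomial (Fin 6) ℂ} (hFh : F.IsHomogeneous 5) (hFs : Smooth F)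
    (F₀ : MvPolynomial (Fin 6) k) (hF₀ : F = map (algebraMap k ℂ) F₀)
    {r : ℕ} (v : ZMod r → ℤ × ℤ) (hv : IsPolygon v) (x : Fin 6 → Laurent)
    (hx : ∀ j, InPoly v 1 (x j))
    (hgen : ∀ i, ∃ a : Fin 6 → Laurent, (∀ j, a j ∈ alg (cone v i i)) ∧
      ∑ j, a j * x j = single (v i) 1)
    (hF0 : aeval x F = 0) (z : Fin 6 → ℂ)
    (hz : ∀ (d : ℕ) (H : MvPolynomial (Fin 6) ℂ), H.IsHomogeneous d → aeval x H = 0 →
      eval z H = 0) (i : Fin 4 → Fin 6) : ¬ AlgebraicIndependent k (z ∘ i) := by
  have hne := hv.neZero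
  set ι := algebraMap Laurent (FractionRing Laurent) with hι
  have hinj : Function.Injective ι := IsFractionRing.injective Laurent (FractionRing Laurent)
  have hJι : ∀ p q r, J braF (fun j => ι (x j)) p q r = ι (J bra x p q r) := fun p q r =>
    braF_J _ _ _
  have hMι : ∀ (y : Fin 6 → Laurent) p q r s, M braF (fun j => ι (x j)) (fun j => ι (y j)) p q r s =
      ι (M bra x y p q r s) := by
    intro y p q r s
    simp only [M, hJι, smul_eq_mul, map_add, map_sub, map_mul]
  obtain ⟨p, q, r', hJ⟩ : ∃ p q r', bra.J 1 1 1 (x p) (x q) (x r') ≠ 0 := by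
    by_contra hc
    push Not at hc
    exact exists_J_ne_zero_n hv x hgen hc
  have hJ' : (LinearMap.id : FractionRing Laurent →ₗ[FractionRing Laurent] FractionRing Laurent)
      (J braF (fun j => ι (x j)) p q r') ≠ 0 := by
    rw [LinearMap.id_apply, hJι]
    exact fun h => hJ (hinj (h.trans (map_zero _).symm))
  refine not_indep k braF LinearMap.id (fun j => ι (x j)) p q r' hJ' (fun δ D hD s => ?_) i z
    (fun d H hH h => hz d H hH ?_)
  · -- rigidity on the torus
    have hrig : ∀ s, M bra x (fun j => dc δ (x j)) p q r' s = 0 := by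
      intro s
      have euler : ∑ j, aeval x (pderiv j F) * x j = 0 := by
        have h := congrArg (aeval x) hFh.sum_X_mul_pderiv
        rw [map_sum, map_nsmul, hF0, smul_zero] at h
        rw [← h]
        refine Finset.sum_congr rfl fun j _ => ?_
        rw [map_mul, aeval_X, mul_comm]
      have hgenx := toric_gen v hv x hx hgen
      refine rigid (C := toricCover v hv) hFh hFs hgenx hF0 (fun _ j => dc δ (x j))
        (fun i j => ?_) (fun i => ?_) (fun i k p q r s => rfl) (toric_H0 v hv)
        (toric_H1Van v hv 4 (by norm_num)) 0 p q r' s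
      · have h1 : (((toricCover v hv).u i)⁻¹ : Laurentˣ) * dc δ (x j) =
            dc δ ((((toricCover v hv).u i)⁻¹ : Laurentˣ) * x j) := by
          rw [dc_mul]
          have h2 : dc δ ((((toricCover v hv).u i)⁻¹ : Laurentˣ) : Laurent) = 0 := by
            show dc δ (single (-(v i)) 1) = 0
            rw [dc_single, Derivation.map_one_eq_zero, single_zero]
          rw [h2, mul_zero, add_zero]
        rw [h1]
        exact dc_supp δ (hgenx.mem i j)
      · have h1 := der_aeval_map (dcD δ) x F₀ F hF₀
        rw [hF0, map_zero] at h1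
        exact h1.symm
    -- extension to the field of fractions
    have hfs : Algebra.FormallySmooth Laurent (FractionRing Laurent) :=
      .of_isLocalization (nonZeroDivisors Laurent)
    obtain ⟨D₂, hadd, hmul, hD₂⟩ := exists_lift_fun (R := Laurent) (A := FractionRing Laurent)
      (fun a => ι (dc δ a)) (fun a b => by rw [dc_add, map_add]) (fun a b => by
        rw [dc_mul, map_add, map_mul, map_mul])
    have hD₂c : ∀ c : ℂ, D₂ (algebraMap ℂ (FractionRing Laurent) c) =
        algebraMap ℂ (FractionRing Laurent) (δ c) := by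
      intro c
      rw [IsScalarTower.algebraMap_apply ℂ Laurent (FractionRing Laurent), hD₂, dc_const]
      rfl
    let E : Derivation ℂ (FractionRing Laurent) (FractionRing Laurent) := Derivation.mk'
      { toFun := fun a => D a - D₂ a
        map_add' := fun a b => by rw [map_add, hadd]; ring
        map_smul' := fun c a => by
          rw [Algebra.smul_def, Derivation.leibniz, hmul, hD, hD₂c,
            RingHom.id_apply]
          simp only [smul_eq_mul]
          rw [Algebra.smul_def]
          ring }
      (fun a b => by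
        show D (a * b) - D₂ (a * b) = a * (D b - D₂ b) + b * (D a - D₂ a)
        rw [Derivation.leibniz, hmul]
        simp only [smul_eq_mul]
        ring)
    have h1 : (fun j => D (ι (x j))) = fun j => ι (dc δ (x j)) + E (ι (x j)) := by
      funext j
      show _ = ι (dc δ (x j)) + (D (ι (x j)) - D₂ (ι (x j)))
      rw [hD₂]
      ring
    rw [h1, M_add, M_der braF noThree_braF, add_zero, hMι, hrig, map_zero]
  · apply hinj
    rw [map_zero, ← h]
    exact (aeval_algebraMap_apply (FractionRing Laurent) x H).symm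

end IndexOne
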