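import Pool.Agent.Work.MP_4c1522_ag.VeryMain2
import Pool.Agent.Work.MP_4c1522_ag.ToricRigid

/-!
# Surfaces in very general hypersurfaces of index one: use of the derivations
-/

open MvPolynomial

namespace IndexOne

open DoubleSolid

/-- the chain rule, with a derivation that also acts on the coefficients -/
lemma chain_delta {k A σ : Type*} [Fintype σ] [Field k] [Algebra k ℂ] [CommRing A]
    [Algebra ℂ A] [Algebra k A] [IsScalarTower k ℂ A] (δ : Derivation k ℂ ℂ)
    (D : Derivation k A A) (hD : ∀ z, D (algebraMap ℂ A z) = algebraMap ℂ A (δ z))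
    (x : σ → A) (F : MvPolynomial σ ℂ) :
    ∃ Φ : MvPolynomial σ ℂ, (∀ m, coeff m Φ = δ (coeff m F)) ∧
      D (aeval x F) = aeval x Φ + ∑ j, aeval x (pderiv j F) * D (x j) := by
  classical
  induction F using MvPolynomial.induction_on with
  | C a =>
    refine ⟨C (δ a), fun m => ?_, ?_⟩
    · rw [coeff_C, coeff_C]
      split_ifs
      · rfl
      · rw [map_zero]
    · simp [algebraMap_eq, hD]
  | add p q hp hq =>
    obtain ⟨Φ, h1, h2⟩ := hp
    obtain ⟨Ψ, h3, h4⟩ := hq
    refine ⟨Φ + Ψ, fun m => ?_, ?_⟩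
    · rw [coeff_add, coeff_add, h1, h3, map_add]
    · simp only [map_add, h2, h4, add_mul, Finset.sum_add_distrib]
      ring
  | mul_X p n hp =>
    obtain ⟨Φ, h1, h2⟩ := hp
    refine ⟨Φ * X n, fun m => ?_, ?_⟩
    · rw [coeff_mul_X', coeff_mul_X']
      split_ifs
      · exact h1 _
      · rw [map_zero]
    · rw [map_mul, Derivation.leibniz, h2, aeval_X, map_mul, aeval_X]
      have h : ∀ j, aeval x (pderiv j (p * X n)) * D (x j) =
          (if j = n then aeval x p * D (x j) else 0) +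
            x n * (aeval x (pderiv j p) * D (x j)) := by
        intro j
        rw [Derivation.leibniz, map_add, smul_eq_mul, smul_eq_mul, map_mul, map_mul, aeval_X,
          pderiv_X]
        by_cases hj : j = n
        · subst hj; simp; ring
        · rw [if_neg hj, Pi.single_eq_of_ne' (Ne.symm fun h => hj h.symm)]; simp; ring
      rw [Finset.sum_congr rfl fun j _ => h j, Finset.sum_add_distrib, ← Finset.mul_sum]
      simp only [smul_eq_mul, Finset.sum_ite_eq', Finset.mem_univ, if_true]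
      ring

section General

variable {K Ω : Type*} [CommRing K] [Algebra ℂ K] [AddCommGroup Ω] [Module K Ω]
  {B : BiDer K Ω} {ι : Type*} {C : Cover B ι}

/-- the gradient is a generating system of sections of the fourth power -/
theorem sys_of_smooth {F : MvPolynomial (Fin 6) ℂ} (hFh : F.IsHomogeneous 5) (hFs : Smooth F)
    {x : Fin 6 → K} (hx : C.Gen x) : C.Sys (fun l => aeval x (pderiv l F)) 4 := by
  have hloc : ∀ v, ∃ E : Fin 6 → K, (∀ l, (C.u v : K) ^ 4 * E l ∈ C.A v) ∧
      ∑ l, E l * aeval x (pderiv l F) = 1 ∧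
      (∀ l, (((C.u v)⁻¹ : Kˣ) : K) ^ 4 * aeval x (pderiv l F) ∈ C.A v) := by
    intro v
    set u := C.u v with hu
    set y : Fin 6 → K := fun j => ((u⁻¹ : Kˣ) : K) * x j with hy
    have huu : (u : K) * ((u⁻¹ : Kˣ) : K) = 1 := u.mul_inv
    have huu' : (u : K) ^ 4 * ((u⁻¹ : Kˣ) : K) ^ 4 = 1 := C.huu' v 4
    have hxy : x = fun j => (u : K) * y j := by
      funext j
      rw [hy, ← mul_assoc, huu, one_mul]
    have hG : ∀ l, aeval x (pderiv l F) = (u : K) ^ 4 * aeval y (pderiv l F) := by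
      intro l
      conv_lhs => rw [hxy]
      exact aeval_scale _ (hFh.pderiv (i := l)) _ _
    have hcoe : ∀ l, aeval y (pderiv l F) =
        ((aeval (fun j => (⟨y j, hx.mem v j⟩ : C.A v)) (pderiv l F) : C.A v) : K) := fun l =>
      (comp_aeval_apply (f := fun j => (⟨y j, hx.mem v j⟩ : C.A v)) (C.A v).val
        (pderiv l F)).symm
    obtain ⟨e, he⟩ : ∃ e : Fin 6 → C.A v,
        ∑ l, e l * aeval (fun j => (⟨y j, hx.mem v j⟩ : C.A v)) (pderiv l F) = 1 := by
      apply unit_of_smooth hFs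
      obtain ⟨a, ha, hau⟩ := hx.gen v
      refine ⟨fun j => ⟨a j, ha j⟩, ?_⟩
      apply Subtype.ext
      rw [AddSubmonoidClass.coe_finsetSum]
      show ∑ j, a j * y j = 1
      have : ∑ j, a j * y j = ((u⁻¹ : Kˣ) : K) * ∑ j, a j * x j := by
        rw [Finset.mul_sum]
        refine Finset.sum_congr rfl fun j _ => ?_
        rw [hy]; ring
      rw [this, hau, mul_comm, huu]
    have he' : ∑ l, (e l : K) * aeval y (pderiv l F) = 1 := by
      have := congrArg (fun z : C.A v => (z : K)) he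
      simp only [AddSubmonoidClass.coe_finsetSum] at this
      refine Eq.trans (Finset.sum_congr rfl fun l _ => ?_) this
      rw [MulMemClass.coe_mul, hcoe]
    refine ⟨fun l => ((u⁻¹ : Kˣ) : K) ^ 4 * e l, fun l => ?_, ?_, fun l => ?_⟩
    · rw [← mul_assoc, huu', one_mul]
      exact (e l).2
    · rw [← he']
      refine Finset.sum_congr rfl fun l _ => ?_
      rw [hG l]
      linear_combination ((e l : K) * aeval y (pderiv l F)) * huu'
    · rw [hG l, ← mul_assoc, mul_comm _ ((u : K) ^ _), huu', one_mul, hcoe]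
      exact Subtype.property _
  have h4 : ∀ v, C.up v 4 = (C.u v : K) ^ 4 := fun v => C.up_nat v 4
  have h4' : ∀ v, C.up v (-4) = (((C.u v)⁻¹ : Kˣ) : K) ^ 4 := fun v => C.up_neg_nat v 4
  refine ⟨fun i l => ?_, fun i => ?_⟩
  · rw [h4']
    obtain ⟨E, -, -, h⟩ := hloc i
    exact h l
  · obtain ⟨E, h1, h2, -⟩ := hloc i
    exact ⟨E, fun l => by rw [h4]; exact h1 l, h2⟩

/-- the solution given by a deformation -/
theorem sol_of_charts {F : MvPolynomial (Fin 6) ℂ} (hFh : F.IsHomogeneous 5)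
    {x : Fin 6 → K} (hx : C.Gen x) (hF0 : aeval x F = 0) (c : K)
    (z : ι → Fin 6 → K) (hz : ∀ i j, (((C.u i)⁻¹ : Kˣ) : K) * z i j ∈ C.A i)
    (hGz : ∀ i, ∑ j, aeval x (pderiv j F) * z i j = - c)
    (hM : ∀ i k p q r s, M B x (z i) p q r s = M B x (z k) p q r s) (i₀ : ι) :
    Sol C (fun l => aeval x (pderiv l F)) x (-4) c (N B x (z i₀)) := by
  have euler : ∑ j, aeval x (pderiv j F) * x j = 0 := by
    have h := congrArg (aeval x) hFh.sum_X_mul_pderiv
    rw [map_sum, map_nsmul, hF0, smul_zero] at h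
    rw [← h]
    refine Finset.sum_congr rfl fun j _ => ?_
    rw [map_mul, aeval_X, mul_comm]
  have chain : ∀ c, ∑ j, aeval x (pderiv j F) • B.κ (x j) c = 0 := by
    intro c
    rw [← B.aeval_left, hF0, B.zero_left]
  refine ⟨N_anti B x (z i₀), N_self B x (z i₀), fun k l v => ?_, ?_⟩
  · have hN : N B x (z v) k l = N B x (z i₀) k l := by
      fin_cases k <;> fin_cases l <;>
        simp only [N, Fin.mk_zero, Fin.mk_one, Matrix.cons_val, Fin.reduceFinMk, hM v i₀]
    have e1 : N B x (z i₀) k l = ((C.u v : K) ^ 4) • N B (fun j => (((C.u v)⁻¹ : Kˣ) : K) * x j)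
        (fun j => (((C.u v)⁻¹ : Kˣ) : K) * z v j) k l := by
      rw [← N_scale, ← hN]
      congr 1
      · funext j
        rw [← mul_assoc, C.huu, one_mul]
      · funext j
        rw [← mul_assoc, C.huu, one_mul]
    show C.up v (-4) • _ ∈ _
    rw [e1, smul_smul, show C.up v (-4) = (((C.u v)⁻¹ : Kˣ) : K) ^ 4 from C.up_neg_nat v 4,
      mul_comm, C.huu', one_smul]
    exact N_mem B (C.A v) (C.ω v) (C.hω v) (C.hκ v) (hx.mem v) (hz v) k l
  · exact relc B (contract' B _ x (z i₀) c euler (hGz i₀) chain)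

end General

/-- the coefficients of the quintic form are independent transcendental numbers, in the sense
needed: every quintic form is the image of `F` under a derivation of the constants -/
def Movable (k : Type) [Field k] [Algebra k ℂ] (F : MvPolynomial (Fin 6) ℂ) : Prop :=
  ∀ Φ : MvPolynomial (Fin 6) ℂ, Φ.IsHomogeneous 5 →
    ∃ δ : Derivation k ℂ ℂ, ∀ m, coeff m Φ = δ (coeff m F)

theorem movable_of_indep (F : MvPolynomial (Fin 6) ℂ) (hFh : F.IsHomogeneous 5)
    (hF : AlgebraicIndependent ℚ (fun m : {m : Fin 6 →₀ ℕ // m.degree = 5} => coeff m.1 F)) :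
    Movable ℚ F := by
  intro Φ hΦ
  obtain ⟨δ, hδ⟩ := exists_der_values ℚ ℂ hF (fun m => coeff m.1 Φ)
  refine ⟨δ, fun m => ?_⟩
  by_cases hm : m.degree = 5
  · exact (hδ ⟨m, hm⟩).symm
  · rw [hFh.coeff_eq_zero hm, hΦ.coeff_eq_zero hm, map_zero]

/-- **No surface with `H⁰ (ω ⊗ L⁻¹) = 0` and `H¹ (ω ⊗ L⁻³) = 0` in a very general
hypersurface.** -/
theorem surface_absent (k : Type) [Field k] [Algebra k ℂ]
    {F : MvPolynomial (Fin 6) ℂ} (hFh : F.IsHomogeneous 5) (hFs : Smooth F)
    (hmov : Movable k F)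
    {K : Type} [Field K] [Algebra ℂ K] {ι : Type} (A : ι → Subalgebra ℂ K) (u : ι → Kˣ)
    (htrans : ∀ i j, (u i : K) / (u j : K) ∈ A i ⊔ A j)
    (hfrac : ∀ i, IsFractionRing (A i) K) (hsm : ∀ i, Algebra.FormallySmooth ℂ (A i))
    (hdim : Algebra.trdeg ℂ K = 2) (x : Fin 6 → K)
    (hx : (surfCover A u).Gen x) (hF0 : aeval x F = 0)
    (hfin : ∃ i j l, x l ≠ 0 ∧ (formsBiDer K).κ (x i / x l) (x j / x l) ≠ 0)
    (H0 : ∀ η, (surfCover A u).Global 1 η → η = 0) (H1 : (surfCover A u).H1Van 3) : False := by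
  let _ : Algebra k K := ((algebraMap ℂ K).comp (algebraMap k ℂ)).toAlgebra
  have _ : IsScalarTower k ℂ K := .of_algebraMap_eq' rfl
  set C := surfCover A u with hC
  have hu1 : ∀ i, C.up i 1 = (u i : K) := fun i => C.up_one i
  have hu2 : ∀ i, C.up i (-1) = (u i : K)⁻¹ := fun i => by
    rw [C.up_neg_one]
    exact Units.val_inv_eq_inv_val _
  have hT : C.Trans := by
    refine Cover.trans_of (fun i j => ?_) (fun i j => ?_)
    · rw [hu1, hu2, ← div_eq_mul_inv]
      exact htrans i j
    · rw [hu1, hu2, mul_comm, ← div_eq_mul_inv]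
      have := htrans j i
      rwa [sup_comm] at this
  obtain ⟨q, r, p, hp, hne⟩ := hfin
  have hJ : J (formsBiDer K) x p q r ≠ 0 := by
    intro h0
    apply hne
    have h1 := (formsBiDer K).J_unit (Units.mk0 (x p) hp) 1 1 1 1 (x q / x p) (x r / x p)
    rw [pow_one, Units.val_mk0, mul_one, mul_div_cancel₀ _ hp, mul_div_cancel₀ _ hp] at h1
    have h2 : (formsBiDer K).J 1 1 1 (x p) (x q) (x r) = 0 := h0
    rw [h2] at h1
    have h3 := (smul_eq_zero.1 h1.symm).resolve_left (pow_ne_zero _ hp)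
    simp only [BiDer.J, Nat.cast_one, one_mul, one_smul] at h3
    rw [BiDer.one_left, BiDer.one_left, smul_zero, smul_zero, sub_zero, add_zero] at h3
    exact h3
  have hι : Nonempty ι := by
    by_contra hι
    rw [not_nonempty_iff] at hι
    exact hJ (H0 _ fun i => hι.elim i)
  have htf : ∀ (a : K) (η : Derivation ℂ K K → Derivation ℂ K K → K), a • η = 0 →
      a = 0 ∨ η = 0 := fun a η h => smul_eq_zero.1 h
  refine hJ (J_eq_zero_of_sol' htf hT hx (sys_of_smooth hFh hFs hx)
    (fun η hη => H0 η fun i => by rw [← C.up_nat]; exact hη i) H1.h1V (fun Φ hΦ => ?_) p q r)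
  obtain ⟨δ, hδ⟩ := hmov Φ hΦ
  have hlift := fun i => exists_chart_lift k (A i) (hfrac i) (hsm i) δ
  choose D' hD' hmem using hlift
  have euler : ∑ j, aeval x (pderiv j F) * x j = 0 := by
    have h := congrArg (aeval x) hFh.sum_X_mul_pderiv
    rw [map_sum, map_nsmul, hF0, smul_zero] at h
    rw [← h]
    refine Finset.sum_congr rfl fun j _ => ?_
    rw [map_mul, aeval_X, mul_comm]
  set z : ι → Fin 6 → K := fun i j =>
    (C.u i : K) * D' i ((((C.u i)⁻¹ : Kˣ) : K) * x j) with hz
  have hzeq : ∀ i, z i = fun j => D' i (x j) +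
      (-((((C.u i)⁻¹ : Kˣ) : K) * D' i (C.u i : K))) * x j := by
    intro i
    funext j
    have h1 : D' i (x j) = (C.u i : K) * D' i ((((C.u i)⁻¹ : Kˣ) : K) * x j) +
        ((((C.u i)⁻¹ : Kˣ) : K) * x j) * D' i (C.u i : K) := by
      have h2 : x j = (C.u i : K) * ((((C.u i)⁻¹ : Kˣ) : K) * x j) := by
        rw [← mul_assoc, C.huu, one_mul]
      conv_lhs => rw [h2]
      rw [Derivation.leibniz, smul_eq_mul, smul_eq_mul]
    rw [hz, h1]
    ring
  obtain ⟨i₀⟩ := hι
  have hMz : ∀ i p q r s, M (formsBiDer K) x (z i) p q r s =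
      M (formsBiDer K) x (fun j => D' i₀ (x j)) p q r s := by
    intro i p q r s
    rw [hzeq i, M_add, M_self, add_zero]
    let E : Derivation ℂ K K := Derivation.mk'
      { toFun := fun a => D' i a - D' i₀ a
        map_add' := fun a b => by rw [map_add, map_add]; ring
        map_smul' := fun c a => by
          rw [Algebra.smul_def, Derivation.leibniz, Derivation.leibniz, hD', hD',
            RingHom.id_apply]
          simp only [smul_eq_mul]
          rw [Algebra.smul_def]
          ring }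
      (fun a b => by
        show D' i (a * b) - D' i₀ (a * b) = a * (D' i b - D' i₀ b) + b * (D' i a - D' i₀ a)
        rw [Derivation.leibniz, Derivation.leibniz, smul_eq_mul, smul_eq_mul, smul_eq_mul,
          smul_eq_mul]
        ring)
    have h1 : (fun j => D' i (x j)) = fun j => D' i₀ (x j) + E (x j) := by
      funext j
      show _ = D' i₀ (x j) + (D' i (x j) - D' i₀ (x j))
      ring
    rw [h1, M_add, M_der _ (noThree_of_trdeg hdim), add_zero]
  refine ⟨_, sol_of_charts hFh hx hF0 (aeval x Φ) z (fun i j => ?_) (fun i => ?_)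
    (fun i k p q r s => by rw [hMz, hMz]) i₀⟩
  · have h1 : (((C.u i)⁻¹ : Kˣ) : K) * z i j = D' i ((((C.u i)⁻¹ : Kˣ) : K) * x j) := by
      rw [hz, ← mul_assoc, mul_comm _ (C.u i : K), C.huu, one_mul]
    rw [h1]
    exact hmem i _ (hx.mem i j)
  · rw [hzeq i]
    obtain ⟨Φ', h1, h2⟩ := chain_delta δ (D' i) (hD' i) x F
    have h3 : Φ' = Φ := by
      ext m
      rw [h1, hδ]
    rw [hF0, map_zero, h3] at h2
    have h4 : ∀ j, aeval x (pderiv j F) * (D' i (x j) +
        (-((((C.u i)⁻¹ : Kˣ) : K) * D' i (C.u i : K))) * x j) =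
        aeval x (pderiv j F) * D' i (x j) +
        (-((((C.u i)⁻¹ : Kˣ) : K) * D' i (C.u i : K))) * (aeval x (pderiv j F) * x j) :=
      fun j => by ring
    rw [Finset.sum_congr rfl fun j _ => h4 j, Finset.sum_add_distrib, ← Finset.mul_sum,
      euler, mul_zero, add_zero]
    linear_combination -h2

/-- **No toric surface in a very general hypersurface.** -/
theorem toric_absent (k : Type) [Field k] [Algebra k ℂ]
    {F : MvPolynomial (Fin 6) ℂ} (hFh : F.IsHomogeneous 5) (hFs : Smooth F)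
    (hmov : Movable k F)
    {r : ℕ} (v : ZMod r → ℤ × ℤ) (hv : IsPolygon v) (x : Fin 6 → Laurent)
    (hx : ∀ j, InPoly v 1 (x j))
    (hgen : ∀ i, ∃ a : Fin 6 → Laurent, (∀ j, a j ∈ alg (cone v i i)) ∧
      ∑ j, a j * x j = AddMonoidAlgebra.single (v i) 1)
    (hF0 : aeval x F = 0) : False := by
  have hne := hv.neZero
  set C := toricCover v hv with hC
  have hup : ∀ i (e : ℤ), C.up i e = AddMonoidAlgebra.single (e • v i) 1 := by
    intro i e
    obtain ⟨m, rfl | rfl⟩ := e.eq_nat_or_neg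
    · rw [C.up_nat, natCast_zsmul]
      exact mono_pow _ _
    · rw [C.up_neg_nat, neg_smul, natCast_zsmul, ← smul_neg]
      show (AddMonoidAlgebra.single (-(v i)) (1 : ℂ) : Laurent) ^ m = _
      rw [AddMonoidAlgebra.single_pow, one_pow]
  have hT : C.Trans := by
    intro i j e
    rw [hup, hup, AddMonoidAlgebra.single_mul_single, one_mul]
    refine single_mem_supp _ fun e' h1 h2 => ?_
    rw [neg_smul, ← sub_eq_add_neg, ← smul_sub, det_smul_right, det_sub_right, inc_det v h1,
      inc_det v h2, sub_self, mul_zero]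
  have hgenx := toric_gen v hv x hx hgen
  have htf : ∀ (a η : Laurent), a • η = 0 → a = 0 ∨ η = 0 := fun a η h => mul_eq_zero.1 h
  refine exists_J_ne_zero_n hv x hgen (J_eq_zero_of_sol (C := C) htf hT hgenx (toric_H0 v hv)
    (toric_H1Van v hv 1 one_pos) (sys_of_smooth hFh hFs hgenx) (fun Φ hΦ => ?_))
  obtain ⟨δ, hδ⟩ := hmov Φ hΦ
  refine ⟨_, sol_of_charts hFh hgenx hF0 (aeval x Φ) (fun _ j => dc δ (x j)) (fun i j => ?_)
    (fun i => ?_) (fun i k p q r s => rfl) 0⟩
  · have h1 : ((C.u i)⁻¹ : Laurentˣ) * dc δ (x j) =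
        dc δ (((C.u i)⁻¹ : Laurentˣ) * x j) := by
      rw [dc_mul]
      have h2 : dc δ (((C.u i)⁻¹ : Laurentˣ) : Laurent) = 0 := by
        show dc δ (AddMonoidAlgebra.single (-(v i)) 1) = 0
        rw [dc_single, Derivation.map_one_eq_zero, AddMonoidAlgebra.single_zero]
      rw [h2, mul_zero, add_zero]
    rw [h1]
    exact dc_supp δ (hgenx.mem i j)
  · obtain ⟨Φ', h1, h2⟩ := chain_delta δ (dcD δ) (fun z => dc_const δ z) x F
    have h3 : Φ' = Φ := by
      ext m
      rw [h1, hδ]
    rw [hF0, map_zero, h3] at h2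
    have h4 : ∀ j, dcD δ (x j) = dc δ (x j) := fun j => rfl
    simp only [h4] at h2
    linear_combination -h2

end IndexOne
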