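import Pool.Agent.Work.MP_4c1522_ag.VeryRel

/-!
# Surfaces in very general hypersurfaces of index one: the cohomological argument
-/

open MvPolynomial

namespace IndexOne

open DoubleSolid

variable {K Ω : Type*} [CommRing K] [Algebra ℂ K] [AddCommGroup Ω] [Module K Ω]
  {B : BiDer K Ω} {ι : Type*}

/-- a global solution of the equation `G ∧ M = ψ J` -/
structure Sol (C : Cover B ι) (G x : Fin 6 → K) (e : ℤ) (ψ : K)
    (Mf : Fin 6 → Fin 6 → Ω) : Prop where
  anti : ∀ k l, Mf k l = - Mf l k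
  self : ∀ k, Mf k k = 0
  glob : ∀ k l, C.Glob e (Mf k l)
  rel : ∀ t ∈ tab, G t.1 • Mf t.2.1 t.2.2.1 - G t.2.1 • Mf t.1 t.2.2.1 +
    G t.2.2.1 • Mf t.1 t.2.1 = ψ • J B x t.2.2.2.1 t.2.2.2.2.1 t.2.2.2.2.2

variable [Nontrivial K] [Nonempty ι] {C : Cover B ι}
  (htf : ∀ (a : K) (η : Ω), a • η = 0 → a = 0 ∨ η = 0) (hT : C.Trans)
  {x : Fin 6 → K} (hx : C.Gen x) (H0 : ∀ η, C.Global 0 η → η = 0) (H1 : C.H1Van 1)
  {G : Fin 6 → K} (hG : C.Sys G 4)

include hx in
lemma exists_x_ne_zero : ∃ m, x m ≠ 0 := by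
  obtain ⟨i₀⟩ := ‹Nonempty ι›
  by_contra hc
  push Not at hc
  obtain ⟨a, -, ha⟩ := hx.gen i₀
  rw [Finset.sum_eq_zero (fun j _ => by rw [hc j, mul_zero])] at ha
  exact (C.u i₀).ne_zero ha.symm

include htf hT hx H0 H1 hG in
/-- division by the coordinates -/
theorem Sol.step {e : ℤ} (he : -4 ≤ e) {ψ : K}
    (h : ∀ j, ∃ Mf, Sol C G x e (x j * ψ) Mf) : ∃ Mf, Sol C G x (e + 1) ψ Mf := by
  choose Mj hMj using h
  set Nf : Fin 6 → Fin 6 → Fin 6 → Fin 6 → Ω := fun j k l m =>
    x k • Mj j l m - x j • Mj k l m with hNf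
  have hNglob : ∀ j k l m, C.Glob (e - 1) (Nf j k l m) := by
    intro j k l m i
    exact (((hMj j).glob l m i).smul (hx.sys.mem i k) (by ring)).sub
      (((hMj k).glob l m i).smul (hx.sys.mem i j) (by ring))
  have hNrel : ∀ j k a b c, G a • Nf j k b c - G b • Nf j k a c + G c • Nf j k a b = 0 := by
    intro j k
    refine rel_of_tab (fun l m => ?_) (fun l => ?_) (fun t ht => ?_)
    · simp only [hNf]
      rw [(hMj j).anti l m, (hMj k).anti l m]
      module
    · simp only [hNf]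
      rw [(hMj j).self l, (hMj k).self l]
      module
    · have h1 := (hMj j).rel t ht
      have h2 := (hMj k).rel t ht
      simp only [hNf]
      linear_combination (norm := module) x k • h1 - x j • h2
  have htwo : ∀ j k, ∃ μ : Fin 6 → Ω, (∀ m, C.Glob (e + 3) (μ m)) ∧
      ∀ l m, Nf j k l m = G l • μ m - G m • μ l := by
    intro j k
    exact hG.two hT (e := e - 1) (f := e + 3) (t := e + 7) (by ring) (by ring)
      (Cover.h1V_of htf hx H0 H1 (by omega)) (hNglob j k) (hNrel j k)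
  choose μ hμ hNμ using htwo
  have hw : ∀ i j k m, x i • μ j k m - x j • μ i k m + x k • μ i j m = 0 := by
    intro i j k
    obtain ⟨c, hc, hwc⟩ := hG.one (e := e + 2) (f := e + 6) (by ring)
      (w := fun m => x i • μ j k m - x j • μ i k m + x k • μ i j m)
      (fun m v => (((hμ j k m v).smul (hx.sys.mem v i) (by ring)).sub
        ((hμ i k m v).smul (hx.sys.mem v j) (by ring))).add
        ((hμ i j m v).smul (hx.sys.mem v k) (by ring)))
      (fun l m => by
        have h1 := hNμ j k l m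
        have h2 := hNμ i k l m
        have h3 := hNμ i j l m
        simp only [hNf] at h1 h2 h3
        linear_combination (norm := module) -(x i • h1) + x j • h2 - x k • h3)
    have hc0 : c = 0 := Cover.glob_zero htf hx H0 (by omega) hc
    intro m
    have := hwc m
    rw [hc0, smul_zero] at this
    exact this
  have hμ0 : ∀ j k m, μ j k m = 0 := by
    intro j k m
    obtain ⟨ν, hν, hμν⟩ := hx.sys.two hT (e := e + 3) (f := e + 4) (t := e + 5) (by ring)
      (by ring) (Cover.h1V_of htf hx H0 H1 (by omega)) (N := fun j k => μ j k m)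
      (fun j k => hμ j k m) (fun i j k => hw i j k m)
    have hν0 : ∀ k, ν k = 0 := fun k => Cover.glob_zero htf hx H0 (by omega) (hν k)
    have := hμν j k
    rw [hν0, hν0, smul_zero, smul_zero, sub_zero] at this
    exact this
  have hN0 : ∀ j k l m, x k • Mj j l m = x j • Mj k l m := by
    intro j k l m
    have h1 := hNμ j k l m
    rw [hμ0, hμ0, smul_zero, smul_zero, sub_zero] at h1
    exact sub_eq_zero.1 h1
  have hone : ∀ l m, ∃ c, C.Glob (e + 1) c ∧ ∀ j, Mj j l m = x j • c := by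
    intro l m
    exact hx.sys.one (e := e) (f := e + 1) rfl (w := fun j => Mj j l m)
      (fun j => (hMj j).glob l m) (fun j k => hN0 k j l m)
  choose c hc hMc using hone
  obtain ⟨p, hp⟩ := exists_x_ne_zero hx
  have hcan : ∀ η : Ω, x p • η = 0 → η = 0 := fun η h => (htf _ _ h).resolve_left hp
  refine ⟨c, fun k l => ?_, fun k => ?_, hc, fun t ht => ?_⟩
  · have h1 := (hMj p).anti k l
    rw [hMc, hMc] at h1
    have h2 : x p • (c k l + c l k) = 0 := by
      linear_combination (norm := module) h1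
    have h3 := hcan _ h2
    linear_combination (norm := module) h3
  · have h1 := (hMj p).self k
    rw [hMc] at h1
    exact hcan _ h1
  · have h1 := (hMj p).rel t ht
    rw [hMc, hMc, hMc] at h1
    have h2 : x p • (G t.1 • c t.2.1 t.2.2.1 - G t.2.1 • c t.1 t.2.2.1 +
      G t.2.2.1 • c t.1 t.2.1 - ψ • J B x t.2.2.2.1 t.2.2.2.2.1 t.2.2.2.2.2) = 0 := by
      linear_combination (norm := module) h1
    exact sub_eq_zero.1 (hcan _ h2)

include htf hT hx H0 H1 hG in
/-- **If all quintic forms are solvable then the surface is degenerate.** -/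
theorem J_eq_zero_of_sol
    (h : ∀ Ψ : MvPolynomial (Fin 6) ℂ, Ψ.IsHomogeneous 5 →
      ∃ Mf, Sol C G x (-4) (aeval x Ψ) Mf) (i j k : Fin 6) : J B x i j k = 0 := by
  have key : ∀ d : ℕ, d ≤ 5 → ∀ Ψ : MvPolynomial (Fin 6) ℂ, Ψ.IsHomogeneous (5 - d) →
      ∃ Mf, Sol C G x (-4 + (d : ℤ)) (aeval x Ψ) Mf := by
    intro d
    induction d with
    | zero =>
      intro _ Ψ hΨ
      simpa using h Ψ hΨ
    | succ d ih =>
      intro hd Ψ hΨ
      have h1 : ∀ j, ∃ Mf, Sol C G x (-4 + (d : ℤ)) (x j * aeval x Ψ) Mf := by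
        intro j
        have h2 := ih (by omega) (X j * Ψ) (by
          have := (isHomogeneous_X ℂ j).mul hΨ
          rwa [show 1 + (5 - (d + 1)) = 5 - d by omega] at this)
        rwa [map_mul, aeval_X] at h2
      obtain ⟨Mf, hMf⟩ := Sol.step htf hT hx H0 H1 hG (by omega) h1
      refine ⟨Mf, ?_⟩
      have h3 : (-4 + ((d + 1 : ℕ) : ℤ)) = -4 + (d : ℤ) + 1 := by push_cast; ring
      rw [h3]
      exact hMf
  obtain ⟨Mf, hMf⟩ := key 5 le_rfl 1 (isHomogeneous_one _ _)
  have hM0 : ∀ k l, Mf k l = 0 := fun k l =>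
    Cover.glob_zero htf hx H0 (by norm_num) (hMf.glob k l)
  refine J_eq_zero_of_tab B (fun t ht => ?_) i j k
  have h1 := hMf.rel t ht
  rw [hM0, hM0, hM0, map_one, one_smul] at h1
  rw [← h1]
  module

end IndexOne
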