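import Pool.Agent.Work.MP_4c1522_ag.Kos2

/-!
# Surfaces in very general hypersurfaces of index one, with weaker hypotheses
-/

open MvPolynomial

namespace IndexOne

open DoubleSolid

variable {K Ω : Type*} [CommRing K] [Algebra ℂ K] [AddCommGroup Ω] [Module K Ω]
  {B : BiDer K Ω} {ι : Type*}

/-- a solution of the equation `G ∧ M = ψ J` on the chart `v` -/
structure LSol (C : Cover B ι) (G x : Fin 6 → K) (e : ℤ) (v : ι) (ψ : K)
    (Mf : Fin 6 → Fin 6 → Ω) : Prop where
  anti : ∀ k l, Mf k l = - Mf l k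
  self : ∀ k, Mf k k = 0
  sec : ∀ k l, C.Sec e v (Mf k l)
  rel : ∀ t ∈ tab, G t.1 • Mf t.2.1 t.2.2.1 - G t.2.1 • Mf t.1 t.2.2.1 +
    G t.2.2.1 • Mf t.1 t.2.1 = ψ • J B x t.2.2.2.1 t.2.2.2.2.1 t.2.2.2.2.2

variable [Nontrivial K] [Nonempty ι] {C : Cover B ι}
  (htf : ∀ (a : K) (η : Ω), a • η = 0 → a = 0 ∨ η = 0) (hT : C.Trans)
  {x : Fin 6 → K} (hx : C.Gen x)
  {G : Fin 6 → K} (hG : C.Sys G 4)

include hx in
lemma LSol.step {e : ℤ} {v : ι} {ψ : K}
    (h : ∀ j, ∃ Mf, LSol C G x e v (x j * ψ) Mf) : ∃ Mf, LSol C G x (e + 1) v ψ Mf := by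
  choose Mj hMj using h
  obtain ⟨E, hE, hE1⟩ := hx.sys.gen v
  refine ⟨fun k l => ∑ j, E j • Mj j k l, fun k l => ?_, fun k => ?_, fun k l => ?_,
    fun t ht => ?_⟩
  · rw [← Finset.sum_neg_distrib]
    refine Finset.sum_congr rfl fun j _ => ?_
    rw [(hMj j).anti k l, smul_neg]
  · exact Finset.sum_eq_zero fun j _ => by rw [(hMj j).self k, smul_zero]
  · exact Cover.Sec.sum fun j _ => ((hMj j).sec k l).smul (hE j) rfl
  · rw [Finset.smul_sum, Finset.smul_sum, Finset.smul_sum, ← Finset.sum_sub_distrib,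
      ← Finset.sum_add_distrib]
    have h1 : ∀ j, G t.1 • E j • Mj j t.2.1 t.2.2.1 - G t.2.1 • E j • Mj j t.1 t.2.2.1 +
        G t.2.2.1 • E j • Mj j t.1 t.2.1 =
        (E j * x j) • (ψ • J B x t.2.2.2.1 t.2.2.2.2.1 t.2.2.2.2.2) := by
      intro j
      have h2 := (hMj j).rel t ht
      linear_combination (norm := module) E j • h2
    rw [Finset.sum_congr rfl fun j _ => h1 j, ← Finset.sum_smul, hE1, one_smul]

include hx in
/-- local solutions -/
lemma exists_lsol
    (h : ∀ Ψ : MvPolynomial (Fin 6) ℂ, Ψ.IsHomogeneous 5 →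
      ∃ Mf, Sol C G x (-4) (aeval x Ψ) Mf) (v : ι) : ∃ Mf, LSol C G x 1 v 1 Mf := by
  have key : ∀ d : ℕ, d ≤ 5 → ∀ Ψ : MvPolynomial (Fin 6) ℂ, Ψ.IsHomogeneous (5 - d) →
      ∃ Mf, LSol C G x (-4 + (d : ℤ)) v (aeval x Ψ) Mf := by
    intro d
    induction d with
    | zero =>
      intro _ Ψ hΨ
      obtain ⟨Mf, hMf⟩ := h Ψ hΨ
      refine ⟨Mf, hMf.anti, hMf.self, fun k l => ?_, hMf.rel⟩
      have := hMf.glob k l v
      simpa using this
    | succ d ih =>
      intro hd Ψ hΨ
      have h1 : ∀ j, ∃ Mf, LSol C G x (-4 + (d : ℤ)) v (x j * aeval x Ψ) Mf := by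
        intro j
        have h2 := ih (by omega) (X j * Ψ) (by
          have := (isHomogeneous_X ℂ j).mul hΨ
          rwa [show 1 + (5 - (d + 1)) = 5 - d by omega] at this)
        rwa [map_mul, aeval_X] at h2
      obtain ⟨Mf, hMf⟩ := LSol.step hx h1
      refine ⟨Mf, ?_⟩
      have h3 : (-4 + ((d + 1 : ℕ) : ℤ)) = -4 + (d : ℤ) + 1 := by push_cast; ring
      rw [h3]
      exact hMf
  obtain ⟨Mf, hMf⟩ := key 5 le_rfl 1 (isHomogeneous_one _ _)
  refine ⟨Mf, ?_⟩
  rw [map_one] at hMf
  exact hMf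

include htf hT hx hG in
/-- **If all quintic forms are solvable then the surface is degenerate**, if
`H⁰ (ω ⊗ L⁻¹) = 0` and `H¹ (ω ⊗ L⁻³) = 0`. -/
theorem J_eq_zero_of_sol' (H0 : ∀ η, C.Glob 1 η → η = 0) (H1 : C.H1V 3)
    (h : ∀ Ψ : MvPolynomial (Fin 6) ℂ, Ψ.IsHomogeneous 5 →
      ∃ Mf, Sol C G x (-4) (aeval x Ψ) Mf) (i j k : Fin 6) : J B x i j k = 0 := by
  choose m hm using exists_lsol (C := C) (G := G) hx h
  choose E hE hE1 using hG.gen
  have hcanG : ∀ (v : ι) (η : Ω), (∀ l, G l • η = 0) → η = 0 := by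
    intro v η hη
    have e1 : η = ∑ l, (E v l * G l) • η := by rw [← Finset.sum_smul, hE1, one_smul]
    rw [e1]
    exact Finset.sum_eq_zero fun l _ => by rw [mul_smul, hη, smul_zero]
  -- division of a vector by the gradient
  have hdiv : ∀ (v : ι) (d : Fin 6 → Ω), (∀ l l', G l • d l' = G l' • d l) →
      ∀ l', G l' • (∑ l, E v l • d l) = d l' := by
    intro v d hd l'
    have e1 : d l' = ∑ l, (E v l * G l) • d l' := by rw [← Finset.sum_smul, hE1, one_smul]
    rw [e1, Finset.smul_sum]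
    refine Finset.sum_congr rfl fun l _ => ?_
    rw [mul_smul, hd, smul_comm]
  -- division of a matrix by the gradient
  have hdiv₂ : ∀ (v : ι) (N : Fin 6 → Fin 6 → Ω),
      (∀ k l l', G k • N l l' - G l • N k l' + G l' • N k l = 0) →
      ∀ l l', N l l' = G l • (∑ k, E v k • N k l') - G l' • (∑ k, E v k • N k l) := by
    intro v N hN l l'
    have e1 : N l l' = ∑ k, (E v k * G k) • N l l' := by
      rw [← Finset.sum_smul, hE1, one_smul]
    rw [e1, Finset.smul_sum, Finset.smul_sum, ← Finset.sum_sub_distrib]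
    refine Finset.sum_congr rfl fun k _ => ?_
    linear_combination (norm := module) (E v k) • hN k l l'
  -- the vectors `n`
  set n : ι → ι → Fin 6 → Ω := fun v w l => ∑ k, E v k • (m v k l - m w k l) with hn
  have hmn : ∀ v w l l', m v l l' - m w l l' = G l • n v w l' - G l' • n v w l := by
    intro v w
    refine hdiv₂ v (fun l l' => m v l l' - m w l l') (rel_of_tab (fun l l' => ?_) (fun l => ?_)
      fun t ht => ?_)
    · rw [(hm v).anti l l', (hm w).anti l l']
      module
    · rw [(hm v).self, (hm w).self, sub_self]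
    · have h1 := (hm v).rel t ht
      have h2 := (hm w).rel t ht
      linear_combination (norm := module) h1 - h2
  have hnmem : ∀ v w l, C.Sec₂ 5 v w (n v w l) := fun v w l =>
    Cover.Sec₂.sum fun k _ =>
      (Cover.sec₂_sub hT ((hm v).sec k l) ((hm w).sec k l)).smul (hE v k) (by ring)
  -- the 2-cocycle
  set o : ι → ι → ι → Ω := fun v w t =>
    ∑ l, E v l • (n v w l + n w t l - n v t l) with ho
  have hGo : ∀ v w t l, G l • o v w t = n v w l + n w t l - n v t l := by
    intro v w t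
    refine hdiv v _ fun l l' => ?_
    have e1 := hmn v w l l'
    have e2 := hmn w t l l'
    have e3 := hmn v t l l'
    linear_combination (norm := module) -e1 - e2 + e3
  -- it is killed by all quintic forms
  have hbase : ∀ Ψ : MvPolynomial (Fin 6) ℂ, Ψ.IsHomogeneous 5 →
      C.Bound 4 fun v w t => aeval x Ψ • o v w t := by
    intro Ψ hΨ
    obtain ⟨Mf, hMf⟩ := h Ψ hΨ
    set ψ := aeval x Ψ with hψ
    have hψmem : ∀ v, C.up v (-5) * ψ ∈ C.A v := by
      intro v
      have e1 : C.up v (-5) * ψ = aeval (fun j => (((C.u v)⁻¹ : Kˣ) : K) * x j) Ψ := by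
        rw [aeval_scale Ψ hΨ, ← show C.up v (-5) = (((C.u v)⁻¹ : Kˣ) : K) ^ 5 from
          C.up_neg_nat v 5]
      rw [e1]
      have e2 : aeval (fun j => (((C.u v)⁻¹ : Kˣ) : K) * x j) Ψ =
          ((aeval (fun j => (⟨(((C.u v)⁻¹ : Kˣ) : K) * x j, hx.mem v j⟩ : C.A v)) Ψ : C.A v) : K) :=
        (comp_aeval_apply (f := fun j => (⟨(((C.u v)⁻¹ : Kˣ) : K) * x j, hx.mem v j⟩ : C.A v))
          (C.A v).val Ψ).symm
      rw [e2]
      exact Subtype.property _
    set r : ι → Fin 6 → Ω := fun v l => ∑ k, E v k • (ψ • m v k l - Mf k l) with hr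
    have hmr : ∀ v l l', ψ • m v l l' - Mf l l' = G l • r v l' - G l' • r v l := by
      intro v
      refine hdiv₂ v (fun l l' => ψ • m v l l' - Mf l l') (rel_of_tab (fun l l' => ?_)
        (fun l => ?_) fun t ht => ?_)
      · rw [(hm v).anti l l', hMf.anti l l']
        module
      · rw [(hm v).self, hMf.self, smul_zero, sub_zero]
      · have h1 := (hm v).rel t ht
        have h2 := hMf.rel t ht
        linear_combination (norm := module) ψ • h1 - h2
    have hrmem : ∀ v l, C.Sec 0 v (r v l) := fun v l =>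
      Cover.Sec.sum fun k _ => ((((hm v).sec k l).smul (f := -4) (hψmem v) (by ring)).sub
        (hMf.glob k l v)).smul (hE v k) (by ring)
    set s : ι → ι → Ω := fun v w => ∑ l, E v l • (ψ • n v w l - (r v l - r w l)) with hs
    have hGs : ∀ v w l, G l • s v w = ψ • n v w l - (r v l - r w l) := by
      intro v w
      refine hdiv v _ fun l l' => ?_
      have e1 := hmn v w l l'
      have e2 := hmr v l l'
      have e3 := hmr w l l'
      linear_combination (norm := module) -(ψ • e1) + e2 - e3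
    refine ⟨s, fun v w => Cover.Sec₂.sum fun l _ =>
      (((hnmem v w l).smul (f := 0) (hψmem v) (by ring)).sub
        (Cover.sec₂_sub hT (hrmem v l) (hrmem w l))).smul (hE v l) (by ring),
      fun v w t => ?_⟩
    refine sub_eq_zero.1 (hcanG v _ fun l => ?_)
    have e1 := hGs v w l
    have e2 := hGs w t l
    have e3 := hGs v t l
    have e4 := hGo v w t l
    linear_combination (norm := module) ψ • e4 - e1 - e2 + e3
  -- so it is a boundary
  have hkey : ∀ d : ℕ, d ≤ 5 → ∀ Ψ : MvPolynomial (Fin 6) ℂ, Ψ.IsHomogeneous (5 - d) →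
      C.Bound (4 + (d : ℤ)) fun v w t => aeval x Ψ • o v w t := by
    intro d
    induction d with
    | zero =>
      intro _ Ψ hΨ
      simpa using hbase Ψ hΨ
    | succ d ih =>
      intro hd Ψ hΨ
      have h3 : (4 + ((d + 1 : ℕ) : ℤ)) = 4 + (d : ℤ) + 1 := by push_cast; ring
      rw [h3]
      refine Cover.bound_step htf hT hx H0
        (Cover.h1V_ge htf hx H0 (by norm_num) H1 (by omega)) (by omega) fun j => ?_
      have h2 := ih (by omega) (X j * Ψ) (by
        have := (isHomogeneous_X ℂ j).mul hΨ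
        rwa [show 1 + (5 - (d + 1)) = 5 - d by omega] at this)
      rw [map_mul, aeval_X] at h2
      simpa only [mul_smul] using h2
  obtain ⟨b, hb, hbo⟩ : C.Bound 9 o := by
    have h1 := hkey 5 le_rfl 1 (isHomogeneous_one _ _)
    simpa using h1
  -- the modified cocycle
  have hcomp : ∀ l, ∃ c : ι → Ω, (∀ v, C.Sec 5 v (c v)) ∧
      ∀ v w, n v w l - G l • b v w = c v - c w := by
    intro l
    refine Cover.h1V_ge htf hx H0 (by norm_num) H1 (by norm_num : (3 : ℤ) ≤ 5)
      (fun v w => n v w l - G l • b v w) (fun v w => ?_) (fun v w t => ?_)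
    · exact (hnmem v w l).sub ((hb v w).smul (hG.mem v l) (by ring))
    · have e1 := hGo v w t l
      have e2 := hbo v w t
      rw [e2] at e1
      linear_combination (norm := module) -e1
  choose c hc hcn using hcomp
  have hglob : ∀ v l l', m v l l' - (G l • c l' v - G l' • c l v) = 0 := by
    intro v l l'
    refine H0 _ fun w => ?_
    have e1 : m v l l' - (G l • c l' v - G l' • c l v) =
        m w l l' - (G l • c l' w - G l' • c l w) := by
      have e2 := hmn v w l l'
      have e3 := hcn l v w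
      have e4 := hcn l' v w
      linear_combination (norm := module) e2 + G l • e4 - G l' • e3
    rw [e1]
    exact ((hm w).sec l l').sub (((hc l' w).smul (hG.mem w l) (by ring)).sub
      ((hc l w).smul (hG.mem w l') (by ring)))
  obtain ⟨v⟩ := ‹Nonempty ι›
  refine J_eq_zero_of_tab B (fun t ht => ?_) i j k
  have h1 := (hm v).rel t ht
  have e1 := hglob v t.2.1 t.2.2.1
  have e2 := hglob v t.1 t.2.2.1
  have e3 := hglob v t.1 t.2.1
  rw [one_smul] at h1
  linear_combination (norm := module) -h1 + G t.1 • e1 - G t.2.1 • e2 + G t.2.2.1 • e3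

end IndexOne
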