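import Pool.Agent.Work.MP_4c1522_ag.Kos

/-!
# Surfaces in very general hypersurfaces of index one: the relations
-/

open MvPolynomial

namespace IndexOne

open DoubleSolid

variable {K Ω : Type*} [CommRing K] [Algebra ℂ K] [AddCommGroup Ω] [Module K Ω]
  (B : BiDer K Ω)

/-- the contraction with a vector of equations, up to a multiple -/
lemma contract' (G x z : Fin 6 → K) (c : K) (hx : ∑ j, G j * x j = 0)
    (hz : ∑ j, G j * z j = - c)
    (hκ : ∀ c, ∑ j, G j • B.κ (x j) c = 0) (q r s : Fin 6) :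
    ∑ p, G p • M B x z p q r s = c • J B x q r s := by
  have hJ : ∀ q r, ∑ p, G p • J B x p q r = 0 := by
    intro q r
    have h1 : ∀ p, G p • J B x p q r = (G p * x p) • B.κ (x q) (x r) -
        x q • (G p • B.κ (x p) (x r)) + x r • (G p • B.κ (x p) (x q)) := by
      intro p
      rw [J_def]
      module
    rw [Finset.sum_congr rfl fun p _ => h1 p, Finset.sum_add_distrib, Finset.sum_sub_distrib,
      ← Finset.sum_smul, ← Finset.smul_sum, ← Finset.smul_sum, hκ, hκ, hx]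
    module
  have h2 : ∀ p, G p • M B x z p q r s = z s • (G p • J B x p q r) - z r • (G p • J B x p q s) +
      z q • (G p • J B x p r s) - (G p * z p) • J B x q r s := by
    intro p
    rw [M]
    module
  rw [Finset.sum_congr rfl fun p _ => h2 p, Finset.sum_sub_distrib, Finset.sum_add_distrib,
    Finset.sum_sub_distrib, ← Finset.smul_sum, ← Finset.smul_sum, ← Finset.smul_sum,
    ← Finset.sum_smul, hJ, hJ, hJ, hz]
  module

/-- the increasing triples with the complementary triples, ordered so that the permutation is even -/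
def tab : List (Fin 6 × Fin 6 × Fin 6 × Fin 6 × Fin 6 × Fin 6) :=
  [(0, 1, 2, 3, 4, 5), (0, 1, 3, 4, 2, 5), (0, 1, 4, 2, 3, 5), (0, 1, 5, 3, 2, 4), (0, 2, 3, 1, 4, 5), (0, 2, 4, 3, 1, 5), (0, 2, 5, 1, 3, 4), (0, 3, 4, 1, 2, 5), (0, 3, 5, 2, 1, 4), (0, 4, 5, 1, 2, 3), (1, 2, 3, 4, 0, 5), (1, 2, 4, 0, 3, 5), (1, 2, 5, 3, 0, 4), (1, 3, 4, 2, 0, 5), (1, 3, 5, 0, 2, 4), (1, 4, 5, 2, 0, 3), (2, 3, 4, 0, 1, 5), (2, 3, 5, 1, 0, 4), (2, 4, 5, 0, 1, 3), (3, 4, 5, 1, 0, 2)]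

lemma relc012 {G x z : Fin 6 → K} {c : K}
    (R : ∀ q r s, ∑ p, G p • M B x z p q r s = c • J B x q r s) :
    G 0 • N B x z 1 2 - G 1 • N B x z 0 2 + G 2 • N B x z 0 1 = c • J B x 3 4 5 := by
  have h := R 3 4 5
  rw [Fin.sum_univ_six, M_self₁₂ B x z 3 4 5, M_self₁₃ B x z 4 3 5, M_self₁₄ B x z 5 3 4] at h
  simp only [N, Matrix.cons_val]
  linear_combination (norm := module) h

lemma relc013 {G x z : Fin 6 → K} {c : K}
    (R : ∀ q r s, ∑ p, G p • M B x z p q r s = c • J B x q r s) :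
    G 0 • N B x z 1 3 - G 1 • N B x z 0 3 + G 3 • N B x z 0 1 = c • J B x 4 2 5 := by
  have h := R 2 4 5
  rw [Fin.sum_univ_six, M_self₁₂ B x z 2 4 5, M_ins₁ B x z 3 2 4 5, M_self₁₃ B x z 4 2 5, M_self₁₄ B x z 5 2 4] at h
  rw [J_swap₁₂ B x 4 2 5]
  simp only [N, Matrix.cons_val]
  linear_combination (norm := module) -h

lemma relc014 {G x z : Fin 6 → K} {c : K}
    (R : ∀ q r s, ∑ p, G p • M B x z p q r s = c • J B x q r s) :
    G 0 • N B x z 1 4 - G 1 • N B x z 0 4 + G 4 • N B x z 0 1 = c • J B x 2 3 5 := by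
  have h := R 2 3 5
  rw [Fin.sum_univ_six, M_self₁₂ B x z 2 3 5, M_self₁₃ B x z 3 2 5, M_ins₂ B x z 4 2 3 5, M_self₁₄ B x z 5 2 3] at h
  simp only [N, Matrix.cons_val]
  linear_combination (norm := module) h

lemma relc015 {G x z : Fin 6 → K} {c : K}
    (R : ∀ q r s, ∑ p, G p • M B x z p q r s = c • J B x q r s) :
    G 0 • N B x z 1 5 - G 1 • N B x z 0 5 + G 5 • N B x z 0 1 = c • J B x 3 2 4 := by
  have h := R 2 3 4
  rw [Fin.sum_univ_six, M_self₁₂ B x z 2 3 4, M_self₁₃ B x z 3 2 4, M_self₁₄ B x z 4 2 3, M_ins₃ B x z 5 2 3 4] at h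
  rw [J_swap₁₂ B x 3 2 4]
  simp only [N, Matrix.cons_val]
  linear_combination (norm := module) -h

lemma relc023 {G x z : Fin 6 → K} {c : K}
    (R : ∀ q r s, ∑ p, G p • M B x z p q r s = c • J B x q r s) :
    G 0 • N B x z 2 3 - G 2 • N B x z 0 3 + G 3 • N B x z 0 2 = c • J B x 1 4 5 := by
  have h := R 1 4 5
  rw [Fin.sum_univ_six, M_self₁₂ B x z 1 4 5, M_ins₁ B x z 2 1 4 5, M_ins₁ B x z 3 1 4 5, M_self₁₃ B x z 4 1 5, M_self₁₄ B x z 5 1 4] at h
  simp only [N, Matrix.cons_val]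
  linear_combination (norm := module) h

lemma relc024 {G x z : Fin 6 → K} {c : K}
    (R : ∀ q r s, ∑ p, G p • M B x z p q r s = c • J B x q r s) :
    G 0 • N B x z 2 4 - G 2 • N B x z 0 4 + G 4 • N B x z 0 2 = c • J B x 3 1 5 := by
  have h := R 1 3 5
  rw [Fin.sum_univ_six, M_self₁₂ B x z 1 3 5, M_ins₁ B x z 2 1 3 5, M_self₁₃ B x z 3 1 5, M_ins₂ B x z 4 1 3 5, M_self₁₄ B x z 5 1 3] at h
  rw [J_swap₁₂ B x 3 1 5]
  simp only [N, Matrix.cons_val]
  linear_combination (norm := module) -h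

lemma relc025 {G x z : Fin 6 → K} {c : K}
    (R : ∀ q r s, ∑ p, G p • M B x z p q r s = c • J B x q r s) :
    G 0 • N B x z 2 5 - G 2 • N B x z 0 5 + G 5 • N B x z 0 2 = c • J B x 1 3 4 := by
  have h := R 1 3 4
  rw [Fin.sum_univ_six, M_self₁₂ B x z 1 3 4, M_ins₁ B x z 2 1 3 4, M_self₁₃ B x z 3 1 4, M_self₁₄ B x z 4 1 3, M_ins₃ B x z 5 1 3 4] at h
  simp only [N, Matrix.cons_val]
  linear_combination (norm := module) h

lemma relc034 {G x z : Fin 6 → K} {c : K}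
    (R : ∀ q r s, ∑ p, G p • M B x z p q r s = c • J B x q r s) :
    G 0 • N B x z 3 4 - G 3 • N B x z 0 4 + G 4 • N B x z 0 3 = c • J B x 1 2 5 := by
  have h := R 1 2 5
  rw [Fin.sum_univ_six, M_self₁₂ B x z 1 2 5, M_self₁₃ B x z 2 1 5, M_ins₂ B x z 3 1 2 5, M_ins₂ B x z 4 1 2 5, M_self₁₄ B x z 5 1 2] at h
  simp only [N, Matrix.cons_val]
  linear_combination (norm := module) h

lemma relc035 {G x z : Fin 6 → K} {c : K}
    (R : ∀ q r s, ∑ p, G p • M B x z p q r s = c • J B x q r s) :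
    G 0 • N B x z 3 5 - G 3 • N B x z 0 5 + G 5 • N B x z 0 3 = c • J B x 2 1 4 := by
  have h := R 1 2 4
  rw [Fin.sum_univ_six, M_self₁₂ B x z 1 2 4, M_self₁₃ B x z 2 1 4, M_ins₂ B x z 3 1 2 4, M_self₁₄ B x z 4 1 2, M_ins₃ B x z 5 1 2 4] at h
  rw [J_swap₁₂ B x 2 1 4]
  simp only [N, Matrix.cons_val]
  linear_combination (norm := module) -h

lemma relc045 {G x z : Fin 6 → K} {c : K}
    (R : ∀ q r s, ∑ p, G p • M B x z p q r s = c • J B x q r s) :
    G 0 • N B x z 4 5 - G 4 • N B x z 0 5 + G 5 • N B x z 0 4 = c • J B x 1 2 3 := by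
  have h := R 1 2 3
  rw [Fin.sum_univ_six, M_self₁₂ B x z 1 2 3, M_self₁₃ B x z 2 1 3, M_self₁₄ B x z 3 1 2, M_ins₃ B x z 4 1 2 3, M_ins₃ B x z 5 1 2 3] at h
  simp only [N, Matrix.cons_val]
  linear_combination (norm := module) h

lemma relc123 {G x z : Fin 6 → K} {c : K}
    (R : ∀ q r s, ∑ p, G p • M B x z p q r s = c • J B x q r s) :
    G 1 • N B x z 2 3 - G 2 • N B x z 1 3 + G 3 • N B x z 1 2 = c • J B x 4 0 5 := by
  have h := R 0 4 5
  rw [Fin.sum_univ_six, M_self₁₂ B x z 0 4 5, M_ins₁ B x z 1 0 4 5, M_ins₁ B x z 2 0 4 5, M_ins₁ B x z 3 0 4 5, M_self₁₃ B x z 4 0 5, M_self₁₄ B x z 5 0 4] at h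
  rw [J_swap₁₂ B x 4 0 5]
  simp only [N, Matrix.cons_val]
  linear_combination (norm := module) -h

lemma relc124 {G x z : Fin 6 → K} {c : K}
    (R : ∀ q r s, ∑ p, G p • M B x z p q r s = c • J B x q r s) :
    G 1 • N B x z 2 4 - G 2 • N B x z 1 4 + G 4 • N B x z 1 2 = c • J B x 0 3 5 := by
  have h := R 0 3 5
  rw [Fin.sum_univ_six, M_self₁₂ B x z 0 3 5, M_ins₁ B x z 1 0 3 5, M_ins₁ B x z 2 0 3 5, M_self₁₃ B x z 3 0 5, M_ins₂ B x z 4 0 3 5, M_self₁₄ B x z 5 0 3] at h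
  simp only [N, Matrix.cons_val]
  linear_combination (norm := module) h

lemma relc125 {G x z : Fin 6 → K} {c : K}
    (R : ∀ q r s, ∑ p, G p • M B x z p q r s = c • J B x q r s) :
    G 1 • N B x z 2 5 - G 2 • N B x z 1 5 + G 5 • N B x z 1 2 = c • J B x 3 0 4 := by
  have h := R 0 3 4
  rw [Fin.sum_univ_six, M_self₁₂ B x z 0 3 4, M_ins₁ B x z 1 0 3 4, M_ins₁ B x z 2 0 3 4, M_self₁₃ B x z 3 0 4, M_self₁₄ B x z 4 0 3, M_ins₃ B x z 5 0 3 4] at h
  rw [J_swap₁₂ B x 3 0 4]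
  simp only [N, Matrix.cons_val]
  linear_combination (norm := module) -h

lemma relc134 {G x z : Fin 6 → K} {c : K}
    (R : ∀ q r s, ∑ p, G p • M B x z p q r s = c • J B x q r s) :
    G 1 • N B x z 3 4 - G 3 • N B x z 1 4 + G 4 • N B x z 1 3 = c • J B x 2 0 5 := by
  have h := R 0 2 5
  rw [Fin.sum_univ_six, M_self₁₂ B x z 0 2 5, M_ins₁ B x z 1 0 2 5, M_self₁₃ B x z 2 0 5, M_ins₂ B x z 3 0 2 5, M_ins₂ B x z 4 0 2 5, M_self₁₄ B x z 5 0 2] at h
  rw [J_swap₁₂ B x 2 0 5]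
  simp only [N, Matrix.cons_val]
  linear_combination (norm := module) -h

lemma relc135 {G x z : Fin 6 → K} {c : K}
    (R : ∀ q r s, ∑ p, G p • M B x z p q r s = c • J B x q r s) :
    G 1 • N B x z 3 5 - G 3 • N B x z 1 5 + G 5 • N B x z 1 3 = c • J B x 0 2 4 := by
  have h := R 0 2 4
  rw [Fin.sum_univ_six, M_self₁₂ B x z 0 2 4, M_ins₁ B x z 1 0 2 4, M_self₁₃ B x z 2 0 4, M_ins₂ B x z 3 0 2 4, M_self₁₄ B x z 4 0 2, M_ins₃ B x z 5 0 2 4] at h
  simp only [N, Matrix.cons_val]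
  linear_combination (norm := module) h

lemma relc145 {G x z : Fin 6 → K} {c : K}
    (R : ∀ q r s, ∑ p, G p • M B x z p q r s = c • J B x q r s) :
    G 1 • N B x z 4 5 - G 4 • N B x z 1 5 + G 5 • N B x z 1 4 = c • J B x 2 0 3 := by
  have h := R 0 2 3
  rw [Fin.sum_univ_six, M_self₁₂ B x z 0 2 3, M_ins₁ B x z 1 0 2 3, M_self₁₃ B x z 2 0 3, M_self₁₄ B x z 3 0 2, M_ins₃ B x z 4 0 2 3, M_ins₃ B x z 5 0 2 3] at h
  rw [J_swap₁₂ B x 2 0 3]
  simp only [N, Matrix.cons_val]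
  linear_combination (norm := module) -h

lemma relc234 {G x z : Fin 6 → K} {c : K}
    (R : ∀ q r s, ∑ p, G p • M B x z p q r s = c • J B x q r s) :
    G 2 • N B x z 3 4 - G 3 • N B x z 2 4 + G 4 • N B x z 2 3 = c • J B x 0 1 5 := by
  have h := R 0 1 5
  rw [Fin.sum_univ_six, M_self₁₂ B x z 0 1 5, M_self₁₃ B x z 1 0 5, M_ins₂ B x z 2 0 1 5, M_ins₂ B x z 3 0 1 5, M_ins₂ B x z 4 0 1 5, M_self₁₄ B x z 5 0 1] at h
  simp only [N, Matrix.cons_val]
  linear_combination (norm := module) h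

lemma relc235 {G x z : Fin 6 → K} {c : K}
    (R : ∀ q r s, ∑ p, G p • M B x z p q r s = c • J B x q r s) :
    G 2 • N B x z 3 5 - G 3 • N B x z 2 5 + G 5 • N B x z 2 3 = c • J B x 1 0 4 := by
  have h := R 0 1 4
  rw [Fin.sum_univ_six, M_self₁₂ B x z 0 1 4, M_self₁₃ B x z 1 0 4, M_ins₂ B x z 2 0 1 4, M_ins₂ B x z 3 0 1 4, M_self₁₄ B x z 4 0 1, M_ins₃ B x z 5 0 1 4] at h
  rw [J_swap₁₂ B x 1 0 4]
  simp only [N, Matrix.cons_val]
  linear_combination (norm := module) -h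

lemma relc245 {G x z : Fin 6 → K} {c : K}
    (R : ∀ q r s, ∑ p, G p • M B x z p q r s = c • J B x q r s) :
    G 2 • N B x z 4 5 - G 4 • N B x z 2 5 + G 5 • N B x z 2 4 = c • J B x 0 1 3 := by
  have h := R 0 1 3
  rw [Fin.sum_univ_six, M_self₁₂ B x z 0 1 3, M_self₁₃ B x z 1 0 3, M_ins₂ B x z 2 0 1 3, M_self₁₄ B x z 3 0 1, M_ins₃ B x z 4 0 1 3, M_ins₃ B x z 5 0 1 3] at h
  simp only [N, Matrix.cons_val]
  linear_combination (norm := module) h

lemma relc345 {G x z : Fin 6 → K} {c : K}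
    (R : ∀ q r s, ∑ p, G p • M B x z p q r s = c • J B x q r s) :
    G 3 • N B x z 4 5 - G 4 • N B x z 3 5 + G 5 • N B x z 3 4 = c • J B x 1 0 2 := by
  have h := R 0 1 2
  rw [Fin.sum_univ_six, M_self₁₂ B x z 0 1 2, M_self₁₃ B x z 1 0 2, M_self₁₄ B x z 2 0 1, M_ins₃ B x z 3 0 1 2, M_ins₃ B x z 4 0 1 2, M_ins₃ B x z 5 0 1 2] at h
  rw [J_swap₁₂ B x 1 0 2]
  simp only [N, Matrix.cons_val]
  linear_combination (norm := module) -h

lemma relc {G x z : Fin 6 → K} {c : K}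
    (R : ∀ q r s, ∑ p, G p • M B x z p q r s = c • J B x q r s) :
    ∀ t ∈ tab, G t.1 • N B x z t.2.1 t.2.2.1 - G t.2.1 • N B x z t.1 t.2.2.1 +
      G t.2.2.1 • N B x z t.1 t.2.1 = c • J B x t.2.2.2.1 t.2.2.2.2.1 t.2.2.2.2.2 :=
  List.forall_mem_cons.2 ⟨relc012 B R,
    List.forall_mem_cons.2 ⟨relc013 B R,
    List.forall_mem_cons.2 ⟨relc014 B R,
    List.forall_mem_cons.2 ⟨relc015 B R,
    List.forall_mem_cons.2 ⟨relc023 B R,
    List.forall_mem_cons.2 ⟨relc024 B R,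
    List.forall_mem_cons.2 ⟨relc025 B R,
    List.forall_mem_cons.2 ⟨relc034 B R,
    List.forall_mem_cons.2 ⟨relc035 B R,
    List.forall_mem_cons.2 ⟨relc045 B R,
    List.forall_mem_cons.2 ⟨relc123 B R,
    List.forall_mem_cons.2 ⟨relc124 B R,
    List.forall_mem_cons.2 ⟨relc125 B R,
    List.forall_mem_cons.2 ⟨relc134 B R,
    List.forall_mem_cons.2 ⟨relc135 B R,
    List.forall_mem_cons.2 ⟨relc145 B R,
    List.forall_mem_cons.2 ⟨relc234 B R,
    List.forall_mem_cons.2 ⟨relc235 B R,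
    List.forall_mem_cons.2 ⟨relc245 B R,
    List.forall_mem_cons.2 ⟨relc345 B R,
    List.forall_mem_nil _⟩⟩⟩⟩⟩⟩⟩⟩⟩⟩⟩⟩⟩⟩⟩⟩⟩⟩⟩⟩


lemma mem_tab : ∀ k l m : Fin 6, k < l → l < m →
    ∃ t ∈ tab, t.1 = k ∧ t.2.1 = l ∧ t.2.2.1 = m := by
  decide

lemma mem_tab' : ∀ q r s : Fin 6, q < r → r < s → ∃ t ∈ tab,
    (t.2.2.2.1 = q ∧ t.2.2.2.2.1 = r ∧ t.2.2.2.2.2 = s) ∨
      (t.2.2.2.1 = r ∧ t.2.2.2.2.1 = q ∧ t.2.2.2.2.2 = s) := by
  decide

/-- the relations for an antisymmetric matrix follow from the twenty relations of the table -/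
lemma rel_of_tab {G : Fin 6 → K} {Nf : Fin 6 → Fin 6 → Ω} (ha : ∀ k l, Nf k l = - Nf l k)
    (hs : ∀ k, Nf k k = 0)
    (h : ∀ t ∈ tab, G t.1 • Nf t.2.1 t.2.2.1 - G t.2.1 • Nf t.1 t.2.2.1 +
      G t.2.2.1 • Nf t.1 t.2.1 = 0) (k l m : Fin 6) :
    G k • Nf l m - G l • Nf k m + G m • Nf k l = 0 := by
  have hsorted : ∀ k l m : Fin 6, k < l → l < m →
      G k • Nf l m - G l • Nf k m + G m • Nf k l = 0 := by
    intro k l m hkl hlm
    obtain ⟨t, ht, h1, h2, h3⟩ := mem_tab k l m hkl hlm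
    have := h t ht
    rwa [h1, h2, h3] at this
  have s12 : ∀ k l m : Fin 6, G l • Nf k m - G k • Nf l m + G m • Nf l k = 0 →
      G k • Nf l m - G l • Nf k m + G m • Nf k l = 0 := by
    intro k l m h
    rw [ha k l]
    linear_combination (norm := module) -h
  have s23 : ∀ k l m : Fin 6, G k • Nf m l - G m • Nf k l + G l • Nf k m = 0 →
      G k • Nf l m - G l • Nf k m + G m • Nf k l = 0 := by
    intro k l m h
    rw [ha l m]
    linear_combination (norm := module) -h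
  have e12 : ∀ k m : Fin 6, G k • Nf k m - G k • Nf k m + G m • Nf k k = 0 := by
    intro k m
    rw [hs]
    module
  have e23 : ∀ k m : Fin 6, G k • Nf m m - G m • Nf k m + G m • Nf k m = 0 := by
    intro k m
    rw [hs]
    module
  rcases lt_trichotomy k l with hij | rfl | hij
  · rcases lt_trichotomy l m with hjk | rfl | hjk
    · exact hsorted _ _ _ hij hjk
    · exact e23 _ _
    · rcases lt_trichotomy k m with hik | rfl | hik
      · exact s23 _ _ _ (hsorted _ _ _ hik hjk)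
      · exact s23 _ _ _ (e12 _ _)
      · exact s23 _ _ _ (s12 _ _ _ (hsorted _ _ _ hik hij))
  · exact e12 _ _
  · rcases lt_trichotomy k m with hik | rfl | hik
    · exact s12 _ _ _ (hsorted _ _ _ hij hik)
    · exact s12 _ _ _ (e23 _ _)
    · rcases lt_trichotomy l m with hjk | rfl | hjk
      · exact s12 _ _ _ (s23 _ _ _ (hsorted _ _ _ hjk hik))
      · exact s12 _ _ _ (s23 _ _ _ (e12 _ _))
      · exact s12 _ _ _ (s23 _ _ _ (s12 _ _ _ (hsorted _ _ _ hjk hij)))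

/-- if the products of the table vanish, all triple products vanish -/
lemma J_eq_zero_of_tab {x : Fin 6 → K}
    (h : ∀ t ∈ tab, J B x t.2.2.2.1 t.2.2.2.2.1 t.2.2.2.2.2 = 0) (i j k : Fin 6) :
    J B x i j k = 0 := by
  have s12 : ∀ a b c, J B x b a c = 0 → J B x a b c = 0 := by
    intro a b c h
    rw [J_swap₁₂, h, neg_zero]
  have s23 : ∀ a b c, J B x a c b = 0 → J B x a b c = 0 := by
    intro a b c h
    rw [J_swap₂₃, h, neg_zero]
  have hlt : ∀ i j k : Fin 6, i < j → j < k → J B x i j k = 0 := by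
    intro i j k hij hjk
    obtain ⟨t, ht, ⟨h1, h2, h3⟩ | ⟨h1, h2, h3⟩⟩ := mem_tab' i j k hij hjk
    · have := h t ht
      rwa [h1, h2, h3] at this
    · have := h t ht
      rw [h1, h2, h3] at this
      exact s12 _ _ _ this
  rcases lt_trichotomy i j with hij | rfl | hij
  · rcases lt_trichotomy j k with hjk | rfl | hjk
    · exact hlt _ _ _ hij hjk
    · exact J_self₂₃ B x _ _
    · rcases lt_trichotomy i k with hik | rfl | hik
      · exact s23 _ _ _ (hlt _ _ _ hik hjk)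
      · exact J_self₁₃ B x _ _
      · exact s23 _ _ _ (s12 _ _ _ (hlt _ _ _ hik hij))
  · exact J_self₁₂ B x _ _
  · rcases lt_trichotomy i k with hik | rfl | hik
    · exact s12 _ _ _ (hlt _ _ _ hij hik)
    · exact J_self₁₃ B x _ _
    · rcases lt_trichotomy j k with hjk | rfl | hjk
      · exact s12 _ _ _ (s23 _ _ _ (hlt _ _ _ hjk hik))
      · exact J_self₂₃ B x _ _
      · exact s12 _ _ _ (s23 _ _ _ (s12 _ _ _ (hlt _ _ _ hjk hij)))

end IndexOne
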